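import Mathlib

set_option autoImplicit false

namespace Pool.Agent.Helper476.ACC

open Function

abbrev Cls := ∀ (X : Type), [Group X] → Prop

/-- closed under surjective images and finite subdirect products -/
def IsForm (E : ∀ (X : Type), [Group X] → Prop) : Prop :=
  (∀ (X Y : Type) [Group X] [Group Y] [Finite X], E X →
      ∀ f : X →* Y, Function.Surjective f → E Y) ∧
  (∀ (X : Type) [Group X] [Finite X] (N₁ N₂ : Subgroup X) [N₁.Normal] [N₂.Normal],
      E (X ⧸ N₁) → E (X ⧸ N₂) → E (X ⧸ (N₁ ⊓ N₂)))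

/-- formation generated by `K` -/
def gen (K : Type) [Group K] : ∀ (X : Type), [Group X] → Prop :=
  fun H _ => ∀ E : (∀ (X : Type), [Group X] → Prop), IsForm E → E K → E H

theorem gen_self (K : Type) [Group K] : gen K K := fun _ _ h => h

theorem gen_form (K : Type) [Group K] : IsForm (gen K) := by
  refine ⟨?_, ?_⟩
  · intro X Y _ _ _ hX f hf E hE hK
    exact hE.1 X Y (hX E hE hK) f hf
  · intro X _ _ N₁ N₂ _ _ h1 h2 E hE hK
    exact hE.2 X N₁ N₂ (h1 E hE hK) (h2 E hE hK)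

/-- residual of the free group of rank `m` -/
def KK (E : ∀ (X : Type), [Group X] → Prop) (m : ℕ) : Subgroup (FreeGroup (Fin m)) where
  carrier := {w | ∀ (H : Type) [Group H] [Finite H], E H →
    ∀ f : FreeGroup (Fin m) →* H, Function.Surjective f → f w = 1}
  mul_mem' := by
    intro a b ha hb H _ _ hH f hf
    rw [map_mul, ha H hH f hf, hb H hH f hf, mul_one]
  one_mem' := by
    intro H _ _ hH f hf
    exact map_one f
  inv_mem' := by
    intro a ha H _ _ hH f hf
    rw [map_inv, ha H hH f hf, inv_one]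

theorem KK_anti (E1 E2 : ∀ (X : Type), [Group X] → Prop) (m : ℕ)
    (h : ∀ (H : Type) [Group H] [Finite H], E1 H → E2 H) : KK E2 m ≤ KK E1 m := by
  intro w hw H _ _ hH f hf
  exact hw H (h H hH) f hf

theorem KK_map (E : ∀ (X : Type), [Group X] → Prop) {n m : ℕ} (σ : Fin n → Fin m)
    (hσ : Function.Surjective σ) (w : FreeGroup (Fin n)) (hw : w ∈ KK E n) :
    FreeGroup.map σ w ∈ KK E m := by
  intro H _ _ hH f hf
  have : Function.Surjective (f.comp (FreeGroup.map σ)) := by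
    intro y
    obtain ⟨x, rfl⟩ := hf y
    obtain ⟨z, rfl⟩ := FreeGroup.map_surjective hσ x
    exact ⟨z, rfl⟩
  exact hw H hH _ this

variable {G : Type} [Group G]

abbrev ev {m : ℕ} (a : Fin m → G) : FreeGroup (Fin m) →* G := FreeGroup.lift a

theorem ev_map {n m : ℕ} (σ : Fin n → Fin m) (z : Fin m → G) (w : FreeGroup (Fin n)) :
    ev z (FreeGroup.map σ w) = ev (z ∘ σ) w := by
  have : (ev z).comp (FreeGroup.map σ) = ev (z ∘ σ) := by
    apply FreeGroup.ext_hom
    intro i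
    simp
  rw [← this]; rfl

/-- forks -/
def frk [LinearOrder G] (E : ∀ (X : Type), [Group X] → Prop) (m : ℕ) (a : Fin m → G) : Set G :=
  {g | ∃ w ∈ KK E m, (∀ z : Fin m → G, toLex z < toLex a → ev z w = 1) ∧ ev a w = g}

theorem frk_anti [LinearOrder G] (E1 E2 : ∀ (X : Type), [Group X] → Prop) (m : ℕ)
    (h : ∀ (H : Type) [Group H] [Finite H], E1 H → E2 H) (a : Fin m → G) :
    frk E2 m a ⊆ frk E1 m a := by
  rintro g ⟨w, hw, h1, h2⟩
  exact ⟨w, KK_anti E1 E2 m h hw, h1, h2⟩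

theorem frk_mono [LinearOrder G] (E : ∀ (X : Type), [Group X] → Prop) {n m : ℕ}
    (a : Fin m → G) (b : Fin n → G) (σ : Fin n → Fin m) (h : Fin m → Fin n)
    (hab : b = a ∘ σ) (hσh : ∀ i, σ (h i) = i) (hmono : StrictMono h) (hle : ∀ j, h (σ j) ≤ j) :
    frk E n b ⊆ frk E m a := by
  rintro g ⟨w, hw, h1, h2⟩
  refine ⟨FreeGroup.map σ w, KK_map E σ (fun i => ⟨h i, hσh i⟩) w hw, ?_, ?_⟩
  · rintro z ⟨i, hi1, hi2⟩
    rw [ev_map]
    apply h1
    refine ⟨h i, ?_, ?_⟩
    · intro j hj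
      rw [hab]
      change z (σ j) = a (σ j)
      apply hi1
      have h3 : h (σ j) < h i := lt_of_le_of_lt (hle j) hj
      exact hmono.lt_iff_lt.1 h3
    · rw [hab]
      change z (σ (h i)) < a (σ (h i))
      rw [hσh]; exact hi2
  · rw [ev_map, ← hab]; exact h2

/-- the laws of G in m variables -/
def VV (G : Type) [Group G] (m : ℕ) : Subgroup (FreeGroup (Fin m)) := ⨅ a : Fin m → G, (ev a).ker

theorem mem_VV {m : ℕ} (w : FreeGroup (Fin m)) : w ∈ VV G m ↔ ∀ a : Fin m → G, ev a w = 1 := by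
  simp [VV, Subgroup.mem_iInf, MonoidHom.mem_ker]

theorem law_of_gen (m : ℕ) (H : Type) [Group H] (hH : gen G H) (f : FreeGroup (Fin m) →* H)
    (w : FreeGroup (Fin m)) (hw : w ∈ VV G m) : f w = 1 := by
  have key : IsForm (fun X _ => ∀ f : FreeGroup (Fin m) →* X, ∀ w ∈ VV G m, f w = 1) := by
    refine ⟨?_, ?_⟩
    · intro X Y _ _ _ hX g hg f w hw
      choose s hs using hg
      have : f = g.comp (FreeGroup.lift (fun i => s (f (FreeGroup.of i)))) := by
        apply FreeGroup.ext_hom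
        intro i
        simp [hs]
      rw [this]
      change g _ = 1
      rw [hX _ w hw, map_one]
    · intro X _ _ N₁ N₂ _ _ h1 h2 f w hw
      have e1 := h1 ((QuotientGroup.lift (N₁ ⊓ N₂) (QuotientGroup.mk' N₁)
        (fun x hx => (QuotientGroup.eq_one_iff x).2 hx.1)).comp f) w hw
      have e2 := h2 ((QuotientGroup.lift (N₁ ⊓ N₂) (QuotientGroup.mk' N₂)
        (fun x hx => (QuotientGroup.eq_one_iff x).2 hx.2)).comp f) w hw
      rw [MonoidHom.comp_apply] at e1 e2
      obtain ⟨x, hx⟩ := QuotientGroup.mk_surjective (f w)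
      rw [← hx] at e1 e2 ⊢
      change ((x : X ⧸ N₁)) = 1 at e1
      change ((x : X ⧸ N₂)) = 1 at e2
      rw [QuotientGroup.eq_one_iff] at e1 e2
      rw [QuotientGroup.eq_one_iff]
      exact ⟨e1, e2⟩
  refine hH _ key ?_ f w hw
  intro f w hw
  have : f = ev (fun i => f (FreeGroup.of i)) := by
    apply FreeGroup.ext_hom
    intro i
    simp
  rw [this]
  exact (mem_VV w).1 hw _

theorem VV_le_KK (E : ∀ (X : Type), [Group X] → Prop) (m : ℕ)
    (hE : ∀ (H : Type) [Group H] [Finite H], E H → gen G H) : VV G m ≤ KK E m := by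
  intro w hw H _ _ hH f _
  exact law_of_gen m H (hE H hH) f w hw

theorem fork_diff [LinearOrder G] [Finite G] (E1 E2 : ∀ (X : Type), [Group X] → Prop) (m : ℕ)
    (hE2 : ∀ (H : Type) [Group H] [Finite H], E2 H → gen G H)
    (h12 : ∀ (H : Type) [Group H] [Finite H], E1 H → E2 H)
    (w : FreeGroup (Fin m)) (hw1 : w ∈ KK E1 m) (hw2 : w ∉ KK E2 m) :
    ∃ a : Fin m → G, ∃ g ∈ frk E1 m a, g ∉ frk E2 m a := by
  classical
  have hfin : Finite (Lex (Fin m → G)) := inferInstanceAs (Finite (Fin m → G))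
  let S : Set (Lex (Fin m → G)) := {a | ∃ w ∈ KK E1 m, w ∉ KK E2 m ∧ ev (ofLex a) w ≠ 1 ∧
    ∀ z : Fin m → G, toLex z < a → ev z w = 1}
  -- every w not in KK E2 has a first coordinate
  have hfirst : ∀ w ∈ KK E1 m, w ∉ KK E2 m → ∃ a : Lex (Fin m → G), ev (ofLex a) w ≠ 1 ∧
      ∀ z : Fin m → G, toLex z < a → ev z w = 1 := by
    intro w _ hw2
    have h1 : w ∉ VV G m := fun h => hw2 (VV_le_KK E2 m hE2 h)
    rw [mem_VV] at h1
    push Not at h1
    obtain ⟨a, ha⟩ := h1
    let T : Set (Lex (Fin m → G)) := {a | ev (ofLex a) w ≠ 1}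
    obtain ⟨b, hb, hb2⟩ := (Set.toFinite T).exists_minimal ⟨toLex a, ha⟩
    refine ⟨b, hb, ?_⟩
    intro z hz
    by_contra hne
    exact absurd (hb2 (y := toLex z) hne hz.le) (not_le_of_gt hz)
  have hSne : S.Nonempty := by
    obtain ⟨a, ha, ha2⟩ := hfirst w hw1 hw2
    exact ⟨a, w, hw1, hw2, ha, ha2⟩
  obtain ⟨a, ⟨u, hu1, hu2, hua, hul⟩, hmax⟩ := (Set.toFinite S).exists_maximal hSne
  refine ⟨ofLex a, ev (ofLex a) u, ⟨u, hu1, hul, rfl⟩, ?_⟩
  rintro ⟨v, hv, hvl, hva⟩
  have hx1 : u * v⁻¹ ∈ KK E1 m := (KK E1 m).mul_mem hu1 ((KK E1 m).inv_mem (KK_anti E1 E2 m h12 hv))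
  have hx2 : u * v⁻¹ ∉ KK E2 m := by
    intro h
    apply hu2
    have := (KK E2 m).mul_mem h hv
    rwa [inv_mul_cancel_right] at this
  obtain ⟨b, hb1, hb2⟩ := hfirst _ hx1 hx2
  have hle : a ≤ b := by
    by_contra hlt
    rw [not_le] at hlt
    apply hb1
    rw [map_mul, map_inv, hul (ofLex b) hlt, hvl (ofLex b) hlt, inv_one, mul_one]
  have hne : a ≠ b := by
    rintro rfl
    apply hb1
    rw [map_mul, map_inv, hva, mul_inv_cancel]
  have := hmax (y := b) ⟨_, hx1, hx2, hb1, hb2⟩ hle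
  exact hne (le_antisymm hle this)

/-- the quotient by the residual lies in the formation -/
theorem mem_of_kills [Finite G] (E1 : ∀ (X : Type), [Group X] → Prop) (m : ℕ) (hform : IsForm E1)
    (hE1 : ∀ (H : Type) [Group H] [Finite H], E1 H → gen G H)
    (hne : ∃ (X : Type) (_ : Group X), Finite X ∧ E1 X)
    (H : Type) [Group H] [Finite H] (f : FreeGroup (Fin m) →* H) (hf : Function.Surjective f)
    (hkill : ∀ w ∈ KK E1 m, f w = 1) : E1 H := by
  classical
  have hVn : (VV G m).Normal := by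
    constructor
    intro n hn g
    rw [mem_VV] at hn ⊢
    intro a
    rw [map_mul, map_mul, hn a, mul_one, map_inv, mul_inv_cancel]
  let T := FreeGroup (Fin m) ⧸ VV G m
  let π : FreeGroup (Fin m) →* T := QuotientGroup.mk' (VV G m)
  have hTfin : Finite T := by
    let e : T →* ((Fin m → G) → G) := QuotientGroup.lift (VV G m)
      (MonoidHom.pi (fun a => ev a)) (by
        intro w hw
        rw [mem_VV] at hw
        ext a
        exact hw a)
    have he : Function.Injective e := by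
      rw [injective_iff_map_eq_one]
      intro t ht
      obtain ⟨w, rfl⟩ := QuotientGroup.mk_surjective t
      rw [QuotientGroup.eq_one_iff, mem_VV]
      intro a
      exact congrFun ht a
    exact Finite.of_injective e he
  have hfac : ∀ (X : Type) [Group X] [Finite X], E1 X → ∀ g : FreeGroup (Fin m) →* X,
      ∃ g' : T →* X, ∀ w, g' (π w) = g w := by
    intro X _ _ hX g
    refine ⟨QuotientGroup.lift (VV G m) g (fun w hw => law_of_gen m X (hE1 X hX) g w hw), ?_⟩
    intro w; rfl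
  let 𝒩 : Set (Subgroup T) := {N | ∃ (X : Type) (_ : Group X) (_ : Finite X), E1 X ∧
    ∃ g : T →* X, Function.Surjective g ∧ g.ker = N}
  have h𝒩ne : 𝒩.Nonempty := by
    obtain ⟨X, iX, fX, hX⟩ := hne
    refine ⟨⊤, Unit, inferInstance, inferInstance, ?_, 1, ?_, ?_⟩
    · exact hform.1 X Unit hX 1 (fun _ => ⟨1, rfl⟩)
    · intro u; exact ⟨1, rfl⟩
    · ext x; simp
  have hinf : ∀ N₁ ∈ 𝒩, ∀ N₂ ∈ 𝒩, N₁ ⊓ N₂ ∈ 𝒩 := by
    rintro _ ⟨X₁, i1, f1, hX1, g₁, hg1, rfl⟩ _ ⟨X₂, i2, f2, hX2, g₂, hg2, rfl⟩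
    refine ⟨T ⧸ (g₁.ker ⊓ g₂.ker), inferInstance, inferInstance, ?_, QuotientGroup.mk' _,
      QuotientGroup.mk'_surjective _, QuotientGroup.ker_mk' _⟩
    apply hform.2 T
    · exact hform.1 X₁ _ hX1 (QuotientGroup.quotientKerEquivOfSurjective g₁ hg1).symm.toMonoidHom
        (QuotientGroup.quotientKerEquivOfSurjective g₁ hg1).symm.surjective
    · exact hform.1 X₂ _ hX2 (QuotientGroup.quotientKerEquivOfSurjective g₂ hg2).symm.toMonoidHom
        (QuotientGroup.quotientKerEquivOfSurjective g₂ hg2).symm.surjective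
  obtain ⟨R, hR, hRmin⟩ := (Set.toFinite 𝒩).exists_minimal h𝒩ne
  have hRle : ∀ N ∈ 𝒩, R ≤ N := by
    intro N hN
    have := hRmin (hinf R hR N hN) inf_le_left
    exact this.trans inf_le_right
  obtain ⟨X, iX, fX, hX, g, hg, hgR⟩ := hR
  -- f kills VV
  have hfV : ∀ w ∈ VV G m, f w = 1 := fun w hw => hkill w (VV_le_KK E1 m hE1 hw)
  let f' : T →* H := QuotientGroup.lift (VV G m) f hfV
  have hf' : Function.Surjective f' := by
    intro y
    obtain ⟨x, rfl⟩ := hf y
    exact ⟨π x, rfl⟩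
  have hRker : R ≤ f'.ker := by
    intro t ht
    obtain ⟨w, rfl⟩ := QuotientGroup.mk_surjective t
    change f w = 1
    apply hkill
    intro Y _ _ hY k hk
    obtain ⟨k', hk'⟩ := hfac Y hY k
    have hk's : Function.Surjective k' := by
      intro y
      obtain ⟨x, rfl⟩ := hk y
      exact ⟨π x, hk' x⟩
    have h1 := hRle k'.ker ⟨Y, inferInstance, inferInstance, hY, k', hk's, rfl⟩ ht
    rw [MonoidHom.mem_ker] at h1
    rw [← hk' w]; exact h1
  have h1 : E1 (T ⧸ g.ker) :=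
    hform.1 X _ hX (QuotientGroup.quotientKerEquivOfSurjective g hg).symm.toMonoidHom
        (QuotientGroup.quotientKerEquivOfSurjective g hg).symm.surjective
  refine hform.1 _ H h1 (QuotientGroup.lift g.ker f' (by
    intro t ht
    rw [hgR] at ht
    exact hRker ht)) ?_
  intro y
  obtain ⟨x, rfl⟩ := hf' y
  exact ⟨QuotientGroup.mk x, rfl⟩

/-- the well quasi order on words -/
theorem words_wqo [Finite G] (m : ℕ → ℕ) (hm : ∀ k, 0 < m k) (a : ∀ k, Fin (m k) → G)
    (A : ℕ → Set G) : ∃ i j, i < j ∧ A i = A j ∧ ∃ (σ : Fin (m j) → Fin (m i))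
      (h : Fin (m i) → Fin (m j)), a j = a i ∘ σ ∧ (∀ x, σ (h x) = x) ∧ StrictMono h ∧
      ∀ x, h (σ x) ≤ x := by
  classical
  let Λ := G × Set G × Set G × Set G
  let enr : ∀ k, Fin (m k) → Λ := fun k j =>
    (a k j, {g | ∃ i < j, a k i = g}, Set.range (a k), A k)
  have hp : (Set.univ : Set Λ).PartiallyWellOrderedOn (fun x y => x = y) :=
    (Set.toFinite _).partiallyWellOrderedOn
  have hh := Set.PartiallyWellOrderedOn.partiallyWellOrderedOn_sublistForall₂
    (fun x y : Λ => x = y) hp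
  have := hh (fun k => ⟨List.ofFn (enr k), fun x _ => Set.mem_univ _⟩)
  obtain ⟨i, j, hij, hsub⟩ := this
  refine ⟨i, j, hij, ?_⟩
  have hsub' : List.Sublist (List.ofFn (enr i)) (List.ofFn (enr j)) := by
    have h1 : List.SublistForall₂ (fun x y : Λ => x = y) (List.ofFn (enr i)) (List.ofFn (enr j)) := hsub
    rw [List.sublistForall₂_iff] at h1
    obtain ⟨l, hl1, hl2⟩ := h1
    have : List.ofFn (enr i) = l := by
      have h2 := hl1
      rwa [List.forall₂_eq_eq_eq] at h2
    rw [this]; exact hl2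
  obtain ⟨e, he⟩ := List.sublist_iff_exists_fin_orderEmbedding_get_eq.1 hsub'
  let c1 : Fin (m i) → Fin (List.ofFn (enr i)).length := Fin.cast (List.length_ofFn).symm
  let c2 : Fin (List.ofFn (enr j)).length → Fin (m j) := Fin.cast (List.length_ofFn)
  let h : Fin (m i) → Fin (m j) := fun x => c2 (e (c1 x))
  have hmono : StrictMono h := by
    intro x y hxy
    have : e (c1 x) < e (c1 y) := e.strictMono (by exact hxy)
    exact this
  have henr : ∀ x, enr i x = enr j (h x) := by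
    intro x
    have h1 := he (c1 x)
    rw [List.get_ofFn, List.get_ofFn] at h1
    exact h1
  have hA : A i = A j := by
    have := henr ⟨0, hm i⟩
    exact congrArg (fun t : Λ => t.2.2.2) this
  have hrange : Set.range (a i) = Set.range (a j) := by
    have := henr ⟨0, hm i⟩
    exact congrArg (fun t : Λ => t.2.2.1) this
  have hlet : ∀ x, a i x = a j (h x) := fun x => congrArg (fun t : Λ => t.1) (henr x)
  have hpre : ∀ x, {g | ∃ i' < x, a i i' = g} = {g | ∃ i' < h x, a j i' = g} :=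
    fun x => congrArg (fun t : Λ => t.2.1) (henr x)
  have hex : ∀ y : Fin (m j), ∃ x : Fin (m i), a j y = a i x ∧ h x ≤ y ∧
      ∀ x', h x' = y → x' = x := by
    intro y
    by_cases hy : ∃ x, h x = y
    · obtain ⟨x, rfl⟩ := hy
      exact ⟨x, (hlet x).symm, le_refl _, fun x' hx' => hmono.injective hx'⟩
    · have hno : ∀ x x' : Fin (m i), h x' = y → x' = x := fun x x' hx' => absurd ⟨x', hx'⟩ hy
      by_cases hbig : ∃ x, y < h x
      · -- least such
        let Sx : Set (Fin (m i)) := {x | y < h x}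
        obtain ⟨x0, hx0, hx0min⟩ := (Set.toFinite Sx).exists_minimal hbig
        have h1 : a j y ∈ {g | ∃ i' < h x0, a j i' = g} := ⟨y, hx0, rfl⟩
        rw [← hpre x0] at h1
        obtain ⟨x1, hx1, hx1e⟩ := h1
        refine ⟨x1, hx1e.symm, ?_, hno x1⟩
        by_contra hlt
        rw [not_le] at hlt
        exact absurd (hx0min (y := x1) hlt hx1.le) (not_le_of_gt hx1)
      · push Not at hbig
        have : a j y ∈ Set.range (a i) := by rw [hrange]; exact ⟨y, rfl⟩
        obtain ⟨x1, hx1⟩ := this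
        exact ⟨x1, hx1.symm, hbig x1, hno x1⟩
  choose σ hσ1 hσ2 hσ3 using hex
  refine ⟨hA, σ, h, funext hσ1, ?_, hmono, hσ2⟩
  intro x
  exact (hσ3 (h x) x rfl).symm

end Pool.Agent.Helper476.ACC
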