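import Pool.Agent.Helper476.D1

set_option autoImplicit false
set_option linter.style.haveILetI false

namespace Pool.Agent.Helper476.C

open Function
open scoped commutatorElement

variable {G0 : Type} [Group G0]

structure Hyp (L : Subgroup G0) (z : G0) : Prop where
  fin : Finite G0
  zL : z ∈ L
  z1 : z ≠ 1
  z2 : z * z = 1
  zc : ∀ g : G0, g * z = z * g
  idx : ∀ a b : G0, a * b ∈ L ↔ (a ∈ L ↔ b ∈ L)
  ne : L ≠ ⊤
  n1 : ∀ N : Subgroup G0, N.Normal → N = ⊥ ∨ N = Subgroup.zpowers z ∨ N = L ∨ N = ⊤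
  n2 : ∀ N : Subgroup G0, N ≤ L → (∀ l ∈ L, ∀ n ∈ N, l * n * l⁻¹ ∈ N) →
    N = ⊥ ∨ N = Subgroup.zpowers z ∨ N = L
  perf : ⁅L, L⁆ = L
  inv : ∀ y ∈ L, y * y = 1 → y = 1 ∨ y = z
  x : ∃ x ∈ L, x * x = z

variable {L : Subgroup G0} {z : G0}

theorem Hyp.normal (h : Hyp L z) : L.Normal := by
  constructor
  intro n hn g
  rw [h.idx, h.idx]
  constructor
  · intro h1
    exact L.inv_mem (h1.2 hn)
  · intro h1
    have h2 := L.inv_mem h1
    rw [inv_inv] at h2
    exact ⟨fun _ => hn, fun _ => h2⟩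

theorem Hyp.mem_zp (h : Hyp L z) {g : G0} (hg : g ∈ Subgroup.zpowers z) : g = 1 ∨ g = z := by
  obtain ⟨k, rfl⟩ := Subgroup.mem_zpowers_iff.1 hg
  have h2 : z ^ (2 : ℤ) = 1 := by rw [zpow_ofNat, pow_two]; exact h.z2
  rcases Int.even_or_odd k with ⟨m, rfl⟩ | ⟨m, rfl⟩
  · left
    rw [← two_mul, zpow_mul, h2, one_zpow]
  · right
    rw [zpow_add, zpow_mul, h2, one_zpow, one_mul, zpow_one]

theorem Hyp.zp_le (h : Hyp L z) : Subgroup.zpowers z ≤ L := by
  rw [Subgroup.zpowers_le]; exact h.zL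

theorem Hyp.zp_normal (h : Hyp L z) : (Subgroup.zpowers z).Normal := by
  constructor
  intro n hn g
  rcases h.mem_zp hn with rfl | rfl
  · simp
  · rw [h.zc, mul_inv_cancel_right]; exact hn

/-- subgroups of normal subgroups of `G0` normalised by them are normal -/
theorem Hyp.trans (h : Hyp L z) (M N : Subgroup G0) (hM : M.Normal) (hNM : N ≤ M)
    (hN : ∀ m ∈ M, ∀ n ∈ N, m * n * m⁻¹ ∈ N) : N.Normal := by
  rcases h.n1 M hM with rfl | rfl | rfl | rfl
  · rw [le_bot_iff.1 hNM]; infer_instance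
  · constructor
    intro n hn g
    rcases h.mem_zp (hNM hn) with rfl | rfl
    · simp
    · rw [h.zc, mul_inv_cancel_right]; exact hn
  · rcases h.n2 N hNM hN with rfl | rfl | rfl
    · infer_instance
    · exact h.zp_normal
    · exact hM
  · exact ⟨fun n hn g => hN g (Subgroup.mem_top g) n hn⟩

/-- the classes -/
def FF (L : Subgroup G0) (z : G0) (n : ℕ) : ∀ (H : Type) [Group H], Prop := fun H _ =>
  ∃ (I R : Type) (_ : Finite I) (_ : Group R) (π : I → (R →* G0)) (f : R →* H),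
    Surjective f ∧ (∀ i, (π i).range.Normal) ∧ (∀ r, (∀ i, π i r = 1) → f r = 1) ∧
    ∀ (v : Fin n → R) (w : R), (∀ i, (∀ j, π i (v j) ∉ L) → π i w = z) →
      (∀ i, (∃ j, π i (v j) ∈ L) → π i w = 1) → f w = 1

theorem FF_finite (h : Hyp L z) (n : ℕ) (H : Type) [Group H] (hH : FF L z n H) : Finite H := by
  obtain ⟨I, R, _, _, π, f, hf, h1, h2, h3⟩ := hH
  haveI := h.fin
  let r : R →* (I → G0) := MonoidHom.pi π
  haveI : Finite (R ⧸ r.ker) := Finite.of_equiv _ (QuotientGroup.quotientKerEquivRange r).symm.toEquiv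
  refine Finite.of_surjective (QuotientGroup.lift r.ker f ?_) ?_
  · intro t ht
    exact h2 t (fun i => congrFun ht i)
  · intro y
    obtain ⟨x, rfl⟩ := hf y
    exact ⟨QuotientGroup.mk x, rfl⟩

theorem FF_surj (n : ℕ) (H K : Type) [Group H] [Group K] (g : H →* K) (hg : Surjective g)
    (hH : FF L z n H) : FF L z n K := by
  obtain ⟨I, R, _, _, π, f, hf, h1, h2, h3⟩ := hH
  refine ⟨I, R, inferInstance, inferInstance, π, g.comp f, hg.comp hf, h1, ?_, ?_⟩
  · intro r hr
    rw [MonoidHom.comp_apply, h2 r hr, map_one]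
  · intro v w hw1 hw2
    rw [MonoidHom.comp_apply, h3 v w hw1 hw2, map_one]

theorem FF_r0 (n : ℕ) (H : Type) [Group H] (N₁ N₂ : Subgroup H) [N₁.Normal] [N₂.Normal]
    (hH1 : FF L z n (H ⧸ N₁)) (hH2 : FF L z n (H ⧸ N₂)) : FF L z n (H ⧸ (N₁ ⊓ N₂)) := by
  obtain ⟨I, R, _, _, π, f, hf, h1, h2, h3⟩ := hH1
  obtain ⟨I', R', _, _, π', f', hf', h1', h2', h3'⟩ := hH2
  let S : Subgroup (R × R' × H) :=
    { carrier := {x | f x.1 = (x.2.2 : H ⧸ N₁) ∧ f' x.2.1 = (x.2.2 : H ⧸ N₂)}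
      mul_mem' := by
        rintro a b ⟨ha, ha'⟩ ⟨hb, hb'⟩
        refine ⟨?_, ?_⟩
        · change f (a.1 * b.1) = ((a.2.2 * b.2.2 : H) : H ⧸ N₁)
          rw [map_mul, ha, hb]; rfl
        · change f' (a.2.1 * b.2.1) = ((a.2.2 * b.2.2 : H) : H ⧸ N₂)
          rw [map_mul, ha', hb']; rfl
      one_mem' := by
        refine ⟨?_, ?_⟩
        · change f 1 = ((1 : H) : H ⧸ N₁)
          rw [map_one]; rfl
        · change f' 1 = ((1 : H) : H ⧸ N₂)
          rw [map_one]; rfl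
      inv_mem' := by
        rintro a ⟨ha, ha'⟩
        refine ⟨?_, ?_⟩
        · change f (a.1⁻¹) = ((a.2.2⁻¹ : H) : H ⧸ N₁)
          rw [map_inv, ha]; rfl
        · change f' (a.2.1⁻¹) = ((a.2.2⁻¹ : H) : H ⧸ N₂)
          rw [map_inv, ha']; rfl }
  have hS1 : ∀ t : R, ∃ t' : R', ∃ g : H, (t, t', g) ∈ S := by
    intro t
    obtain ⟨g, hg⟩ := QuotientGroup.mk_surjective (f t)
    obtain ⟨t', ht'⟩ := hf' (g : H ⧸ N₂)
    exact ⟨t', g, hg.symm, ht'⟩
  have hS2 : ∀ t' : R', ∃ t : R, ∃ g : H, (t, t', g) ∈ S := by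
    intro t'
    obtain ⟨g, hg⟩ := QuotientGroup.mk_surjective (f' t')
    obtain ⟨t, ht⟩ := hf (g : H ⧸ N₁)
    exact ⟨t, g, ht, hg.symm⟩
  have hS3 : ∀ g : H, ∃ t : R, ∃ t' : R', (t, t', g) ∈ S := by
    intro g
    obtain ⟨t, ht⟩ := hf (g : H ⧸ N₁)
    obtain ⟨t', ht'⟩ := hf' (g : H ⧸ N₂)
    exact ⟨t, t', ht, ht'⟩
  let p1 : S →* R := (MonoidHom.fst _ _).comp S.subtype
  let p2 : S →* R' := (MonoidHom.fst _ _).comp ((MonoidHom.snd _ _).comp S.subtype)
  let p3 : S →* H := (MonoidHom.snd _ _).comp ((MonoidHom.snd _ _).comp S.subtype)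
  have hp1 : Surjective p1 := by
    intro t
    obtain ⟨t', g, h⟩ := hS1 t
    exact ⟨⟨_, h⟩, rfl⟩
  have hp2 : Surjective p2 := by
    intro t'
    obtain ⟨t, g, h⟩ := hS2 t'
    exact ⟨⟨_, h⟩, rfl⟩
  have hp3 : Surjective p3 := by
    intro g
    obtain ⟨t, t', h⟩ := hS3 g
    exact ⟨⟨_, h⟩, rfl⟩
  let PP : I ⊕ I' → (S →* G0) := fun i =>
    match i with
    | Sum.inl i => (π i).comp p1
    | Sum.inr i => (π' i).comp p2
  have hker : ∀ s : S, f (p1 s) = 1 → f' (p2 s) = 1 → (QuotientGroup.mk' (N₁ ⊓ N₂)) (p3 s) = 1 := by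
    intro s e3 e4
    have e5 : p3 s ∈ N₁ := (QuotientGroup.eq_one_iff _).1 (s.2.1.symm.trans e3)
    have e6 : p3 s ∈ N₂ := (QuotientGroup.eq_one_iff _).1 (s.2.2.symm.trans e4)
    exact (QuotientGroup.eq_one_iff _).2 ⟨e5, e6⟩
  refine ⟨I ⊕ I', S, inferInstance, inferInstance, PP, (QuotientGroup.mk' _).comp p3,
    (QuotientGroup.mk'_surjective _).comp hp3, ?_, ?_, ?_⟩
  · intro i
    match i with
    | Sum.inl i =>
      have : (PP (Sum.inl i)).range = (π i).range := by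
        change ((π i).comp p1).range = _
        rw [MonoidHom.range_comp, MonoidHom.range_eq_top.2 hp1, ← MonoidHom.range_eq_map]
      rw [this]; exact h1 i
    | Sum.inr i =>
      have : (PP (Sum.inr i)).range = (π' i).range := by
        change ((π' i).comp p2).range = _
        rw [MonoidHom.range_comp, MonoidHom.range_eq_top.2 hp2, ← MonoidHom.range_eq_map]
      rw [this]; exact h1' i
  · intro s hs
    exact hker s (h2 _ (fun i => hs (Sum.inl i))) (h2' _ (fun i => hs (Sum.inr i)))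
  · intro v w hw1 hw2
    apply hker w
    · exact h3 (fun j => p1 (v j)) (p1 w) (fun i hi => hw1 (Sum.inl i) hi)
        (fun i hi => hw2 (Sum.inl i) hi)
    · exact h3' (fun j => p2 (v j)) (p2 w) (fun i hi => hw1 (Sum.inr i) hi)
        (fun i hi => hw2 (Sum.inr i) hi)

theorem FF_normal (h : Hyp L z) (n : ℕ) (H : Type) [Group H] (N : Subgroup H) (hN : N.Normal)
    (hH : FF L z n H) : FF L z n N := by
  obtain ⟨I, R, _, _, π, f, hf, h1, h2, h3⟩ := hH
  let S : Subgroup R := N.comap f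
  have hSn : S.Normal := hN.comap f
  let g : S →* N := (f.comp S.subtype).codRestrict N (fun s => s.2)
  refine ⟨I, S, inferInstance, inferInstance, fun i => (π i).comp S.subtype, g, ?_, ?_, ?_, ?_⟩
  · rintro ⟨y, hy⟩
    obtain ⟨x, rfl⟩ := hf y
    exact ⟨⟨x, hy⟩, rfl⟩
  · intro i
    apply h.trans (π i).range _ (h1 i)
    · rintro _ ⟨s, rfl⟩
      exact ⟨s.1, rfl⟩
    · rintro _ ⟨r, rfl⟩ _ ⟨s, rfl⟩
      exact ⟨⟨r * s.1 * r⁻¹, hSn.conj_mem s.1 s.2 r⟩, by simp⟩
  · intro r hr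
    apply Subtype.ext
    exact h2 r.1 hr
  · intro v w hw1 hw2
    apply Subtype.ext
    exact h3 (fun j => (v j).1) w.1 hw1 hw2

theorem FF_anti (n : ℕ) (hn : 0 < n) (H : Type) [Group H] (hH : FF L z (n + 1) H) :
    FF L z n H := by
  obtain ⟨I, R, _, _, π, f, hf, h1, h2, h3⟩ := hH
  refine ⟨I, R, inferInstance, inferInstance, π, f, hf, h1, h2, ?_⟩
  intro v w hw1 hw2
  let v' : Fin (n + 1) → R := Fin.cons (v ⟨0, hn⟩) v
  refine h3 v' w ?_ ?_
  · intro i hi
    apply hw1 i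
    intro j
    have := hi j.succ
    simpa [v'] using this
  · rintro i ⟨j, hj⟩
    apply hw2 i
    revert hj
    refine Fin.cases ?_ ?_ j
    · intro hj
      exact ⟨⟨0, hn⟩, by simpa [v'] using hj⟩
    · intro j hj
      exact ⟨j, by simpa [v'] using hj⟩

open Pool.Agent.Helper476.D in
theorem FF_gen (h : Hyp L z) (n : ℕ) (H : Type) [Group H] (hH : FF L z n H)
    (E : ∀ (G : Type) [Group G], Prop) (hE : IsF E) (hEG : E (G0 × L × Subgroup.zpowers z)) : E H := by
  classical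
  obtain ⟨I, R, _, _, π, f, hf, h1, h2, h3⟩ := hH
  have eG0 : E G0 := hE.2.1 _ _ (MonoidHom.fst _ _) (fun x => ⟨(x, 1), rfl⟩) hEG
  have eL : E L := hE.2.1 _ _ ((MonoidHom.fst _ _).comp (MonoidHom.snd _ _))
    (fun x => ⟨(1, x, 1), rfl⟩) hEG
  have eZ : E (Subgroup.zpowers z) := hE.2.1 _ _ ((MonoidHom.snd _ _).comp (MonoidHom.snd _ _))
    (fun x => ⟨(1, 1, x), rfl⟩) hEG
  have eall : ∀ N : Subgroup G0, N.Normal → E N := by
    intro N hN
    rcases h.n1 N hN with rfl | rfl | rfl | rfl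
    · exact triv_mem hE eG0 _
    · exact eZ
    · exact eL
    · exact hE.2.1 G0 _ (Subgroup.topEquiv (G := G0)).symm.toMonoidHom
        (Subgroup.topEquiv (G := G0)).symm.surjective eG0
  let Ks : Finset I → Subgroup R := fun s =>
    { carrier := {r | ∀ i ∈ s, π i r = 1}
      mul_mem' := by
        intro a b ha hb i hi
        rw [map_mul, ha i hi, hb i hi, one_mul]
      one_mem' := by
        intro i _
        exact map_one _
      inv_mem' := by
        intro a ha i hi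
        rw [map_inv, ha i hi, inv_one] }
  haveI hKn : ∀ s, (Ks s).Normal := by
    intro s
    constructor
    intro r hr g i hi
    rw [map_mul, map_mul, hr i hi, mul_one, map_inv, mul_inv_cancel]
  have hKE : ∀ s : Finset I, E (R ⧸ Ks s) := by
    intro s
    induction s using Finset.induction_on with
    | empty =>
      haveI : Subsingleton (R ⧸ Ks ∅) := by
        have : Ks ∅ = ⊤ := by
          rw [eq_top_iff]
          intro r _ i hi
          simp at hi
        rw [this]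
        exact QuotientGroup.subsingleton_quotient_top
      exact triv_mem hE eG0 _
    | insert a s _ ih =>
      have e1 : E (R ⧸ (π a).ker) := by
        have := eall _ (h1 a)
        exact Qker hE (π a).rangeRestrict (π a).rangeRestrict_surjective this |> fun e => by
          have hk : (π a).rangeRestrict.ker = (π a).ker := MonoidHom.ker_rangeRestrict _
          exact Qfac hE _ e (QuotientGroup.mk' (π a).ker) (QuotientGroup.mk'_surjective _)
            (fun t ht => (QuotientGroup.eq_one_iff t).2 (by rw [← hk]; exact ht))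
      have e2 := R0q hE R (π a).ker (Ks s) e1 ih
      refine Qfac hE _ e2 (QuotientGroup.mk' _) (QuotientGroup.mk'_surjective _) ?_
      rintro t ⟨ht1, ht2⟩
      apply (QuotientGroup.eq_one_iff t).2
      intro i hi
      rcases Finset.mem_insert.1 hi with rfl | hi
      · exact ht1
      · exact ht2 i hi
  haveI := Fintype.ofFinite I
  refine Qfac hE _ (hKE Finset.univ) f hf ?_
  intro t ht
  exact h2 t (fun i => ht i (Finset.mem_univ i))

end Pool.Agent.Helper476.C
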