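import Mathlib

set_option autoImplicit false
set_option linter.style.haveILetI false

namespace Pool.Agent.Helper476.C

open Function
open scoped commutatorElement

variable {Gb : Type} [Group Gb]

structure STop (Lb : Subgroup Gb) : Prop where
  ne : Lb ≠ ⊥
  simp : ∀ N : Subgroup Gb, N ≤ Lb → (∀ l ∈ Lb, ∀ n ∈ N, l * n * l⁻¹ ∈ N) → N = ⊥ ∨ N = Lb
  perf : ⁅Lb, Lb⁆ = Lb
  cent : ∀ g : Gb, (∀ l ∈ Lb, g * l = l * g) → g = 1
  ab : ∀ g h : Gb, ⁅g, h⁆ ∈ Lb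

variable {Lb : Subgroup Gb}

theorem STop.conj (hL : STop Lb) (g l : Gb) (hl : l ∈ Lb) : g * l * g⁻¹ ∈ Lb := by
  have h := Lb.mul_mem (hL.ab g l) hl
  rw [commutatorElement_def, inv_mul_cancel_right] at h
  exact h

variable {T : Type} [Group T]

/-- N1 -/
theorem N1 (hL : STop Lb) (ψ : T →* Gb) (hψ : Lb ≤ ψ.range) (K : Subgroup T) (hK : K.Normal)
    (hne : K.map ψ ≠ ⊥) : Lb ≤ K.map ψ := by
  have hnorm : ∀ l ∈ Lb, ∀ n ∈ K.map ψ, l * n * l⁻¹ ∈ K.map ψ := by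
    rintro l hl _ ⟨k, hk, rfl⟩
    obtain ⟨t, rfl⟩ := hψ hl
    exact ⟨t * k * t⁻¹, hK.conj_mem k hk t, by simp⟩
  rcases hL.simp (K.map ψ ⊓ Lb) inf_le_right (by
    rintro l hl n ⟨hn1, hn2⟩
    exact ⟨hnorm l hl n hn1, hL.conj l n hn2⟩) with h | h
  · exfalso
    apply hne
    rw [eq_bot_iff]
    intro n hn
    rw [Subgroup.mem_bot]
    apply hL.cent
    intro l hl
    have h1 : ⁅n, l⁆ ∈ K.map ψ ⊓ Lb := by
      refine ⟨?_, hL.ab n l⟩
      rw [commutatorElement_def]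
      have h2 := hnorm l hl n⁻¹ ((K.map ψ).inv_mem hn)
      have h3 := (K.map ψ).mul_mem hn h2
      have h4 : n * l * n⁻¹ * l⁻¹ = n * (l * n⁻¹ * l⁻¹) := by group
      rw [h4]
      exact h3
    rw [h, Subgroup.mem_bot] at h1
    exact commutatorElement_eq_one_iff_mul_comm.1 h1
  · rw [← h]; exact inf_le_left

def IsK (Lb : Subgroup Gb) (ψ : T →* Gb) (K : Subgroup T) : Prop :=
  K.Normal ∧ Lb ≤ K.map ψ ∧ ∀ K' : Subgroup T, K'.Normal → Lb ≤ K'.map ψ → K ≤ K'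

theorem exists_IsK [Finite T] (hL : STop Lb) (ψ : T →* Gb) (hψ : Lb ≤ ψ.range) :
    ∃ K, IsK Lb ψ K := by
  classical
  let S : Set (Subgroup T) := {K | K.Normal ∧ Lb ≤ K.map ψ}
  have hS : S.Nonempty := ⟨⊤, inferInstance, by
    intro l hl
    obtain ⟨t, rfl⟩ := hψ hl
    exact ⟨t, Subgroup.mem_top t, rfl⟩⟩
  obtain ⟨K, ⟨hK1, hK2⟩, hmin⟩ := (Set.toFinite S).exists_minimal hS
  refine ⟨K, hK1, hK2, ?_⟩
  intro K' hK'1 hK'2
  have h1 : ⁅K, K'⁆ ∈ S := by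
    refine ⟨inferInstance, ?_⟩
    rw [Subgroup.map_commutator, ← hL.perf]
    exact Subgroup.commutator_mono hK2 hK'2
  have h2 : K ≤ ⁅K, K'⁆ := hmin h1 (Subgroup.commutator_le_left K K')
  exact h2.trans (Subgroup.commutator_le_right K K')

theorem IsK.perf (hL : STop Lb) {ψ : T →* Gb} {K : Subgroup T} (h : IsK Lb ψ K) : ⁅K, K⁆ = K := by
  haveI := h.1
  apply le_antisymm (Subgroup.commutator_le_left K K)
  apply h.2.2 _ inferInstance
  rw [Subgroup.map_commutator, ← hL.perf]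
  exact Subgroup.commutator_mono h.2.1 h.2.1

theorem IsK.map_eq (hL : STop Lb) {ψ : T →* Gb} {K : Subgroup T} (h : IsK Lb ψ K) :
    K.map ψ = Lb := by
  apply le_antisymm _ h.2.1
  rw [← h.perf hL, Subgroup.map_commutator, Subgroup.commutator_le]
  intro a _ b _
  exact hL.ab a b

theorem IsK.mem (hL : STop Lb) {ψ : T →* Gb} {K : Subgroup T} (h : IsK Lb ψ K) {k : T} (hk : k ∈ K) :
    ψ k ∈ Lb := by
  rw [← h.map_eq hL]; exact ⟨k, hk, rfl⟩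

theorem IsK.surj (hL : STop Lb) {ψ : T →* Gb} {K : Subgroup T} (h : IsK Lb ψ K) {l : Gb} (hl : l ∈ Lb) :
    ∃ k ∈ K, ψ k = l := by
  rw [← h.map_eq hL] at hl; exact hl

theorem IsK.good {ψ : T →* Gb} {K : Subgroup T} (h : IsK Lb ψ K) : Lb ≤ ψ.range := by
  intro l hl
  obtain ⟨k, _, rfl⟩ := h.2.1 hl
  exact ⟨k, rfl⟩

theorem IsK.unique {ψ : T →* Gb} {K K' : Subgroup T} (h : IsK Lb ψ K) (h' : IsK Lb ψ K') : K = K' :=
  le_antisymm (h.2.2 _ h'.1 h'.2.1) (h'.2.2 _ h.1 h.2.1)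

/-- N4 -/
theorem N4 [Finite T] (hL : STop Lb) {ψ ψ' : T →* Gb} {K : Subgroup T} (h : IsK Lb ψ K)
    (hψ' : Lb ≤ ψ'.range) (hne : K.map ψ' ≠ ⊥) : IsK Lb ψ' K := by
  have hKn := h.1
  have h1 := N1 hL ψ' hψ' K hKn hne
  obtain ⟨K', hK'⟩ := exists_IsK hL ψ' hψ'
  have h2 : K' ≤ K := hK'.2.2 K hKn h1
  have h3 : K ≤ K' := by
    by_contra hnot
    have h4 : K'.map ψ = ⊥ := by
      by_contra h5
      exact hnot (h.2.2 K' hK'.1 (N1 hL ψ h.good K' hK'.1 h5))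
    haveI := hKn
    have h6 : Lb ≤ (K ⊓ ψ'.ker).map ψ := by
      intro l hl
      obtain ⟨k, hk, rfl⟩ := h.surj hL hl
      have h7 : ψ' k ∈ Lb := by
        have : ψ' k ∈ K.map ψ' := ⟨k, hk, rfl⟩
        rw [← h.perf hL, Subgroup.map_commutator] at this
        exact (Subgroup.commutator_le.2 (fun a _ b _ => hL.ab a b)) this
      obtain ⟨k', hk', hkk⟩ := hK'.surj hL h7
      refine ⟨k * k'⁻¹, ⟨K.mul_mem hk (K.inv_mem (h2 hk')), ?_⟩, ?_⟩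
      · change ψ' (k * k'⁻¹) = 1
        rw [map_mul, map_inv, hkk, mul_inv_cancel]
      · have h8 : ψ k' ∈ K'.map ψ := ⟨k', hk', rfl⟩
        rw [h4, Subgroup.mem_bot] at h8
        rw [map_mul, map_inv, h8, inv_one, mul_one]
    have h9 := h.2.2 (K ⊓ ψ'.ker) inferInstance h6
    apply hne
    rw [eq_bot_iff]
    rintro _ ⟨k, hk, rfl⟩
    exact (h9 hk).2
  rw [le_antisymm h3 h2]
  exact hK'

/-- N5 -/
theorem N5 (hL : STop Lb) {ψ ψ' : T →* Gb} {K : Subgroup T} (h : IsK Lb ψ K) (h' : IsK Lb ψ' K)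
    {k : T} (hk : k ∈ K) (hk1 : ψ k = 1) : ψ' k = 1 := by
  by_contra hne
  haveI := h.1
  have h1 : (K ⊓ ψ.ker).map ψ' ≠ ⊥ := by
    intro h2
    have : ψ' k ∈ (K ⊓ ψ.ker).map ψ' := ⟨k, ⟨hk, hk1⟩, rfl⟩
    rw [h2] at this
    exact hne this
  have h2 := h'.2.2 _ inferInstance (N1 hL ψ' h'.good _ inferInstance h1)
  apply hL.ne
  rw [← h.map_eq hL, eq_bot_iff]
  rintro _ ⟨k, hk, rfl⟩
  exact (h2 hk).2

/-- N6 -/
theorem N6 (hL : STop Lb) {ψ ψ' : T →* Gb} {K : Subgroup T} (h : IsK Lb ψ K) (h' : IsK Lb ψ' K)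
    {t : T} (ht : ψ t ∈ Lb) : ψ' t ∈ Lb := by
  obtain ⟨k, hk, hkt⟩ := h.surj hL ht
  have h1 : ψ' (t * k⁻¹) = 1 := by
    apply hL.cent
    intro l hl
    obtain ⟨m, hm, rfl⟩ := h'.surj hL hl
    have h2 : ψ' ⁅t * k⁻¹, m⁆ = 1 := by
      apply N5 hL h h'
      · have h3 := h.1.conj_mem m hm (t * k⁻¹)
        have h4 := K.mul_mem h3 (K.inv_mem hm)
        rw [commutatorElement_def]; exact h4
      · rw [map_commutatorElement, map_mul, map_inv, hkt, mul_inv_cancel, commutatorElement_one_left]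
    rw [map_commutatorElement] at h2
    exact commutatorElement_eq_one_iff_mul_comm.1 h2
  have h5 : ψ' t = ψ' (t * k⁻¹) * ψ' k := by rw [← map_mul, inv_mul_cancel_right]
  rw [h5, h1, one_mul]
  exact h'.mem hL hk

end Pool.Agent.Helper476.C
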