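import Pool.Agent.Helper476.C1
import Pool.Agent.Helper476.C2

set_option autoImplicit false
set_option linter.style.haveILetI false

namespace Pool.Agent.Helper476.C

open Function
open scoped commutatorElement

variable {G0 : Type} [Group G0] {L : Subgroup G0} {z : G0}

theorem z2_iff : ∀ x y : ZMod 2, (x + y = 0 ↔ (x = 0 ↔ y = 0)) := by decide

theorem Hyp.above (h : Hyp L z) (N : Subgroup G0) (hN : L ≤ N) : N.Normal := by
  by_cases hNL : N = L
  · rw [hNL]; exact h.normal
  · have : N = ⊤ := by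
      have : ∃ o ∈ N, o ∉ L := by
        by_contra hcon
        push Not at hcon
        exact hNL (le_antisymm hcon hN)
      obtain ⟨o, ho, hoL⟩ := this
      rw [eq_top_iff]
      intro g _
      by_cases hg : g ∈ L
      · exact hN hg
      · have h1 : g * o⁻¹ ∈ L := by
          rw [h.idx]
          constructor
          · intro h2; exact absurd h2 hg
          · intro h2
            have := L.inv_mem h2
            rw [inv_inv] at this
            exact absurd this hoL
        have h3 := N.mul_mem (hN h1) ho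
        rwa [inv_mul_cancel_right] at h3
    rw [this]; infer_instance

/-- `T_n` -/
def Tn (h : Hyp L z) (n : ℕ) : Subgroup ((Fin n → ZMod 2) → G0) where
  carrier := {g | ∃ a : Fin n → ZMod 2, ∀ u, (g u ∈ L ↔ ∑ j, a j * u j = 0)}
  mul_mem' := by
    rintro g g' ⟨a, ha⟩ ⟨a', ha'⟩
    refine ⟨a + a', fun u => ?_⟩
    have : ∑ j, (a + a') j * u j = ∑ j, a j * u j + ∑ j, a' j * u j := by
      rw [← Finset.sum_add_distrib]
      apply Finset.sum_congr rfl
      intro j _
      rw [Pi.add_apply, add_mul]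
    rw [this, z2_iff, ← ha, ← ha', Pi.mul_apply, h.idx]
  one_mem' := by
    refine ⟨0, fun u => ?_⟩
    simp
  inv_mem' := by
    rintro g ⟨a, ha⟩
    refine ⟨a, fun u => ?_⟩
    rw [← ha, Pi.inv_apply, inv_mem_iff]

/-- powers of `z` indexed by `ZMod 2` -/
def zz (z : G0) (c : ZMod 2) : G0 := if c = 0 then 1 else z

theorem zz_add (h : Hyp L z) (c c' : ZMod 2) : zz z (c + c') = zz z c * zz z c' := by
  have hc : ∀ x : ZMod 2, x = 0 ∨ x = 1 := by decide
  have h10 : (1 : ZMod 2) ≠ 0 := by decide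
  have h11 : (1 : ZMod 2) + 1 = 0 := by decide
  rcases hc c with rfl | rfl <;> rcases hc c' with rfl | rfl <;> simp [zz, h10, h11, h.z2]

theorem zz_comm (h : Hyp L z) (c : ZMod 2) (g : G0) : g * zz z c = zz z c * g := by
  unfold zz
  split_ifs
  · simp
  · exact h.zc g

theorem zz_one (h : Hyp L z) (c : ZMod 2) (hc : zz z c = 1) : c = 0 := by
  unfold zz at hc
  split_ifs at hc with h1
  · exact h1
  · exact absurd hc h.z1

/-- `M_n` -/
def Mn (h : Hyp L z) (n : ℕ) : Subgroup (Tn h n) where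
  carrier := {g | ∃ c : (Fin n → ZMod 2) → ZMod 2, (∀ u, g.1 u = zz z (c u)) ∧ ∑ u, c u = 0}
  mul_mem' := by
    rintro g g' ⟨c, hc, hs⟩ ⟨c', hc', hs'⟩
    refine ⟨c + c', fun u => ?_, ?_⟩
    · change g.1 u * g'.1 u = _
      rw [hc, hc', Pi.add_apply, zz_add h]
    · simp only [Pi.add_apply]
      rw [Finset.sum_add_distrib, hs, hs', add_zero]
  one_mem' := by
    refine ⟨0, fun u => ?_, ?_⟩
    · simp [zz]
    · simp
  inv_mem' := by
    rintro g ⟨c, hc, hs⟩
    refine ⟨c, fun u => ?_, hs⟩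
    change (g.1 u)⁻¹ = _
    rw [hc]
    unfold zz
    split_ifs
    · simp
    · rw [inv_eq_iff_mul_eq_one]; exact h.z2

instance Mn_normal (h : Hyp L z) (n : ℕ) : (Mn h n).Normal := by
  constructor
  rintro g ⟨c, hc, hs⟩ t
  refine ⟨c, fun u => ?_, hs⟩
  change t.1 u * g.1 u * (t.1 u)⁻¹ = _
  rw [hc, zz_comm h, mul_inv_cancel_right]

abbrev Hn (h : Hyp L z) (n : ℕ) : Type := Tn h n ⧸ Mn h n

theorem mem_Tn_of_L (h : Hyp L z) (n : ℕ) (g : (Fin n → ZMod 2) → G0) (hg : ∀ u, g u ∈ L) :
    g ∈ Tn h n := by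
  refine ⟨0, fun u => ?_⟩
  simp [hg u]

theorem mem_Tn_coord (h : Hyp L z) (n : ℕ) (o : G0) (ho : o ∉ L) (j : Fin n) :
    (fun u : Fin n → ZMod 2 => if u j = 0 then (1 : G0) else o) ∈ Tn h n := by
  classical
  refine ⟨Pi.single j 1, fun u => ?_⟩
  have : ∑ i, (Pi.single j 1 : Fin n → ZMod 2) i * u i = u j := by
    rw [Finset.sum_eq_single j]
    · simp
    · intro b _ hb
      simp [Pi.single_eq_of_ne hb]
    · simp
  rw [this]
  by_cases hu : u j = 0
  · simp [hu]
  · simp [hu, ho]

theorem Hn_mem (h : Hyp L z) (m : ℕ) : FF L z m (Hn h (m + 1)) := by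
  classical
  let U := Fin (m + 1) → ZMod 2
  let ev : U → (Tn h (m + 1) →* G0) := fun u => (Pi.evalMonoidHom (fun _ => G0) u).comp (Tn h (m + 1)).subtype
  refine ⟨U, Tn h (m + 1), inferInstance, inferInstance, ev, QuotientGroup.mk' _,
    QuotientGroup.mk'_surjective _, ?_, ?_, ?_⟩
  · intro u
    apply h.above
    intro l hl
    exact ⟨⟨fun _ => l, mem_Tn_of_L h _ _ (fun _ => hl)⟩, rfl⟩
  · intro r hr
    have : r = 1 := Subtype.ext (funext hr)
    rw [this, map_one]
  · intro v w hw1 hw2
    apply (QuotientGroup.eq_one_iff w).2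
    -- functionals
    choose a ha using fun j => (v j).2
    let φ : (Fin (m + 1) → ZMod 2) →ₗ[ZMod 2] (Fin m → ZMod 2) :=
      LinearMap.pi (fun j => ∑ i, (a j i) • (LinearMap.proj i : (Fin (m + 1) → ZMod 2) →ₗ[ZMod 2] ZMod 2))
    have hφ : ∀ u j, φ u j = ∑ i, a j i * u i := by
      intro u j
      simp [φ]
    have hker : LinearMap.ker φ ≠ ⊥ := by
      haveI : Fact (Nat.Prime 2) := ⟨Nat.prime_two⟩
      apply LinearMap.ker_ne_bot_of_finrank_lt
      simp
    obtain ⟨u0, hu0, hu0n⟩ := (Submodule.ne_bot_iff _).1 hker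
    have hinv : ∀ u j, ((v j).1 (u + u0) ∈ L ↔ (v j).1 u ∈ L) := by
      intro u j
      rw [ha, ha, ← hφ, ← hφ, map_add]
      rw [LinearMap.mem_ker.1 hu0, add_zero]
    let c : U → ZMod 2 := fun u => if (∀ j, (v j).1 u ∉ L) then 1 else 0
    refine ⟨c, ?_, ?_⟩
    · intro u
      by_cases hu : ∀ j, (v j).1 u ∉ L
      · have h1 : w.1 u = z := hw1 u hu
        rw [h1]
        simp [c, hu, zz]
      · have h1 : w.1 u = 1 := by
          apply hw2 u
          push Not at hu
          exact hu
        rw [h1]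
        simp [c, hu, zz]
    · have hcc : ∀ u, c (u + u0) = c u := by
        intro u
        simp only [c, hinv]
      have h2 : ∀ x : ZMod 2, x + x = 0 := by decide
      apply Finset.sum_involution (fun u _ => u + u0)
      · intro u _
        rw [hcc, h2]
      · intro u _ _ h3
        apply hu0n
        simpa using h3
      · intro u _
        simp
      · intro u _
        have : u0 + u0 = 0 := by
          funext i
          exact h2 _
        rw [add_assoc, this, add_zero]

end Pool.Agent.Helper476.C
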