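import Pool.Agent.Helper476.C3

set_option autoImplicit false
set_option linter.style.haveILetI false

namespace Pool.Agent.Helper476.C

open Function
open scoped commutatorElement

variable {G0 : Type} [Group G0] {L : Subgroup G0} {z : G0}

/-- the quotient `G0 / Z` through an abstract surjection -/
structure Quo (L : Subgroup G0) (z : G0) (Gb : Type) [Group Gb] (p : G0 →* Gb) : Prop where
  surj : Surjective p
  ker : ∀ g, p g = 1 ↔ (g = 1 ∨ g = z)

theorem Quo.mem_iff {Gb : Type} [Group Gb] {p : G0 →* Gb} (q : Quo L z Gb p) (h : Hyp L z) (g : G0) :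
    p g ∈ L.map p ↔ g ∈ L := by
  constructor
  · rintro ⟨l, hl, hlg⟩
    have h1 : p (l⁻¹ * g) = 1 := by rw [map_mul, map_inv, hlg, inv_mul_cancel]
    have h2 : l⁻¹ * g ∈ L := by
      rcases (q.ker _).1 h1 with h3 | h3
      · rw [h3]; exact L.one_mem
      · rw [h3]; exact h.zL
    have h3 := L.mul_mem hl h2
    rwa [mul_inv_cancel_left] at h3
  · intro hg
    exact ⟨g, hg, rfl⟩

theorem stop_of {Gb : Type} [Group Gb] {p : G0 →* Gb} (q : Quo L z Gb p) (h : Hyp L z) :
    STop (L.map p) := by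
  have hne : L.map p ≠ ⊥ := by
    intro hbot
    obtain ⟨x, hx, hxx⟩ := h.x
    have h1 : p x ∈ L.map p := ⟨x, hx, rfl⟩
    rw [hbot, Subgroup.mem_bot, q.ker] at h1
    rcases h1 with rfl | rfl
    · rw [one_mul] at hxx; exact h.z1 hxx.symm
    · rw [h.z2] at hxx; exact h.z1 hxx.symm
  haveI := h.normal
  haveI : (L.map p).Normal := Subgroup.Normal.map h.normal _ q.surj
  have hperf : ⁅L.map p, L.map p⁆ = L.map p := by
    rw [← Subgroup.map_commutator, h.perf]
  refine ⟨hne, ?_, hperf, ?_, ?_⟩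
  · intro N hN hNn
    have h1 : N.comap p ≤ L := by
      intro g hg
      exact (q.mem_iff h g).1 (hN hg)
    have h2 : (N.comap p).map p = N := Subgroup.map_comap_eq_self_of_surjective q.surj N
    rcases h.n2 (N.comap p) h1 (by
      intro l hl n hn
      change p (l * n * l⁻¹) ∈ N
      rw [map_mul, map_mul, map_inv]
      exact hNn (p l) ⟨l, hl, rfl⟩ (p n) hn) with h3 | h3 | h3
    · left; rw [← h2, h3, Subgroup.map_bot]
    · left
      rw [← h2, h3, eq_bot_iff]
      rintro _ ⟨g, hg, rfl⟩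
      exact (q.ker g).2 (h.mem_zp hg)
    · right; rw [← h2, h3]
  · intro g hg
    let C := Subgroup.centralizer ((L.map p : Subgroup Gb) : Set Gb)
    haveI hCn : C.Normal := inferInstance
    have hgC : g ∈ C := by
      rw [Subgroup.mem_centralizer_iff]
      intro l hl
      exact (hg l hl).symm
    have h2 : (C.comap p).map p = C := Subgroup.map_comap_eq_self_of_surjective q.surj C
    have hLC : ¬ L ≤ C.comap p := by
      intro hle
      apply hne
      rw [← hperf, eq_bot_iff, Subgroup.commutator_le]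
      intro a ha b hb
      rw [Subgroup.mem_bot, commutatorElement_eq_one_iff_mul_comm]
      obtain ⟨a', ha', rfl⟩ := ha
      have := hle ha'
      exact ((Subgroup.mem_centralizer_iff.1 this) b hb).symm
    rcases h.n1 (C.comap p) (hCn.comap p) with h3 | h3 | h3 | h3
    · rw [h3, Subgroup.map_bot] at h2
      rw [← h2, Subgroup.mem_bot] at hgC
      exact hgC
    · rw [← h2, h3] at hgC
      obtain ⟨y, hy, rfl⟩ := hgC
      exact (q.ker y).2 (h.mem_zp hy)
    · exact absurd (le_of_eq h3.symm) hLC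
    · exact absurd (h3 ▸ le_top) hLC
  · intro a b
    obtain ⟨x, rfl⟩ := q.surj a
    obtain ⟨y, rfl⟩ := q.surj b
    rw [← map_commutatorElement]
    refine ⟨⁅x, y⁆, ?_, rfl⟩
    rw [commutatorElement_def]
    have hinv : ∀ g : G0, g⁻¹ ∈ L ↔ g ∈ L := fun g => inv_mem_iff
    change x * y * x⁻¹ * y⁻¹ ∈ L
    rw [h.idx, h.idx, h.idx, hinv, hinv]
    tauto

theorem FF_inj (h : Hyp L z) (n : ℕ) (H : Type) [Group H] (hH : FF L z n H) :
    ∃ (I R : Type) (_ : Finite I) (_ : Group R) (_ : Finite R) (π : I → (R →* G0)) (f : R →* H),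
    Surjective f ∧ (∀ i, (π i).range.Normal) ∧ (∀ r, (∀ i, π i r = 1) → r = 1) ∧
    ∀ (v : Fin n → R) (w : R), (∀ i, (∀ j, π i (v j) ∉ L) → π i w = z) →
      (∀ i, (∃ j, π i (v j) ∈ L) → π i w = 1) → f w = 1 := by
  obtain ⟨I, R, _, _, π, f, hf, h1, h2, h3⟩ := hH
  haveI := h.fin
  let r : R →* (I → G0) := MonoidHom.pi π
  haveI : Finite (R ⧸ r.ker) := Finite.of_equiv _ (QuotientGroup.quotientKerEquivRange r).symm.toEquiv
  let π' : I → (R ⧸ r.ker →* G0) := fun i => QuotientGroup.lift r.ker (π i) (fun t ht => congrFun ht i)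
  let f' : R ⧸ r.ker →* H := QuotientGroup.lift r.ker f (fun t ht => h2 t (fun i => congrFun ht i))
  refine ⟨I, R ⧸ r.ker, inferInstance, inferInstance, inferInstance, π', f', ?_, ?_, ?_, ?_⟩
  · intro y
    obtain ⟨x, rfl⟩ := hf y
    exact ⟨QuotientGroup.mk x, rfl⟩
  · intro i
    have : (π' i).range = (π i).range := by
      ext g
      constructor
      · rintro ⟨t, rfl⟩
        obtain ⟨x, rfl⟩ := QuotientGroup.mk_surjective t
        exact ⟨x, rfl⟩
      · rintro ⟨x, rfl⟩
        exact ⟨QuotientGroup.mk x, rfl⟩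
    rw [this]; exact h1 i
  · intro t ht
    obtain ⟨x, rfl⟩ := QuotientGroup.mk_surjective t
    rw [QuotientGroup.eq_one_iff]
    exact funext ht
  · intro v w hw1 hw2
    obtain ⟨w', rfl⟩ := QuotientGroup.mk_surjective w
    choose v' hv' using fun j => QuotientGroup.mk_surjective (v j)
    refine h3 v' w' ?_ ?_
    · intro i hi
      apply hw1 i
      intro j
      rw [← hv' j]
      exact hi j
    · rintro i ⟨j, hj⟩
      apply hw2 i
      refine ⟨j, ?_⟩
      rw [← hv' j]
      exact hj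

end Pool.Agent.Helper476.C
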