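import Pool.Agent.Helper476.C4

set_option autoImplicit false
set_option linter.style.haveILetI false

namespace Pool.Agent.Helper476.C

open Function
open scoped commutatorElement

variable {G0 : Type} [Group G0] {L : Subgroup G0} {z : G0}

theorem Hn_not {Gb : Type} [Group Gb] {p : G0 →* Gb} (q : Quo L z Gb p) (h : Hyp L z) (n : ℕ)
    (hn : 0 < n) : ¬ FF L z n (Hn h n) := by
  classical
  intro hH
  obtain ⟨I, T, _, _, _, π, f, hf, h1, h2, h3⟩ := FF_inj h n _ hH
  have hS := stop_of q h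
  set Lb := L.map p with hLb
  let ψ : I → (T →* Gb) := fun i => p.comp (π i)
  have hρ : ∀ (u : Fin n → ZMod 2), ∀ m ∈ Mn h n,
      (p.comp ((Pi.evalMonoidHom (fun _ => G0) u).comp (Tn h n).subtype)) m = 1 := by
    rintro u m ⟨c, hc, _⟩
    change p (m.1 u) = 1
    rw [hc, q.ker]
    unfold zz
    split_ifs
    · left; rfl
    · right; rfl
  let ρ : (Fin n → ZMod 2) → (Hn h n →* Gb) := fun u =>
    QuotientGroup.lift (Mn h n) (p.comp ((Pi.evalMonoidHom (fun _ => G0) u).comp (Tn h n).subtype)) (hρ u)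
  let φ : (Fin n → ZMod 2) → (T →* Gb) := fun u => (ρ u).comp f
  have hρmk : ∀ (u : Fin n → ZMod 2) (g : Tn h n), ρ u (QuotientGroup.mk g) = p (g.1 u) := fun _ _ => rfl
  have hφgood : ∀ u, Lb ≤ (φ u).range := by
    rintro u _ ⟨l, hl, rfl⟩
    obtain ⟨t, ht⟩ := hf (QuotientGroup.mk ⟨fun _ => l, mem_Tn_of_L h n _ (fun _ => hl)⟩)
    refine ⟨t, ?_⟩
    change ρ u (f t) = p l
    rw [ht, hρmk]
  have hψgood : ∀ i (t : T), ψ i t ≠ 1 → Lb ≤ (ψ i).range := by
    intro i t ht
    have e : (ψ i).range = (π i).range.map p := MonoidHom.range_comp _ _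
    rcases h.n1 _ (h1 i) with h4 | h4 | h4 | h4
    · exfalso
      apply ht
      have h5 : π i t ∈ (π i).range := ⟨t, rfl⟩
      rw [h4, Subgroup.mem_bot] at h5
      change p (π i t) = 1
      rw [h5, map_one]
    · exfalso
      apply ht
      have h5 : π i t ∈ (π i).range := ⟨t, rfl⟩
      rw [h4] at h5
      exact (q.ker _).2 (h.mem_zp h5)
    · rw [e, h4]
    · rw [e, h4]
      exact Subgroup.map_mono le_top
  have hψgood' : ∀ i (K : Subgroup T), K.map (ψ i) ≠ ⊥ → Lb ≤ (ψ i).range := by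
    intro i K hK
    by_contra hcon
    apply hK
    rw [eq_bot_iff]
    rintro _ ⟨k, _, rfl⟩
    by_contra h4
    exact hcon (hψgood i k h4)
  have hzc : ∀ g : G0, p g = 1 → ∀ s : G0, s * g = g * s := by
    intro g hg s
    rcases (q.ker g).1 hg with rfl | rfl
    · simp
    · exact h.zc s
  have F3b : ∀ (φ' : T →* Gb) (K : Subgroup T) (i : I), IsK Lb φ' K → ¬ IsK Lb (ψ i) K →
      ∀ k ∈ K, π i k = 1 := by
    intro φ' K i hK hnot k hk
    have h4 : K.map (ψ i) = ⊥ := by
      by_contra h5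
      exact hnot (N4 hS hK (hψgood' i K h5) h5)
    have h5 : ∀ k ∈ K, ψ i k = 1 := by
      intro k hk
      have : ψ i k ∈ K.map (ψ i) := ⟨k, hk, rfl⟩
      rwa [h4, Subgroup.mem_bot] at this
    have h6 : K ≤ (π i).ker := by
      rw [← hK.perf hS, Subgroup.commutator_le]
      intro a ha b hb
      rw [MonoidHom.mem_ker, map_commutatorElement, commutatorElement_eq_one_iff_mul_comm]
      exact hzc _ (h5 b hb) _
    exact h6 hk
  have F1 : ∀ (φ' : T →* Gb) (K : Subgroup T), IsK Lb φ' K → ∃ i, IsK Lb (ψ i) K := by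
    intro φ' K hK
    by_contra hcon
    push Not at hcon
    have h4 : K = ⊥ := by
      rw [eq_bot_iff]
      intro k hk
      exact h2 k (fun i => F3b φ' K i hK (hcon i) k hk)
    have h5 := hK.map_eq hS
    rw [h4, Subgroup.map_bot] at h5
    exact hS.ne h5.symm
  have F2 : ∀ (φ' : T →* Gb) (K : Subgroup T), IsK Lb φ' K → ∃ k, k ∈ K ∧
      ∀ ψ' : T →* Gb, IsK Lb ψ' K → ψ' k ≠ 1 ∧ ψ' (k * k) = 1 := by
    intro φ' K hK
    obtain ⟨x, hx, hxx⟩ := h.x
    have hpx : p x ≠ 1 := by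
      intro h4
      rcases (q.ker x).1 h4 with rfl | rfl
      · rw [one_mul] at hxx; exact h.z1 hxx.symm
      · rw [h.z2] at hxx; exact h.z1 hxx.symm
    obtain ⟨k, hk, hkx⟩ := hK.surj hS (l := p x) ⟨x, hx, rfl⟩
    refine ⟨k, hk, ?_⟩
    intro ψ' hψ'
    constructor
    · intro h4
      apply hpx
      rw [← hkx]
      exact N5 hS hψ' hK hk h4
    · apply N5 hS hK hψ' (K.mul_mem hk hk)
      rw [map_mul, hkx, ← map_mul, hxx]
      exact (q.ker z).2 (Or.inr rfl)
  have key : ∀ y : G0, p y ∈ Lb → p y ≠ 1 → p (y * y) = 1 → y * y = z := by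
    intro y hy1 hy2 hy3
    have hyL : y ∈ L := (q.mem_iff h y).1 hy1
    rcases (q.ker _).1 hy3 with h4 | h4
    · exfalso
      apply hy2
      exact (q.ker y).2 (h.inv y hyL h4)
    · exact h4
  have F3a : ∀ (K : Subgroup T) (k : T) (i : I), k ∈ K →
      (∀ ψ' : T →* Gb, IsK Lb ψ' K → ψ' k ≠ 1 ∧ ψ' (k * k) = 1) → IsK Lb (ψ i) K →
      π i (k * k) = z := by
    intro K k i hk hQ hK
    rw [map_mul]
    apply key
    · exact hK.mem hS hk
    · exact (hQ _ hK).1
    · have := (hQ _ hK).2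
      change p (π i (k * k)) = 1 at this
      rwa [map_mul] at this
  -- the special component
  let one : Fin n → ZMod 2 := fun _ => 1
  obtain ⟨K1, hK1⟩ := exists_IsK hS (φ one) (hφgood one)
  have F4a : ∀ (φ' : T →* Gb) (K : Subgroup T), IsK Lb φ' K → (∀ u, ¬ IsK Lb (φ u) K) →
      ∀ k ∈ K, f k = 1 := by
    intro φ' K hK hnot k hk
    have h5 : ∀ u, ∀ k ∈ K, φ u k = 1 := by
      intro u k hk
      have h4 : K.map (φ u) = ⊥ := by
        by_contra h5
        exact hnot u (N4 hS hK (hφgood u) h5)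
      have : φ u k ∈ K.map (φ u) := ⟨k, hk, rfl⟩
      rwa [h4, Subgroup.mem_bot] at this
    have h6 : K ≤ f.ker := by
      rw [← hK.perf hS, Subgroup.commutator_le]
      intro a ha b hb
      rw [MonoidHom.mem_ker, map_commutatorElement, commutatorElement_eq_one_iff_mul_comm]
      obtain ⟨ga, hga⟩ := QuotientGroup.mk_surjective (f a)
      obtain ⟨gb, hgb⟩ := QuotientGroup.mk_surjective (f b)
      rw [← hga, ← hgb]
      have : ga * gb = gb * ga := by
        apply Subtype.ext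
        funext u
        apply hzc
        have := h5 u b hb
        change ρ u (f b) = 1 at this
        rw [← hgb] at this
        exact this
      change ((ga * gb : Tn h n) : Hn h n) = ((gb * ga : Tn h n) : Hn h n)
      rw [this]
    exact h6 hk
  have F4c : ∀ u, u ≠ one → ∀ k ∈ K1, φ u k = 1 := by
    intro u hu k hk
    let Y : Subgroup T :=
      { carrier := {t | ∃ g : Tn h n, f t = QuotientGroup.mk g ∧ ∀ u, u ≠ one → g.1 u = 1}
        mul_mem' := by
          rintro a b ⟨g, hg, hg'⟩ ⟨g1, hg1, hg1'⟩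
          refine ⟨g * g1, ?_, ?_⟩
          · rw [map_mul, hg, hg1]; rfl
          · intro u hu
            change g.1 u * g1.1 u = 1
            rw [hg' u hu, hg1' u hu, one_mul]
        one_mem' := ⟨1, by rw [map_one]; rfl, fun u _ => rfl⟩
        inv_mem' := by
          rintro a ⟨g, hg, hg'⟩
          refine ⟨g⁻¹, ?_, ?_⟩
          · rw [map_inv, hg]; rfl
          · intro u hu
            change (g.1 u)⁻¹ = 1
            rw [hg' u hu, inv_one] }
    have hY : Y.Normal := by
      constructor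
      rintro a ⟨g, hg, hg'⟩ t
      obtain ⟨g1, hg1⟩ := QuotientGroup.mk_surjective (f t)
      refine ⟨g1 * g * g1⁻¹, ?_, ?_⟩
      · rw [map_mul, map_mul, map_inv, hg, ← hg1]; rfl
      · intro u hu
        change g1.1 u * g.1 u * (g1.1 u)⁻¹ = 1
        rw [hg' u hu, mul_one, mul_inv_cancel]
    have hYL : Lb ≤ Y.map (φ one) := by
      rintro _ ⟨l, hl, rfl⟩
      have hmem : (fun u => if u = one then l else 1) ∈ Tn h n := by
        apply mem_Tn_of_L
        intro u
        split_ifs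
        · exact hl
        · exact L.one_mem
      obtain ⟨t, ht⟩ := hf (QuotientGroup.mk ⟨_, hmem⟩)
      refine ⟨t, ⟨_, ht, ?_⟩, ?_⟩
      · intro u hu
        simp [hu]
      · change ρ one (f t) = p l
        rw [ht, hρmk]
        simp
    obtain ⟨g, hg, hg'⟩ := hK1.2.2 Y hY hYL hk
    change ρ u (f k) = 1
    rw [hg, hρmk, hg' u hu, map_one]
  have F4b : ∀ k, k ∈ K1 → (∀ ψ' : T →* Gb, IsK Lb ψ' K1 → ψ' k ≠ 1 ∧ ψ' (k * k) = 1) →
      f (k * k) ≠ 1 := by
    intro k hk hQ hf1
    obtain ⟨g, hg⟩ := QuotientGroup.mk_surjective (f k)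
    have hφg : ∀ u, φ u k = p (g.1 u) := by
      intro u
      change ρ u (f k) = _
      rw [← hg, hρmk]
    have hgone : g.1 one * g.1 one = z := by
      apply key
      · rw [← hφg]; exact hK1.mem hS hk
      · rw [← hφg]; exact (hQ _ hK1).1
      · rw [map_mul, ← hφg, ← map_mul]; exact (hQ _ hK1).2
    have hgoth : ∀ u, u ≠ one → g.1 u * g.1 u = 1 := by
      intro u hu
      have h4 := F4c u hu k hk
      rw [hφg, q.ker] at h4
      rcases h4 with h4 | h4
      · rw [h4, one_mul]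
      · rw [h4]; exact h.z2
    have h5 : ((g * g : Tn h n) : Hn h n) = 1 := by
      rw [map_mul, ← hg] at hf1
      exact hf1
    obtain ⟨c, hc, hsum⟩ := (QuotientGroup.eq_one_iff (g * g)).1 h5
    have hc' : ∀ u, g.1 u * g.1 u = zz z (c u) := hc
    have hc0 : ∀ u, u ≠ one → c u = 0 := by
      intro u hu
      apply zz_one h
      rw [← hc', hgoth u hu]
    rw [Finset.sum_eq_single one (fun u _ hu => hc0 u hu) (fun hx => absurd (Finset.mem_univ _) hx)] at hsum
    have := hc' one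
    rw [hsum, hgone] at this
    simp only [zz, if_true] at this
    exact h.z1 this
  -- outer element
  obtain ⟨o, ho⟩ : ∃ o : G0, o ∉ L := by
    by_contra hcon
    push Not at hcon
    exact h.ne (eq_top_iff.2 (fun x _ => hcon x))
  choose v hv using fun j : Fin n => hf (QuotientGroup.mk ⟨_, mem_Tn_coord h n o ho j⟩)
  have hvφ : ∀ u j, (φ u (v j) ∈ Lb ↔ u j = 0) := by
    intro u j
    change ρ u (f (v j)) ∈ Lb ↔ _
    rw [hv, hρmk, q.mem_iff h]
    by_cases hu : u j = 0
    · simp [hu]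
    · simp [hu, ho]
  have hψL : ∀ i t, (ψ i t ∈ Lb ↔ π i t ∈ L) := fun i t => q.mem_iff h (π i t)
  let Out : Subgroup T → Prop := fun K => ∃ i, IsK Lb (ψ i) K ∧ ∀ j, π i (v j) ∉ L
  have hz2 : ∀ x : ZMod 2, x ≠ 0 → x = 1 := by decide
  have hOut1 : ∀ K, Out K → ∀ u, IsK Lb (φ u) K → u = one := by
    rintro K ⟨i, hi, hij⟩ u hu
    funext j
    apply hz2
    intro h0
    apply hij j
    rw [← hψL]
    exact N6 hS hu hi ((hvφ u j).2 h0)
  -- elements z_K
  have hzK : ∀ K, Out K → ∃ t : T, (∀ i, IsK Lb (ψ i) K → π i t = z) ∧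
      (∀ i, ¬ IsK Lb (ψ i) K → π i t = 1) ∧ (K ≠ K1 → f t = 1) ∧ (K = K1 → f t ≠ 1) := by
    rintro K hOut
    obtain ⟨i, hi, hij⟩ := hOut
    obtain ⟨k, hk, hQ⟩ := F2 _ K hi
    refine ⟨k * k, fun i' hi' => F3a K k i' hk hQ hi', fun i' hi' => F3b _ K i' hi hi' _ (K.mul_mem hk hk),
      ?_, ?_⟩
    · intro hne
      apply F4a _ K hi _ _ (K.mul_mem hk hk)
      intro u hu
      have h4 := hOut1 K ⟨i, hi, hij⟩ u hu
      rw [h4] at hu
      exact hne (hu.unique hK1)
    · intro heq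
      subst heq
      exact F4b k hk hQ
  have hprod : ∀ S : Finset (Subgroup T), (∀ K ∈ S, Out K) → ∃ w : T,
      (∀ i, (∃ K ∈ S, IsK Lb (ψ i) K) → π i w = z) ∧
      (∀ i, (¬ ∃ K ∈ S, IsK Lb (ψ i) K) → π i w = 1) ∧
      (K1 ∉ S → f w = 1) ∧ (K1 ∈ S → f w ≠ 1) := by
    intro S
    induction S using Finset.induction_on with
    | empty =>
      intro _
      refine ⟨1, ?_, fun i _ => map_one _, fun _ => map_one _, ?_⟩
      · rintro i ⟨K, hK, _⟩
        simp at hK
      · intro hK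
        simp at hK
    | insert K S hKS ih =>
      intro hS'
      obtain ⟨w, hw1, hw2, hw3, hw4⟩ := ih (fun K hK => hS' K (Finset.mem_insert_of_mem hK))
      obtain ⟨t, ht1, ht2, ht3, ht4⟩ := hzK K (hS' K (Finset.mem_insert_self K S))
      refine ⟨t * w, ?_, ?_, ?_, ?_⟩
      · rintro i ⟨K', hK', hi⟩
        rcases Finset.mem_insert.1 hK' with rfl | hK'
        · have : ¬ ∃ K ∈ S, IsK Lb (ψ i) K := by
            rintro ⟨K'', hK'', hi''⟩
            rw [hi''.unique hi] at hK''
            exact hKS hK''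
          rw [map_mul, ht1 i hi, hw2 i this, mul_one]
        · have : ¬ IsK Lb (ψ i) K := by
            intro hi''
            rw [hi''.unique hi] at hKS
            exact hKS hK'
          rw [map_mul, ht2 i this, hw1 i ⟨K', hK', hi⟩, one_mul]
      · intro i hi
        have e1 : ¬ IsK Lb (ψ i) K := fun h4 => hi ⟨K, Finset.mem_insert_self K S, h4⟩
        have e2 : ¬ ∃ K ∈ S, IsK Lb (ψ i) K := by
          rintro ⟨K', hK', h4⟩
          exact hi ⟨K', Finset.mem_insert_of_mem hK', h4⟩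
        rw [map_mul, ht2 i e1, hw2 i e2, one_mul]
      · intro hK1
        rw [Finset.mem_insert, not_or] at hK1
        rw [map_mul, ht3 (fun h4 => hK1.1 h4.symm), hw3 hK1.2, one_mul]
      · intro hK1
        by_cases hKK : K = K1
        · have : K1 ∉ S := by rw [← hKK]; exact hKS
          rw [map_mul, hw3 this, mul_one]
          exact ht4 hKK
        · have : K1 ∈ S := by
            rcases Finset.mem_insert.1 hK1 with h4 | h4
            · exact absurd h4.symm hKK
            · exact h4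
          rw [map_mul, ht3 hKK, one_mul]
          exact hw4 this
  haveI := Fintype.ofFinite (Subgroup T)
  obtain ⟨w, hw1, hw2, _, hw4⟩ := hprod (Finset.univ.filter Out) (fun K hK => (Finset.mem_filter.1 hK).2)
  have hOutK1 : Out K1 := by
    obtain ⟨i, hi⟩ := F1 _ K1 hK1
    refine ⟨i, hi, ?_⟩
    intro j hj
    rw [← hψL] at hj
    have := (hvφ one j).1 (N6 hS hi hK1 hj)
    exact absurd this (by decide)
  apply hw4 (Finset.mem_filter.2 ⟨Finset.mem_univ _, hOutK1⟩)
  apply h3 v w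
  · intro i hi
    apply hw1 i
    have hgood : Lb ≤ (ψ i).range := by
      apply hψgood i (v ⟨0, hn⟩)
      intro h4
      apply hi ⟨0, hn⟩
      rw [← hψL, h4]
      exact Lb.one_mem
    obtain ⟨K, hK⟩ := exists_IsK hS (ψ i) hgood
    exact ⟨K, Finset.mem_filter.2 ⟨Finset.mem_univ _, i, hK, hi⟩, hK⟩
  · rintro i ⟨j, hj⟩
    apply hw2 i
    rintro ⟨K, hK, hi⟩
    obtain ⟨i', hi', hij'⟩ := (Finset.mem_filter.1 hK).2
    apply hij' j
    rw [← hψL]
    exact N6 hS hi hi' ((hψL i _).2 hj)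

end Pool.Agent.Helper476.C
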