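import Pool.Agent.Helper476.C5

set_option autoImplicit false
set_option linter.style.haveILetI false

namespace Pool.Agent.Helper476.C

open Function
open scoped commutatorElement Matrix MatrixGroups

abbrev S7 : Type := Matrix.SpecialLinearGroup (Fin 2) (ZMod 7)

instance : Fact (Nat.Prime 7) := ⟨by norm_num⟩

/-- matrices of determinant `1` or `-1` -/
def G7 : Subgroup (GL (Fin 2) (ZMod 7)) where
  carrier := {g | g.1.det = 1 ∨ g.1.det = -1}
  mul_mem' := by
    intro a b ha hb
    change (a.1 * b.1).det = 1 ∨ (a.1 * b.1).det = -1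
    rw [Matrix.det_mul]
    rcases ha with ha | ha <;> rcases hb with hb | hb <;> rw [ha, hb] <;> simp
  one_mem' := by
    left
    change (1 : Matrix (Fin 2) (Fin 2) (ZMod 7)).det = 1
    simp
  inv_mem' := by
    intro a ha
    have h : a.1.det * (a⁻¹).1.det = 1 := by
      rw [← Matrix.det_mul]
      have : a.1 * (a⁻¹).1 = 1 := by simp
      rw [this, Matrix.det_one]
    rcases ha with ha | ha
    · left
      rwa [ha, one_mul] at h
    · right
      rw [ha, neg_one_mul] at h
      rw [← h, neg_neg]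

def dt (g : G7) : ZMod 7 := g.1.1.det

theorem dt_mul (a b : G7) : dt (a * b) = dt a * dt b := by
  change (a.1.1 * b.1.1).det = _
  rw [Matrix.det_mul]; rfl

theorem dt_or (a : G7) : dt a = 1 ∨ dt a = -1 := a.2

theorem dt_one : dt 1 = 1 := by
  change (1 : Matrix (Fin 2) (Fin 2) (ZMod 7)).det = 1
  simp

def L7 : Subgroup G7 where
  carrier := {g | dt g = 1}
  mul_mem' := by
    intro a b ha hb
    change dt (a * b) = 1
    rw [dt_mul, ha, hb, one_mul]
  one_mem' := dt_one
  inv_mem' := by
    intro a ha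
    have h : dt (a * a⁻¹) = 1 := by rw [mul_inv_cancel]; exact dt_one
    rw [dt_mul, ha, one_mul] at h
    exact h

theorem mem_L7 (g : G7) : g ∈ L7 ↔ dt g = 1 := Iff.rfl

def z7 : G7 := ⟨-1, by
  left
  change (-1 : Matrix (Fin 2) (Fin 2) (ZMod 7)).det = 1
  rw [Matrix.det_neg]; simp⟩

theorem G7_ext {a b : G7} (h : a.1.1 = b.1.1) : a = b := Subtype.ext (Units.ext h)

/-- the embedding of SL -/
def io : S7 →* G7 where
  toFun A := ⟨Matrix.SpecialLinearGroup.toGL A, Or.inl A.2⟩
  map_one' := by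
    apply G7_ext
    rfl
  map_mul' A B := by
    apply G7_ext
    rfl

theorem io_range : io.range = L7 := by
  ext g
  constructor
  · rintro ⟨A, rfl⟩
    exact A.2
  · intro hg
    exact ⟨⟨g.1.1, hg⟩, G7_ext rfl⟩

theorem S7_perf : commutator S7 = ⊤ := by
  have h1 : (2 : ZMod 7) ≠ 0 := by decide
  have h2 : (2 : ZMod 7) ^ 2 ≠ 1 := by decide
  exact Matrix.SL2.commutator_eq_top h1 h2

theorem L7_perf : ⁅L7, L7⁆ = L7 := by
  have h1 : L7 = (⊤ : Subgroup S7).map io := by rw [← io_range, MonoidHom.range_eq_map]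
  have h2 : ⁅(⊤ : Subgroup S7), (⊤ : Subgroup S7)⁆ = ⊤ := S7_perf
  rw [h1, ← Subgroup.map_commutator, h2]

theorem center_S7 (A : S7) (hA : A ∈ Subgroup.center S7) : io A = 1 ∨ io A = z7 := by
  rw [Matrix.SpecialLinearGroup.mem_center_iff] at hA
  obtain ⟨r, hr, hA⟩ := hA
  have h7 : ∀ r : ZMod 7, r ^ 2 = 1 → r = 1 ∨ r = -1 := by decide
  rw [Fintype.card_fin] at hr
  rcases h7 r hr with rfl | rfl
  · left
    apply G7_ext
    change A.1 = 1
    rw [← hA]; simp
  · right
    apply G7_ext
    change A.1 = -1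
    rw [← hA]
    ext i j
    fin_cases i <;> fin_cases j <;> simp

theorem normal_S7 (N : Subgroup S7) [N.Normal] : N ≤ Subgroup.center S7 ∨ N = ⊤ := by
  have hs : IsSimpleGroup (Matrix.ProjectiveSpecialLinearGroup (Fin 2) (ZMod 7)) := by
    apply Matrix.ProjectiveSpecialLinearGroup.rank_two_simple
    simp
  let q : S7 →* (S7 ⧸ Subgroup.center S7) := QuotientGroup.mk' _
  have hq : Surjective q := QuotientGroup.mk'_surjective _
  haveI : (N.map q).Normal := Subgroup.Normal.map inferInstance _ hq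
  rcases hs.eq_bot_or_eq_top_of_normal (N.map q) inferInstance with h | h
  · left
    intro x hx
    have : q x ∈ N.map q := ⟨x, hx, rfl⟩
    rw [h, Subgroup.mem_bot] at this
    exact (QuotientGroup.eq_one_iff x).1 this
  · right
    rw [eq_top_iff, ← S7_perf]
    change ⁅(⊤ : Subgroup S7), (⊤ : Subgroup S7)⁆ ≤ N
    rw [Subgroup.commutator_le]
    intro a _ b _
    -- a = n * c with c central
    have ha : q a ∈ N.map q := by rw [h]; exact Subgroup.mem_top _
    obtain ⟨n, hn, hna⟩ := ha
    have hc : n⁻¹ * a ∈ Subgroup.center S7 := QuotientGroup.eq.1 hna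
    have h1 : ⁅a, b⁆ = ⁅n, b⁆ := by
      have h2 := Subgroup.mem_center_iff.1 hc b
      have h3 : a = n * (n⁻¹ * a) := by group
      have h4 : (n⁻¹ * a) * b * (n⁻¹ * a)⁻¹ = b := by rw [← h2, mul_inv_cancel_right]
      calc ⁅a, b⁆ = n * ((n⁻¹ * a) * b * (n⁻¹ * a)⁻¹) * n⁻¹ * b⁻¹ := by
            rw [commutatorElement_def]; group
        _ = n * b * n⁻¹ * b⁻¹ := by rw [h4]
        _ = _ := (commutatorElement_def _ _).symm
    rw [h1, commutatorElement_def]
    have h5 := (inferInstance : N.Normal).conj_mem n⁻¹ (N.inv_mem hn) b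
    have h6 := N.mul_mem hn h5
    have h7 : n * b * n⁻¹ * b⁻¹ = n * (b * n⁻¹ * b⁻¹) := by group
    rw [h7]; exact h6

theorem le_of_center (N : Subgroup G7) (hN : ∀ n ∈ N, n = 1 ∨ n = z7) :
    N = ⊥ ∨ N = Subgroup.zpowers z7 := by
  by_cases hz : z7 ∈ N
  · right
    apply le_antisymm
    · intro n hn
      rcases hN n hn with rfl | rfl
      · exact Subgroup.one_mem _
      · exact Subgroup.mem_zpowers _
    · rw [Subgroup.zpowers_le]; exact hz
  · left
    rw [eq_bot_iff]
    intro n hn
    rcases hN n hn with rfl | rfl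
    · exact Subgroup.one_mem _
    · exact absurd hn hz

theorem n2_7 (N : Subgroup G7) (hNL : N ≤ L7) (hN : ∀ l ∈ L7, ∀ n ∈ N, l * n * l⁻¹ ∈ N) :
    N = ⊥ ∨ N = Subgroup.zpowers z7 ∨ N = L7 := by
  haveI : (N.comap io).Normal := by
    constructor
    intro A hA B
    change io (B * A * B⁻¹) ∈ N
    rw [map_mul, map_mul, map_inv]
    apply hN _ _ _ hA
    rw [← io_range]; exact ⟨B, rfl⟩
  have hNr : ∀ n ∈ N, ∃ A : S7, io A = n := by
    intro n hn
    have := hNL hn
    rw [← io_range] at this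
    exact this
  rcases normal_S7 (N.comap io) with h | h
  · have h1 : ∀ n ∈ N, n = 1 ∨ n = z7 := by
      intro n hn
      obtain ⟨A, rfl⟩ := hNr n hn
      exact center_S7 A (h hn)
    rcases le_of_center N h1 with h2 | h2
    · left; exact h2
    · right; left; exact h2
  · right; right
    apply le_antisymm hNL
    rw [← io_range]
    rintro _ ⟨A, rfl⟩
    have : A ∈ N.comap io := by rw [h]; exact Subgroup.mem_top A
    exact this

theorem z7_central (g : G7) : g * z7 = z7 * g := by
  apply G7_ext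
  change g.1.1 * (-1) = (-1) * g.1.1
  simp

theorem idx7 (a b : G7) : a * b ∈ L7 ↔ (a ∈ L7 ↔ b ∈ L7) := by
  rw [mem_L7, mem_L7, mem_L7, dt_mul]
  have h : ((-1 : ZMod 7) ≠ 1) := by decide
  rcases dt_or a with ha | ha <;> rcases dt_or b with hb | hb <;> rw [ha, hb] <;> simp [h]

theorem centralizer7 (n : G7) (hn : ∀ l ∈ L7, n * l = l * n) : n = 1 ∨ n = z7 := by
  let A : S7 := ⟨!![1, 1; 0, 1], by simp [Matrix.det_fin_two]⟩
  let B : S7 := ⟨!![1, 0; 1, 1], by simp [Matrix.det_fin_two]⟩
  have hA := hn (io A) (by rw [← io_range]; exact ⟨A, rfl⟩)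
  have hB := hn (io B) (by rw [← io_range]; exact ⟨B, rfl⟩)
  have hA' : n.1.1 * !![1, 1; 0, 1] = !![1, 1; 0, 1] * n.1.1 := congrArg (fun g : G7 => g.1.1) hA
  have hB' : n.1.1 * !![1, 0; 1, 1] = !![1, 0; 1, 1] * n.1.1 := congrArg (fun g : G7 => g.1.1) hB
  have e1 := congrFun (congrFun hA' 0) 0
  have e2 := congrFun (congrFun hA' 0) 1
  have e3 := congrFun (congrFun hB' 0) 0
  simp [Matrix.mul_apply, Fin.sum_univ_two] at e1 e2 e3
  have hdet := dt_or n
  unfold dt at hdet
  rw [Matrix.det_fin_two] at hdet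
  have h7 : ∀ r : ZMod 7, (r * r = 1 ∨ r * r = -1) → r = 1 ∨ r = -1 := by decide
  have e4 : n.1.1 1 0 = 0 := e1
  have e5 : n.1.1 0 1 = 0 := e3
  have e6 : n.1.1 0 0 = n.1.1 1 1 := by
    rw [e5] at e2
    simpa using e2
  rw [e4, e5, mul_zero, sub_zero, ← e6] at hdet
  rcases h7 _ hdet with h | h
  · left
    apply G7_ext
    ext i j
    fin_cases i <;> fin_cases j
    · simpa using h
    · simpa using e5
    · simpa using e4
    · simpa [← e6] using h
  · right
    apply G7_ext
    ext i j
    fin_cases i <;> fin_cases j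
    · change n.1.1 0 0 = (-1 : Matrix (Fin 2) (Fin 2) (ZMod 7)) 0 0
      simpa using h
    · change n.1.1 0 1 = (-1 : Matrix (Fin 2) (Fin 2) (ZMod 7)) 0 1
      simpa using e5
    · change n.1.1 1 0 = (-1 : Matrix (Fin 2) (Fin 2) (ZMod 7)) 1 0
      simpa using e4
    · change n.1.1 1 1 = (-1 : Matrix (Fin 2) (Fin 2) (ZMod 7)) 1 1
      simpa [← e6] using h

theorem n1_7 (N : Subgroup G7) (hN : N.Normal) :
    N = ⊥ ∨ N = Subgroup.zpowers z7 ∨ N = L7 ∨ N = ⊤ := by
  have hLn : ∀ g : G7, ∀ l ∈ L7, g * l * g⁻¹ ∈ L7 := by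
    intro g l hl
    rw [idx7, idx7]
    have : g⁻¹ ∈ L7 ↔ g ∈ L7 := inv_mem_iff
    rw [this]
    exact ⟨fun h1 => h1.2 hl, fun h1 => ⟨fun _ => hl, fun _ => h1⟩⟩
  by_cases hL : L7 ≤ N
  · right; right
    by_cases hNL : N = L7
    · left; exact hNL
    · right
      have : ∃ o ∈ N, o ∉ L7 := by
        by_contra hcon
        push Not at hcon
        exact hNL (le_antisymm hcon hL)
      obtain ⟨o, ho, hoL⟩ := this
      rw [eq_top_iff]
      intro g _
      by_cases hg : g ∈ L7
      · exact hL hg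
      · have h1 : g * o⁻¹ ∈ L7 := by
          rw [idx7]
          have : o⁻¹ ∈ L7 ↔ o ∈ L7 := inv_mem_iff
          rw [this]
          exact ⟨fun h2 => absurd h2 hg, fun h2 => absurd h2 hoL⟩
        have h3 := N.mul_mem (hL h1) ho
        rwa [inv_mul_cancel_right] at h3
  · have h0 : ∀ n ∈ N ⊓ L7, n = 1 ∨ n = z7 := by
      rcases n2_7 (N ⊓ L7) inf_le_right (fun l hl n hn =>
        ⟨hN.conj_mem n hn.1 l, hLn l n hn.2⟩) with h | h | h
      · intro n hn
        rw [h, Subgroup.mem_bot] at hn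
        left; exact hn
      · intro n hn
        rw [h] at hn
        obtain ⟨k, rfl⟩ := Subgroup.mem_zpowers_iff.1 hn
        have hzz : z7 * z7 = 1 := by
          apply G7_ext
          change (-1 : Matrix (Fin 2) (Fin 2) (ZMod 7)) * (-1) = 1
          simp
        have h2 : z7 ^ (2 : ℤ) = 1 := by rw [zpow_ofNat, pow_two]; exact hzz
        rcases Int.even_or_odd k with ⟨m, rfl⟩ | ⟨m, rfl⟩
        · left
          rw [← two_mul, zpow_mul, h2, one_zpow]
        · right
          rw [zpow_add, zpow_mul, h2, one_zpow, one_mul, zpow_one]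
      · exfalso
        apply hL
        rw [← h]; exact inf_le_left
    have h1 : ∀ n ∈ N, n = 1 ∨ n = z7 := by
      intro n hn
      apply centralizer7
      have h2 : ∀ a ∈ L7, ⁅n, a⁆ ∈ Subgroup.center G7 := by
        intro a ha
        have h3 : ⁅n, a⁆ ∈ N ⊓ L7 := by
          rw [commutatorElement_def]
          constructor
          · have h5 := hN.conj_mem n⁻¹ (N.inv_mem hn) a
            have h6 := N.mul_mem hn h5
            have h7 : n * a * n⁻¹ * a⁻¹ = n * (a * n⁻¹ * a⁻¹) := by group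
            rw [h7]; exact h6
          · exact L7.mul_mem (hLn n a ha) (L7.inv_mem ha)
        rw [Subgroup.mem_center_iff]
        intro g
        rcases h0 _ h3 with h4 | h4
        · rw [h4]; simp
        · rw [h4]; exact z7_central g
      -- n commutes with commutators
      have h3 : L7 ≤ Subgroup.centralizer {n} := by
        rw [← L7_perf, Subgroup.commutator_le]
        intro a ha b hb
        rw [Subgroup.mem_centralizer_singleton_iff]
        have c1 := Subgroup.mem_center_iff.1 (h2 a ha)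
        have c2 := Subgroup.mem_center_iff.1 (h2 b hb)
        have e1 : n * a * n⁻¹ = ⁅n, a⁆ * a := by rw [commutatorElement_def]; group
        have e2 : n * b * n⁻¹ = ⁅n, b⁆ * b := by rw [commutatorElement_def]; group
        have e3 : n * ⁅a, b⁆ * n⁻¹ = ⁅n * a * n⁻¹, n * b * n⁻¹⁆ := by
          simp only [commutatorElement_def]; group
        have e4 : ⁅⁅n, a⁆ * a, ⁅n, b⁆ * b⁆ = ⁅a, b⁆ := by
          generalize ⁅n, a⁆ = u at c1
          generalize ⁅n, b⁆ = w at c2
          simp only [commutatorElement_def, mul_inv_rev]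
          calc u * a * (w * b) * (a⁻¹ * u⁻¹) * (b⁻¹ * w⁻¹)
              = u * (a * w) * b * a⁻¹ * u⁻¹ * b⁻¹ * w⁻¹ := by group
            _ = u * (w * a) * b * a⁻¹ * u⁻¹ * b⁻¹ * w⁻¹ := by rw [c2 a]
            _ = (u * (w * a * b * a⁻¹)) * u⁻¹ * b⁻¹ * w⁻¹ := by group
            _ = ((w * a * b * a⁻¹) * u) * u⁻¹ * b⁻¹ * w⁻¹ := by rw [c1 (w * a * b * a⁻¹)]
            _ = (w * (a * b * a⁻¹ * b⁻¹)) * w⁻¹ := by group
            _ = ((a * b * a⁻¹ * b⁻¹) * w) * w⁻¹ := by rw [c2 (a * b * a⁻¹ * b⁻¹)]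
            _ = a * b * a⁻¹ * b⁻¹ := by group
        rw [e1, e2, e4] at e3
        have e5 := mul_inv_eq_iff_eq_mul.1 e3
        exact e5.symm
      intro l hl
      exact (Subgroup.mem_centralizer_singleton_iff.1 (h3 hl)).symm
    rcases le_of_center N h1 with h2 | h2
    · left; exact h2
    · right; left; exact h2

theorem hyp7 : Hyp L7 z7 where
  fin := inferInstance
  zL := by
    change (-1 : Matrix (Fin 2) (Fin 2) (ZMod 7)).det = 1
    rw [Matrix.det_neg]; simp
  z1 := by
    intro h
    have h1 : (-1 : Matrix (Fin 2) (Fin 2) (ZMod 7)) = 1 := congrArg (fun g : G7 => g.1.1) h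
    have h2 := congrFun (congrFun h1 0) 0
    simp at h2
    revert h2
    decide
  z2 := by
    apply G7_ext
    change (-1 : Matrix (Fin 2) (Fin 2) (ZMod 7)) * (-1) = 1
    simp
  zc := z7_central
  idx := idx7
  ne := by
    intro h
    let D : G7 := ⟨⟨!![1, 0; 0, -1], !![1, 0; 0, -1], by
      ext i j; fin_cases i <;> fin_cases j <;> simp [Matrix.mul_apply, Fin.sum_univ_two], by
      ext i j; fin_cases i <;> fin_cases j <;> simp [Matrix.mul_apply, Fin.sum_univ_two]⟩, by
      right
      simp [Matrix.det_fin_two]⟩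
    have hD : D ∈ L7 := by rw [h]; exact Subgroup.mem_top _
    rw [mem_L7] at hD
    simp [dt, D, Matrix.det_fin_two] at hD
    revert hD
    decide
  n1 := n1_7
  n2 := n2_7
  perf := L7_perf
  inv := by
    intro y hy hyy
    have hyy' : y.1.1 * y.1.1 = 1 := congrArg (fun g : G7 => g.1.1) hyy
    have hdet : y.1.1.det = 1 := hy
    rw [Matrix.det_fin_two] at hdet
    have e1 := congrFun (congrFun hyy' 0) 0
    have e2 := congrFun (congrFun hyy' 0) 1
    have e3 := congrFun (congrFun hyy' 1) 0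
    have e4 := congrFun (congrFun hyy' 1) 1
    simp [Matrix.mul_apply, Fin.sum_univ_two] at e1 e2 e3 e4
    have key : ∀ a b c d : ZMod 7, a * a + b * c = 1 → a * b + b * d = 0 → c * a + d * c = 0 →
        c * b + d * d = 1 → a * d - b * c = 1 →
        (a = 1 ∧ b = 0 ∧ c = 0 ∧ d = 1) ∨ (a = -1 ∧ b = 0 ∧ c = 0 ∧ d = -1) := by
      intro a b c d h1 h2 h3 h4 h5
      by_cases ht : a + d = 0
      · exfalso
        have hd : d = -a := by linear_combination ht
        subst hd
        have : (2 : ZMod 7) = 0 := by linear_combination -h1 - h5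
        revert this; decide
      · have hb : b = 0 := by
          have : b * (a + d) = 0 := by linear_combination h2
          exact (mul_eq_zero.1 this).resolve_right ht
        have hc : c = 0 := by
          have : c * (a + d) = 0 := by linear_combination h3
          exact (mul_eq_zero.1 this).resolve_right ht
        subst hb; subst hc
        have h6 : a * a = 1 := by linear_combination h1
        have h7 : a * d = 1 := by linear_combination h5
        have h8 : d = a := by linear_combination (-d) * h6 + a * h7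
        subst h8
        have h9 : ∀ r : ZMod 7, r * r = 1 → r = 1 ∨ r = -1 := by decide
        rcases h9 _ h6 with h | h
        · left; exact ⟨h, rfl, rfl, h⟩
        · right; exact ⟨h, rfl, rfl, h⟩
    rcases key _ _ _ _ e1 e2 e3 e4 hdet with ⟨ha, hb, hc, hd⟩ | ⟨ha, hb, hc, hd⟩
    · left
      apply G7_ext
      ext i j
      fin_cases i <;> fin_cases j
      · simpa using ha
      · simpa using hb
      · simpa using hc
      · simpa using hd
    · right
      apply G7_ext
      ext i j
      fin_cases i <;> fin_cases j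
      · change y.1.1 0 0 = (-1 : Matrix (Fin 2) (Fin 2) (ZMod 7)) 0 0
        simpa using ha
      · change y.1.1 0 1 = (-1 : Matrix (Fin 2) (Fin 2) (ZMod 7)) 0 1
        simpa using hb
      · change y.1.1 1 0 = (-1 : Matrix (Fin 2) (Fin 2) (ZMod 7)) 1 0
        simpa using hc
      · change y.1.1 1 1 = (-1 : Matrix (Fin 2) (Fin 2) (ZMod 7)) 1 1
        simpa using hd
  x := by
    let A : S7 := ⟨!![0, 1; -1, 0], by simp [Matrix.det_fin_two]⟩
    refine ⟨io A, by rw [← io_range]; exact ⟨A, rfl⟩, ?_⟩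
    apply G7_ext
    change !![(0 : ZMod 7), 1; -1, 0] * !![(0 : ZMod 7), 1; -1, 0] = -1
    ext i j; fin_cases i <;> fin_cases j <;> simp [Matrix.mul_apply, Fin.sum_univ_two]

end Pool.Agent.Helper476.C
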