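import Mathlib

set_option autoImplicit false
set_option linter.style.haveILetI false

namespace Pool.Agent.Helper476.D

open Function

abbrev Cls := ∀ (G : Type) [Group G], Prop

def IsF (X : ∀ (G : Type) [Group G], Prop) : Prop :=
  (∀ (G : Type) [Group G], X G → Finite G) ∧
  (∀ (G H : Type) [Group G] [Group H] (f : G →* H),
    Function.Surjective f → X G → X H) ∧
  (∀ (G : Type) [Group G] (N₁ N₂ : Subgroup G) [N₁.Normal] [N₂.Normal],
    N₁ ⊓ N₂ = ⊥ → X (G ⧸ N₁) → X (G ⧸ N₂) → X G)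

section basic

variable {X : ∀ (G : Type) [Group G], Prop}

theorem R0q (hX : IsF X) (T : Type) [Group T] (N₁ N₂ : Subgroup T) [N₁.Normal] [N₂.Normal]
    (h1 : X (T ⧸ N₁)) (h2 : X (T ⧸ N₂)) : X (T ⧸ (N₁ ⊓ N₂)) := by
  let q : T →* T ⧸ (N₁ ⊓ N₂) := QuotientGroup.mk' _
  have hq : Surjective q := QuotientGroup.mk'_surjective _
  haveI : (N₁.map q).Normal := Subgroup.Normal.map inferInstance _ hq
  haveI : (N₂.map q).Normal := Subgroup.Normal.map inferInstance _ hq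
  refine hX.2.2 _ (N₁.map q) (N₂.map q) ?_ ?_ ?_
  · rw [eq_bot_iff]
    rintro _ ⟨⟨a, ha, rfl⟩, ⟨b, hb, hab⟩⟩
    have h3 : b⁻¹ * a ∈ N₁ ⊓ N₂ := QuotientGroup.eq.1 hab
    have h4 : a ∈ N₂ := by
      have := N₂.mul_mem hb h3.2
      rwa [mul_inv_cancel_left] at this
    exact (QuotientGroup.eq_one_iff a).2 ⟨ha, h4⟩
  · refine hX.2.1 _ _ (QuotientGroup.lift N₁ ((QuotientGroup.mk' (N₁.map q)).comp q) ?_) ?_ h1
    · intro x hx
      exact (QuotientGroup.eq_one_iff (q x)).2 ⟨x, hx, rfl⟩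
    · intro y
      obtain ⟨z, rfl⟩ := QuotientGroup.mk'_surjective _ y
      obtain ⟨x, rfl⟩ := hq z
      exact ⟨QuotientGroup.mk x, rfl⟩
  · refine hX.2.1 _ _ (QuotientGroup.lift N₂ ((QuotientGroup.mk' (N₂.map q)).comp q) ?_) ?_ h2
    · intro x hx
      exact (QuotientGroup.eq_one_iff (q x)).2 ⟨x, hx, rfl⟩
    · intro y
      obtain ⟨z, rfl⟩ := QuotientGroup.mk'_surjective _ y
      obtain ⟨x, rfl⟩ := hq z
      exact ⟨QuotientGroup.mk x, rfl⟩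

theorem Qker (hX : IsF X) {T Q : Type} [Group T] [Group Q] (p : T →* Q) (hp : Surjective p)
    (h : X Q) : X (T ⧸ p.ker) :=
  hX.2.1 _ _ (QuotientGroup.quotientKerEquivOfSurjective p hp).symm.toMonoidHom
    (QuotientGroup.quotientKerEquivOfSurjective p hp).symm.surjective h

theorem Qfac (hX : IsF X) {T G : Type} [Group T] [Group G] (N : Subgroup T) [N.Normal]
    (h : X (T ⧸ N)) (f : T →* G) (hf : Surjective f) (hN : ∀ t ∈ N, f t = 1) : X G := by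
  refine hX.2.1 _ _ (QuotientGroup.lift N f hN) ?_ h
  intro y
  obtain ⟨x, rfl⟩ := hf y
  exact ⟨QuotientGroup.mk x, rfl⟩

theorem R0hom (hX : IsF X) {T Q1 Q2 G : Type} [Group T] [Group Q1] [Group Q2] [Group G]
    (p1 : T →* Q1) (p2 : T →* Q2) (f : T →* G) (hp1 : Surjective p1) (hp2 : Surjective p2)
    (hf : Surjective f) (h1 : X Q1) (h2 : X Q2) (hk : ∀ t, p1 t = 1 → p2 t = 1 → f t = 1) :
    X G :=
  Qfac hX _ (R0q hX T p1.ker p2.ker (Qker hX p1 hp1 h1) (Qker hX p2 hp2 h2)) f hf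
    (fun t ht => hk t ht.1 ht.2)

theorem R0hom4 (hX : IsF X) {T Q1 Q2 Q3 Q4 G : Type} [Group T] [Group Q1] [Group Q2] [Group Q3]
    [Group Q4] [Group G]
    (p1 : T →* Q1) (p2 : T →* Q2) (p3 : T →* Q3) (p4 : T →* Q4) (f : T →* G)
    (hp1 : Surjective p1) (hp2 : Surjective p2) (hp3 : Surjective p3) (hp4 : Surjective p4)
    (hf : Surjective f) (h1 : X Q1) (h2 : X Q2) (h3 : X Q3) (h4 : X Q4)
    (hk : ∀ t, p1 t = 1 → p2 t = 1 → p3 t = 1 → p4 t = 1 → f t = 1) :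
    X G :=
  Qfac hX _ (R0q hX T (p1.ker ⊓ p2.ker) (p3.ker ⊓ p4.ker)
    (R0q hX T p1.ker p2.ker (Qker hX p1 hp1 h1) (Qker hX p2 hp2 h2))
    (R0q hX T p3.ker p4.ker (Qker hX p3 hp3 h3) (Qker hX p4 hp4 h4))) f hf
    (fun t ht => hk t ht.1.1 ht.1.2 ht.2.1 ht.2.2)

theorem triv_mem (hX : IsF X) {G : Type} [Group G] (hG : X G) (H : Type) [Group H]
    [Subsingleton H] : X H :=
  hX.2.1 G H 1 (fun _ => ⟨1, Subsingleton.elim _ _⟩) hG

end basic

/-- the join -/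
def Jn (X Y : ∀ (G : Type) [Group G], Prop) : ∀ (G : Type) [Group G], Prop := fun G _ =>
  ∃ (T Q1 Q2 : Type) (_ : Group T) (_ : Group Q1) (_ : Group Q2) (p1 : T →* Q1) (p2 : T →* Q2)
    (f : T →* G), Surjective p1 ∧ Surjective p2 ∧ Surjective f ∧ X Q1 ∧ Y Q2 ∧
    ∀ t, p1 t = 1 → p2 t = 1 → f t = 1

theorem Jn_form {X Y : ∀ (G : Type) [Group G], Prop} (hX : IsF X) (hY : IsF Y) : IsF (Jn X Y) := by
  refine ⟨?_, ?_, ?_⟩
  · rintro G _ ⟨T, Q1, Q2, _, _, _, p1, p2, f, hp1, hp2, hf, h1, h2, hk⟩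
    haveI := hX.1 Q1 h1
    haveI := hY.1 Q2 h2
    -- G is a quotient of the image in Q1 × Q2
    let r : T →* Q1 × Q2 := p1.prod p2
    haveI : Finite r.range := inferInstance
    haveI : Finite (T ⧸ r.ker) := Finite.of_equiv _ (QuotientGroup.quotientKerEquivRange r).symm.toEquiv
    refine Finite.of_surjective (QuotientGroup.lift r.ker f ?_) ?_
    · intro t ht
      have : r t = 1 := ht
      exact hk t (congrArg Prod.fst this) (congrArg Prod.snd this)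
    · intro y
      obtain ⟨x, rfl⟩ := hf y
      exact ⟨QuotientGroup.mk x, rfl⟩
  · rintro G H _ _ g hg ⟨T, Q1, Q2, _, _, _, p1, p2, f, hp1, hp2, hf, h1, h2, hk⟩
    exact ⟨T, Q1, Q2, _, _, _, p1, p2, g.comp f, hp1, hp2, hg.comp hf, h1, h2,
      fun t h1 h2 => by rw [MonoidHom.comp_apply, hk t h1 h2, map_one]⟩
  · rintro G _ N₁ N₂ _ _ hN ⟨T, Q1, Q2, _, _, _, p1, p2, f, hp1, hp2, hf, h1, h2, hk⟩
      ⟨T', Q1', Q2', _, _, _, p1', p2', f', hp1', hp2', hf', h1', h2', hk'⟩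
    let S : Subgroup (T × T' × G) :=
      { carrier := {x | f x.1 = (x.2.2 : G ⧸ N₁) ∧ f' x.2.1 = (x.2.2 : G ⧸ N₂)}
        mul_mem' := by
          rintro a b ⟨ha, ha'⟩ ⟨hb, hb'⟩
          refine ⟨?_, ?_⟩
          · change f (a.1 * b.1) = ((a.2.2 * b.2.2 : G) : G ⧸ N₁)
            rw [map_mul, ha, hb]; rfl
          · change f' (a.2.1 * b.2.1) = ((a.2.2 * b.2.2 : G) : G ⧸ N₂)
            rw [map_mul, ha', hb']; rfl
        one_mem' := by
          refine ⟨?_, ?_⟩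
          · change f 1 = ((1 : G) : G ⧸ N₁)
            rw [map_one]; rfl
          · change f' 1 = ((1 : G) : G ⧸ N₂)
            rw [map_one]; rfl
        inv_mem' := by
          rintro a ⟨ha, ha'⟩
          refine ⟨?_, ?_⟩
          · change f (a.1⁻¹) = ((a.2.2⁻¹ : G) : G ⧸ N₁)
            rw [map_inv, ha]; rfl
          · change f' (a.2.1⁻¹) = ((a.2.2⁻¹ : G) : G ⧸ N₂)
            rw [map_inv, ha']; rfl }
    have hS1 : ∀ t : T, ∃ t' : T', ∃ g : G, (t, t', g) ∈ S := by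
      intro t
      obtain ⟨g, hg⟩ := QuotientGroup.mk_surjective (f t)
      obtain ⟨t', ht'⟩ := hf' (g : G ⧸ N₂)
      exact ⟨t', g, hg.symm, ht'⟩
    have hS2 : ∀ t' : T', ∃ t : T, ∃ g : G, (t, t', g) ∈ S := by
      intro t'
      obtain ⟨g, hg⟩ := QuotientGroup.mk_surjective (f' t')
      obtain ⟨t, ht⟩ := hf (g : G ⧸ N₁)
      exact ⟨t, g, ht, hg.symm⟩
    have hS3 : ∀ g : G, ∃ t : T, ∃ t' : T', (t, t', g) ∈ S := by
      intro g
      obtain ⟨t, ht⟩ := hf (g : G ⧸ N₁)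
      obtain ⟨t', ht'⟩ := hf' (g : G ⧸ N₂)
      exact ⟨t, t', ht, ht'⟩
    let π1 : S →* T := (MonoidHom.fst _ _).comp S.subtype
    let π2 : S →* T' := (MonoidHom.fst _ _).comp ((MonoidHom.snd _ _).comp S.subtype)
    let π3 : S →* G := (MonoidHom.snd _ _).comp ((MonoidHom.snd _ _).comp S.subtype)
    have hπ1 : Surjective π1 := by
      intro t
      obtain ⟨t', g, h⟩ := hS1 t
      exact ⟨⟨_, h⟩, rfl⟩
    have hπ2 : Surjective π2 := by
      intro t'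
      obtain ⟨t, g, h⟩ := hS2 t'
      exact ⟨⟨_, h⟩, rfl⟩
    have hπ3 : Surjective π3 := by
      intro g
      obtain ⟨t, t', h⟩ := hS3 g
      exact ⟨⟨_, h⟩, rfl⟩
    refine ⟨S, S ⧸ ((p1.comp π1).ker ⊓ (p1'.comp π2).ker), S ⧸ ((p2.comp π1).ker ⊓ (p2'.comp π2).ker),
      inferInstance, inferInstance, inferInstance, QuotientGroup.mk' _, QuotientGroup.mk' _, π3,
      QuotientGroup.mk'_surjective _, QuotientGroup.mk'_surjective _, hπ3, ?_, ?_, ?_⟩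
    · exact R0q hX S _ _ (Qker hX (p1.comp π1) (hp1.comp hπ1) h1) (Qker hX (p1'.comp π2) (hp1'.comp hπ2) h1')
    · exact R0q hY S _ _ (Qker hY (p2.comp π1) (hp2.comp hπ1) h2) (Qker hY (p2'.comp π2) (hp2'.comp hπ2) h2')
    · intro s hs1 hs2
      have e1 : s ∈ ((p1.comp π1).ker ⊓ (p1'.comp π2).ker) := (QuotientGroup.eq_one_iff s).1 hs1
      have e2 : s ∈ ((p2.comp π1).ker ⊓ (p2'.comp π2).ker) := (QuotientGroup.eq_one_iff s).1 hs2
      have e3 : f (π1 s) = 1 := hk _ e1.1 e2.1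
      have e4 : f' (π2 s) = 1 := hk' _ e1.2 e2.2
      have e5 : π3 s ∈ N₁ := by
        have := s.2.1
        exact (QuotientGroup.eq_one_iff _).1 (this.symm.trans e3)
      have e6 : π3 s ∈ N₂ := by
        have := s.2.2
        exact (QuotientGroup.eq_one_iff _).1 (this.symm.trans e4)
      have : π3 s ∈ N₁ ⊓ N₂ := ⟨e5, e6⟩
      rw [hN] at this
      exact this

theorem Jn_left {X Y : ∀ (G : Type) [Group G], Prop} (hY : IsF Y)
    (hne : ∃ (H : Type) (_ : Group H), Y H) (G : Type) [Group G] (h : X G) : Jn X Y G := by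
  obtain ⟨H, _, hH⟩ := hne
  exact ⟨G, G, Unit, inferInstance, inferInstance, inferInstance, MonoidHom.id G, 1,
    MonoidHom.id G, surjective_id, fun _ => ⟨1, rfl⟩, surjective_id, h, triv_mem hY hH Unit,
    fun t h _ => h⟩

theorem Jn_right {X Y : ∀ (G : Type) [Group G], Prop} (hX : IsF X)
    (hne : ∃ (H : Type) (_ : Group H), X H) (G : Type) [Group G] (h : Y G) : Jn X Y G := by
  obtain ⟨H, _, hH⟩ := hne
  exact ⟨G, Unit, G, inferInstance, inferInstance, inferInstance, 1, MonoidHom.id G,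
    MonoidHom.id G, fun _ => ⟨1, rfl⟩, surjective_id, surjective_id, triv_mem hX hH Unit, h,
    fun t _ h => h⟩

theorem Jn_symm {X Y : ∀ (G : Type) [Group G], Prop} (G : Type) [Group G] (h : Jn X Y G) :
    Jn Y X G := by
  obtain ⟨T, Q1, Q2, _, _, _, p1, p2, f, hp1, hp2, hf, h1, h2, hk⟩ := h
  exact ⟨T, Q2, Q1, _, _, _, p2, p1, f, hp2, hp1, hf, h2, h1, fun t a b => hk t b a⟩

theorem Jn_le {X Y Z : ∀ (G : Type) [Group G], Prop} (hZ : IsF Z)
    (h1 : ∀ (G : Type) [Group G], X G → Z G) (h2 : ∀ (G : Type) [Group G], Y G → Z G)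
    (G : Type) [Group G] (h : Jn X Y G) : Z G := by
  obtain ⟨T, Q1, Q2, _, _, _, p1, p2, f, hp1, hp2, hf, hx, hy, hk⟩ := h
  exact R0hom hZ p1 p2 f hp1 hp2 hf (h1 _ hx) (h2 _ hy) hk

/-- modular law -/
theorem modular {E1 E2 X Y : ∀ (G : Type) [Group G], Prop} (hE1 : IsF E1) (hE2 : IsF E2)
    (hY : IsF Y)
    (h12 : ∀ (G : Type) [Group G], E1 G → E2 G)
    (hYE : ∀ (G : Type) [Group G], E2 G → Y G → E1 G)
    (hXE : ∀ (G : Type) [Group G], X G → E1 G)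
    (G : Type) [Group G] (hG : E2 G) (h : Jn X Y G) : E1 G := by
  obtain ⟨T, Q1, Q2, _, _, _, p1, p2, f, hp1, hp2, hf, hx, hy, hk⟩ := h
  have a1 : E1 (T ⧸ p1.ker) := Qker hE1 p1 hp1 (hXE _ hx)
  have a2 : Y (T ⧸ p2.ker) := Qker hY p2 hp2 hy
  have a3 : E2 (T ⧸ f.ker) := Qker hE2 f hf hG
  have a4 : E2 (T ⧸ (f.ker ⊓ p1.ker)) := R0q hE2 T _ _ a3 (h12 _ a1)
  have a5 : E1 (T ⧸ (p2.ker ⊔ (f.ker ⊓ p1.ker))) := by
    apply hYE
    · exact Qfac hE2 _ a4 (QuotientGroup.mk' _) (QuotientGroup.mk'_surjective _)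
        (fun t ht => (QuotientGroup.eq_one_iff t).2 (Subgroup.mem_sup_right ht))
    · exact Qfac hY _ a2 (QuotientGroup.mk' _) (QuotientGroup.mk'_surjective _)
        (fun t ht => (QuotientGroup.eq_one_iff t).2 (Subgroup.mem_sup_left ht))
  have a6 := R0q hE1 T _ _ a1 a5
  refine Qfac hE1 _ a6 f hf ?_
  rintro t ⟨ht1, ht2⟩
  have ht3 : t ∈ ((p2.ker ⊔ (f.ker ⊓ p1.ker) : Subgroup T) : Set T) := ht2
  rw [Subgroup.mul_normal] at ht3
  obtain ⟨y, hy2, z, hz, hyz⟩ := Set.mem_mul.1 ht3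
  have hy1 : y ∈ p1.ker := by
    have : y = t * z⁻¹ := by rw [← hyz]; group
    rw [this]
    exact p1.ker.mul_mem ht1 (p1.ker.inv_mem hz.2)
  rw [← hyz, map_mul, hk y hy1 hy2, one_mul]
  exact hz.1

end Pool.Agent.Helper476.D
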