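import Pool.Agent.Helper476.D1

set_option autoImplicit false
set_option linter.style.haveILetI false

namespace Pool.Agent.Helper476.D

open Function

/-- adding the trivial groups -/
def plus (Y : ∀ (G : Type) [Group G], Prop) : ∀ (G : Type) [Group G], Prop := fun G _ =>
  Y G ∨ Subsingleton G

theorem plus_form {Y : ∀ (G : Type) [Group G], Prop} (hY : IsF Y) : IsF (plus Y) := by
  refine ⟨?_, ?_, ?_⟩
  · rintro G _ (h | h)
    · exact hY.1 G h
    · infer_instance
  · rintro G H _ _ f hf (h | h)
    · exact Or.inl (hY.2.1 G H f hf h)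
    · exact Or.inr hf.subsingleton
  · intro G _ N₁ N₂ _ _ hN h1 h2
    have e1 : Subsingleton (G ⧸ N₁) → N₁ = ⊤ := fun h => QuotientGroup.subgroup_eq_top_of_subsingleton _ h
    have e2 : Subsingleton (G ⧸ N₂) → N₂ = ⊤ := fun h => QuotientGroup.subgroup_eq_top_of_subsingleton _ h
    rcases h1 with h1 | h1
    · rcases h2 with h2 | h2
      · exact Or.inl (hY.2.2 G N₁ N₂ hN h1 h2)
      · left
        rw [e2 h2, inf_top_eq] at hN
        refine Qfac hY N₁ h1 (MonoidHom.id G) surjective_id ?_
        intro t ht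
        rw [hN] at ht
        exact ht
    · rcases h2 with h2 | h2
      · left
        rw [e1 h1, top_inf_eq] at hN
        refine Qfac hY N₂ h2 (MonoidHom.id G) surjective_id ?_
        intro t ht
        rw [hN] at ht
        exact ht
      · right
        rw [e2 h2, e1 h1, inf_top_eq] at hN
        constructor
        intro a b
        have ha : a ∈ (⊤ : Subgroup G) := Subgroup.mem_top a
        have hb : b ∈ (⊤ : Subgroup G) := Subgroup.mem_top b
        rw [hN] at ha hb
        rw [Subgroup.mem_bot] at ha hb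
        rw [ha, hb]

theorem inter_form {X Y : ∀ (G : Type) [Group G], Prop} (hX : IsF X) (hY : IsF Y) :
    IsF (fun G _ => X G ∧ Y G) :=
  ⟨fun G _ h => hX.1 G h.1, fun G H _ _ f hf h => ⟨hX.2.1 G H f hf h.1, hY.2.1 G H f hf h.2⟩,
    fun G _ N₁ N₂ _ _ hN h1 h2 => ⟨hX.2.2 G N₁ N₂ hN h1.1 h2.1, hY.2.2 G N₁ N₂ hN h1.2 h2.2⟩⟩

/-- the chain hypothesis -/
def HasChain (F : ∀ (G : Type) [Group G], Prop) : Prop :=
  ∃ t : ℕ, t ≤ 4 ∧ ∃ c : ℕ → (∀ (G : Type) [Group G], Prop),
    (∀ (G : Type) [Group G], ¬ c 0 G) ∧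
    (∀ (G : Type) [Group G], c t G ↔ F G) ∧
    ∀ i : ℕ, i < t →
      IsF (c i) ∧ IsF (c (i + 1)) ∧
      (∀ (G : Type) [Group G], c i G → c (i + 1) G) ∧
      (∃ G : Type, ∃ inst : Group G, c (i + 1) G ∧ ¬ c i G) ∧
      ∀ K : (∀ (G : Type) [Group G], Prop), IsF K →
        (∀ (G : Type) [Group G], c i G → K G) →
        (∀ (G : Type) [Group G], K G → c (i + 1) G) →
        ((∀ (G : Type) [Group G], K G → c i G) ∨
         (∀ (G : Type) [Group G], c (i + 1) G → K G))

/-- chain lemma -/
theorem chain_lemma {F : ∀ (G : Type) [Group G], Prop} (hF : HasChain F)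
    (f : ℕ → (∀ (G : Type) [Group G], Prop)) (hf : ∀ i, IsF (f i))
    (hfF : ∀ i, ∀ (G : Type) [Group G], f i G → F G)
    (hne : ∀ (G : Type) [Group G], Subsingleton G → f 0 G)
    (hlt : ∀ i, i < 4 → (∀ (G : Type) [Group G], f i G → f (i + 1) G) ∧
      ∃ G : Type, ∃ inst : Group G, f (i + 1) G ∧ ¬ f i G) : False := by
  classical
  obtain ⟨t, ht, c, hc0, hct, hc⟩ := hF
  let S : ℕ → Finset ℕ := fun i => (Finset.range t).filter
    (fun k => ∃ G : Type, ∃ inst : Group G, f i G ∧ c (k + 1) G ∧ ¬ c k G)
  have htriv : ∀ i, i ≤ 4 → ∀ (G : Type) [Group G], Subsingleton G → f i G := by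
    intro i
    induction i with
    | zero => intro _ G _ h; exact hne G h
    | succ i ih =>
      intro hi G _ h
      exact (hlt i (by omega)).1 G (ih (by omega) G h)
  -- the key strictness
  have hkey : ∀ i, i < 4 → S i ≠ S (i + 1) := by
    intro i hi heq
    obtain ⟨hsub, G0, iG0, hG1, hG2⟩ := hlt i hi
    have hind : ∀ k, k ≤ t → ∀ (G : Type) [Group G], f (i + 1) G → c k G → f i G := by
      intro k
      induction k with
      | zero => intro _ G _ _ h; exact absurd h (hc0 G)
      | succ k ih =>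
        intro hk G _ hfG hcG
        have hk' : k < t := by omega
        obtain ⟨c1, c2, c3, c4, c5⟩ := hc k hk'
        by_cases hmem : k ∈ S (i + 1)
        · rw [← heq] at hmem
          obtain ⟨_, G1, iG1, hf1, hf2, hf3⟩ := Finset.mem_filter.1 hmem
          -- the join
          let X : ∀ (G : Type) [Group G], Prop := fun G _ => f i G ∧ c (k + 1) G
          have hX : IsF X := inter_form (hf i) c2
          have hplus : ∀ (G : Type) [Group G], plus (c k) G → c (k + 1) G := by
            rintro G _ (h | h)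
            · exact c3 G h
            · exact triv_mem c2 hf2 G
          have hJ : IsF (Jn X (plus (c k))) := Jn_form hX (plus_form c1)
          have hcov := c5 (Jn X (plus (c k))) hJ
            (fun G _ h => Jn_right hX ⟨G1, iG1, hf1, hf2⟩ G (Or.inl h))
            (fun G _ h => Jn_le c2 (fun G _ h => h.2) hplus G h)
          rcases hcov with hcov | hcov
          · exfalso
            apply hf3
            apply hcov
            exact Jn_left (plus_form c1) ⟨Unit, inferInstance, Or.inr inferInstance⟩ G1 ⟨hf1, hf2⟩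
          · have := hcov G hcG
            refine modular (hf i) (hf (i + 1)) (plus_form c1) hsub ?_ (fun G _ h => h.1) G hfG this
            rintro G _ h1 (h2 | h2)
            · exact ih (by omega) G h1 h2
            · exact htriv i (by omega) G h2
        · have : c k G := by
            by_contra hck
            apply hmem
            exact Finset.mem_filter.2 ⟨Finset.mem_range.2 hk', G, inferInstance, hfG, hcG, hck⟩
          exact ih (by omega) G hfG this
    exact hG2 (hind t le_rfl G0 hG1 ((hct G0).2 (hfF (i + 1) G0 hG1)))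
  have hmono : ∀ i, i < 4 → S i ⊂ S (i + 1) := by
    intro i hi
    refine lt_of_le_of_ne ?_ (hkey i hi)
    intro k hk
    obtain ⟨h1, G1, iG1, hf1, hf2, hf3⟩ := Finset.mem_filter.1 hk
    exact Finset.mem_filter.2 ⟨h1, G1, iG1, (hlt i hi).1 G1 hf1, hf2, hf3⟩
  -- S 0 nonempty
  have ht0 : 0 < t := by
    by_contra h0
    have : t = 0 := by omega
    subst this
    exact hc0 Unit ((hct Unit).2 (hfF 0 Unit (hne Unit inferInstance)))
  have hS0 : (S 0).Nonempty := by
    refine ⟨0, Finset.mem_filter.2 ⟨Finset.mem_range.2 ht0, Unit, inferInstance,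
      hne Unit inferInstance, ?_, hc0 Unit⟩⟩
    obtain ⟨_, c2, _, ⟨G1, iG1, h1, _⟩, _⟩ := hc 0 ht0
    exact triv_mem c2 h1 Unit
  have h0 := Finset.card_pos.2 hS0
  have h1 := Finset.card_lt_card (hmono 0 (by omega))
  have h2 := Finset.card_lt_card (hmono 1 (by omega))
  have h3 := Finset.card_lt_card (hmono 2 (by omega))
  have h4 := Finset.card_lt_card (hmono 3 (by omega))
  have h5 : (S 4).card ≤ t := by
    have := Finset.card_filter_le (Finset.range t)
      (fun k => ∃ G : Type, ∃ inst : Group G, f 4 G ∧ c (k + 1) G ∧ ¬ c k G)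
    rwa [Finset.card_range] at this
  simp only [Nat.zero_add, Nat.reduceAdd] at h1 h2 h3 h4
  omega

end Pool.Agent.Helper476.D
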