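import Pool.Agent.Helper476.D1

set_option autoImplicit false
set_option linter.style.haveILetI false

namespace Pool.Agent.Helper476.D

open Function
open scoped commutatorElement

/-- Heisenberg group modulo `s` -/
@[ext] structure Heis (s : ℕ) where
  x : ZMod s
  y : ZMod s
  z : ZMod s

namespace Heis
variable {s : ℕ}

instance : Mul (Heis s) := ⟨fun a b => ⟨a.x + b.x, a.y + b.y, a.z + b.z + a.x * b.y⟩⟩
instance : One (Heis s) := ⟨⟨0, 0, 0⟩⟩
instance : Inv (Heis s) := ⟨fun a => ⟨-a.x, -a.y, -a.z + a.x * a.y⟩⟩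

@[simp] theorem mul_x (a b : Heis s) : (a * b).x = a.x + b.x := rfl
@[simp] theorem mul_y (a b : Heis s) : (a * b).y = a.y + b.y := rfl
@[simp] theorem mul_z (a b : Heis s) : (a * b).z = a.z + b.z + a.x * b.y := rfl
@[simp] theorem one_x : (1 : Heis s).x = 0 := rfl
@[simp] theorem one_y : (1 : Heis s).y = 0 := rfl
@[simp] theorem one_z : (1 : Heis s).z = 0 := rfl
@[simp] theorem inv_x (a : Heis s) : (a⁻¹).x = -a.x := rfl
@[simp] theorem inv_y (a : Heis s) : (a⁻¹).y = -a.y := rfl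
@[simp] theorem inv_z (a : Heis s) : (a⁻¹).z = -a.z + a.x * a.y := rfl

instance : Group (Heis s) := Group.ofLeftAxioms
  (by intro a b c; ext <;> simp <;> ring)
  (by intro a; ext <;> simp)
  (by intro a; ext <;> simp)

end Heis

section class2

variable {X : Type} [Group X]

theorem comm_mul_left (h2 : ∀ x y : X, ⁅x, y⁆ ∈ Subgroup.center X) (x x' y : X) :
    ⁅x * x', y⁆ = ⁅x, y⁆ * ⁅x', y⁆ := by
  have h := (Subgroup.mem_center_iff.1 (h2 x' y)) x
  have e : ⁅x * x', y⁆ = (x * ⁅x', y⁆) * (x⁻¹ * ⁅x, y⁆) := by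
    simp only [commutatorElement_def]; group
  rw [e, h]
  have h' := (Subgroup.mem_center_iff.1 (h2 x' y)) ⁅x, y⁆
  rw [h']
  group

/-- commutator with `y` as a homomorphism -/
def kap (h2 : ∀ x y : X, ⁅x, y⁆ ∈ Subgroup.center X) (y : X) : X →* X where
  toFun x := ⁅x, y⁆
  map_one' := commutatorElement_one_left y
  map_mul' x x' := comm_mul_left h2 x x' y

theorem comm_zpow_left (h2 : ∀ x y : X, ⁅x, y⁆ ∈ Subgroup.center X) (x y : X) (k : ℤ) :
    ⁅x ^ k, y⁆ = ⁅x, y⁆ ^ k := map_zpow (kap h2 y) x k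

theorem comm_zpow_right (h2 : ∀ x y : X, ⁅x, y⁆ ∈ Subgroup.center X) (x y : X) (k : ℤ) :
    ⁅x, y ^ k⁆ = ⁅x, y⁆ ^ k := by
  rw [← commutatorElement_inv, comm_zpow_left h2, ← commutatorElement_inv y x, inv_zpow]

theorem comm_central_left (h2 : ∀ x y : X, ⁅x, y⁆ ∈ Subgroup.center X) (x y z : X)
    (hz : z ∈ Subgroup.center X) : ⁅x * z, y⁆ = ⁅x, y⁆ := by
  rw [comm_mul_left h2]
  have : ⁅z, y⁆ = 1 := by
    rw [commutatorElement_eq_one_iff_mul_comm]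
    exact ((Subgroup.mem_center_iff.1 hz) y).symm
  rw [this, mul_one]

theorem comm_central_right (h2 : ∀ x y : X, ⁅x, y⁆ ∈ Subgroup.center X) (x y z : X)
    (hz : z ∈ Subgroup.center X) : ⁅x, y * z⁆ = ⁅x, y⁆ := by
  rw [← commutatorElement_inv, comm_central_left h2 y x z hz, commutatorElement_inv]

end class2

theorem hUc_center (X : Type) [Group X] (_h2 : ∀ x y : X, ⁅x, y⁆ ∈ Subgroup.center X) (z : X)
    (hz : z ∈ Subgroup.center X) (g : X) : z⁻¹ * g = g * z⁻¹ :=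
  ((Subgroup.mem_center_iff.1 (Subgroup.inv_mem _ hz)) g).symm

theorem heis_mem {E : ∀ (G : Type) [Group G], Prop} (hE : IsF E) (X : Type) [Group X] (hX : E X)
    (s : ℕ) [Fact s.Prime]
    (h2 : ∀ x y : X, ⁅x, y⁆ ∈ Subgroup.center X) (hs : ∀ x : X, x ^ s ∈ Subgroup.center X)
    (a b : X) (hab : ⁅a, b⁆ ≠ 1) : E (Heis s) := by
  classical
  have hsp : s.Prime := Fact.out
  set c := ⁅a, b⁆ with hc
  have hcc : ∀ l : ℤ, c ^ l ∈ Subgroup.center X := fun l => Subgroup.zpow_mem _ (h2 a b) l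
  have hcs : c ^ (s : ℤ) = 1 := by
    rw [hc, ← comm_zpow_left h2, zpow_natCast, commutatorElement_eq_one_iff_mul_comm]
    exact ((Subgroup.mem_center_iff.1 (hs a)) b).symm
  have hcomm : ∀ k i : ℤ, ⁅a ^ k, b ^ i⁆ = c ^ (k * i) := by
    intro k i
    rw [comm_zpow_left h2, comm_zpow_right h2, ← zpow_mul, mul_comm i k]
  -- divisibility
  have hdiv : ∀ (d : X) (N : Subgroup X), d ∉ N → d ^ (s : ℤ) ∈ N → ∀ k : ℤ, d ^ k ∈ N → (s : ℤ) ∣ k := by
    intro d N hd hds k hk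
    by_contra hnd
    have hco : IsCoprime (s : ℤ) k :=
      (Prime.coprime_iff_not_dvd (Nat.prime_iff_prime_int.1 hsp)).2 hnd
    obtain ⟨u, w, huw⟩ := hco
    apply hd
    have : d = (d ^ (s : ℤ)) ^ u * (d ^ k) ^ w := by
      rw [← zpow_mul, ← zpow_mul, ← zpow_add, mul_comm (s : ℤ) u, mul_comm k w, huw, zpow_one]
    rw [this]
    exact N.mul_mem (N.zpow_mem hds u) (N.zpow_mem hk w)
  have ha : a ∉ Subgroup.center X := by
    intro h
    apply hab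
    rw [hc, commutatorElement_eq_one_iff_mul_comm]
    exact ((Subgroup.mem_center_iff.1 h) b).symm
  have hb : b ∉ Subgroup.center X := by
    intro h
    apply hab
    rw [hc, commutatorElement_eq_one_iff_mul_comm]
    exact ((Subgroup.mem_center_iff.1 h) a)
  -- the quotient by the center
  let U := X ⧸ Subgroup.center X
  let π : X →* U := QuotientGroup.mk' _
  have hUc : ∀ u v : U, u * v = v * u := by
    intro u v
    obtain ⟨x, rfl⟩ := QuotientGroup.mk'_surjective _ u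
    obtain ⟨y, rfl⟩ := QuotientGroup.mk'_surjective _ v
    rw [← map_mul, ← map_mul]
    apply QuotientGroup.eq.2
    have := h2 y⁻¹ x⁻¹
    rw [commutatorElement_def] at this
    convert this using 1
    group
  letI : CommGroup U := { (inferInstance : Group U) with mul_comm := hUc }
  let P : X → X → X → ℤ → ℤ → Prop := fun g1 g2 g3 k i =>
    π g2 = π g1 * π a ^ k ∧ π g3 = π g1 * π b ^ i
  have hPmul : ∀ g1 g2 g3 k i g1' g2' g3' k' i', P g1 g2 g3 k i →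
      P g1' g2' g3' k' i' →
      P (g1 * g1') (g2 * g2') (g3 * g3') (k + k') (i + i') := by
    rintro g1 g2 g3 k i g1' g2' g3' k' i' ⟨e1, e2⟩ ⟨e1', e2'⟩
    refine ⟨?_, ?_⟩
    · rw [map_mul, map_mul, e1, e1', zpow_add, mul_mul_mul_comm]
    · rw [map_mul, map_mul, e2, e2', zpow_add, mul_mul_mul_comm]
  have hPinv : ∀ g1 g2 g3 k i, P g1 g2 g3 k i → P g1⁻¹ g2⁻¹ g3⁻¹ (-k) (-i) := by
    rintro g1 g2 g3 k i ⟨e1, e2⟩
    refine ⟨?_, ?_⟩
    · rw [map_inv, map_inv, e1, mul_inv, zpow_neg]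
    · rw [map_inv, map_inv, e2, mul_inv, zpow_neg]
  let tau : X → X → X → X → X := fun g1 g2 g3 g4 => g2⁻¹ * g1 * g3⁻¹ * g4
  have htau : ∀ g1 g2 g3 g4 k i g1' g2' g3' g4' k' i', P g1 g2 g3 k i →
      P g1' g2' g3' k' i' → tau g1 g2 g3 g4 ∈ Subgroup.center X →
      tau (g1 * g1') (g2 * g2') (g3 * g3') (g4 * g4') =
        tau g1 g2 g3 g4 * tau g1' g2' g3' g4' * c ^ (k * i') := by
    rintro g1 g2 g3 g4 k i g1' g2' g3' g4' k' i' ⟨e1, e2⟩ ⟨e1', e2'⟩ hz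
    -- n = g1⁻¹ g2, u = g1' g3'⁻¹
    have hn : ∃ z ∈ Subgroup.center X, g1⁻¹ * g2 = a ^ k * z := by
      refine ⟨(a ^ k)⁻¹ * (g1⁻¹ * g2), ?_, by group⟩
      rw [← QuotientGroup.eq_one_iff]
      change π _ = 1
      rw [map_mul, map_mul, e1, map_inv, map_inv, map_zpow]
      group
    have hu : ∃ z ∈ Subgroup.center X, g1' * g3'⁻¹ = b ^ (-i') * z := by
      refine ⟨(b ^ (-i'))⁻¹ * (g1' * g3'⁻¹), ?_, by group⟩
      rw [← QuotientGroup.eq_one_iff]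
      change π _ = 1
      rw [map_mul, map_mul, map_inv, map_inv, map_zpow, e2', mul_inv]
      rw [zpow_neg, inv_inv, mul_comm (π g1')⁻¹, mul_comm (π g1'), mul_assoc, inv_mul_cancel, mul_one,
        mul_inv_cancel]
    obtain ⟨z1, hz1, hn⟩ := hn
    obtain ⟨z2, hz2, hu⟩ := hu
    have hcu : ⁅(g1' * g3'⁻¹)⁻¹, (g1⁻¹ * g2)⁻¹⁆ = c ^ (k * i') := by
      rw [hu, hn, mul_inv_rev, mul_inv_rev,
        hUc_center X h2 z2 hz2, hUc_center X h2 z1 hz1,
        comm_central_left h2 _ _ _ (Subgroup.inv_mem _ hz2),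
        comm_central_right h2 _ _ _ (Subgroup.inv_mem _ hz1),
        zpow_neg, inv_inv, ← zpow_neg, ← commutatorElement_inv, hcomm, ← zpow_neg]
      congr 1
      ring
    change (g2 * g2')⁻¹ * (g1 * g1') * (g3 * g3')⁻¹ * (g4 * g4') =
      (g2⁻¹ * g1 * g3⁻¹ * g4) * (g2'⁻¹ * g1' * g3'⁻¹ * g4') * c ^ (k * i')
    have hz' := Subgroup.mem_center_iff.1 hz
    have hcc' := Subgroup.mem_center_iff.1 (hcc (k * i'))
    have e3 : (g2 * g2')⁻¹ * (g1 * g1') * (g3 * g3')⁻¹ * (g4 * g4') =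
        g2'⁻¹ * (g1' * g3'⁻¹) * ⁅(g1' * g3'⁻¹)⁻¹, (g1⁻¹ * g2)⁻¹⁆ *
          (tau g1 g2 g3 g4) * g4' := by
      change _ = g2'⁻¹ * (g1' * g3'⁻¹) * ⁅(g1' * g3'⁻¹)⁻¹, (g1⁻¹ * g2)⁻¹⁆ *
          (g2⁻¹ * g1 * g3⁻¹ * g4) * g4'
      rw [commutatorElement_def]
      group
    rw [e3, hcu]
    have hz'' := hz' (g2'⁻¹ * (g1' * g3'⁻¹) * c ^ (k * i'))
    rw [hz'']
    change tau g1 g2 g3 g4 * _ * _ = tau g1 g2 g3 g4 * _ * _
    have h4 := hcc' g4'
    calc tau g1 g2 g3 g4 * (g2'⁻¹ * (g1' * g3'⁻¹) * c ^ (k * i')) * g4'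
        = tau g1 g2 g3 g4 * (g2'⁻¹ * (g1' * g3'⁻¹)) * (c ^ (k * i') * g4') := by group
      _ = tau g1 g2 g3 g4 * (g2'⁻¹ * (g1' * g3'⁻¹)) * (g4' * c ^ (k * i')) := by rw [h4]
      _ = _ := by group
  -- the relation subgroup
  let Y := X × X × X × X × Heis s
  let S : Subgroup Y :=
    { carrier := {w | ∃ k i l : ℤ, P w.1 w.2.1 w.2.2.1 k i ∧
        tau w.1 w.2.1 w.2.2.1 w.2.2.2.1 = c ^ l ∧ w.2.2.2.2 = ⟨(k : ZMod s), (i : ZMod s), (l : ZMod s)⟩}
      mul_mem' := by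
        rintro w w' ⟨k, i, l, hP, ht, hH⟩ ⟨k', i', l', hP', ht', hH'⟩
        refine ⟨k + k', i + i', l + l' + k * i', hPmul _ _ _ _ _ _ _ _ _ _ hP hP', ?_, ?_⟩
        · have := htau _ _ _ w.2.2.2.1 _ _ _ _ _ w'.2.2.2.1 _ _ hP hP' (by rw [ht]; exact hcc l)
          rw [ht, ht', ← zpow_add, ← zpow_add] at this
          exact this
        · change w.2.2.2.2 * w'.2.2.2.2 = _
          rw [hH, hH']
          ext <;> simp
      one_mem' := by
        refine ⟨0, 0, 0, ⟨?_, ?_⟩, ?_, ?_⟩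
        · simp
        · simp
        · simp [tau]
        · change (1 : Heis s) = _
          ext <;> simp
      inv_mem' := by
        rintro w ⟨k, i, l, hP, ht, hH⟩
        refine ⟨-k, -i, -l + k * i, hPinv _ _ _ _ _ hP, ?_, ?_⟩
        · have := htau _ _ _ w.2.2.2.1 _ _ _ _ _ (w.2.2.2.1)⁻¹ _ _ hP (hPinv _ _ _ _ _ hP)
            (by rw [ht]; exact hcc l)
          rw [ht] at this
          have e0 : tau (w.1 * (w.1)⁻¹) (w.2.1 * (w.2.1)⁻¹) (w.2.2.1 * (w.2.2.1)⁻¹)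
            (w.2.2.2.1 * (w.2.2.2.1)⁻¹) = 1 := by simp [tau]
          rw [e0] at this
          change tau (w.1)⁻¹ (w.2.1)⁻¹ (w.2.2.1)⁻¹ (w.2.2.2.1)⁻¹ = _
          have h5 : tau (w.1)⁻¹ (w.2.1)⁻¹ (w.2.2.1)⁻¹ (w.2.2.2.1)⁻¹ = (c ^ l)⁻¹ * (c ^ (k * -i))⁻¹ := by
            rw [eq_mul_inv_iff_mul_eq]
            apply eq_inv_of_mul_eq_one_right
            rw [← mul_assoc]
            exact this.symm
          rw [h5, ← zpow_neg, ← zpow_neg, ← zpow_add]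
          congr 1
          ring
        · change (w.2.2.2.2)⁻¹ = _
          rw [hH]
          ext <;> simp }
  have hdiag : ∀ g : X, ((g, g, g, g, (1 : Heis s)) : Y) ∈ S := by
    intro g
    refine ⟨0, 0, 0, ⟨?_, ?_⟩, ?_, ?_⟩
    · simp
    · simp
    · simp [tau]
    · ext <;> simp
  let q1 : S →* X := (MonoidHom.fst _ _).comp S.subtype
  let q2 : S →* X := ((MonoidHom.fst _ _).comp (MonoidHom.snd _ _)).comp S.subtype
  let q3 : S →* X := ((MonoidHom.fst _ _).comp ((MonoidHom.snd _ _).comp (MonoidHom.snd _ _))).comp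
    S.subtype
  let q4 : S →* X := ((MonoidHom.fst _ _).comp ((MonoidHom.snd _ _).comp
    ((MonoidHom.snd _ _).comp (MonoidHom.snd _ _)))).comp S.subtype
  let q5 : S →* Heis s := ((MonoidHom.snd _ _).comp ((MonoidHom.snd _ _).comp
    ((MonoidHom.snd _ _).comp (MonoidHom.snd _ _)))).comp S.subtype
  refine R0hom4 hE q1 q2 q3 q4 q5 (fun g => ⟨⟨_, hdiag g⟩, rfl⟩) (fun g => ⟨⟨_, hdiag g⟩, rfl⟩)
    (fun g => ⟨⟨_, hdiag g⟩, rfl⟩) (fun g => ⟨⟨_, hdiag g⟩, rfl⟩) ?_ hX hX hX hX ?_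
  · rintro ⟨x, y, z⟩
    obtain ⟨k, rfl⟩ := ZMod.intCast_surjective x
    obtain ⟨i, rfl⟩ := ZMod.intCast_surjective y
    obtain ⟨l, rfl⟩ := ZMod.intCast_surjective z
    refine ⟨⟨(1, a ^ k, b ^ i, b ^ i * a ^ k * c ^ l, ⟨k, i, l⟩), k, i, l, ⟨?_, ?_⟩, ?_, rfl⟩, rfl⟩
    · simp
    · simp
    · change (a ^ k)⁻¹ * 1 * (b ^ i)⁻¹ * (b ^ i * a ^ k * c ^ l) = c ^ l
      group
  · rintro ⟨w, k, i, l, ⟨hP1, hP2⟩, ht, hH⟩ h1 h2' h3 h4
    change w.1 = 1 at h1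
    change w.2.1 = 1 at h2'
    change w.2.2.1 = 1 at h3
    change w.2.2.2.1 = 1 at h4
    change w.2.2.2.2 = 1
    rw [h1, h2', map_one, one_mul] at hP1
    rw [h1, h3, map_one, one_mul] at hP2
    rw [h1, h2', h3, h4] at ht
    have hk : (s : ℤ) ∣ k := by
      refine hdiv a (Subgroup.center X) ha ?_ k ?_
      · rw [zpow_natCast]; exact hs a
      · rw [← QuotientGroup.eq_one_iff]
        change π _ = 1
        rw [map_zpow]; exact hP1.symm
    have hi : (s : ℤ) ∣ i := by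
      refine hdiv b (Subgroup.center X) hb ?_ i ?_
      · rw [zpow_natCast]; exact hs b
      · rw [← QuotientGroup.eq_one_iff]
        change π _ = 1
        rw [map_zpow]; exact hP2.symm
    have hl : (s : ℤ) ∣ l := by
      refine hdiv c ⊥ ?_ ?_ l ?_
      · rw [Subgroup.mem_bot]; exact hab
      · rw [Subgroup.mem_bot]; exact hcs
      · rw [Subgroup.mem_bot, ← ht]; simp [tau]
    rw [hH]
    ext
    · exact (ZMod.intCast_zmod_eq_zero_iff_dvd k s).2 hk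
    · exact (ZMod.intCast_zmod_eq_zero_iff_dvd i s).2 hi
    · exact (ZMod.intCast_zmod_eq_zero_iff_dvd l s).2 hl

end Pool.Agent.Helper476.D
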