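import Pool.Agent.Helper476.D3

set_option autoImplicit false
set_option linter.style.haveILetI false

namespace Pool.Agent.Helper476.D

open Function
open scoped commutatorElement

/-- the group of automorphisms of `V` induced by conjugation -/
abbrev Gam {X : Type} [Group X] (V : Subgroup X) [V.Normal] : Subgroup (MulAut V) :=
  (MulAut.conjNormal (H := V)).range

/-- `V` extended by the automorphisms induced by conjugation -/
abbrev PV {X : Type} [Group X] (V : Subgroup X) [V.Normal] : Type := V ⋊[(Gam V).subtype] (Gam V)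

theorem semidir {E : ∀ (G : Type) [Group G], Prop} (hE : IsF E) {T Q X : Type} [Group T] [Group Q]
    [Group X] (p : T →* Q) (hp : Surjective p) (hQ : E Q) (f : T →* X) (hf : Surjective f)
    (V : Subgroup X) [V.Normal] (W : Subgroup T) [W.Normal]
    (hW1 : ∀ w ∈ W, f w ∈ V) (hW2 : ∀ v ∈ V, ∃ w ∈ W, f w = v)
    (hW3 : ∀ w ∈ W, p w = 1 → f w = 1)
    (hcent : ∀ t, p t = 1 → ∀ v ∈ V, f t * v = v * f t) : E (PV V) := by
  classical
  let R : Subgroup (T × T) :=
    { carrier := {x | x.2 * x.1⁻¹ ∈ W}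
      mul_mem' := by
        rintro a b ha hb
        change a.2 * b.2 * (a.1 * b.1)⁻¹ ∈ W
        have h1 : a.2 * b.2 * (a.1 * b.1)⁻¹ = (a.2 * a.1⁻¹) * (a.1 * (b.2 * b.1⁻¹) * a.1⁻¹) := by
          group
        rw [h1]
        exact W.mul_mem ha (‹W.Normal›.conj_mem _ hb _)
      one_mem' := by
        change (1 : T) * 1⁻¹ ∈ W
        simp
      inv_mem' := by
        rintro a ha
        change a.2⁻¹ * (a.1⁻¹)⁻¹ ∈ W
        have h1 : a.2⁻¹ * (a.1⁻¹)⁻¹ = a.1⁻¹ * (a.2 * a.1⁻¹)⁻¹ * (a.1⁻¹)⁻¹ := by group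
        rw [h1]
        exact ‹W.Normal›.conj_mem _ (W.inv_mem ha) _ }
  have hdiag : ∀ t : T, (t, t) ∈ R := by
    intro t
    change t * t⁻¹ ∈ W
    simp
  let q1 : R →* Q := p.comp ((MonoidHom.fst _ _).comp R.subtype)
  let q2 : R →* Q := p.comp ((MonoidHom.snd _ _).comp R.subtype)
  let g : R →* PV V :=
    { toFun := fun x => ⟨⟨f (x.1.2 * x.1.1⁻¹), hW1 _ x.2⟩,
        ⟨MulAut.conjNormal (f x.1.1), ⟨f x.1.1, rfl⟩⟩⟩
      map_one' := by
        apply SemidirectProduct.ext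
        · apply Subtype.ext
          change f ((1 : T) * 1⁻¹) = 1
          simp
        · apply Subtype.ext
          change MulAut.conjNormal (f 1) = 1
          simp
      map_mul' := by
        intro x y
        apply SemidirectProduct.ext
        · apply Subtype.ext
          change f (x.1.2 * y.1.2 * (x.1.1 * y.1.1)⁻¹) =
            f (x.1.2 * x.1.1⁻¹) * ((MulAut.conjNormal (f x.1.1) (⟨f (y.1.2 * y.1.1⁻¹), hW1 _ y.2⟩ : V) : V) : X)
          rw [MulAut.conjNormal_apply]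
          change f (x.1.2 * y.1.2 * (x.1.1 * y.1.1)⁻¹) =
            f (x.1.2 * x.1.1⁻¹) * (f x.1.1 * f (y.1.2 * y.1.1⁻¹) * (f x.1.1)⁻¹)
          rw [← map_inv, ← map_mul, ← map_mul, ← map_mul]
          congr 1
          group
        · apply Subtype.ext
          change MulAut.conjNormal (f (x.1.1 * y.1.1)) =
            MulAut.conjNormal (f x.1.1) * MulAut.conjNormal (f y.1.1)
          rw [map_mul, map_mul] }
  refine R0hom hE q1 q2 g ?_ ?_ ?_ hQ hQ ?_
  · intro y
    obtain ⟨t, rfl⟩ := hp y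
    exact ⟨⟨(t, t), hdiag t⟩, rfl⟩
  · intro y
    obtain ⟨t, rfl⟩ := hp y
    exact ⟨⟨(t, t), hdiag t⟩, rfl⟩
  · rintro ⟨⟨v, hv⟩, ⟨γ, x, rfl⟩⟩
    obtain ⟨t, rfl⟩ := hf x
    obtain ⟨w, hw, rfl⟩ := hW2 v hv
    refine ⟨⟨(t, w * t), ?_⟩, ?_⟩
    · change w * t * t⁻¹ ∈ W
      rwa [mul_inv_cancel_right]
    · apply SemidirectProduct.ext
      · apply Subtype.ext
        change f (w * t * t⁻¹) = f w
        rw [mul_inv_cancel_right]
      · rfl
  · rintro ⟨⟨t, t'⟩, ht⟩ h1 h2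
    change p t = 1 at h1
    change p t' = 1 at h2
    apply SemidirectProduct.ext
    · apply Subtype.ext
      change f (t' * t⁻¹) = 1
      apply hW3 _ ht
      rw [map_mul, map_inv, h1, h2]; simp
    · apply Subtype.ext
      change MulAut.conjNormal (f t) = 1
      ext v
      rw [MulAut.conjNormal_apply, hcent t h1 v v.2]
      simp

/-- elementary abelian groups of exponent dividing s -/
def EAb (s : ℕ) : ∀ (G : Type) [Group G], Prop := fun G _ =>
  Finite G ∧ (∀ x y : G, x * y = y * x) ∧ ∀ x : G, x ^ s = 1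

theorem EAbForm (s : ℕ) : IsF (EAb s) := by
  refine ⟨fun G _ h => h.1, ?_, ?_⟩
  · rintro G H _ _ f hf ⟨h1, h2, h3⟩
    refine ⟨Finite.of_surjective f hf, ?_, ?_⟩
    · intro x y
      obtain ⟨a, rfl⟩ := hf x
      obtain ⟨b, rfl⟩ := hf y
      rw [← map_mul, h2, map_mul]
    · intro x
      obtain ⟨a, rfl⟩ := hf x
      rw [← map_pow, h3, map_one]
  · rintro G _ N₁ N₂ _ _ hN ⟨h1, h2, h3⟩ ⟨h1', h2', h3'⟩
    refine ⟨?_, ?_, ?_⟩
    · let r : G →* (G ⧸ N₁) × (G ⧸ N₂) := (QuotientGroup.mk' N₁).prod (QuotientGroup.mk' N₂)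
      have hr : Injective r := by
        rw [injective_iff_map_eq_one]
        intro a ha
        have e1 : a ∈ N₁ := (QuotientGroup.eq_one_iff a).1 (congrArg Prod.fst ha)
        have e2 : a ∈ N₂ := (QuotientGroup.eq_one_iff a).1 (congrArg Prod.snd ha)
        have : a ∈ N₁ ⊓ N₂ := ⟨e1, e2⟩
        rwa [hN] at this
      exact Finite.of_injective r hr
    · intro x y
      have e1 : (x * y) * (y * x)⁻¹ ∈ N₁ := by
        rw [← QuotientGroup.eq_one_iff]
        change ((x : G ⧸ N₁) * (y : G ⧸ N₁)) * ((y : G ⧸ N₁) * (x : G ⧸ N₁))⁻¹ = 1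
        exact mul_inv_eq_one.2 (h2 _ _)
      have e2 : (x * y) * (y * x)⁻¹ ∈ N₂ := by
        rw [← QuotientGroup.eq_one_iff]
        change ((x : G ⧸ N₂) * (y : G ⧸ N₂)) * ((y : G ⧸ N₂) * (x : G ⧸ N₂))⁻¹ = 1
        exact mul_inv_eq_one.2 (h2' _ _)
      have : (x * y) * (y * x)⁻¹ ∈ N₁ ⊓ N₂ := ⟨e1, e2⟩
      rw [hN, Subgroup.mem_bot] at this
      exact mul_inv_eq_one.1 this
    · intro x
      have e1 : x ^ s ∈ N₁ := by
        rw [← QuotientGroup.eq_one_iff]
        exact h3 (x : G ⧸ N₁)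
      have e2 : x ^ s ∈ N₂ := by
        rw [← QuotientGroup.eq_one_iff]
        exact h3' (x : G ⧸ N₂)
      have : x ^ s ∈ N₁ ⊓ N₂ := ⟨e1, e2⟩
      rwa [hN, Subgroup.mem_bot] at this

/-- solvable nontrivial groups have elementary abelian quotients -/
theorem solv_quot {E : ∀ (G : Type) [Group G], Prop} (hE : IsF E) (P : Type) [Group P] (hP : E P)
    (hsol : Group.IsSolvable P) (hnt : Nontrivial P) :
    ∃ s : ℕ, s.Prime ∧ ∃ (Q : Type) (_ : Group Q), E Q ∧ EAb s Q ∧ Nontrivial Q := by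
  haveI := hE.1 P hP
  have h1 : commutator P < ⊤ := Group.IsSolvable.commutator_lt_top_of_nontrivial P
  let Q := Abelianization P
  have hQ : E Q := hE.2.1 P Q (QuotientGroup.mk' _) (QuotientGroup.mk'_surjective _) hP
  haveI : Finite Q := hE.1 Q hQ
  haveI : Nontrivial Q := by
    apply (QuotientGroup.nontrivial_iff).2
    exact h1.ne
  have hcard : Nat.card Q ≠ 1 := by
    have := Finite.one_lt_card (α := Q)
    omega
  obtain ⟨s, hs, hsd⟩ := Nat.exists_prime_and_dvd hcard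
  refine ⟨s, hs, ?_⟩
  haveI : Fact s.Prime := ⟨hs⟩
  let ψ : Q →* Q := powMonoidHom s
  have hψ : ψ.range ≠ ⊤ := by
    intro htop
    have hsurj : Surjective ψ := MonoidHom.range_eq_top.1 htop
    have hinj : Injective ψ := Finite.injective_iff_surjective.2 hsurj
    obtain ⟨x, hx⟩ := exists_prime_orderOf_dvd_card' s hsd
    have h2 : ψ x = ψ 1 := by
      rw [map_one]
      change x ^ s = 1
      rw [← hx]; exact pow_orderOf_eq_one x
    have := hinj h2
    rw [this, orderOf_one] at hx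
    exact hs.one_lt.ne hx
  refine ⟨Q ⧸ ψ.range, inferInstance, ?_, ⟨?_, ?_, ?_⟩, ?_⟩
  · exact hE.2.1 Q _ (QuotientGroup.mk' _) (QuotientGroup.mk'_surjective _) hQ
  · infer_instance
  · intro x y
    exact mul_comm x y
  · intro x
    obtain ⟨y, rfl⟩ := QuotientGroup.mk'_surjective _ x
    rw [← map_pow]
    exact (QuotientGroup.eq_one_iff _).2 ⟨y, rfl⟩
  · exact (QuotientGroup.nontrivial_iff).2 hψ

end Pool.Agent.Helper476.D
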