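import Pool.Agent.Helper476.D4

set_option autoImplicit false
set_option linter.style.haveILetI false

namespace Pool.Agent.Helper476.D

open Function
open scoped commutatorElement

theorem FL {s : ℕ} [Fact s.Prime] {E1 E2 E3 D : ∀ (G : Type) [Group G], Prop}
    (hE1 : IsF E1) (hE2 : IsF E2) (hE3 : IsF E3) (hD : IsF D)
    (h12 : ∀ (G : Type) [Group G], E1 G → E2 G → D G)
    (h13 : ∀ (G : Type) [Group G], E1 G → E3 G → D G)
    (h23 : ∀ (G : Type) [Group G], E2 G → E3 G → D G)
    (hDel : ∀ (G : Type) [Group G], D G → EAb s G)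
    (hJ : ∀ (G : Type) [Group G], E1 G → Jn E2 E3 G)
    (hne : ∃ (X : Type) (_ : Group X), E1 X ∧ ¬ D X) :
    E1 (Multiplicative (ZMod (s ^ 2))) ∨ E1 (Heis s) := by
  classical
  have hsp : s.Prime := Fact.out
  have hmin : ∃ (X : Type) (_ : Group X), E1 X ∧ ¬ D X ∧ ∀ (Y : Type) (_ : Group Y),
      E1 Y → Nat.card Y < Nat.card X → D Y := by
    obtain ⟨X0, i0, h1, h2⟩ := hne
    have hex : ∃ n, ∃ (X : Type) (_ : Group X), E1 X ∧ ¬ D X ∧ Nat.card X = n :=
      ⟨_, X0, i0, h1, h2, rfl⟩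
    obtain ⟨X, iX, h3, h4, h5⟩ := Nat.find_spec hex
    refine ⟨X, iX, h3, h4, ?_⟩
    intro Y iY hY hlt
    by_contra hDY
    rw [h5] at hlt
    exact Nat.find_min hex hlt ⟨Y, iY, hY, hDY, rfl⟩
  obtain ⟨X, iX, hX1, hXD, hXmin⟩ := hmin
  haveI : Finite X := hE1.1 X hX1
  have hprop : ∀ (N : Subgroup X) [N.Normal], N ≠ ⊥ → D (X ⧸ N) := by
    intro N _ hN
    apply hXmin _ _ (hE1.2.1 X _ (QuotientGroup.mk' N) (QuotientGroup.mk'_surjective N) hX1)
    have h1 := Subgroup.card_eq_card_quotient_mul_card_subgroup N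
    have h2 : 1 < Nat.card N := Subgroup.one_lt_card_iff_ne_bot N |>.2 hN
    have h3 : 0 < Nat.card (X ⧸ N) := Nat.card_pos
    rw [h1]
    nlinarith
  have hmono : ∀ (N₁ N₂ : Subgroup X) [N₁.Normal] [N₂.Normal], N₁ ≠ ⊥ → N₂ ≠ ⊥ → N₁ ⊓ N₂ ≠ ⊥ := by
    intro N₁ N₂ _ _ h1 h2 h3
    exact hXD (hD.2.2 X N₁ N₂ h3 (hprop N₁ h1) (hprop N₂ h2))
  obtain ⟨T, Q1, Q2, _, _, _, p1, p2, f, hp1, hp2, hf, hx, hy, hk⟩ := hJ X hX1
  haveI n1 : (p1.ker.map f).Normal := Subgroup.Normal.map inferInstance _ hf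
  haveI n2 : (p2.ker.map f).Normal := Subgroup.Normal.map inferInstance _ hf
  have hM1 : p1.ker.map f ≠ ⊥ := by
    intro h
    apply hXD
    apply h12 X hX1
    refine Qfac hE2 p1.ker (Qker hE2 p1 hp1 hx) f hf ?_
    intro t ht
    have : f t ∈ p1.ker.map f := ⟨t, ht, rfl⟩
    rwa [h] at this
  have hM2 : p2.ker.map f ≠ ⊥ := by
    intro h
    apply hXD
    apply h13 X hX1
    refine Qfac hE3 p2.ker (Qker hE3 p2 hp2 hy) f hf ?_
    intro t ht
    have : f t ∈ p2.ker.map f := ⟨t, ht, rfl⟩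
    rwa [h] at this
  have hW0 := hmono _ _ hM1 hM2
  set W0 := p1.ker.map f ⊓ p2.ker.map f with hW0def
  haveI nW0 : W0.Normal := inferInstance
  have hcomm12 : ∀ t1 t2, p1 t1 = 1 → p2 t2 = 1 → f t1 * f t2 = f t2 * f t1 := by
    intro t1 t2 h1 h2
    have : f (t1 * t2 * t1⁻¹ * t2⁻¹) = 1 := by
      apply hk
      · simp [h1]
      · simp [h2]
    rw [map_mul, map_mul, map_mul, map_inv, map_inv] at this
    rw [← mul_inv_eq_one, mul_inv_rev, ← mul_assoc]
    exact this
  have hPVE2 : E2 (PV W0) := by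
    refine semidir hE2 p1 hp1 hx f hf W0 (p2.ker ⊓ W0.comap f) (fun w hw => hw.2) ?_
      (fun w hw h1 => hk w h1 hw.1) ?_
    · rintro v hv
      obtain ⟨t, ht, rfl⟩ := hv.2
      exact ⟨t, ⟨ht, hv⟩, rfl⟩
    · intro t ht v hv
      obtain ⟨t2, ht2, rfl⟩ := hv.2
      exact hcomm12 t t2 ht ht2
  have hPVE3 : E3 (PV W0) := by
    refine semidir hE3 p2 hp2 hy f hf W0 (p1.ker ⊓ W0.comap f) (fun w hw => hw.2) ?_
      (fun w hw h1 => hk w hw.1 h1) ?_
    · rintro v hv
      obtain ⟨t, ht, rfl⟩ := hv.1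
      exact ⟨t, ⟨ht, hv⟩, rfl⟩
    · intro t ht v hv
      obtain ⟨t2, ht2, rfl⟩ := hv.1
      exact (hcomm12 t2 t ht2 ht).symm
  have hPVD : D (PV W0) := h23 _ hPVE2 hPVE3
  obtain ⟨_, hPVc, hPVs⟩ := hDel _ hPVD
  have hact : ∀ γ : Gam W0, ∀ w : W0, γ.1 w = w := by
    intro γ w
    have h1 := hPVc (SemidirectProduct.inr γ) (SemidirectProduct.inl w)
    have h2 := congrArg SemidirectProduct.left h1
    simpa using h2
  have hcent : ∀ w ∈ W0, w ∈ Subgroup.center X := by
    intro w hw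
    rw [Subgroup.mem_center_iff]
    intro g
    have h1 := hact ⟨MulAut.conjNormal g, ⟨g, rfl⟩⟩ ⟨w, hw⟩
    have h2 := congrArg Subtype.val h1
    rw [MulAut.conjNormal_apply] at h2
    change g * w * g⁻¹ = w at h2
    rw [mul_inv_eq_iff_eq_mul] at h2
    exact h2
  have hexp : ∀ w ∈ W0, w ^ s = 1 := by
    intro w hw
    have h1 := hPVs (SemidirectProduct.inl ⟨w, hw⟩)
    rw [← map_pow] at h1
    have h2 := congrArg SemidirectProduct.left h1
    have h3 := congrArg Subtype.val h2
    simpa using h3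
  obtain ⟨⟨v, hvW⟩, hv1⟩ : ∃ w : W0, w ≠ 1 := by
    have := (Subgroup.nontrivial_iff_ne_bot W0).2 hW0
    exact exists_ne 1
  have hv1' : v ≠ 1 := fun h => hv1 (Subtype.ext h)
  have hVle : Subgroup.zpowers v ≤ Subgroup.center X := by
    rw [Subgroup.zpowers_le]; exact hcent v hvW
  haveI nV : (Subgroup.zpowers v).Normal := by
    constructor
    intro n hn g
    have := (Subgroup.mem_center_iff.1 (hVle hn)) g
    rw [this, mul_inv_cancel_right]; exact hn
  have hVne : Subgroup.zpowers v ≠ ⊥ := by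
    rw [Ne, Subgroup.zpowers_eq_bot]; exact hv1'
  obtain ⟨_, hqc, hqs⟩ := hDel _ (hprop (Subgroup.zpowers v) hVne)
  have hcm : ∀ x y : X, ⁅x, y⁆ ∈ Subgroup.zpowers v := by
    intro x y
    rw [← QuotientGroup.eq_one_iff, commutatorElement_def]
    have := hqc (x : X ⧸ Subgroup.zpowers v) (y : X ⧸ Subgroup.zpowers v)
    change (x : X ⧸ Subgroup.zpowers v) * y * (x : X ⧸ Subgroup.zpowers v)⁻¹ *
      (y : X ⧸ Subgroup.zpowers v)⁻¹ = 1
    rw [this]; group
  have hpw : ∀ x : X, x ^ s ∈ Subgroup.zpowers v := by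
    intro x
    rw [← QuotientGroup.eq_one_iff]
    exact hqs (x : X ⧸ Subgroup.zpowers v)
  by_cases hab : ∀ x y : X, ⁅x, y⁆ = 1
  · left
    -- abelian case
    have hXc : ∀ x y : X, x * y = y * x := by
      intro x y
      exact commutatorElement_eq_one_iff_mul_comm.1 (hab x y)
    have hnorm : ∀ N : Subgroup X, N.Normal := by
      intro N
      constructor
      intro n hn g
      rw [hXc g n, mul_inv_cancel_right]; exact hn
    have hordv : orderOf v = s := orderOf_eq_prime (hexp v hvW) hv1'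
    -- nontrivial elements of V generate V
    have hgen : ∀ u ∈ Subgroup.zpowers v, u ≠ 1 → v ∈ Subgroup.zpowers u := by
      intro u hu hu1
      obtain ⟨k, rfl⟩ := Subgroup.mem_zpowers_iff.1 hu
      have hnd : ¬ (s : ℤ) ∣ k := by
        intro h
        apply hu1
        have := (orderOf_dvd_iff_zpow_eq_one (x := v) (i := k)).1 (by rw [hordv]; exact h)
        exact this
      obtain ⟨a, b, hab'⟩ := (Prime.coprime_iff_not_dvd (Nat.prime_iff_prime_int.1 hsp)).2 hnd
      refine Subgroup.mem_zpowers_iff.2 ⟨b, ?_⟩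
      have e1 : v ^ (s : ℤ) = 1 := by rw [zpow_natCast]; exact hexp v hvW
      calc (v ^ k) ^ b = v ^ (k * b) := (zpow_mul v k b).symm
        _ = v ^ (1 - a * (s : ℤ)) := by congr 1; linarith
        _ = v := by
          rw [zpow_sub, zpow_one, mul_comm a, zpow_mul, e1, one_zpow, inv_one, mul_one]
    have hE : ∀ z : X, z ^ s = 1 → z ∈ Subgroup.zpowers v := by
      intro z hz
      by_cases hz1 : z = 1
      · rw [hz1]; exact Subgroup.one_mem _
      · haveI := hnorm (Subgroup.zpowers z)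
        have hzne : Subgroup.zpowers z ≠ ⊥ := by
          rw [Ne, Subgroup.zpowers_eq_bot]; exact hz1
        have h1 := hmono (Subgroup.zpowers z) (Subgroup.zpowers v) hzne hVne
        obtain ⟨⟨u, huz, huv⟩, hu1⟩ : ∃ w : (Subgroup.zpowers z ⊓ Subgroup.zpowers v : Subgroup X),
            w ≠ 1 := by
          have := (Subgroup.nontrivial_iff_ne_bot _).2 h1
          exact exists_ne 1
        have hu1' : u ≠ 1 := fun h => hu1 (Subtype.ext h)
        -- z is a power of u
        have hzu : z ∈ Subgroup.zpowers u := by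
          obtain ⟨k, rfl⟩ := Subgroup.mem_zpowers_iff.1 huz
          have hordz : orderOf z = s := orderOf_eq_prime hz hz1
          have hnd : ¬ (s : ℤ) ∣ k := by
            intro h
            apply hu1'
            exact (orderOf_dvd_iff_zpow_eq_one (x := z) (i := k)).1 (by rw [hordz]; exact h)
          obtain ⟨a, b, hab'⟩ := (Prime.coprime_iff_not_dvd (Nat.prime_iff_prime_int.1 hsp)).2 hnd
          refine Subgroup.mem_zpowers_iff.2 ⟨b, ?_⟩
          have e1 : z ^ (s : ℤ) = 1 := by rw [zpow_natCast]; exact hz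
          calc (z ^ k) ^ b = z ^ (k * b) := (zpow_mul z k b).symm
            _ = z ^ (1 - a * (s : ℤ)) := by congr 1; linarith
            _ = z := by
              rw [zpow_sub, zpow_one, mul_comm a, zpow_mul, e1, one_zpow, inv_one, mul_one]
        have : Subgroup.zpowers u ≤ Subgroup.zpowers v := by
          rw [Subgroup.zpowers_le]; exact huv
        exact this hzu
    by_cases hall : ∀ x : X, x ^ s = 1
    · exfalso
      apply hXD
      let ψ : PV W0 →* X :=
        { toFun := fun x => (x.left : X)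
          map_one' := rfl
          map_mul' := by
            intro x y
            change ((x.left * (x.right.1 y.left) : W0) : X) = _
            rw [hact]; rfl }
      refine hD.2.1 _ _ ψ ?_ hPVD
      intro x
      have hx : x ∈ W0 := by
        have h1 : Subgroup.zpowers v ≤ W0 := by
          rw [Subgroup.zpowers_le]; exact hvW
        exact h1 (hE x (hall x))
      exact ⟨⟨⟨x, hx⟩, 1⟩, rfl⟩
    · push Not at hall
      obtain ⟨x, hxs⟩ := hall
      have hxs2 : x ^ (s ^ (1 + 1)) = 1 := by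
        rw [pow_succ, pow_one, pow_mul]
        obtain ⟨k, hk'⟩ := Subgroup.mem_zpowers_iff.1 (hpw x)
        rw [← hk', ← zpow_natCast, ← zpow_mul, mul_comm, zpow_mul, zpow_natCast, hexp v hvW, one_zpow]
      have hord : orderOf x = s ^ (1 + 1) :=
        orderOf_eq_prime_pow (by rw [pow_one]; exact hxs) hxs2
      have hall2 : ∀ y : X, y ∈ Subgroup.zpowers x := by
        intro y
        have h1 : v ∈ Subgroup.zpowers (x ^ s) := hgen _ (hpw x) hxs
        have h2 : Subgroup.zpowers v ≤ Subgroup.zpowers (x ^ s) := by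
          rw [Subgroup.zpowers_le]; exact h1
        have h3 : Subgroup.zpowers (x ^ s) ≤ Subgroup.zpowers x := by
          rw [Subgroup.zpowers_le]; exact Subgroup.pow_mem _ (Subgroup.mem_zpowers x) s
        obtain ⟨k, hk'⟩ := Subgroup.mem_zpowers_iff.1 (h2 (hpw y))
        have h4 : (y * x ^ (-k)) ^ s = 1 := by
          have hcom : Commute y (x ^ (-k)) := hXc _ _
          rw [hcom.mul_pow, ← hk', ← zpow_natCast, ← zpow_natCast, ← zpow_mul, ← zpow_mul, ← zpow_add]
          have : (s : ℤ) * k + -k * s = 0 := by ring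
          rw [this, zpow_zero]
        have h5 := h3 (h2 (hE _ h4))
        have h6 := Subgroup.mul_mem _ h5 (Subgroup.zpow_mem _ (Subgroup.mem_zpowers x) k)
        rwa [zpow_neg, inv_mul_cancel_right] at h6
      haveI : IsCyclic X := ⟨x, hall2⟩
      have hcard : Nat.card X = s ^ 2 := by
        rw [← hord]
        exact (orderOf_eq_card_of_forall_mem_zpowers hall2).symm
      have e := zmodCyclicMulEquiv (G := X) inferInstance
      rw [hcard] at e
      exact hE1.2.1 X _ e.symm.toMonoidHom e.symm.surjective hX1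
  · right
    push Not at hab
    obtain ⟨a, b, hab⟩ := hab
    exact heis_mem hE1 X hX1 s (fun x y => hVle (hcm x y)) (fun x => hVle (hpw x)) a b hab

end Pool.Agent.Helper476.D
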