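import Pool.Agent.Helper476.D5
import Pool.Agent.Helper476.D2

set_option autoImplicit false
set_option linter.style.haveILetI false

namespace Pool.Agent.Helper476.D

open Function

theorem key {E1 E2 E3 K : ∀ (G : Type) [Group G], Prop}
    (hE2 : IsF E2) (hE3 : IsF E3) (hK : IsF K)
    (h12 : ∀ (G : Type) [Group G], E1 G → E2 G → K G)
    (h13 : ∀ (G : Type) [Group G], E1 G → E3 G → K G)
    (X : Type) [Group X] (hX1 : E1 X) (hXJ : Jn E2 E3 X) (hXK : ¬ K X)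
    (hprop : ∀ (N : Subgroup X) [N.Normal], N ≠ ⊥ → K (X ⧸ N)) :
    ∃ (W0 : Subgroup X) (_ : W0.Normal), W0 ≠ ⊥ ∧ E2 (PV W0) ∧ E3 (PV W0) := by
  have hmono : ∀ (N₁ N₂ : Subgroup X) [N₁.Normal] [N₂.Normal], N₁ ≠ ⊥ → N₂ ≠ ⊥ → N₁ ⊓ N₂ ≠ ⊥ := by
    intro N₁ N₂ _ _ h1 h2 h3
    exact hXK (hK.2.2 X N₁ N₂ h3 (hprop N₁ h1) (hprop N₂ h2))
  obtain ⟨T, Q1, Q2, _, _, _, p1, p2, f, hp1, hp2, hf, hx, hy, hk⟩ := hXJ
  haveI n1 : (p1.ker.map f).Normal := Subgroup.Normal.map inferInstance _ hf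
  haveI n2 : (p2.ker.map f).Normal := Subgroup.Normal.map inferInstance _ hf
  have hM1 : p1.ker.map f ≠ ⊥ := by
    intro h
    apply hXK
    apply h12 X hX1
    refine Qfac hE2 p1.ker (Qker hE2 p1 hp1 hx) f hf ?_
    intro t ht
    have : f t ∈ p1.ker.map f := ⟨t, ht, rfl⟩
    rwa [h] at this
  have hM2 : p2.ker.map f ≠ ⊥ := by
    intro h
    apply hXK
    apply h13 X hX1
    refine Qfac hE3 p2.ker (Qker hE3 p2 hp2 hy) f hf ?_
    intro t ht
    have : f t ∈ p2.ker.map f := ⟨t, ht, rfl⟩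
    rwa [h] at this
  have hW0 := hmono _ _ hM1 hM2
  set W0 := p1.ker.map f ⊓ p2.ker.map f with hW0def
  haveI nW0 : W0.Normal := inferInstance
  have hcomm12 : ∀ t1 t2, p1 t1 = 1 → p2 t2 = 1 → f t1 * f t2 = f t2 * f t1 := by
    intro t1 t2 h1 h2
    have : f (t1 * t2 * t1⁻¹ * t2⁻¹) = 1 := by
      apply hk
      · simp [h1]
      · simp [h2]
    rw [map_mul, map_mul, map_mul, map_inv, map_inv] at this
    rw [← mul_inv_eq_one, mul_inv_rev, ← mul_assoc]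
    exact this
  have hPVE2 : E2 (PV W0) := by
    refine semidir hE2 p1 hp1 hx f hf W0 (p2.ker ⊓ W0.comap f) (fun w hw => hw.2) ?_
      (fun w hw h1 => hk w h1 hw.1) ?_
    · rintro v hv
      obtain ⟨t, ht, rfl⟩ := hv.2
      exact ⟨t, ⟨ht, hv⟩, rfl⟩
    · intro t ht v hv
      obtain ⟨t2, ht2, rfl⟩ := hv.2
      exact hcomm12 t t2 ht ht2
  have hPVE3 : E3 (PV W0) := by
    refine semidir hE3 p2 hp2 hy f hf W0 (p1.ker ⊓ W0.comap f) (fun w hw => hw.2) ?_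
      (fun w hw h1 => hk w hw.1 h1) ?_
    · rintro v hv
      obtain ⟨t, ht, rfl⟩ := hv.1
      exact ⟨t, ⟨ht, hv⟩, rfl⟩
    · intro t ht v hv
      obtain ⟨t2, ht2, rfl⟩ := hv.1
      exact (hcomm12 t2 t ht2 ht).symm
  exact ⟨W0, nW0, hW0, hPVE2, hPVE3⟩

def Triv : ∀ (G : Type) [Group G], Prop := fun G _ => Subsingleton G

theorem Triv_form : IsF Triv := by
  refine ⟨?_, ?_, ?_⟩
  · intro G _ h
    haveI : Subsingleton G := h
    infer_instance
  · intro G H _ _ f hf h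
    haveI : Subsingleton G := h
    exact hf.subsingleton
  · intro G _ N₁ N₂ _ _ hN h1 h2
    have e1 : N₁ = ⊤ := QuotientGroup.subgroup_eq_top_of_subsingleton _ h1
    have e2 : N₂ = ⊤ := QuotientGroup.subgroup_eq_top_of_subsingleton _ h2
    rw [e1, e2, inf_top_eq] at hN
    constructor
    intro a b
    have ha : a ∈ (⊤ : Subgroup G) := Subgroup.mem_top a
    have hb : b ∈ (⊤ : Subgroup G) := Subgroup.mem_top b
    rw [hN] at ha hb
    rw [Subgroup.mem_bot] at ha hb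
    rw [ha, hb]

theorem chain5 {F : ∀ (G : Type) [Group G], Prop} (hF : HasChain F)
    (f1 f2 f3 f4 : ∀ (G : Type) [Group G], Prop) (h1 : IsF f1) (h2 : IsF f2) (h3 : IsF f3)
    (h4 : IsF f4) (h4F : ∀ (G : Type) [Group G], f4 G → F G)
    (h12 : ∀ (G : Type) [Group G], f1 G → f2 G) (h23 : ∀ (G : Type) [Group G], f2 G → f3 G)
    (h34 : ∀ (G : Type) [Group G], f3 G → f4 G)
    (e0 : ∃ (G : Type) (_ : Group G), f1 G ∧ Nontrivial G)
    (e1 : ∃ (G : Type) (_ : Group G), f2 G ∧ ¬ f1 G)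
    (e2 : ∃ (G : Type) (_ : Group G), f3 G ∧ ¬ f2 G)
    (e3 : ∃ (G : Type) (_ : Group G), f4 G ∧ ¬ f3 G) : False := by
  have h01 : ∀ (G : Type) [Group G], Triv G → f1 G := by
    intro G _ hG
    haveI : Subsingleton G := hG
    obtain ⟨H, _, hH, _⟩ := e0
    exact triv_mem h1 hH G
  let f : ℕ → (∀ (G : Type) [Group G], Prop) := fun n =>
    match n with
    | 0 => Triv
    | 1 => f1
    | 2 => f2
    | 3 => f3
    | _ => f4
  refine chain_lemma hF f ?_ ?_ (fun G _ h => h) ?_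
  · intro i
    match i with
    | 0 => exact Triv_form
    | 1 => exact h1
    | 2 => exact h2
    | 3 => exact h3
    | (n+4) => exact h4
  · intro i G _ hG
    apply h4F
    match i, hG with
    | 0, hG => exact h34 G (h23 G (h12 G (h01 G hG)))
    | 1, hG => exact h34 G (h23 G (h12 G hG))
    | 2, hG => exact h34 G (h23 G hG)
    | 3, hG => exact h34 G hG
    | (n+4), hG => exact hG
  · intro i hi
    match i, hi with
    | 0, _ =>
      refine ⟨h01, ?_⟩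
      obtain ⟨G, iG, hG, hnt⟩ := e0
      exact ⟨G, iG, hG, fun h => by
        have h' : Subsingleton G := h
        exact not_subsingleton G h'⟩
    | 1, _ => exact ⟨h12, e1⟩
    | 2, _ => exact ⟨h23, e2⟩
    | 3, _ => exact ⟨h34, e3⟩
    | (n+4), h => omega

theorem not_eab_heis {s : ℕ} (hs : s.Prime) : ¬ EAb s (Heis s) := by
  rintro ⟨_, h, _⟩
  haveI : Fact s.Prime := ⟨hs⟩
  have h1 := congrArg Heis.z (h ⟨1, 0, 0⟩ ⟨0, 1, 0⟩)
  simp at h1

theorem not_eab_cyc {s : ℕ} (hs : s.Prime) : ¬ EAb s (Multiplicative (ZMod (s ^ 2))) := by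
  rintro ⟨_, _, h⟩
  have h1 := h (Multiplicative.ofAdd 1)
  rw [← ofAdd_nsmul] at h1
  have h2 : (s • (1 : ZMod (s ^ 2))) = 0 := h1
  rw [nsmul_one, ZMod.natCast_eq_zero_iff] at h2
  have h3 := Nat.le_of_dvd hs.pos h2
  have h4 := hs.one_lt
  nlinarith

theorem main {F : ∀ (G : Type) [Group G], Prop} (hFf : IsF F) (hF : HasChain F)
    (hsol : ∀ (G : Type) [Group G], F G → Group.IsSolvable G)
    (A B C K : ∀ (G : Type) [Group G], Prop) (hA : IsF A) (hB : IsF B) (hC : IsF C) (hK : IsF K)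
    (hAF : ∀ (G : Type) [Group G], A G → F G) (hBF : ∀ (G : Type) [Group G], B G → F G)
    (hCF : ∀ (G : Type) [Group G], C G → F G)
    (hBne : ∃ (G : Type) (_ : Group G), B G) (hCne : ∃ (G : Type) (_ : Group G), C G)
    (hAB : ∀ (G : Type) [Group G], A G → B G → K G)
    (hAC : ∀ (G : Type) [Group G], A G → C G → K G)
    (G0 : Type) [Group G0] (hG0A : A G0) (hG0J : Jn B C G0) : K G0 := by
  classical
  by_contra hG0K
  have hAne : ∃ (G : Type) (_ : Group G), A G := ⟨G0, inferInstance, hG0A⟩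
  have hJ : IsF (Jn B C) := Jn_form hB hC
  have hJF : ∀ (G : Type) [Group G], Jn B C G → F G := fun G _ h => Jn_le hFf hBF hCF G h
  have hG0B : ¬ B G0 := fun h => hG0K (hAB G0 hG0A h)
  have hG0C : ¬ C G0 := fun h => hG0K (hAC G0 hG0A h)
  let D : ∀ (G : Type) [Group G], Prop := fun G _ => A G ∧ B G ∧ C G
  have hD : IsF D := inter_form hA (inter_form hB hC)
  -- nonconstant facts
  have notBC : ∃ (G : Type) (_ : Group G), B G ∧ ¬ C G := by
    by_contra h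
    push Not at h
    exact hG0C (Jn_le hC (fun G _ hG => h G inferInstance hG) (fun G _ hG => hG) G0 hG0J)
  have notCB : ∃ (G : Type) (_ : Group G), C G ∧ ¬ B G := by
    by_contra h
    push Not at h
    exact hG0B (Jn_le hB (fun G _ hG => hG) (fun G _ hG => h G inferInstance hG) G0 hG0J)
  have hAK : IsF (fun G _ => A G ∧ K G) := inter_form hA hK
  have notBA : ∃ (G : Type) (_ : Group G), B G ∧ ¬ A G := by
    by_contra h
    push Not at h
    have := modular (E1 := fun G _ => A G ∧ K G) (E2 := A) (X := B) (Y := C) hAK hA hC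
      (fun G _ h => h.1) (fun G _ h1 h2 => ⟨h1, hAC G h1 h2⟩)
      (fun G _ hG => ⟨h G inferInstance hG, hAB G (h G inferInstance hG) hG⟩) G0 hG0A hG0J
    exact hG0K this.2
  have notCA : ∃ (G : Type) (_ : Group G), C G ∧ ¬ A G := by
    by_contra h
    push Not at h
    have := modular (E1 := fun G _ => A G ∧ K G) (E2 := A) (X := C) (Y := B) hAK hA hB
      (fun G _ h => h.1) (fun G _ h1 h2 => ⟨h1, hAB G h1 h2⟩)
      (fun G _ hG => ⟨h G inferInstance hG, hAC G (h G inferInstance hG) hG⟩) G0 hG0A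
      (Jn_symm G0 hG0J)
    exact hG0K this.2
  -- a minimal group
  have hmin : ∃ (X : Type) (_ : Group X), A X ∧ Jn B C X ∧ ¬ K X ∧ ∀ (Y : Type) (_ : Group Y),
      A Y → Jn B C Y → Nat.card Y < Nat.card X → K Y := by
    have hex : ∃ n, ∃ (X : Type) (_ : Group X), A X ∧ Jn B C X ∧ ¬ K X ∧ Nat.card X = n :=
      ⟨_, G0, inferInstance, hG0A, hG0J, hG0K, rfl⟩
    obtain ⟨X, iX, h3, h4, h5, h6⟩ := Nat.find_spec hex
    refine ⟨X, iX, h3, h4, h5, ?_⟩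
    intro Y iY hY hY2 hlt
    by_contra hDY
    rw [h6] at hlt
    exact Nat.find_min hex hlt ⟨Y, iY, hY, hY2, hDY, rfl⟩
  obtain ⟨X, iX, hXA, hXJ, hXK, hXmin⟩ := hmin
  haveI : Finite X := hA.1 X hXA
  obtain ⟨W0, nW0, hW0, hPB, hPC⟩ := key (E1 := A) hB hC hK hAB hAC X hXA hXJ hXK (by
    intro N _ hN
    apply hXmin _ _ (hA.2.1 X _ (QuotientGroup.mk' N) (QuotientGroup.mk'_surjective N) hXA)
      (hJ.2.1 X _ (QuotientGroup.mk' N) (QuotientGroup.mk'_surjective N) hXJ)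
    have h1 := Subgroup.card_eq_card_quotient_mul_card_subgroup N
    have h2 : 1 < Nat.card N := Subgroup.one_lt_card_iff_ne_bot N |>.2 hN
    have h3 : 0 < Nat.card (X ⧸ N) := Nat.card_pos
    rw [h1]
    nlinarith)
  have hPA : A (PV W0) := by
    refine semidir hA (MonoidHom.id X) surjective_id hXA (MonoidHom.id X) surjective_id W0 W0
      (fun w hw => hw) (fun v hv => ⟨v, hv, rfl⟩) (fun w _ h => h) ?_
    intro t ht v _
    have ht' : t = 1 := ht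
    simp [ht']
  have hPD : D (PV W0) := ⟨hPA, hPB, hPC⟩
  have hnt : Nontrivial (PV W0) := by
    haveI := (Subgroup.nontrivial_iff_ne_bot W0).2 hW0
    exact (SemidirectProduct.inl_injective (φ := (Gam W0).subtype)).nontrivial
  obtain ⟨s, hs, Q, iQ, hQD, hQs, hQn⟩ := solv_quot hD (PV W0) hPD (hsol _ (hAF _ hPA)) hnt
  haveI : Fact s.Prime := ⟨hs⟩
  -- D consists of elementary abelian groups
  have hDel : ∀ (G : Type) [Group G], D G → EAb s G := by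
    by_contra hcon
    push Not at hcon
    obtain ⟨Y, iY, hY1, hY2⟩ := hcon
    obtain ⟨Z, iZ, hZ1, hZ2⟩ := notBC
    exact chain5 hF (fun G _ => D G ∧ EAb s G) D B (Jn B C) (inter_form hD (EAbForm s)) hD hB hJ hJF
      (fun G _ h => h.1) (fun G _ h => h.2.1) (fun G _ h => Jn_left hC hCne G h)
      ⟨Q, iQ, ⟨hQD, hQs⟩, hQn⟩ ⟨Y, iY, hY1, fun h => hY2 h.2⟩ ⟨Z, iZ, hZ1, fun h => hZ2 h.2.2⟩
      ⟨G0, inferInstance, hG0J, hG0B⟩
  have hABD : ∀ (G : Type) [Group G], A G → B G → D G := by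
    by_contra hcon
    push Not at hcon
    obtain ⟨Y, iY, hY1, hY2, hY3⟩ := hcon
    obtain ⟨Z, iZ, hZ1, hZ2⟩ := notBA
    exact chain5 hF D (fun G _ => A G ∧ B G) B (Jn B C) hD (inter_form hA hB) hB hJ hJF
      (fun G _ h => ⟨h.1, h.2.1⟩) (fun G _ h => h.2) (fun G _ h => Jn_left hC hCne G h)
      ⟨Q, iQ, hQD, hQn⟩ ⟨Y, iY, ⟨hY1, hY2⟩, hY3⟩ ⟨Z, iZ, hZ1, fun h => hZ2 h.1⟩
      ⟨G0, inferInstance, hG0J, hG0B⟩
  have hACD : ∀ (G : Type) [Group G], A G → C G → D G := by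
    by_contra hcon
    push Not at hcon
    obtain ⟨Y, iY, hY1, hY2, hY3⟩ := hcon
    obtain ⟨Z, iZ, hZ1, hZ2⟩ := notCA
    exact chain5 hF D (fun G _ => A G ∧ C G) C (Jn B C) hD (inter_form hA hC) hC hJ hJF
      (fun G _ h => ⟨h.1, h.2.2⟩) (fun G _ h => h.2) (fun G _ h => Jn_right hB hBne G h)
      ⟨Q, iQ, hQD, hQn⟩ ⟨Y, iY, ⟨hY1, hY2⟩, hY3⟩ ⟨Z, iZ, hZ1, fun h => hZ2 h.1⟩
      ⟨G0, inferInstance, hG0J, hG0C⟩
  have hBCD : ∀ (G : Type) [Group G], B G → C G → D G := by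
    by_contra hcon
    push Not at hcon
    obtain ⟨Y, iY, hY1, hY2, hY3⟩ := hcon
    obtain ⟨Z, iZ, hZ1, hZ2⟩ := notBC
    exact chain5 hF D (fun G _ => B G ∧ C G) B (Jn B C) hD (inter_form hB hC) hB hJ hJF
      (fun G _ h => h.2) (fun G _ h => h.1) (fun G _ h => Jn_left hC hCne G h)
      ⟨Q, iQ, hQD, hQn⟩ ⟨Y, iY, ⟨hY1, hY2⟩, hY3⟩ ⟨Z, iZ, hZ1, fun h => hZ2 h.2⟩
      ⟨G0, inferInstance, hG0J, hG0B⟩
  -- joins
  have hAJ : ∀ (G : Type) [Group G], A G → Jn B C G := by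
    by_contra hcon
    push Not at hcon
    obtain ⟨Y, iY, hY1, hY2⟩ := hcon
    obtain ⟨Z, iZ, hZ1, hZ2⟩ := notBC
    exact chain5 hF D B (Jn B C) (Jn (Jn B C) A) hD hB hJ (Jn_form hJ hA)
      (fun G _ h => Jn_le hFf hJF hAF G h)
      (fun G _ h => h.2.1) (fun G _ h => Jn_left hC hCne G h) (fun G _ h => Jn_left hA hAne G h)
      ⟨Q, iQ, hQD, hQn⟩ ⟨Z, iZ, hZ1, fun h => hZ2 h.2.2⟩ ⟨G0, inferInstance, hG0J, hG0B⟩
      ⟨Y, iY, Jn_right hJ ⟨G0, inferInstance, hG0J⟩ Y hY1, hY2⟩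
  have hJ2 : IsF (Jn A C) := Jn_form hA hC
  have hJ2F : ∀ (G : Type) [Group G], Jn A C G → F G := fun G _ h => Jn_le hFf hAF hCF G h
  have hBJ : ∀ (G : Type) [Group G], B G → Jn A C G := by
    by_contra hcon
    push Not at hcon
    obtain ⟨Y, iY, hY1, hY2⟩ := hcon
    obtain ⟨Z, iZ, hZ1, hZ2⟩ := notCB
    exact chain5 hF D C (Jn A C) (Jn (Jn A C) B) hD hC hJ2 (Jn_form hJ2 hB)
      (fun G _ h => Jn_le hFf hJ2F hBF G h)
      (fun G _ h => h.2.2) (fun G _ h => Jn_right hA hAne G h) (fun G _ h => Jn_left hB hBne G h)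
      ⟨Q, iQ, hQD, hQn⟩ ⟨Z, iZ, hZ1, fun h => hZ2 h.2.1⟩
      ⟨G0, inferInstance, Jn_left hC hCne G0 hG0A, hG0C⟩
      ⟨Y, iY, Jn_right hJ2 ⟨G0, inferInstance, Jn_left hC hCne G0 hG0A⟩ Y hY1, hY2⟩
  have hJ3 : IsF (Jn A B) := Jn_form hA hB
  have hJ3F : ∀ (G : Type) [Group G], Jn A B G → F G := fun G _ h => Jn_le hFf hAF hBF G h
  have hCJ : ∀ (G : Type) [Group G], C G → Jn A B G := by
    by_contra hcon
    push Not at hcon
    obtain ⟨Y, iY, hY1, hY2⟩ := hcon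
    obtain ⟨Z, iZ, hZ1, hZ2⟩ := notBC
    exact chain5 hF D B (Jn A B) (Jn (Jn A B) C) hD hB hJ3 (Jn_form hJ3 hC)
      (fun G _ h => Jn_le hFf hJ3F hCF G h)
      (fun G _ h => h.2.1) (fun G _ h => Jn_right hA hAne G h) (fun G _ h => Jn_left hC hCne G h)
      ⟨Q, iQ, hQD, hQn⟩ ⟨Z, iZ, hZ1, fun h => hZ2 h.2.2⟩
      ⟨G0, inferInstance, Jn_left hB hBne G0 hG0A, hG0B⟩
      ⟨Y, iY, Jn_right hJ3 ⟨G0, inferInstance, Jn_left hB hBne G0 hG0A⟩ Y hY1, hY2⟩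
  have f1 := FL (s := s) (E1 := A) (E2 := B) (E3 := C) (D := D) hA hB hC hD hABD hACD hBCD hDel hAJ
    ⟨G0, inferInstance, hG0A, fun h => hG0B h.2.1⟩
  have f2 := FL (s := s) (E1 := B) (E2 := A) (E3 := C) (D := D) hB hA hC hD
    (fun G _ h1 h2 => hABD G h2 h1) hBCD hACD hDel hBJ
    (by obtain ⟨Z, iZ, h1, h2⟩ := notBC; exact ⟨Z, iZ, h1, fun h => h2 h.2.2⟩)
  have f3 := FL (s := s) (E1 := C) (E2 := A) (E3 := B) (D := D) hC hA hB hD
    (fun G _ h1 h2 => hACD G h2 h1) (fun G _ h1 h2 => hBCD G h2 h1) hABD hDel hCJ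
    (by obtain ⟨Z, iZ, h1, h2⟩ := notCB; exact ⟨Z, iZ, h1, fun h => h2 h.2.1⟩)
  have nh := not_eab_heis hs
  have nc := not_eab_cyc hs
  rcases f1 with f1 | f1 <;> rcases f2 with f2 | f2
  · exact nc (hDel _ (hABD _ f1 f2))
  · rcases f3 with f3 | f3
    · exact nc (hDel _ (hACD _ f1 f3))
    · exact nh (hDel _ (hBCD _ f2 f3))
  · rcases f3 with f3 | f3
    · exact nc (hDel _ (hBCD _ f2 f3))
    · exact nh (hDel _ (hACD _ f1 f3))
  · exact nh (hDel _ (hABD _ f1 f2))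

end Pool.Agent.Helper476.D
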