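import Mathlib

set_option autoImplicit false

namespace Pool.Agent.Helper476.E0

open Subgroup

/-- `NF H`: there is a normal nilpotent subgroup containing all cubes. -/
def NF (H : Type) [Group H] : Prop :=
  ∃ B : Subgroup H, B.Normal ∧ Group.IsNilpotent B ∧ ∀ x : H, x ^ 3 ∈ B

theorem nf_surj (H K : Type) [Group H] [Group K] [Finite H] (f : H →* K)
    (hf : Function.Surjective f) (h : NF H) : NF K := by
  obtain ⟨B, hB, hn, hc⟩ := h
  refine ⟨B.map f, hB.map f hf, ?_, ?_⟩
  · exact Group.nilpotent_of_surjective (f.subgroupMap B) (f.subgroupMap_surjective B)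
  · intro k
    obtain ⟨x, rfl⟩ := hf k
    exact ⟨x ^ 3, hc x, map_pow f x 3⟩

theorem nf_sub (H K₁ K₂ : Type) [Group H] [Group K₁] [Group K₂] [Finite H]
    (f₁ : H →* K₁) (f₂ : H →* K₂) (h1 : NF K₁) (h2 : NF K₂) :
    NF (f₁.prod f₂).range := by
  obtain ⟨B₁, hB1, hn1, hc1⟩ := h1
  obtain ⟨B₂, hB2, hn2, hc2⟩ := h2
  refine ⟨(B₁.prod B₂).subgroupOf (f₁.prod f₂).range, inferInstance, ?_, ?_⟩
  · have e := Subgroup.prodEquiv B₁ B₂
    have hn : Group.IsNilpotent (B₁.prod B₂) := (Group.isNilpotent_congr e).2 inferInstance
    let g : (B₁.prod B₂).subgroupOf (f₁.prod f₂).range →* B₁.prod B₂ :=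
      { toFun := fun x => ⟨x.1.1, x.2⟩
        map_one' := rfl
        map_mul' := fun x y => rfl }
    have hg : Function.Injective g := by
      intro x y hxy
      have := congrArg Subtype.val hxy
      exact Subtype.ext (Subtype.ext this)
    exact (Group.isNilpotent_congr (MonoidHom.ofInjective hg)).2 inferInstance
  · intro x
    rw [Subgroup.mem_subgroupOf]
    exact ⟨hc1 _, hc2 _⟩

theorem nf_sat (H K : Type) [Group H] [Group K] [Finite H] (f : H →* K)
    (hf : Function.Surjective f) (hker : ∀ M : Subgroup H, IsCoatom M → f.ker ≤ M)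
    (h : NF K) : NF H := by
  obtain ⟨B, hB, hn, hc⟩ := h
  have : Finite K := Finite.of_surjective f hf
  refine ⟨B.comap f, inferInstance, ?_, ?_⟩
  · rw [(Group.isNilpotent_of_finite_tfae (G := B.comap f)).out 0 3 rfl rfl]
    intro p hp P
    -- surjection from comap to B
    let g : B.comap f →* B := f.subgroupComap B
    have hg : Function.Surjective g := f.subgroupComap_surjective_of_surjective B hf
    let Q : Sylow p B := P.mapSurjective hg
    have : (Q : Subgroup B).Normal := inferInstance
    have : (Q : Subgroup B).Characteristic := Q.characteristic_of_normal inferInstance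
    have hQn : ((Q : Subgroup B).map B.subtype).Normal := inferInstance
    let N : Subgroup H := ((Q : Subgroup B).map B.subtype).comap f
    have hN : N.Normal := inferInstance
    let P' : Subgroup H := (P : Subgroup (B.comap f)).map (B.comap f).subtype
    have hP'N : P' ≤ N := by
      rintro _ ⟨x, hx, rfl⟩
      exact ⟨g x, ⟨x, hx, rfl⟩, rfl⟩
    have hNB : N ≤ B.comap f := by
      rintro x ⟨y, hy, hyx⟩
      change f x ∈ B
      rw [← hyx]; exact y.2
    -- P as Sylow of N
    have hNP : N ≤ P' ⊔ f.ker := by
      rintro x ⟨y, hy, hyx⟩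
      obtain ⟨z, hz, rfl⟩ := hy
      have h1 : f x = f z.1 := by rw [← hyx]; rfl
      have h2 : (z.1)⁻¹ * x ∈ f.ker := by
        rw [MonoidHom.mem_ker, map_mul, map_inv, h1, inv_mul_cancel]
      have h3 : x = z.1 * ((z.1)⁻¹ * x) := by group
      rw [h3]
      exact Subgroup.mul_mem_sup ⟨z, hz, rfl⟩ h2
    have hPpg : IsPGroup p P' := P.2.map _
    have hidx : ¬ p ∣ (P'.subgroupOf N).index := by
      intro hd
      have h1 : (P'.subgroupOf N).index ∣ (P'.subgroupOf (B.comap f)).index := by
        change P'.relIndex N ∣ P'.relIndex (B.comap f)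
        exact ⟨_, (Subgroup.relIndex_mul_relIndex P' N (B.comap f) hP'N hNB).symm⟩
      have h2 : (P'.subgroupOf (B.comap f)) = P := by
        change ((P : Subgroup (B.comap f)).map (B.comap f).subtype).subgroupOf _ = _
        rw [Subgroup.subgroupOf, Subgroup.comap_map_eq_self_of_injective]
        exact Subtype.val_injective
      rw [h2] at h1
      exact P.not_dvd_index (hd.trans h1)
    have hPN : IsPGroup p (P'.subgroupOf N) := hPpg.of_injective
      (Subgroup.inclusion (le_refl _) |>.comp
        ({ toFun := fun x => ⟨x.1.1, x.2⟩, map_one' := rfl, map_mul' := fun _ _ => rfl } :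
          P'.subgroupOf N →* P'))
      (by intro x y hxy
          have := congrArg Subtype.val hxy
          exact Subtype.ext (Subtype.ext this))
    let S : Sylow p N := hPN.toSylow hidx
    have hS : (S : Subgroup N).map N.subtype = P' := by
      change (P'.subgroupOf N).map N.subtype = P'
      rw [Subgroup.subgroupOf_map_subtype, inf_eq_left]
      exact hP'N
    have hfr := S.normalizer_sup_eq_top
    rw [hS] at hfr
    have hnorm : normalizer (P' : Set H) = ⊤ := by
      by_contra hne
      obtain ⟨M, hM, hle⟩ := (eq_top_or_exists_le_coatom (normalizer (P' : Set H))).resolve_left hne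
      have : (⊤ : Subgroup H) ≤ M := by
        rw [← hfr]
        refine sup_le hle (hNP.trans (sup_le (le_normalizer.trans hle) (hker M hM)))
      exact hM.1 (top_le_iff.1 this)
    have hP'norm : P'.Normal := Subgroup.normalizer_eq_top_iff.1 hnorm
    have : (P : Subgroup (B.comap f)) = P'.subgroupOf (B.comap f) := by
      change _ = ((P : Subgroup (B.comap f)).map (B.comap f).subtype).subgroupOf _
      rw [Subgroup.subgroupOf, Subgroup.comap_map_eq_self_of_injective]
      exact Subtype.val_injective
    rw [this]
    infer_instance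
  · intro x
    change f (x ^ 3) ∈ B
    rw [map_pow]; exact hc _

end Pool.Agent.Helper476.E0
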