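import Mathlib
import Pool.Agent.Helper476.E0a

set_option autoImplicit false

namespace Pool.Agent.Helper476.E0

open Subgroup

/-- The quaternion group of order 8 as triples over `ZMod 2`. -/
structure Q where
  a : ZMod 2
  b : ZMod 2
  k : ZMod 2

namespace Q

def equivP : Q ≃ ZMod 2 × ZMod 2 × ZMod 2 where
  toFun x := (x.a, x.b, x.k)
  invFun p := ⟨p.1, p.2.1, p.2.2⟩
  left_inv _ := rfl
  right_inv _ := rfl

instance : DecidableEq Q := fun x y =>
  decidable_of_iff (x.a = y.a ∧ x.b = y.b ∧ x.k = y.k)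
    ⟨fun h => by cases x; cases y; simp_all, fun h => by subst h; simp⟩

instance : Fintype Q := Fintype.ofEquiv _ equivP.symm

@[ext] theorem ext' (x y : Q) (h1 : x.a = y.a) (h2 : x.b = y.b) (h3 : x.k = y.k) : x = y := by
  cases x; cases y; simp_all

instance : Mul Q := ⟨fun x y => ⟨x.a + y.a, x.b + y.b, x.k + y.k + (x.a * y.a + x.b * y.b + x.a * y.b)⟩⟩
instance : One Q := ⟨⟨0, 0, 0⟩⟩
instance : Inv Q := ⟨fun x => ⟨x.a, x.b, x.k + (x.a * x.a + x.b * x.b + x.a * x.b)⟩⟩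

@[simp] theorem mul_a (x y : Q) : (x * y).a = x.a + y.a := rfl
@[simp] theorem mul_b (x y : Q) : (x * y).b = x.b + y.b := rfl
@[simp] theorem mul_k (x y : Q) : (x * y).k = x.k + y.k + (x.a * y.a + x.b * y.b + x.a * y.b) := rfl
@[simp] theorem one_a : (1 : Q).a = 0 := rfl
@[simp] theorem one_b : (1 : Q).b = 0 := rfl
@[simp] theorem one_k : (1 : Q).k = 0 := rfl
@[simp] theorem inv_a (x : Q) : (x⁻¹).a = x.a := rfl
@[simp] theorem inv_b (x : Q) : (x⁻¹).b = x.b := rfl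
@[simp] theorem inv_k (x : Q) : (x⁻¹).k = x.k + (x.a * x.a + x.b * x.b + x.a * x.b) := rfl

instance : Group Q where
  mul_assoc x y z := by ext <;> simp <;> ring
  one_mul x := by ext <;> simp
  mul_one x := by ext <;> simp
  inv_mul_cancel x := by
    ext
    · simp [CharTwo.add_self_eq_zero]
    · simp [CharTwo.add_self_eq_zero]
    · simp only [mul_k, inv_k, inv_a, inv_b, one_k]
      generalize x.a = a; generalize x.b = b; generalize x.k = k
      revert a b k; decide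

/-- automorphism of order 3 -/
def sig : Q ≃* Q where
  toFun x := ⟨x.b, x.a + x.b, x.k⟩
  invFun x := ⟨x.a + x.b, x.a, x.k⟩
  left_inv x := by
    ext
    · change x.b + (x.a + x.b) = x.a
      generalize x.a = a; generalize x.b = b
      revert a b; decide
    · rfl
    · rfl
  right_inv x := by
    ext
    · rfl
    · change x.a + x.b + x.a = x.b
      generalize x.a = a; generalize x.b = b
      revert a b; decide
    · rfl
  map_mul' x y := by
    ext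
    · rfl
    · simp; ring
    · simp only [mul_k, mul_a, mul_b]
      generalize x.a = a; generalize x.b = b; generalize x.k = k
      generalize y.a = a'; generalize y.b = b'; generalize y.k = k'
      revert a b k a' b' k'; decide

end Q

abbrev P := Q × Q × Q

def c : MulAut P where
  toFun x := (Q.sig x.2.2, x.1, x.2.1)
  invFun x := (x.2.1, x.2.2, Q.sig.symm x.1)
  left_inv x := by simp
  right_inv x := by simp
  map_mul' x y := by simp

theorem c_apply (x : P) : c x = (Q.sig x.2.2, x.1, x.2.1) := rfl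

theorem sig3 (x : Q) : Q.sig (Q.sig (Q.sig x)) = x := by
  revert x; decide

theorem c3_apply (x : P) : (c ^ 3) x = (Q.sig x.1, Q.sig x.2.1, Q.sig x.2.2) := by
  rw [pow_succ, pow_two]; rfl

theorem c9 : c ^ 9 = 1 := by
  have : c ^ 9 = c ^ 3 * (c ^ 3 * c ^ 3) := by group
  rw [this]
  ext1 x
  simp only [MulAut.mul_apply, c3_apply, sig3]
  rfl

def phi : Multiplicative (ZMod 9) →* MulAut P where
  toFun k := c ^ (Multiplicative.toAdd k).val
  map_one' := by simp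
  map_mul' k l := by
    rw [toAdd_mul, ZMod.val_add, ← pow_add]
    exact (pow_eq_pow_mod _ c9).symm

theorem phi_apply (k : ZMod 9) : phi (Multiplicative.ofAdd k) = c ^ k.val := rfl

theorem phi_one_apply (x : P) : phi (Multiplicative.ofAdd 1) x = c x := by
  rw [phi_apply, show (1 : ZMod 9).val = 1 from rfl, pow_one]

abbrev G := P ⋊[phi] Multiplicative (ZMod 9)

instance : Finite G := Finite.of_injective (fun g : G => (g.left, g.right))
  (fun x y h => SemidirectProduct.ext (congrArg Prod.fst h) (congrArg Prod.snd h))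

/-- centre of P -/
def Zc : Subgroup P where
  carrier := {x | x.1.a = 0 ∧ x.1.b = 0 ∧ x.2.1.a = 0 ∧ x.2.1.b = 0 ∧ x.2.2.a = 0 ∧ x.2.2.b = 0}
  mul_mem' := by
    rintro x y ⟨h1, h2, h3, h4, h5, h6⟩ ⟨g1, g2, g3, g4, g5, g6⟩
    simp [*]
  one_mem' := by simp
  inv_mem' := by
    rintro x ⟨h1, h2, h3, h4, h5, h6⟩
    simp [*]

theorem mem_Zc (x : P) : x ∈ Zc ↔ x.1.a = 0 ∧ x.1.b = 0 ∧ x.2.1.a = 0 ∧ x.2.1.b = 0 ∧ x.2.2.a = 0 ∧ x.2.2.b = 0 := Iff.rfl

theorem Qcomm (x y : Q) : x * y * x⁻¹ * y⁻¹ = ⟨0, 0, x.a * y.b + x.b * y.a⟩ := by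
  revert x y; decide

theorem Qcomm' (x y : Q) (h1 : x.a = 0) (h2 : x.b = 0) : x * y = y * x := by
  revert x y; decide

theorem Zc_comm (x y : P) (h : x ∈ Zc) : x * y = y * x := by
  obtain ⟨h1, h2, h3, h4, h5, h6⟩ := h
  exact Prod.ext (Qcomm' _ _ h1 h2) (Prod.ext (Qcomm' _ _ h3 h4) (Qcomm' _ _ h5 h6))

theorem comm_mem_Zc (x y : P) : x * y * x⁻¹ * y⁻¹ ∈ Zc := by
  rw [mem_Zc]
  simp only [Prod.fst_mul, Prod.snd_mul, Prod.fst_inv, Prod.snd_inv, Qcomm]
  simp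

theorem c_Zc (x : P) (h : x ∈ Zc) : c x ∈ Zc := by
  rw [mem_Zc] at *
  simp [c_apply, Q.sig, h]

/-- vector space V -/
abbrev V := (ZMod 2 × ZMod 2) × (ZMod 2 × ZMod 2) × (ZMod 2 × ZMod 2)

def pv (x : P) : V := ((x.1.a, x.1.b), (x.2.1.a, x.2.1.b), (x.2.2.a, x.2.2.b))

theorem pv_mul (x y : P) : pv (x * y) = pv x + pv y := rfl

def T (v : V) : V := ((v.2.2.2, v.2.2.1 + v.2.2.2), v.1, v.2.1)

theorem pv_c (x : P) : pv (c x) = T (pv x) := rfl

def e1 : V := ((1, 0), (0, 0), (0, 0))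

def sm (b : Bool) (v : V) : V := if b then v else 0

def comb (s : Bool × Bool × Bool × Bool × Bool × Bool) (v : V) : V :=
  sm s.1 v + (sm s.2.1 (T v) + (sm s.2.2.1 (T (T v)) + (sm s.2.2.2.1 (T (T (T v)))
   + (sm s.2.2.2.2.1 (T (T (T (T v)))) + sm s.2.2.2.2.2 (T (T (T (T (T v)))))))))

theorem D1 : ∀ v : V, v ≠ 0 → ∃ s, comb s v = e1 := by decide +kernel
theorem D2 : ∀ v : V, ∃ s, comb s e1 = v := by decide +kernel

theorem comb_mem (S : V → Prop) (h0 : S 0) (hadd : ∀ v w, S v → S w → S (v + w))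
    (hT : ∀ v, S v → S (T v)) (s) (v : V) (hv : S v) : S (comb s v) := by
  have hs : ∀ b v, S v → S (sm b v) := by
    intro b v hv
    cases b
    · exact h0
    · exact hv
  have h1 := hT v hv
  have h2 := hT _ h1
  have h3 := hT _ h2
  have h4 := hT _ h3
  have h5 := hT _ h4
  exact hadd _ _ (hs _ _ hv) (hadd _ _ (hs _ _ h1) (hadd _ _ (hs _ _ h2) (hadd _ _ (hs _ _ h3)
    (hadd _ _ (hs _ _ h4) (hs _ _ h5)))))

theorem pv_eq_iff (x y : P) (h : pv x = pv y) : x⁻¹ * y ∈ Zc := by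
  rw [mem_Zc]
  simp only [pv, Prod.mk.injEq] at h
  obtain ⟨⟨h1, h2⟩, ⟨h3, h4⟩, h5, h6⟩ := h
  simp [h1, h2, h3, h4, h5, h6, CharTwo.add_self_eq_zero]

theorem irr (N : Subgroup P) (h1 : ∀ n ∈ N, ∃ z ∈ Zc, c n * z ∈ N) (n0 : P) (hn0 : n0 ∈ N)
    (hnz : n0 ∉ Zc) : N = ⊤ := by
  let S : V → Prop := fun v => ∃ n ∈ N, pv n = v
  have hS0 : S 0 := ⟨1, N.one_mem, rfl⟩
  have hadd : ∀ v w, S v → S w → S (v + w) := by
    rintro _ _ ⟨n, hn, rfl⟩ ⟨m, hm, rfl⟩
    exact ⟨n * m, N.mul_mem hn hm, rfl⟩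
  have hT : ∀ v, S v → S (T v) := by
    rintro _ ⟨n, hn, rfl⟩
    obtain ⟨z, hz, hzn⟩ := h1 n hn
    refine ⟨_, hzn, ?_⟩
    rw [pv_mul, pv_c]
    have : pv z = 0 := by
      rw [mem_Zc] at hz
      simp [pv, hz]
    rw [this, add_zero]
  have hne : pv n0 ≠ 0 := by
    intro h
    apply hnz
    simp only [pv, Prod.mk_eq_zero] at h
    rw [mem_Zc]; tauto
  obtain ⟨s, hs⟩ := D1 _ hne
  have hS1 : S e1 := by
    rw [← hs]; exact comb_mem S hS0 hadd hT s _ ⟨n0, hn0, rfl⟩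
  have hall : ∀ v, S v := by
    intro v
    obtain ⟨s, hs⟩ := D2 v
    rw [← hs]; exact comb_mem S hS0 hadd hT s _ hS1
  -- commutators
  have hcomm : ∀ x y : P, x * y * x⁻¹ * y⁻¹ ∈ N := by
    intro x y
    obtain ⟨n, hn, hnx⟩ := hall (pv x)
    obtain ⟨m, hm, hmy⟩ := hall (pv y)
    have : x * y * x⁻¹ * y⁻¹ = n * m * n⁻¹ * m⁻¹ := by
      simp only [pv, Prod.mk.injEq] at hnx hmy
      obtain ⟨⟨a1, a2⟩, ⟨a3, a4⟩, a5, a6⟩ := hnx
      obtain ⟨⟨b1, b2⟩, ⟨b3, b4⟩, b5, b6⟩ := hmy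
      refine Prod.ext ?_ (Prod.ext ?_ ?_) <;>
      simp only [Prod.fst_mul, Prod.snd_mul, Prod.fst_inv, Prod.snd_inv, Qcomm, a1, a2, a3, a4, a5, a6, b1, b2, b3, b4, b5, b6]
    rw [this]
    exact N.mul_mem (N.mul_mem (N.mul_mem hn hm) (N.inv_mem hn)) (N.inv_mem hm)
  have hZ : Zc ≤ N := by
    intro z hz
    have g1 : ∀ k : ZMod 2, ((⟨0, 0, k⟩, 1, 1) : P) ∈ N := by
      intro k
      have := hcomm (⟨k, 0, 0⟩, 1, 1) (⟨0, 1, 0⟩, 1, 1)
      convert this using 1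
      refine Prod.ext ?_ (Prod.ext ?_ ?_)
      · simp only [Prod.fst_mul, Prod.fst_inv, Qcomm]; simp
      · simp
      · simp
    have g2 : ∀ k : ZMod 2, ((1, ⟨0, 0, k⟩, 1) : P) ∈ N := by
      intro k
      have := hcomm (1, ⟨k, 0, 0⟩, 1) (1, ⟨0, 1, 0⟩, 1)
      convert this using 1
      refine Prod.ext ?_ (Prod.ext ?_ ?_)
      · simp
      · simp only [Prod.fst_mul, Prod.snd_mul, Prod.snd_inv, Prod.fst_inv, Qcomm]; simp
      · simp
    have g3 : ∀ k : ZMod 2, ((1, 1, ⟨0, 0, k⟩) : P) ∈ N := by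
      intro k
      have := hcomm (1, 1, ⟨k, 0, 0⟩) (1, 1, ⟨0, 1, 0⟩)
      convert this using 1
      refine Prod.ext ?_ (Prod.ext ?_ ?_)
      · simp
      · simp
      · simp only [Prod.snd_mul, Prod.snd_inv, Qcomm]; simp
    have : z = (⟨0, 0, z.1.k⟩, 1, 1) * (1, ⟨0, 0, z.2.1.k⟩, 1) * (1, 1, ⟨0, 0, z.2.2.k⟩) := by
      obtain ⟨a1, a2, a3, a4, a5, a6⟩ := hz
      refine Prod.ext ?_ (Prod.ext ?_ ?_)
      · simp only [Prod.fst_mul, mul_one]; exact Q.ext' _ _ a1 a2 rfl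
      · simp only [Prod.fst_mul, Prod.snd_mul, mul_one, one_mul]; exact Q.ext' _ _ a3 a4 rfl
      · simp only [Prod.snd_mul, mul_one, one_mul]; exact Q.ext' _ _ a5 a6 rfl
    rw [this]
    exact N.mul_mem (N.mul_mem (g1 _) (g2 _)) (g3 _)
  rw [eq_top_iff]
  intro x _
  obtain ⟨n, hn, hnx⟩ := hall (pv x)
  have := N.mul_mem hn (hZ (pv_eq_iff n x hnx))
  simpa using this

end Pool.Agent.Helper476.E0
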