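import Mathlib
import Pool.Agent.Helper476.E0b

set_option autoImplicit false

namespace Pool.Agent.Helper476.E0

open Subgroup SemidirectProduct

theorem nil_comm (B : Type) [Group B] [Finite B] [Group.IsNilpotent B] (x y : B)
    (hx : x ^ 3 = 1) (hy : y ^ 4 = 1) : x * y = y * x := by
  have hx' : IsPGroup 3 (zpowers x) := by
    rw [IsPGroup.iff_orderOf]
    rintro ⟨g, k, rfl⟩
    have h1 : orderOf (⟨x ^ k, k, rfl⟩ : zpowers x) ∣ 3 := by
      rw [orderOf_dvd_iff_pow_eq_one]
      apply Subtype.ext
      change (x ^ k) ^ 3 = 1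
      rw [← zpow_natCast, ← zpow_mul, mul_comm, zpow_mul, zpow_natCast, hx, one_zpow]
    obtain ⟨i, _, hi⟩ := (Nat.dvd_prime_pow Nat.prime_three (m := 1)).1 (by simpa using h1)
    exact ⟨i, hi⟩
  have hy' : IsPGroup 2 (zpowers y) := by
    rw [IsPGroup.iff_orderOf]
    rintro ⟨g, k, rfl⟩
    have h1 : orderOf (⟨y ^ k, k, rfl⟩ : zpowers y) ∣ 4 := by
      rw [orderOf_dvd_iff_pow_eq_one]
      apply Subtype.ext
      change (y ^ k) ^ 4 = 1
      rw [← zpow_natCast, ← zpow_mul, mul_comm, zpow_mul, zpow_natCast, hy, one_zpow]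
    obtain ⟨i, _, hi⟩ := (Nat.dvd_prime_pow Nat.prime_two (m := 2)).1 (by simpa using h1)
    exact ⟨i, hi⟩
  obtain ⟨P3, hP3⟩ := hx'.exists_le_sylow
  obtain ⟨P2, hP2⟩ := hy'.exists_le_sylow
  have hd : Disjoint (P3 : Subgroup B) (P2 : Subgroup B) :=
    IsPGroup.disjoint_of_ne 3 2 (by norm_num) _ _ P3.2 P2.2
  exact Subgroup.commute_of_normal_of_disjoint (P3 : Subgroup B) (P2 : Subgroup B) inferInstance
    inferInstance hd x y (hP3 (mem_zpowers x)) (hP2 (mem_zpowers y))

theorem pow4 (x : P) : x ^ 4 = 1 := by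
  have : ∀ x : Q, x ^ 4 = 1 := by decide
  exact Prod.ext (this _) (Prod.ext (this _) (this _))

def i1 : P := (⟨1, 0, 0⟩, 1, 1)

theorem conj_inl (p : P) (k : Multiplicative (ZMod 9)) (n : P) :
    (⟨p, k⟩ : G) * inl n * (⟨p, k⟩ : G)⁻¹ = inl (p * phi k n * p⁻¹) := by
  ext1
  · simp [mul_assoc]
  · simp

theorem key (H : Type) [Group H] [Finite H] (f : G →* H) (hf : Function.Surjective f)
    (h : NF H) (p : P) : f (inl p) = 1 := by
  obtain ⟨B, hB, hn, hc⟩ := h
  set g3 : G := inr (Multiplicative.ofAdd 3) with hg3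
  have hg3' : g3 = (inr (Multiplicative.ofAdd 1)) ^ 3 := by
    rw [← map_pow]; rfl
  have hxB : f g3 ∈ B := by rw [hg3', map_pow]; exact hc _
  have hx3 : (f g3) ^ 3 = 1 := by
    rw [← map_pow, hg3, ← map_pow, show (Multiplicative.ofAdd (3 : ZMod 9)) ^ 3 = 1 from rfl,
      map_one, map_one]
  -- q = [i1, g3]
  set q : P := i1 * (phi (Multiplicative.ofAdd 3) i1)⁻¹ with hq
  have hqe : (inl q : G) = inl i1 * g3 * (inl i1)⁻¹ * g3⁻¹ := by
    ext1
    · simp [hq, hg3]
    · simp [hg3]
  have hyB : f (inl q) ∈ B := by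
    rw [hqe, map_mul, map_mul, map_mul, map_inv, map_inv]
    exact B.mul_mem (hB.conj_mem _ hxB _) (B.inv_mem hxB)
  have hy4 : (f (inl q)) ^ 4 = 1 := by rw [← map_pow, ← map_pow, pow4, map_one, map_one]
  have hcomm := nil_comm B ⟨f g3, hxB⟩ ⟨f (inl q), hyB⟩ (Subtype.ext hx3) (Subtype.ext hy4)
  have hcomm' : f g3 * f (inl q) = f (inl q) * f g3 := congrArg Subtype.val hcomm
  let N : Subgroup P := (f.ker).comap inl
  have h1 : ∀ n ∈ N, ∃ z ∈ Zc, c n * z ∈ N := by
    intro n hn
    refine ⟨1, Zc.one_mem, ?_⟩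
    rw [mul_one]
    change f (inl (c n)) = 1
    have hn' : f (inl n) = 1 := hn
    have h2 := conj_inl 1 (Multiplicative.ofAdd 1) n
    rw [phi_one_apply, one_mul, inv_one, mul_one] at h2
    rw [← h2, map_mul, map_mul, hn', mul_one, map_inv, mul_inv_cancel]
  have h2 : phi (Multiplicative.ofAdd 3) q * q⁻¹ ∈ N := by
    change f (inl _) = 1
    have h3 := conj_inl 1 (Multiplicative.ofAdd 3) q
    rw [one_mul, inv_one, mul_one] at h3
    rw [map_mul, ← h3, map_mul, map_mul, map_mul]
    have h4 : (⟨1, Multiplicative.ofAdd 3⟩ : G) = g3 := rfl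
    rw [h4, hcomm', map_inv, map_inv, map_inv, mul_inv_cancel_right, mul_inv_cancel]
  have h3 : phi (Multiplicative.ofAdd 3) q * q⁻¹ ∉ Zc := by
    rw [hq, phi_apply, show (3 : ZMod 9).val = 3 from rfl, c3_apply, c3_apply, mem_Zc]
    decide
  have h4 := irr N h1 _ h2 h3
  have : p ∈ N := by rw [h4]; trivial
  exact this

theorem cube_gen : ∀ k : ZMod 9, 3 * k ≠ 0 → ∃ j : ℕ, j < 9 ∧ j * k = 1 := by decide

theorem phi3_Zc (k : ZMod 9) (hk : 3 * k = 0) (z : P) (hz : z ∈ Zc) :
    phi (Multiplicative.ofAdd k) z = z := by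
  have h0 : ∀ w ∈ Zc, (c ^ 3) w = w := by
    rintro w ⟨h1, h2, h3, h4, h5, h6⟩
    rw [c3_apply]
    have : ∀ x : Q, x.a = 0 → x.b = 0 → Q.sig x = x := by decide
    exact Prod.ext (this _ h1 h2) (Prod.ext (this _ h3 h4) (this _ h5 h6))
  have h1 : ∀ k : ZMod 9, 3 * k = 0 → ∃ j : ℕ, k.val = 3 * j := by
    intro k hk
    have : ∀ k : ZMod 9, 3 * k = 0 → k.val = 3 * (k.val / 3) := by decide
    exact ⟨_, this k hk⟩
  obtain ⟨j, hj⟩ := h1 k hk
  rw [phi_apply, hj, pow_mul]
  induction j generalizing k with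
  | zero => simp
  | succ j ih =>
    have : ∀ m : ℕ, ((c ^ 3) ^ m) z = z := by
      intro m
      induction m with
      | zero => simp
      | succ m ihm => rw [pow_succ, MulAut.mul_apply, h0 z hz, ihm]
    exact this _

theorem ker_pgroup : IsPGroup 2 (inl : P →* G).range := by
  rintro ⟨_, p, rfl⟩
  refine ⟨2, Subtype.ext ?_⟩
  change (inl p : G) ^ 4 = 1
  rw [← map_pow, pow4, map_one]

theorem sub_nf (M : Subgroup G) (hM : M ≠ ⊤) : NF M := by
  by_cases hcase : ∀ x ∈ M, (rightHom x) ^ 3 = 1
  · refine ⟨(inl : P →* G).range.subgroupOf M, ?_, ?_, ?_⟩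
    · have : (inl : P →* G).range.Normal := by rw [range_inl_eq_ker_rightHom]; infer_instance
      infer_instance
    · have hp : IsPGroup 2 ((inl : P →* G).range.subgroupOf M) := by
        refine ker_pgroup.of_injective
          ({ toFun := fun x => ⟨x.1.1, x.2⟩, map_one' := rfl, map_mul' := fun _ _ => rfl } :
            (inl : P →* G).range.subgroupOf M →* (inl : P →* G).range) ?_
        intro x y hxy
        have := congrArg Subtype.val hxy
        exact Subtype.ext (Subtype.ext this)
      exact hp.isNilpotent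
    · intro x
      rw [mem_subgroupOf, range_inl_eq_ker_rightHom, MonoidHom.mem_ker]
      have := hcase x.1 x.2
      rw [← map_pow] at this
      exact this
  · push Not at hcase
    obtain ⟨m0, hm0, hne⟩ := hcase
    -- get generator
    obtain ⟨m, hm, hmr⟩ : ∃ m ∈ M, rightHom m = Multiplicative.ofAdd (1 : ZMod 9) := by
      have h1 : 3 * (Multiplicative.toAdd (rightHom m0)) ≠ 0 := by
        intro h
        apply hne
        have : (rightHom m0) ^ 3 = Multiplicative.ofAdd (3 * Multiplicative.toAdd (rightHom m0)) := by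
          rw [show (3 : ZMod 9) * Multiplicative.toAdd (rightHom m0)
            = (3 : ℕ) • Multiplicative.toAdd (rightHom m0) by simp, ofAdd_nsmul]
          rfl
        rw [this, h]; rfl
      obtain ⟨j, _, hj⟩ := cube_gen _ h1
      refine ⟨m0 ^ j, M.pow_mem hm0 j, ?_⟩
      rw [map_pow]
      have : (rightHom m0) ^ j = Multiplicative.ofAdd (j * Multiplicative.toAdd (rightHom m0)) := by
        rw [← nsmul_eq_mul, ofAdd_nsmul]; rfl
      rw [this, hj]
    let N : Subgroup P := M.comap inl
    have hN1 : ∀ n ∈ N, ∃ z ∈ Zc, c n * z ∈ N := by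
      intro n hn
      have hn' : (inl n : G) ∈ M := hn
      have h1 : m * inl n * m⁻¹ ∈ M := M.mul_mem (M.mul_mem hm hn') (M.inv_mem hm)
      have hm' : m = ⟨m.left, Multiplicative.ofAdd 1⟩ := by
        ext1
        · rfl
        · exact hmr
      rw [hm', conj_inl, phi_one_apply] at h1
      refine ⟨(c n)⁻¹ * (m.left * c n * m.left⁻¹), ?_, ?_⟩
      · have := comm_mem_Zc (c n)⁻¹ m.left
        simpa [mul_assoc] using this
      · rw [mul_inv_cancel_left]; exact h1
    by_cases hZ : ∀ n ∈ N, n ∈ Zc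
    · let r3 : G →* Multiplicative (ZMod 9) := (powMonoidHom 3).comp rightHom
      refine ⟨r3.ker.subgroupOf M, inferInstance, ?_, ?_⟩
      · let B := r3.ker.subgroupOf M
        let fB : B →* Multiplicative (ZMod 9) := rightHom.comp (M.subtype.comp B.subtype)
        have hker : fB.ker ≤ center B := by
          rintro ⟨⟨x, hxM⟩, hxB⟩ hx
          rw [mem_center_iff]
          rintro ⟨⟨y, hyM⟩, hyB⟩
          apply Subtype.ext
          apply Subtype.ext
          change y * x = x * y
          have hx1 : rightHom x = 1 := hx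
          have hxr : x ∈ (inl : P →* G).range := by
            rw [range_inl_eq_ker_rightHom]; exact hx1
          obtain ⟨n, rfl⟩ := hxr
          have hnN : n ∈ N := hxM
          have hnZ := hZ n hnN
          have hy3 : (rightHom y) ^ 3 = 1 := hyB
          have hk : 3 * (Multiplicative.toAdd y.right) = 0 := by
            have h5 := congrArg Multiplicative.toAdd hy3
            rw [toAdd_pow, toAdd_one, nsmul_eq_mul] at h5
            exact h5
          have hfix := phi3_Zc _ hk n hnZ
          rw [ofAdd_toAdd] at hfix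
          ext1
          · simp only [mul_left, left_inl, right_inl, map_one, MulAut.one_apply]
            rw [hfix]
            exact (Zc_comm n y.left hnZ).symm
          · simp
        have hcom : ∀ a b : B, a * b = b * a := commutative_of_cyclic_center_quotient fB hker
        letI : CommGroup B := { (inferInstance : Group B) with mul_comm := hcom }
        exact (inferInstance : Group.IsNilpotent B)
      · intro x
        rw [mem_subgroupOf, MonoidHom.mem_ker]
        change (rightHom ((x.1) ^ 3)) ^ 3 = 1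
        rw [map_pow, ← pow_mul]
        have : ∀ k : Multiplicative (ZMod 9), k ^ 9 = 1 := by decide
        exact this _
    · exfalso
      push Not at hZ
      obtain ⟨n0, hn0, hnz⟩ := hZ
      have hNt := irr N hN1 n0 hn0 hnz
      apply hM
      rw [eq_top_iff]
      intro g _
      have hin : ∀ p : P, (inl p : G) ∈ M := fun p => by
        have : p ∈ N := by rw [hNt]; trivial
        exact this
      set k := (Multiplicative.toAdd g.right).val with hk
      have h1 : (m ^ k).right = g.right := by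
        have : rightHom (m ^ k) = g.right := by
          rw [map_pow, hmr, ← ofAdd_nsmul, nsmul_eq_mul, mul_one, hk, ZMod.natCast_zmod_val]
          rfl
        exact this
      have h2 : g = inl (g.left * (m ^ k).left⁻¹) * m ^ k := by
        ext1
        · simp
        · simp [h1]
      rw [h2]
      exact M.mul_mem (hin _) (M.pow_mem hm k)

theorem G_solvable : Group.IsSolvable G := by
  have hP : Group.IsSolvable P := by
    have : IsPGroup 2 P := fun x => ⟨2, pow4 x⟩
    have h2 : Group.IsNilpotent P := this.isNilpotent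
    infer_instance
  exact Group.isSolvable_of_ker_le_range (inl : P →* G) rightHom
    (by rw [range_inl_eq_ker_rightHom])

end Pool.Agent.Helper476.E0
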