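import Mathlib
import Pool.Agent.Helper476.E0c

set_option autoImplicit false

namespace Pool.Agent.Helper476.E0

open Subgroup SemidirectProduct

theorem tr_surj (K : Type) [Field K] [Finite K] [CharP K 2] (n : ℕ) (hn : 0 < n)
    (hcard : Nat.card K = 2 ^ (2 * n)) (d : K) (hd : d ^ (2 ^ n) = d) :
    ∃ s : K, s + s ^ (2 ^ n) = d := by
  classical
  have := Fintype.ofFinite K
  have hq : 1 < 2 ^ n := Nat.one_lt_two_pow hn.ne'
  have hqq : ∀ s : K, (s ^ (2 ^ n)) ^ (2 ^ n) = s := by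
    intro s
    rw [← pow_mul, ← pow_add, ← two_mul, ← hcard, Nat.card_eq_fintype_card]
    exact FiniteField.pow_card s
  have hex : ∃ s0 : K, s0 + s0 ^ (2 ^ n) ≠ 0 := by
    by_contra hcon
    push Not at hcon
    have hsub : (Finset.univ : Finset K).val ⊆ (Polynomial.X ^ (2 ^ n) - Polynomial.X : Polynomial K).roots := by
      intro s _
      rw [Polynomial.mem_roots (FiniteField.X_pow_card_sub_X_ne_zero K hq)]
      simp only [Polynomial.IsRoot.def, Polynomial.eval_sub, Polynomial.eval_pow, Polynomial.eval_X]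
      have := hcon s
      rw [sub_eq_zero]
      exact (CharTwo.add_eq_zero.1 this).symm
    have h1 := Polynomial.card_le_degree_of_subset_roots hsub
    rw [FiniteField.X_pow_card_sub_X_natDegree_eq K hq, Finset.card_univ,
      ← Nat.card_eq_fintype_card, hcard] at h1
    have h2 : 2 ^ n < 2 ^ (2 * n) := Nat.pow_lt_pow_right (by norm_num) (by omega)
    omega
  obtain ⟨s0, hs0⟩ := hex
  set e := s0 + s0 ^ (2 ^ n) with he
  have hee : e ^ (2 ^ n) = e := by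
    rw [he, add_pow_char_pow, hqq, add_comm]
  refine ⟨d * (s0 / e), ?_⟩
  rw [mul_pow, hd, div_pow, hee, ← mul_add, ← add_div, ← he, div_self hs0, mul_one]

/-- The final contradiction. -/
theorem no_phi (K : Type) [Field K] [Finite K] [CharP K 2] (n : ℕ) (hn : 0 < n)
    (hcard : Nat.card K = 2 ^ (2 * n))
    (f : K × K → G) (R : Subgroup G)
    (hR : R = (inl : P →* G).range)
    (h1 : ∀ x : K × K,
      x.2 + x.2 ^ (2 ^ n) + x.1 ^ (2 ^ n + 1) = 0 → f x ∈ R)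
    (h2 : ∀ g ∈ R, ∃ x : K × K,
      x.2 + x.2 ^ (2 ^ n) + x.1 ^ (2 ^ n + 1) = 0 ∧ f x = g)
    (h3 : ∀ x y : K × K,
      x.2 + x.2 ^ (2 ^ n) + x.1 ^ (2 ^ n + 1) = 0 →
      y.2 + y.2 ^ (2 ^ n) + y.1 ^ (2 ^ n + 1) = 0 →
      f (x.1 + y.1, x.2 + y.2 - x.1 * y.1 ^ (2 ^ n)) = f x * f y) : False := by
  have := Fintype.ofFinite K
  have hqq : ∀ s : K, (s ^ (2 ^ n)) ^ (2 ^ n) = s := by
    intro s
    rw [← pow_mul, ← pow_add, ← two_mul, ← hcard, Nat.card_eq_fintype_card]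
    exact FiniteField.pow_card s
  have hmem : ∀ p : P, (inl p : G) ∈ R := fun p => by rw [hR]; exact ⟨p, rfl⟩
  obtain ⟨x, hx, hxu⟩ := h2 (inl i1) (hmem _)
  let p2 : P := (1, ⟨1, 0, 0⟩, 1)
  let p3 : P := (1, ⟨0, 1, 0⟩, 1)
  obtain ⟨a, ha, hau⟩ := h2 (inl p2) (hmem _)
  obtain ⟨b, hb, hbu⟩ := h2 (inl p3) (hmem _)
  -- f x is not central so x.1 ≠ 0
  have hx1 : x.1 ≠ 0 := by
    intro hx0
    let p4 : P := (⟨0, 1, 0⟩, 1, 1)
    obtain ⟨y, hy, hyu⟩ := h2 (inl p4) (hmem _)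
    have e1 := h3 x y hx hy
    have e2 := h3 y x hy hx
    have : f x * f y = f y * f x := by
      rw [← e1, ← e2]
      congr 1
      rw [hx0, zero_pow (by positivity), zero_add, add_zero, zero_mul, mul_zero, add_comm x.2]
    rw [hxu, hyu, ← map_mul, ← map_mul] at this
    have := inl_injective this
    revert this
    decide
  -- general commutation formula
  have hcomm : ∀ s t : K × K, s.2 + s.2 ^ (2 ^ n) + s.1 ^ (2 ^ n + 1) = 0 →
      t.2 + t.2 ^ (2 ^ n) + t.1 ^ (2 ^ n + 1) = 0 →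
      f s * f t = f t * f s * f (0, t.1 * s.1 ^ (2 ^ n) - s.1 * t.1 ^ (2 ^ n)) := by
    intro s t hs ht
    rw [← h3 s t hs ht, ← h3 t s ht hs]
    have hc1 : ∀ s t : K × K, s.2 + s.2 ^ (2 ^ n) + s.1 ^ (2 ^ n + 1) = 0 →
      t.2 + t.2 ^ (2 ^ n) + t.1 ^ (2 ^ n + 1) = 0 →
      (t.2 + s.2 - t.1 * s.1 ^ (2 ^ n)) + (t.2 + s.2 - t.1 * s.1 ^ (2 ^ n)) ^ (2 ^ n)
        + (t.1 + s.1) ^ (2 ^ n + 1) = 0 := by
      intro s t hs ht
      rw [sub_pow_char_pow, add_pow_char_pow, mul_pow, hqq, pow_succ (t.1 + s.1), add_pow_char_pow]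
      have hs' : s.1 ^ (2 ^ n) * s.1 = -(s.2 + s.2 ^ 2 ^ n) := by
        rw [← pow_succ]; linear_combination hs
      have ht' : t.1 ^ (2 ^ n) * t.1 = -(t.2 + t.2 ^ 2 ^ n) := by
        rw [← pow_succ]; linear_combination ht
      linear_combination hs' + ht'
    have hc2 : (t.1 * s.1 ^ (2 ^ n) - s.1 * t.1 ^ (2 ^ n)) +
        (t.1 * s.1 ^ (2 ^ n) - s.1 * t.1 ^ (2 ^ n)) ^ (2 ^ n) + (0 : K) ^ (2 ^ n + 1) = 0 := by
      rw [sub_pow_char_pow, mul_pow, mul_pow, hqq, hqq, zero_pow (Nat.succ_ne_zero _)]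
      ring
    have h4 := h3 (t.1 + s.1, t.2 + s.2 - t.1 * s.1 ^ (2 ^ n))
      (0, t.1 * s.1 ^ (2 ^ n) - s.1 * t.1 ^ (2 ^ n)) (hc1 s t hs ht) hc2
    rw [← h4]
    congr 1
    rw [zero_pow (by positivity)]
    apply Prod.ext
    · simp [add_comm]
    · simp; ring
  -- the commutator of a,b
  set d : K := b.1 * a.1 ^ (2 ^ n) - a.1 * b.1 ^ (2 ^ n) with hd
  have hdd : d ^ (2 ^ n) = d := by
    rw [hd, sub_pow_char_pow, mul_pow, mul_pow, hqq, hqq, CharTwo.sub_eq_add, CharTwo.sub_eq_add]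
    ring
  obtain ⟨s, hs⟩ := tr_surj K n hn hcard d hdd
  have hxq : x.1 ^ (2 ^ n) ≠ 0 := pow_ne_zero _ hx1
  set t1 : K := s / x.1 ^ (2 ^ n) with ht1
  have ht1' : t1 * x.1 ^ (2 ^ n) = s := by rw [ht1]; exact div_mul_cancel₀ s hxq
  have ht1'' : x.1 * t1 ^ (2 ^ n) = s ^ (2 ^ n) := by
    rw [← ht1', mul_pow, hqq]; ring
  obtain ⟨t2, ht2⟩ := tr_surj K n hn hcard (t1 ^ (2 ^ n + 1)) (by
    rw [pow_succ, mul_pow, hqq]; ring)
  have ht : (t1, t2).2 + (t1, t2).2 ^ (2 ^ n) + (t1, t2).1 ^ (2 ^ n + 1) = 0 := by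
    change t2 + t2 ^ (2 ^ n) + t1 ^ (2 ^ n + 1) = 0
    rw [ht2, CharTwo.add_self_eq_zero]
  have e1 := hcomm x (t1, t2) hx ht
  have e2 := hcomm a b ha hb
  have e3 : (t1, t2).1 * x.1 ^ (2 ^ n) - x.1 * (t1, t2).1 ^ (2 ^ n) = d := by
    change t1 * x.1 ^ (2 ^ n) - x.1 * t1 ^ (2 ^ n) = d
    rw [ht1', ht1'', CharTwo.sub_eq_add, hs]
  rw [e3] at e1
  rw [← hd] at e2
  obtain ⟨w, hw⟩ : ∃ w : P, inl w = f (t1, t2) := by
    have := h1 (t1, t2) ht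
    rw [hR] at this
    exact this
  have e4 : (f (t1, t2) * f x)⁻¹ * (f x * f (t1, t2)) = (f b * f a)⁻¹ * (f a * f b) := by
    rw [e1, e2]; group
  rw [hxu, hau, hbu, ← hw, ← map_mul, ← map_mul, ← map_inv, ← map_mul, ← map_mul, ← map_mul,
    ← map_inv, ← map_mul] at e4
  have e5 := inl_injective e4
  have e6 := congrArg (fun p : P => p.2.1) e5
  have e7 : ((p3 * p2)⁻¹ * (p2 * p3)).2.1 ≠ 1 := by decide
  apply e7
  rw [← e6]
  simp [i1]

end Pool.Agent.Helper476.E0
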