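import Mathlib

set_option autoImplicit false
open CategoryTheory

namespace Pool.Agent.Helper476.NM

/-- A nonzero invariant subspace of a simple representation is everything. -/
theorem simple_top {G : Type} [Group G] (V : FDRep ℂ G) [Simple V] (W : Submodule ℂ V)
    (hW : ∀ g, ∀ w ∈ W, V.ρ g w ∈ W) (h0 : W ≠ ⊥) : W = ⊤ := by
  let ρW : Representation ℂ G W :=
    { toFun := fun g => (V.ρ g).restrict (hW g)
      map_one' := by ext w; simp
      map_mul' := fun g h => by ext w; simp }
  let f : FDRep.of ρW ⟶ V :=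
    { hom := InducedCategory.homMk (ModuleCat.ofHom W.subtype)
      comm := fun g => by ext w; rfl }
  have hinj : Function.Injective f.hom.hom.hom := W.injective_subtype
  have hmono : Mono f := by
    apply ConcreteCategory.mono_of_injective
    exact hinj
  have hne : f ≠ 0 := by
    intro h
    apply h0
    rw [Submodule.eq_bot_iff]
    intro w hw
    have h1 : f.hom.hom.hom = 0 := congrArg (fun k => k.hom.hom.hom) h
    have h2 : f.hom.hom.hom ⟨w, hw⟩ = 0 := by rw [h1]; rfl
    exact h2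
  have hiso : IsIso f := isIso_of_mono_of_nonzero hne
  rw [Submodule.eq_top_iff']
  intro v
  have h3 : f.hom.hom.hom ((inv f).hom.hom.hom v) = v := by
    have : (inv f ≫ f).hom.hom.hom v = (𝟙 V : V ⟶ V).hom.hom.hom v := by rw [IsIso.inv_hom_id]
    exact this
  rw [← h3]
  exact (((inv f).hom.hom.hom v) : W).2

/-- Simultaneous eigenvectors for distinct characters are linearly independent. -/
theorem linInd {A : Type} [Group A] [Fintype A] {X : Type} [AddCommGroup X] [Module ℂ X]
    (r : A → (X →ₗ[ℂ] X)) {J : Type} [Fintype J] (χ : J → (A →* ℂ)) (hχ : Function.Injective χ)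
    (w : J → X) (hw0 : ∀ j, w j ≠ 0) (hw : ∀ j a, r a (w j) = χ j a • w j) :
    LinearIndependent ℂ w := by
  classical
  rw [Fintype.linearIndependent_iff]
  intro c hc i
  let T : X →ₗ[ℂ] X := ∑ a, χ i a⁻¹ • r a
  have hT : ∀ j, T (w j) = (∑ a, χ i a⁻¹ * χ j a) • w j := by
    intro j
    simp only [T, LinearMap.sum_apply, LinearMap.smul_apply, hw, Finset.sum_smul, smul_smul]
  have hii : ∀ a, χ i a⁻¹ * χ i a = 1 := fun a => by rw [← map_mul, inv_mul_cancel, map_one]
  have hTi : T (w i) = (Fintype.card A : ℂ) • w i := by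
    rw [hT]
    congr 1
    rw [Finset.sum_congr rfl (fun a _ => hii a)]
    simp
  have hTj : ∀ j, j ≠ i → T (w j) = 0 := by
    intro j hj
    rw [hT]
    let f : A →* ℂ :=
      { toFun := fun a => χ i a⁻¹ * χ j a
        map_one' := by simp
        map_mul' := fun a b => by
          simp only [mul_inv_rev, map_mul]; ring }
    have hf : f ≠ 1 := by
      intro h
      apply hj
      apply hχ
      ext a
      have h1 : f a = 1 := by rw [h]; rfl
      have h2 : χ i a⁻¹ * χ j a = 1 := h1
      have h3 := hii a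
      have h4 : χ i a⁻¹ ≠ 0 := by
        intro h0
        rw [h0, zero_mul] at h3
        exact zero_ne_one h3
      exact mul_left_cancel₀ h4 (h2.trans h3.symm)
    have h5 : ∑ a, f a = 0 := sum_hom_units_eq_zero f hf
    have h6 : ∑ a, χ i a⁻¹ * χ j a = 0 := h5
    rw [h6, zero_smul]
  have h7 : T (∑ j, c j • w j) = 0 := by rw [hc, map_zero]
  rw [map_sum] at h7
  rw [Finset.sum_eq_single i] at h7
  · rw [map_smul, hTi, smul_smul] at h7
    rcases smul_eq_zero.1 h7 with h8 | h8
    · rcases mul_eq_zero.1 h8 with h9 | h9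
      · exact h9
      · exfalso
        have : Fintype.card A ≠ 0 := Fintype.card_ne_zero
        exact this (by exact_mod_cast h9)
    · exact absurd h8 (hw0 i)
  · intro j _ hj
    rw [map_smul, hTj j hj, smul_zero]
  · intro h
    exact absurd (Finset.mem_univ i) h

/-- Summing a right invariant function over cosets. -/
theorem sum_cosets {G : Type} [Group G] [Fintype G] (M : Subgroup G) [Fintype (G ⧸ M)]
    (F : G → ℂ) (hF : ∀ x, ∀ m ∈ M, F (x * m) = F x) :
    ∑ x : G, F x = (Nat.card M : ℂ) * ∑ q : G ⧸ M, F q.out := by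
  classical
  have h0 : ∑ x : G, F x = ∑ q : G ⧸ M, ∑ x ∈ Finset.univ.filter (fun x : G => (QuotientGroup.mk x : G ⧸ M) = q), F x := by
    rw [Finset.sum_fiberwise]
  rw [h0, Finset.mul_sum]
  refine Finset.sum_congr rfl fun q _ => ?_
  have h1 : ∀ x ∈ Finset.univ.filter (fun x : G => (QuotientGroup.mk x : G ⧸ M) = q), F x = F q.out := by
    intro x hx
    rw [Finset.mem_filter] at hx
    have h2 : (QuotientGroup.mk q.out : G ⧸ M) = QuotientGroup.mk x := by rw [hx.2]; simp
    rw [QuotientGroup.eq] at h2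
    have := hF q.out _ h2
    rwa [mul_inv_cancel_left] at this
  rw [Finset.sum_congr rfl h1, Finset.sum_const, nsmul_eq_mul]
  congr 1
  have h3 : (Finset.univ.filter (fun x : G => (QuotientGroup.mk x : G ⧸ M) = q)).card = Nat.card M := by
    rw [← Nat.card_eq_finsetCard]
    refine (Nat.card_congr ?_).symm
    refine
      { toFun := fun m => ⟨q.out * m, ?_⟩
        invFun := fun x => ⟨q.out⁻¹ * x.1, ?_⟩
        left_inv := ?_
        right_inv := ?_ }
    · rw [Finset.mem_filter]
      refine ⟨Finset.mem_univ _, ?_⟩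
      have : (QuotientGroup.mk (q.out * m) : G ⧸ M) = QuotientGroup.mk q.out := by
        symm
        rw [QuotientGroup.eq]
        simp
      rw [this]; simp
    · have h2 : (QuotientGroup.mk q.out : G ⧸ M) = QuotientGroup.mk x.1 := by
        have := x.2
        rw [Finset.mem_filter] at this
        rw [this.2]; simp
      exact QuotientGroup.eq.1 h2
    · intro m; simp
    · intro x; simp
  rw [h3]

/-- The character formula for a representation induced from a linear character of a normal subgroup. -/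
theorem char_formula {G : Type} [Group G] [Fintype G] (V : FDRep ℂ G) [Simple V] (M : Subgroup G)
    [hM : M.Normal] (ν : G → ℂ) (h1 : ν 1 = 1) (hmul : ∀ s ∈ M, ∀ t ∈ M, ν (s * t) = ν s * ν t)
    (hst : ∀ g, (∀ m ∈ M, ν (g * m * g⁻¹) = ν m) → g ∈ M) (v : V) (hv : v ≠ 0)
    (hev : ∀ m ∈ M, V.ρ m v = ν m • v) (g : G) [∀ x : G, Decidable (x * g * x⁻¹ ∈ M)] :
    V.character g = (Nat.card M : ℂ)⁻¹ *
      ∑ x : G, (if x * g * x⁻¹ ∈ M then ν (x * g * x⁻¹) else 0) := by
  classical
  have := Fintype.ofFinite (G ⧸ M)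
  have := Fintype.ofFinite M
  let b : G ⧸ M → V := fun q => V.ρ q.out v
  have hinv : ∀ x : G, ∀ w : V, V.ρ x⁻¹ (V.ρ x w) = w := by
    intro x w
    rw [← Module.End.mul_apply, ← map_mul, inv_mul_cancel, map_one]; rfl
  have hb0 : ∀ q, b q ≠ 0 := by
    intro q h
    apply hv
    rw [← hinv q.out v]
    have h' : V.ρ q.out v = 0 := h
    rw [h', map_zero]
  have hmove : ∀ x : G, V.ρ x v = ν ((QuotientGroup.mk x : G ⧸ M).out⁻¹ * x) • b (QuotientGroup.mk x) := by
    intro x
    have hm : (QuotientGroup.mk x : G ⧸ M).out⁻¹ * x ∈ M := by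
      rw [← QuotientGroup.eq]; simp
    calc V.ρ x v = V.ρ ((QuotientGroup.mk x : G ⧸ M).out * ((QuotientGroup.mk x : G ⧸ M).out⁻¹ * x)) v := by
          rw [mul_inv_cancel_left]
      _ = V.ρ (QuotientGroup.mk x : G ⧸ M).out (V.ρ ((QuotientGroup.mk x : G ⧸ M).out⁻¹ * x) v) := by
          rw [map_mul]; rfl
      _ = _ := by rw [hev _ hm, map_smul]
  have hgb : ∀ x : G, ∀ q, V.ρ x (b q) = ν ((QuotientGroup.mk (x * q.out) : G ⧸ M).out⁻¹ * (x * q.out)) •
      b (QuotientGroup.mk (x * q.out)) := by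
    intro x q
    rw [← hmove]
    change V.ρ x (V.ρ q.out v) = _
    rw [map_mul]; rfl
  have hMb : ∀ m ∈ M, ∀ q : G ⧸ M, V.ρ m (b q) = ν (q.out⁻¹ * m * q.out) • b q := by
    intro m hm q
    have hc : q.out⁻¹ * m * q.out ∈ M := by
      have := hM.conj_mem m hm q.out⁻¹
      rwa [inv_inv] at this
    have e : m * q.out = q.out * (q.out⁻¹ * m * q.out) := by group
    change V.ρ m (V.ρ q.out v) = _
    calc V.ρ m (V.ρ q.out v) = V.ρ (m * q.out) v := by rw [map_mul]; rfl
      _ = V.ρ (q.out * (q.out⁻¹ * m * q.out)) v := by rw [← e]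
      _ = V.ρ q.out (V.ρ (q.out⁻¹ * m * q.out) v) := by rw [map_mul]; rfl
      _ = _ := by rw [hev _ hc, map_smul]
  -- characters
  have hcj : ∀ (x : G) (m : M), x⁻¹ * m.1 * x ∈ M := by
    intro x m
    have := hM.conj_mem m.1 m.2 x⁻¹
    rwa [inv_inv] at this
  let χ : G ⧸ M → (M →* ℂ) := fun q =>
    { toFun := fun m => ν (q.out⁻¹ * m.1 * q.out)
      map_one' := by simp [h1]
      map_mul' := fun m n => by
        rw [← hmul _ (hcj q.out m) _ (hcj q.out n)]
        congr 1
        push_cast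
        group }
  have hχ : Function.Injective χ := by
    intro q q' h
    have h2 : q'.out⁻¹ * q.out ∈ M := by
      apply hst
      intro m hm
      have hm' : q.out * m * q.out⁻¹ ∈ M := hM.conj_mem m hm q.out
      have h3 : χ q ⟨_, hm'⟩ = χ q' ⟨_, hm'⟩ := by rw [h]
      have h4 : ν (q.out⁻¹ * (q.out * m * q.out⁻¹) * q.out) = ν (q'.out⁻¹ * (q.out * m * q.out⁻¹) * q'.out) := h3
      have e1 : q.out⁻¹ * (q.out * m * q.out⁻¹) * q.out = m := by group
      have e2 : q'.out⁻¹ * (q.out * m * q.out⁻¹) * q'.out = q'.out⁻¹ * q.out * m * (q'.out⁻¹ * q.out)⁻¹ := by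
        group
      rw [e1, e2] at h4
      exact h4.symm
    have h5 := QuotientGroup.eq.2 h2
    simpa using h5.symm
  have hli : LinearIndependent ℂ b :=
    linInd (A := M) (X := V) (fun m => V.ρ m.1) χ hχ b hb0 (fun q m => hMb m.1 m.2 q)
  have htop : Submodule.span ℂ (Set.range b) = ⊤ := by
    apply simple_top V
    · intro x w hw
      induction hw using Submodule.span_induction with
      | mem y hy =>
        obtain ⟨q, rfl⟩ := hy
        rw [hgb]
        exact Submodule.smul_mem _ _ (Submodule.subset_span ⟨_, rfl⟩)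
      | zero => simp
      | add y z _ _ hy hz => rw [map_add]; exact Submodule.add_mem _ hy hz
      | smul a y _ hy => rw [map_smul]; exact Submodule.smul_mem _ _ hy
    · intro h
      rw [Submodule.span_eq_bot] at h
      exact hb0 (QuotientGroup.mk 1) (h _ ⟨_, rfl⟩)
  let B : Module.Basis (G ⧸ M) ℂ V := Module.Basis.mk hli htop.ge
  have hB : ∀ q, B q = b q := fun q => by simp [B]
  have htr : V.character g = ∑ q : G ⧸ M, B.repr (V.ρ g (B q)) q := by
    have : V.character g = LinearMap.trace ℂ V (V.ρ g) := rfl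
    rw [this, LinearMap.trace_eq_matrix_trace ℂ B, Matrix.trace]
    refine Finset.sum_congr rfl fun q _ => ?_
    rw [Matrix.diag_apply, LinearMap.toMatrix_apply]
  let F : G → ℂ := fun x => if x⁻¹ * g * x ∈ M then ν (x⁻¹ * g * x) else 0
  have hdiag : ∀ q : G ⧸ M, B.repr (V.ρ g (B q)) q = F q.out := by
    intro q
    rw [hB, hgb, ← hB, map_smul, B.repr_self]
    simp only [Finsupp.smul_apply, F]
    by_cases hq : (QuotientGroup.mk (g * q.out) : G ⧸ M) = q
    · have h6 : q.out⁻¹ * g * q.out ∈ M := by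
        have h7 : (QuotientGroup.mk q.out : G ⧸ M) = QuotientGroup.mk (g * q.out) := by rw [hq]; simp
        rw [QuotientGroup.eq] at h7
        rwa [← mul_assoc] at h7
      rw [if_pos h6, hq, Finsupp.single_eq_same, smul_eq_mul, mul_one, mul_assoc]
    · have h6 : ¬ (q.out⁻¹ * g * q.out ∈ M) := by
        intro h7
        apply hq
        rw [mul_assoc, ← QuotientGroup.eq] at h7
        rw [← h7]; simp
      rw [if_neg h6, Finsupp.single_eq_of_ne (Ne.symm hq), smul_zero]
  have hF : ∀ x, ∀ m ∈ M, F (x * m) = F x := by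
    intro x m hm
    have e : (x * m)⁻¹ * g * (x * m) = m⁻¹ * (x⁻¹ * g * x) * m := by group
    simp only [F, e]
    by_cases h8 : x⁻¹ * g * x ∈ M
    · have h9 : m⁻¹ * (x⁻¹ * g * x) * m ∈ M := M.mul_mem (M.mul_mem (M.inv_mem hm) h8) hm
      rw [if_pos h8, if_pos h9, hmul _ (M.mul_mem (M.inv_mem hm) h8) _ hm, hmul _ (M.inv_mem hm) _ h8]
      have h10 : ν m⁻¹ * ν m = 1 := by rw [← hmul _ (M.inv_mem hm) _ hm, inv_mul_cancel, h1]
      calc ν m⁻¹ * ν (x⁻¹ * g * x) * ν m = (ν m⁻¹ * ν m) * ν (x⁻¹ * g * x) := by ring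
        _ = _ := by rw [h10, one_mul]
    · have h9 : ¬ (m⁻¹ * (x⁻¹ * g * x) * m ∈ M) := by
        intro h9
        apply h8
        have := M.mul_mem (M.mul_mem hm h9) (M.inv_mem hm)
        have e2 : m * (m⁻¹ * (x⁻¹ * g * x) * m) * m⁻¹ = x⁻¹ * g * x := by group
        rwa [e2] at this
      rw [if_neg h8, if_neg h9]
  rw [htr, Finset.sum_congr rfl (fun q _ => hdiag q)]
  have hs := sum_cosets M F hF
  have hcard : (Nat.card M : ℂ) ≠ 0 := by exact_mod_cast Nat.card_pos.ne'
  have hs2 : ∑ x : G, (if x * g * x⁻¹ ∈ M then ν (x * g * x⁻¹) else 0) = ∑ x : G, F x := by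
    rw [← Equiv.sum_comp (Equiv.inv G)]
    refine Finset.sum_congr rfl fun x _ => ?_
    simp [F]
  rw [hs2, hs, inv_mul_cancel_left₀ hcard]

end Pool.Agent.Helper476.NM
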