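import Pool.Agent.Helper476.NM2

set_option autoImplicit false

namespace Pool.Agent.Helper476.NM

theorem pV_top {p c : ℕ} {V : Type} [AddCommGroup V] [Module (ZMod (p ^ c)) V] {i : ℕ} (hi : c ≤ i) {a : V}
    (ha : a ∈ pV p (R := ZMod (p ^ c)) V i) : a = 0 := by
  obtain ⟨b, rfl⟩ := mem_pV.1 ha
  have : (p : ZMod (p ^ c)) ^ i = 0 := by
    rw [show i = c + (i - c) by omega, pow_add]
    have h : (p : ZMod (p ^ c)) ^ c = 0 := by
      have := ZMod.natCast_self (p ^ c)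
      rwa [Nat.cast_pow] at this
    rw [h, zero_mul]
  rw [this, zero_smul]

/-- An element outside a deep level moves `p ^ s V` onto `p ^ (s + l + 1) V`. -/
theorem exists_level {G : Type} [Group G] {lev : ℕ → Subgroup G} (h0 : lev 0 = ⊤)
    {j : ℕ} {g : G} (hg : g ∉ lev j) : ∃ l, l < j ∧ g ∈ lev l ∧ g ∉ lev (l + 1) := by
  classical
  have hex : ∃ l, g ∉ lev l := ⟨j, hg⟩
  have h1 := Nat.find_spec hex
  have h2 : Nat.find hex ≤ j := Nat.find_min' hex hg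
  have h3 : Nat.find hex ≠ 0 := by
    intro h
    rw [h, h0] at h1
    exact h1 trivial
  refine ⟨Nat.find hex - 1, by omega, ?_, ?_⟩
  · by_contra h4
    have := Nat.find_min' hex h4
    omega
  · rw [Nat.sub_add_cancel (by omega)]
    exact h1

theorem isUnit_of_isUnit_pow_sub {S : Type} [Ring S] (X : S) {n : ℕ} (hn : 0 < n)
    (h : IsUnit (X ^ n - X)) : IsUnit X := by
  obtain ⟨m, rfl⟩ : ∃ m, n = m + 1 := ⟨n - 1, by omega⟩
  have e : X ^ (m + 1) - X = X * (X ^ m - 1) := by rw [mul_sub, mul_one, pow_succ']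
  have hc : Commute X (X ^ m - 1) := by
    apply Commute.sub_right
    · exact (Commute.refl X).pow_right m
    · exact Commute.one_right X
  rw [e] at h
  exact (hc.isUnit_mul_iff.1 h).1

theorem surj_level {p c : ℕ} (hp : 0 < p) {G : Type} [Group G] {lev : ℕ → Subgroup G} {V : Type}
    [AddCommGroup V] [Module (ZMod (p ^ c)) V] {ρ : G →* Module.End (ZMod (p ^ c)) V} {k : ℕ}
    (hT : TF p c k lev ρ) {l : ℕ} (hl : l + 1 < c) {g : G} (h1 : g ∈ lev l) (h2 : g ∉ lev (l + 1))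
    {i : ℕ} {a : V} (ha : a ∈ pV p (R := ZMod (p ^ c)) V (l + 1 + i)) :
    ∃ b ∈ pV p (R := ZMod (p ^ c)) V i, ρ g b = b + a := by
  obtain ⟨X, hX, hu⟩ := hT.2 l hl g h1 h2
  have hXu : IsUnit X := isUnit_of_isUnit_pow_sub X (Nat.pow_pos hp) hu
  obtain ⟨b, rfl⟩ := mem_pV.1 ha
  obtain ⟨u, hu'⟩ := hXu
  refine ⟨(p : ZMod (p ^ c)) ^ i • (u⁻¹ : (Module.End (ZMod (p ^ c)) V)ˣ).1 b, mem_pV.2 ⟨_, rfl⟩, ?_⟩
  rw [hX]
  have h3 : X ((u⁻¹ : (Module.End (ZMod (p ^ c)) V)ˣ).1 b) = b := by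
    rw [← hu', ← Module.End.mul_apply, Units.mul_inv]; rfl
  simp only [LinearMap.add_apply, Module.End.one_apply, LinearMap.smul_apply, map_smul, h3]
  rw [smul_add, smul_smul, ← pow_add, add_comm i (l + 1)]

/-- The induction step for `NMon`. -/
theorem nm_step {p c : ℕ} (hp : 0 < p) {G : Type} [Group G] {lev : ℕ → Subgroup G}
    (hn : ∀ i, (lev i).Normal) (hanti : Antitone lev) (h0 : lev 0 = ⊤) {V : Type}
    [AddCommGroup V] [Module (ZMod (p ^ c)) V] {ρ : G →* Module.End (ZMod (p ^ c)) V} {k : ℕ}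
    (hT : TF p c k lev ρ) (hNM : ∀ i, i < c → NMon (lev i)) :
    ∀ i, i < c → NMon (levA p c lev ρ i) := by
  classical
  intro i hi E _ _ _ _ σ hσ
  obtain ⟨hσ1, hσm⟩ := hσ
  -- commuting operators
  have htr : ∀ a ∈ pV p (R := ZMod (p ^ c)) V i, (⟨a, 1⟩ : Aff ρ) ∈ levA p c lev ρ i :=
    fun a ha => mem_levA.2 ⟨ha, (lev i).one_mem⟩
  have hcr : ∀ g ∈ lev i, (⟨0, g⟩ : Aff ρ) ∈ levA p c lev ρ i :=
    fun g hg => mem_levA.2 ⟨Submodule.zero_mem _, hg⟩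
  have hadd : ∀ a b : V, (⟨a, 1⟩ : Aff ρ) * ⟨b, 1⟩ = ⟨a + b, 1⟩ := by
    intro a b
    ext
    · simp [Aff.mul_a]
    · simp [Aff.mul_g]
  obtain ⟨v0, hv0, μ0, hμ0⟩ := common_eigenvector _ E (pV p (R := ZMod (p ^ c)) V i)
    (fun a => σ ⟨a.1, 1⟩) (by
      intro a b
      change σ _ * σ _ = σ _ * σ _
      rw [← hσm _ (htr _ a.2) _ (htr _ b.2), ← hσm _ (htr _ b.2) _ (htr _ a.2), hadd, hadd, add_comm]) le_rfl
  let μ : V → ℂ := fun a => if h : a ∈ pV p (R := ZMod (p ^ c)) V i then μ0 ⟨a, h⟩ else 0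
  have hμ : ∀ a ∈ pV p (R := ZMod (p ^ c)) V i, σ ⟨a, 1⟩ v0 = μ a • v0 := by
    intro a ha
    simp only [μ, dif_pos ha]
    exact hμ0 ⟨a, ha⟩
  have hz : (0 : V) ∈ pV p (R := ZMod (p ^ c)) V i := Submodule.zero_mem _
  have hμzero : μ 0 = 1 := by
    have h1 := hμ 0 hz
    have h2 : σ ⟨0, 1⟩ = 1 := hσ1
    rw [h2] at h1
    have h3 : (1 - μ 0) • v0 = 0 := by
      rw [sub_smul, one_smul, ← h1]; simp
    rcases smul_eq_zero.1 h3 with h | h
    · exact (sub_eq_zero.1 h).symm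
    · exact absurd h hv0
  have hμadd : ∀ a ∈ pV p (R := ZMod (p ^ c)) V i, ∀ b ∈ pV p (R := ZMod (p ^ c)) V i,
      μ (a + b) = μ a * μ b := by
    intro a ha b hb
    have h1 := hμ (a + b) (Submodule.add_mem _ ha hb)
    rw [← hadd, hσm _ (htr _ ha) _ (htr _ hb), Module.End.mul_apply, hμ b hb, map_smul, hμ a ha,
      smul_smul] at h1
    have h3 : (μ b * μ a - μ (a + b)) • v0 = 0 := by
      rw [sub_smul, h1, sub_self]
    rcases smul_eq_zero.1 h3 with h | h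
    · rw [← sub_eq_zero.1 h, mul_comm]
    · exact absurd h hv0
  have hμne : ∀ a ∈ pV p (R := ZMod (p ^ c)) V i, μ a ≠ 0 := by
    intro a ha h
    have h1 := hμadd a ha (-a) (Submodule.neg_mem _ ha)
    rw [add_neg_cancel, hμzero, h, zero_mul] at h1
    exact one_ne_zero h1
  -- the level of the stabiliser
  have hSex : ∃ l, ∀ a ∈ pV p (R := ZMod (p ^ c)) V (l + 1 + i), μ a = 1 := by
    refine ⟨c - 1, fun a ha => ?_⟩
    rw [pV_top (by omega) ha, hμzero]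
  let j0 := Nat.find hSex
  have hj0 : ∀ a ∈ pV p (R := ZMod (p ^ c)) V (j0 + 1 + i), μ a = 1 := Nat.find_spec hSex
  have hj0c : j0 ≤ c - 1 := by
    apply Nat.find_min' hSex
    intro a ha
    rw [pV_top (by omega) ha, hμzero]
  let j := max i j0
  have hjc : j < c := by
    have : j ≤ c - 1 := max_le (by omega) hj0c
    omega
  have hij : i ≤ j := le_max_left _ _
  have hρmem : ∀ g : G, ∀ a ∈ pV p (R := ZMod (p ^ c)) V i, ρ g a ∈ pV p (R := ZMod (p ^ c)) V i := by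
    intro g a ha
    obtain ⟨b, hb⟩ := mem_pV.1 ha
    exact mem_pV.2 ⟨ρ g b, by rw [← map_smul, hb]⟩
  have hstab1 : ∀ g ∈ lev j, ∀ a ∈ pV p (R := ZMod (p ^ c)) V i, μ (ρ g a) = μ a := by
    intro g hg a ha
    obtain ⟨X, hX⟩ := hT.1 j0 g (hanti (le_max_right _ _) hg)
    obtain ⟨b, hb⟩ := mem_pV.1 ha
    have h1 : ρ g a = a + (p : ZMod (p ^ c)) ^ (j0 + 1 + i) • X b := by
      rw [hX, ← hb]
      simp only [LinearMap.add_apply, Module.End.one_apply, LinearMap.smul_apply, map_smul]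
      rw [smul_add, smul_smul, ← pow_add, add_comm i (j0 + 1)]
    have h2 : (p : ZMod (p ^ c)) ^ (j0 + 1 + i) • X b ∈ pV p (R := ZMod (p ^ c)) V (j0 + 1 + i) :=
      mem_pV.2 ⟨_, rfl⟩
    rw [h1, hμadd a ha _ (pV_le (by omega) h2), hj0 _ h2, mul_one]
  have hstab2 : ∀ g ∈ lev i, (∀ a ∈ pV p (R := ZMod (p ^ c)) V i, μ (ρ g a) = μ a) → g ∈ lev j := by
    intro g hg hst
    by_contra hgj
    obtain ⟨l, hlj, hl1, hl2⟩ := exists_level h0 hgj
    have hli : i ≤ l := by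
      by_contra h
      exact hl2 (hanti (by omega) hg)
    have hlj0 : l < j0 := by
      rcases lt_max_iff.1 hlj with h | h
      · omega
      · exact h
    have := Nat.find_min hSex hlj0
    apply this
    intro a ha
    obtain ⟨b, hb, hba⟩ := surj_level hp hT (by omega) hl1 hl2 ha
    have h1 := hst b hb
    rw [hba, hμadd b hb a (pV_le (by omega) ha)] at h1
    exact mul_left_cancel₀ (hμne b hb) (h1.trans (mul_one _).symm)
  -- the eigenspace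
  let W : Submodule ℂ E :=
    { carrier := {v | ∀ a ∈ pV p (R := ZMod (p ^ c)) V i, σ ⟨a, 1⟩ v = μ a • v}
      add_mem' := by
        intro x y hx hy a ha
        rw [map_add, hx a ha, hy a ha, smul_add]
      zero_mem' := by intro a _; simp
      smul_mem' := by
        intro t x hx a ha
        rw [map_smul, hx a ha, smul_comm] }
  have hW0 : Nontrivial W := by
    refine ⟨⟨⟨v0, hμ⟩, 0, fun h => hv0 (congrArg Subtype.val h)⟩⟩
  have hjmem : ∀ g ∈ lev j, (⟨0, g⟩ : Aff ρ) ∈ levA p c lev ρ i := fun g hg => hcr g (hanti hij hg)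
  have hWst : ∀ g ∈ lev j, ∀ w ∈ W, σ ⟨0, g⟩ w ∈ W := by
    intro g hg w hw a ha
    have hgi : g⁻¹ ∈ lev j := (lev j).inv_mem hg
    have h1 : (⟨a, 1⟩ : Aff ρ) * ⟨0, g⟩ = ⟨0, g⟩ * ⟨ρ g⁻¹ a, 1⟩ := by
      ext
      · simp only [Aff.mul_a, map_zero, add_zero, zero_add]
        rw [← Module.End.mul_apply, ← map_mul, mul_inv_cancel, map_one]; rfl
      · simp [Aff.mul_g]
    calc σ ⟨a, 1⟩ (σ ⟨0, g⟩ w) = σ (⟨a, 1⟩ * ⟨0, g⟩) w := by
          rw [hσm _ (htr a ha) _ (hjmem g hg)]; rfl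
      _ = σ (⟨0, g⟩ * ⟨ρ g⁻¹ a, 1⟩) w := by rw [h1]
      _ = σ ⟨0, g⟩ (σ ⟨ρ g⁻¹ a, 1⟩ w) := by
          rw [hσm _ (hjmem g hg) _ (htr _ (hρmem _ a ha))]; rfl
      _ = μ a • σ ⟨0, g⟩ w := by
          rw [hw _ (hρmem _ a ha), map_smul, hstab1 _ hgi a ha]
  let τ : G → Module.End ℂ W := fun g =>
    if h : g ∈ lev j then (σ ⟨0, g⟩).restrict (hWst g h) else 1
  have hτ : RepOn (lev j) τ := by
    constructor
    · have h1 : (1 : G) ∈ lev j := (lev j).one_mem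
      simp only [τ, dif_pos h1]
      ext w
      have h2 : σ ⟨0, 1⟩ = 1 := hσ1
      rw [LinearMap.coe_restrict_apply, h2]
      rfl
    · intro s hs t ht
      have hst := (lev j).mul_mem hs ht
      simp only [τ, dif_pos hs, dif_pos ht, dif_pos hst]
      ext w
      rw [Module.End.mul_apply, LinearMap.coe_restrict_apply, LinearMap.coe_restrict_apply,
        LinearMap.coe_restrict_apply, ← Module.End.mul_apply, ← hσm _ (hjmem s hs) _ (hjmem t ht)]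
      have e : (⟨0, s⟩ : Aff ρ) * ⟨0, t⟩ = ⟨0, s * t⟩ := by
        ext
        · simp [Aff.mul_a]
        · simp [Aff.mul_g]
      rw [e]
  obtain ⟨M, hMn, hMj, ν, hν1, hνm, hνs, w, hw0, hw⟩ := hNM j hjc W τ hτ
  have hMi : M ≤ lev i := hMj.trans (hanti hij)
  -- the new normal subgroup
  let N : Subgroup (Aff ρ) :=
    { carrier := {x | x.a ∈ pV p (R := ZMod (p ^ c)) V i ∧ x.g ∈ M}
      mul_mem' := by
        rintro x y ⟨hx, hx'⟩ ⟨hy, hy'⟩
        exact ⟨Submodule.add_mem _ hx (hρmem _ _ hy), M.mul_mem hx' hy'⟩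
      one_mem' := ⟨hz, M.one_mem⟩
      inv_mem' := by
        rintro x ⟨hx, hx'⟩
        exact ⟨Submodule.neg_mem _ (hρmem _ _ hx), M.inv_mem hx'⟩ }
  have hN : ∀ x, x ∈ N ↔ x.a ∈ pV p (R := ZMod (p ^ c)) V i ∧ x.g ∈ M := fun x => Iff.rfl
  refine ⟨N, ⟨?_⟩, fun x hx => mem_levA.2 ⟨hx.1, hMi hx.2⟩, fun x => μ x.a * ν x.g, ?_, ?_, ?_, w.1, ?_, ?_⟩
  · intro x hx y
    have h1 : y.g * x.g * y.g⁻¹ ∈ M := hMn.conj_mem _ hx.2 _
    refine (hN _).2 ⟨?_, h1⟩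
    rw [Aff.conj_a]
    have h3 := Submodule.add_mem _ (hρmem y.g _ hx.1) (sub_mem_pV hT.1 (hMi h1) y.a)
    have e : y.a + (ρ y.g) x.a - (ρ (y.g * x.g * y.g⁻¹)) y.a =
        (ρ y.g) x.a + (y.a - (ρ (y.g * x.g * y.g⁻¹)) y.a) := by abel
    rw [e]
    exact h3
  · simp [Aff.one_a, Aff.one_g, hμzero, hν1]
  · intro s hs t ht
    simp only [Aff.mul_a, Aff.mul_g]
    rw [hμadd _ hs.1 _ (hρmem _ _ ht.1), hstab1 _ (hMj hs.2) _ ht.1, hνm _ hs.2 _ ht.2]
    ring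
  · intro x hx hst
    have hxg : x.g ∈ lev j := by
      apply hstab2 _ hx.2
      intro a ha
      have h1 := hst ⟨a, 1⟩ ((hN _).2 ⟨ha, M.one_mem⟩)
      simp only [Aff.conj_a, Aff.conj_g] at h1
      have e1 : x.g * 1 * x.g⁻¹ = 1 := by group
      rw [e1, hν1, mul_one, mul_one, map_one] at h1
      simpa using h1
    refine (hN _).2 ⟨hx.1, hνs _ hxg ?_⟩
    intro m hm
    have h1 := hst ⟨0, m⟩ ((hN _).2 ⟨hz, hm⟩)
    simp only [Aff.conj_a, Aff.conj_g, map_zero, add_zero, hμzero, one_mul] at h1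
    have hm' : x.g * m * x.g⁻¹ ∈ M := hMn.conj_mem _ hm _
    have h2 : μ (x.a - ρ (x.g * m * x.g⁻¹) x.a) = 1 := by
      have h3 := hμadd (x.a - ρ (x.g * m * x.g⁻¹) x.a)
        (Submodule.sub_mem _ hx.1 (hρmem _ _ hx.1)) _ (hρmem (x.g * m * x.g⁻¹) _ hx.1)
      rw [sub_add_cancel, hstab1 _ (hMj hm') _ hx.1] at h3
      have h4 := hμne _ hx.1
      have h5 : 1 * μ x.a = μ (x.a - ρ (x.g * m * x.g⁻¹) x.a) * μ x.a := by rw [one_mul]; exact h3
      exact (mul_right_cancel₀ h4 h5).symm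
    rw [h2, one_mul] at h1
    exact h1
  · intro h
    exact hw0 (Subtype.ext h)
  · intro x hx
    have h1 : x = (⟨x.a, 1⟩ : Aff ρ) * ⟨0, x.g⟩ := by
      ext
      · simp [Aff.mul_a]
      · simp [Aff.mul_g]
    have h2 : σ ⟨0, x.g⟩ w.1 = ν x.g • w.1 := by
      have h3 := hw x.g hx.2
      simp only [τ, dif_pos (hMj hx.2)] at h3
      exact congrArg Subtype.val h3
    calc σ x w.1 = σ ((⟨x.a, 1⟩ : Aff ρ) * ⟨0, x.g⟩) w.1 := by rw [← h1]
      _ = σ ⟨x.a, 1⟩ (σ ⟨0, x.g⟩ w.1) := by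
          rw [hσm _ (htr _ hx.1) _ (hcr _ (hMi hx.2))]; rfl
      _ = (μ x.a * ν x.g) • w.1 := by
          rw [h2, map_smul, w.2 _ hx.1, smul_smul, mul_comm]

end Pool.Agent.Helper476.NM
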