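import Pool.Agent.Helper476.NM9
import Pool.Agent.Helper476.NM3
import Pool.Agent.Helper476.NM1

set_option autoImplicit false

namespace Pool.Agent.Helper476.NM

/-- The inductively constructed groups. -/
def Tower (p c n : ℕ) : Prop :=
  ∃ (G : Type) (_ : Group G) (lev : ℕ → Subgroup G), Finite G ∧ IsPGroup p G ∧ (∀ i, (lev i).Normal) ∧
    Antitone lev ∧ lev 0 = ⊤ ∧ HTF p c lev ∧ (∀ i, i < c → NMon (lev i)) ∧
    (∀ k, k < n → 2 ^ k < c → ∃ g ∈ derivedSeries G k, g ∈ lev (2 ^ k - 1) ∧ g ∉ lev (2 ^ k))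

theorem tower_zero (p c : ℕ) (hp : p.Prime) (hc : 0 < c) : Tower p c 0 := by
  have hntR : Nontrivial (ZMod (p ^ c)) :=
    ZMod.nontrivial_iff.2 (Nat.one_lt_pow hc.ne' hp.one_lt).ne'
  refine ⟨PUnit, inferInstance, fun _ => ⊤, inferInstance, fun g => ⟨0, rfl⟩, fun _ => inferInstance,
    fun _ _ _ => le_rfl, rfl, ?_, ?_, ?_⟩
  · intro k _
    refine ⟨ZMod (p ^ c), inferInstance, inferInstance, 1, inferInstance, inferInstance, inferInstance, ?_, ?_⟩
    · intro i g _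
      exact ⟨0, by simp⟩
    · intro i _ g _ hg
      exact absurd trivial hg
  · intro i _ E _ _ _ _ ρ hρ
    obtain ⟨v, hv⟩ := exists_ne (0 : E)
    refine ⟨⊤, inferInstance, le_rfl, fun _ => 1, rfl, fun _ _ _ _ => by simp, fun _ _ _ => trivial, v, hv, ?_⟩
    intro m _
    have : ρ m = 1 := hρ.1
    rw [this, one_smul]
    rfl
  · intro k hk
    exact absurd hk (Nat.not_lt_zero k)

theorem aff_finite {R G V : Type} [CommRing R] [Group G] [AddCommGroup V] [Module R V]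
    (ρ : G →* Module.End R V) [Finite G] [Finite V] : Finite (Aff ρ) :=
  Finite.of_injective (fun x : Aff ρ => (x.a, x.g)) (by
    intro x y h
    simp only [Prod.mk.injEq] at h
    exact Aff.ext h.1 h.2)

theorem aff_pow_trans {R G V : Type} [CommRing R] [Group G] [AddCommGroup V] [Module R V]
    (ρ : G →* Module.End R V) (a : V) (n : ℕ) : (⟨a, 1⟩ : Aff ρ) ^ n = ⟨n • a, 1⟩ := by
  induction n with
  | zero => rw [pow_zero, zero_smul]; rfl
  | succ n ih =>
    rw [pow_succ, ih]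
    apply Aff.ext
    · rw [Aff.mul_a]
      simp only [map_one, Module.End.one_apply]
      rw [succ_nsmul]
    · rw [Aff.mul_g, one_mul]

theorem aff_pow_g {R G V : Type} [CommRing R] [Group G] [AddCommGroup V] [Module R V]
    (ρ : G →* Module.End R V) (x : Aff ρ) (n : ℕ) : (x ^ n).g = x.g ^ n := by
  induction n with
  | zero => rw [pow_zero, pow_zero]; rfl
  | succ n ih => rw [pow_succ, Aff.mul_g, ih, pow_succ]

theorem aff_isPGroup {p c : ℕ} {G V : Type} [Group G] [AddCommGroup V] [Module (ZMod (p ^ c)) V]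
    (ρ : G →* Module.End (ZMod (p ^ c)) V) (hG : IsPGroup p G) : IsPGroup p (Aff ρ) := by
  intro x
  obtain ⟨m, hm⟩ := hG x.g
  refine ⟨m + c, ?_⟩
  rw [pow_add, pow_mul]
  have h1 : x ^ p ^ m = ⟨(x ^ p ^ m).a, 1⟩ := by
    apply Aff.ext
    · rfl
    · rw [aff_pow_g, hm]
  rw [h1, aff_pow_trans]
  apply Aff.ext
  · rw [← Nat.cast_smul_eq_nsmul (ZMod (p ^ c)), Nat.cast_pow, p_pow_zero, zero_smul]
    rfl
  · rfl

theorem p_pow_ne_zero {p c m : ℕ} (hp : p.Prime) (hm : m < c) : (p : ZMod (p ^ c)) ^ m ≠ 0 := by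
  intro h
  rw [← Nat.cast_pow, ZMod.natCast_eq_zero_iff] at h
  have := (Nat.pow_dvd_pow_iff_le_right hp.one_lt).1 h
  omega

theorem exists_not_mem_pV {p c m : ℕ} (hp : p.Prime) (hm : m < c) (V : Type) [AddCommGroup V]
    [Module (ZMod (p ^ c)) V] [Module.Free (ZMod (p ^ c)) V] [Nontrivial V] :
    ∃ a ∈ pV p (R := ZMod (p ^ c)) V m, a ∉ pV p (R := ZMod (p ^ c)) V (m + 1) := by
  classical
  let b := Module.Free.chooseBasis (ZMod (p ^ c)) V
  have hne : Nonempty (Module.Free.ChooseBasisIndex (ZMod (p ^ c)) V) := b.index_nonempty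
  let i := hne.some
  refine ⟨(p : ZMod (p ^ c)) ^ m • b i, mem_pV.2 ⟨_, rfl⟩, ?_⟩
  intro h
  obtain ⟨w, hw⟩ := mem_pV.1 h
  have h1 := congrArg (fun v => b.repr v i) hw
  simp only [map_smul, Finsupp.smul_apply, Module.Basis.repr_self, Finsupp.single_eq_same, smul_eq_mul,
    mul_one] at h1
  have h2 := congrArg (fun t => (p : ZMod (p ^ c)) ^ (c - 1 - m) * t) h1
  rw [← mul_assoc, ← pow_add, ← pow_add, show c - 1 - m + (m + 1) = c by omega,
    show c - 1 - m + m = c - 1 by omega, p_pow_zero, zero_mul] at h2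
  exact p_pow_ne_zero hp (by omega) h2.symm

open scoped commutatorElement in
/-- The derived series of the affine group contains deep translations. -/
theorem derived_aff {p c n : ℕ} (hp : p.Prime) {G : Type} [Group G] {lev : ℕ → Subgroup G} {V : Type}
    [AddCommGroup V] [Module (ZMod (p ^ c)) V] {ρ : G →* Module.End (ZMod (p ^ c)) V} {kk : ℕ}
    (hT : TF p c kk lev ρ)
    (hD : ∀ k, k < n → 2 ^ k < c → ∃ g ∈ derivedSeries G k, g ∈ lev (2 ^ k - 1) ∧ g ∉ lev (2 ^ k)) :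
    ∀ k, k ≤ n → ∀ a ∈ pV p (R := ZMod (p ^ c)) V (2 ^ k - 1), (⟨a, 1⟩ : Aff ρ) ∈ derivedSeries (Aff ρ) k := by
  intro k
  induction k with
  | zero => intro _ a _; rw [derivedSeries_zero]; trivial
  | succ k ih =>
    intro hk a ha
    have h2k : 0 < 2 ^ k := Nat.two_pow_pos k
    by_cases hc : 2 ^ k < c
    · obtain ⟨g, hg, hg1, hg2⟩ := hD k (by omega) hc
      have e : 2 ^ (k + 1) - 1 = (2 ^ k - 1) + 1 + (2 ^ k - 1) := by rw [pow_succ]; omega
      rw [e] at ha
      obtain ⟨b, hb, hba⟩ := surj_level hp.pos hT (by omega) hg1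
        (by rw [Nat.sub_add_cancel h2k]; exact hg2) ha
      let ι : G →* Aff ρ :=
        { toFun := fun g => ⟨0, g⟩
          map_one' := rfl
          map_mul' := fun g h => by
            apply Aff.ext
            · simp [Aff.mul_a]
            · rfl }
      have h1 : (⟨0, g⟩ : Aff ρ) ∈ derivedSeries (Aff ρ) k :=
        map_derivedSeries_le_derivedSeries ι k ⟨g, hg, rfl⟩
      have h2 := ih (by omega) b hb
      have h3 := Subgroup.commutator_mem_commutator h1 h2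
      rw [← derivedSeries_succ] at h3
      have h4 : ⁅(⟨0, g⟩ : Aff ρ), (⟨b, 1⟩ : Aff ρ)⁆ = ⟨a, 1⟩ := by
        rw [commutatorElement_def]
        apply Aff.ext
        · rw [Aff.mul_a, Aff.conj_a, Aff.conj_g, Aff.inv_a]
          simp only [map_zero, zero_add, sub_zero, mul_one, mul_inv_cancel, map_one, Module.End.one_apply,
            inv_one]
          rw [hba]; abel
        · simp [Aff.mul_g, Aff.inv_g]
      rwa [h4] at h3
    · have h5 : a = 0 := pV_top (by rw [pow_succ]; omega) ha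
      rw [h5]
      exact Subgroup.one_mem _

theorem tower_succ {p c n : ℕ} [hpf : Fact p.Prime] (h3 : 3 ≤ p) (hc : 0 < c) (h : Tower p c n) :
    Tower p c (n + 1) := by
  obtain ⟨G, iG, lev, hfin, hpg, hn, hanti, h0, hH, hNM, hD⟩ := h
  have hnz : NeZero (p ^ c) := ⟨(Nat.pow_pos hpf.out.pos).ne'⟩
  obtain ⟨V, iV, iVm, ρ, hVfree, hVfin, hVnt, hT⟩ := hH 1 one_pos
  have hVfinite : Finite V := Module.finite_of_finite (ZMod (p ^ c))
  refine ⟨Aff ρ, inferInstance, levA p c lev ρ, aff_finite ρ, aff_isPGroup ρ hpg, levA_normal hn hT.1,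
    levA_anti hanti, levA_zero h0, tf_step h3 hc h0 hT.1 hH, nm_step hpf.out.pos hn hanti h0 hT hNM, ?_⟩
  intro k hk hkc
  have h2k : 0 < 2 ^ k := Nat.two_pow_pos k
  obtain ⟨a, ha, ha'⟩ := exists_not_mem_pV (p := p) (c := c) (m := 2 ^ k - 1) hpf.out (by omega) V
  rw [Nat.sub_add_cancel h2k] at ha'
  exact ⟨⟨a, 1⟩, derived_aff (n := n) hpf.out hT hD k (by omega) a ha, mem_levA.2 ⟨ha, Subgroup.one_mem _⟩,
    fun hcon => ha' hcon.1⟩

theorem tower (p c n : ℕ) [hpf : Fact p.Prime] (h3 : 3 ≤ p) (hc : 0 < c) : Tower p c n := by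
  induction n with
  | zero => exact tower_zero p c hpf.out hc
  | succ n ih => exact tower_succ h3 hc ih

open CategoryTheory in
theorem nontrivial_of_simple {G : Type} [Group G] (V : FDRep ℂ G) [Simple V] : Nontrivial V := by
  by_contra h
  rw [not_nontrivial_iff_subsingleton] at h
  apply id_nonzero V
  apply Action.Hom.ext
  apply InducedCategory.hom_ext
  apply ModuleCat.hom_ext
  apply LinearMap.ext
  intro v
  exact Subsingleton.elim (α := V) _ _

open CategoryTheory in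
/-- The unbounded family. -/
theorem main (p d : ℕ) [hpf : Fact p.Prime] (h3 : 3 ≤ p) :
    ∃ (G : Type) (_ : Group G), Finite G ∧ IsPGroup p G ∧
      (∀ V : FDRep ℂ G, Simple V → ∃ N : Subgroup G, N.Normal ∧ ∃ ν : G → ℂ, ν 1 = 1 ∧
        (∀ s ∈ N, ∀ t ∈ N, ν (s * t) = ν s * ν t) ∧
        (∀ g, (∀ m ∈ N, ν (g * m * g⁻¹) = ν m) → g ∈ N) ∧
        ∃ v : V, v ≠ 0 ∧ ∀ m ∈ N, V.ρ m v = ν m • v) ∧
      derivedSeries G d ≠ ⊥ := by
  obtain ⟨G, iG, lev, hfin, hpg, hn, hanti, h0, hH, hNM, hD⟩ := tower p (2 ^ d + 1) (d + 1) h3 (Nat.succ_pos _)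
  refine ⟨G, iG, hfin, hpg, ?_, ?_⟩
  · intro V hV
    have hnt := nontrivial_of_simple V
    obtain ⟨M, hM, _, ν, h1, h2, h4, v, hv, hv'⟩ := hNM 0 (Nat.succ_pos _) V (fun g => V.ρ g)
      ⟨map_one _, fun s _ t _ => map_mul _ _ _⟩
    refine ⟨M, hM, ν, h1, h2, fun g => h4 g (by rw [h0]; trivial), v, hv, hv'⟩
  · intro h
    obtain ⟨g, hg, _, hg2⟩ := hD d (by omega) (Nat.lt_succ_self _)
    rw [h, Subgroup.mem_bot] at hg
    apply hg2
    rw [hg]
    exact Subgroup.one_mem _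

end Pool.Agent.Helper476.NM
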