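import Mathlib

set_option autoImplicit false

namespace Pool.Agent.Helper476.NM

/-- Pairwise commuting operators on a nonzero finite dimensional complex space have a common eigenvector. -/
theorem common_eigenvector (n : ℕ) : ∀ (E : Type) [AddCommGroup E] [Module ℂ E] [FiniteDimensional ℂ E]
    [Nontrivial E] (ι : Type) (r : ι → Module.End ℂ E), (∀ i j, Commute (r i) (r j)) →
    Module.finrank ℂ E ≤ n → ∃ v : E, v ≠ 0 ∧ ∃ μ : ι → ℂ, ∀ i, r i v = μ i • v := by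
  induction n with
  | zero =>
    intro E _ _ _ _ ι r _ h
    have := Module.finrank_pos (R := ℂ) (M := E)
    omega
  | succ n ih =>
    intro E _ _ _ _ ι r hc hn
    by_cases hs : ∀ i, ∃ t : ℂ, r i = t • 1
    · choose μ hμ using hs
      obtain ⟨v, hv⟩ := exists_ne (0 : E)
      exact ⟨v, hv, μ, fun i => by rw [hμ i]; rfl⟩
    · push Not at hs
      obtain ⟨i, hi⟩ := hs
      obtain ⟨t, ht⟩ := Module.End.exists_eigenvalue (r i)
      let W : Submodule ℂ E := Module.End.eigenspace (r i) t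
      have hW0 : W ≠ ⊥ := ht
      have hW1 : W ≠ ⊤ := by
        intro h
        apply hi t
        ext v
        have : v ∈ W := by rw [h]; trivial
        exact Module.End.mem_eigenspace_iff.1 this
      have hlt : Module.finrank ℂ W < Module.finrank ℂ E := Submodule.finrank_lt hW1
      have hmap : ∀ j, ∀ w ∈ W, r j w ∈ W := by
        intro j w hw
        rw [Module.End.mem_eigenspace_iff] at hw ⊢
        have h1 : (r i * r j) w = (r j * r i) w := by rw [(hc i j).eq]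
        rw [Module.End.mul_apply, Module.End.mul_apply, hw, map_smul] at h1
        exact h1
      have : Nontrivial W := Submodule.nontrivial_iff_ne_bot.2 hW0
      obtain ⟨v, hv, μ, hμ⟩ := ih W ι (fun j => (r j).restrict (hmap j)) (by
        intro j k
        ext w
        have h1 : (r j * r k) w = (r k * r j) w := by rw [(hc j k).eq]
        exact h1) (by omega)
      refine ⟨v.1, fun h => hv (Subtype.ext h), μ, fun j => ?_⟩
      exact congrArg Subtype.val (hμ j)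

/-- A map which is a representation on the subgroup `T`. -/
def RepOn {G : Type} [Group G] (T : Subgroup G) {E : Type} [AddCommGroup E] [Module ℂ E]
    (ρ : G → Module.End ℂ E) : Prop :=
  ρ 1 = 1 ∧ ∀ s ∈ T, ∀ t ∈ T, ρ (s * t) = ρ s * ρ t

/-- Every nonzero representation of `T` contains a linear character of a subgroup normal in the whole
group, whose stabiliser in `T` is that subgroup. -/
def NMon {G : Type} [Group G] (T : Subgroup G) : Prop :=
  ∀ (E : Type) [AddCommGroup E] [Module ℂ E] [FiniteDimensional ℂ E] [Nontrivial E]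
    (ρ : G → Module.End ℂ E), RepOn T ρ →
    ∃ M : Subgroup G, M.Normal ∧ M ≤ T ∧ ∃ ν : G → ℂ, ν 1 = 1 ∧
      (∀ s ∈ M, ∀ t ∈ M, ν (s * t) = ν s * ν t) ∧
      (∀ g ∈ T, (∀ m ∈ M, ν (g * m * g⁻¹) = ν m) → g ∈ M) ∧
      ∃ v : E, v ≠ 0 ∧ ∀ m ∈ M, ρ m v = ν m • v

/-- The affine group of a representation. -/
@[ext]
structure Aff {R G V : Type} [CommRing R] [Group G] [AddCommGroup V] [Module R V]
    (ρ : G →* Module.End R V) where
  a : V
  g : G

namespace Aff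

variable {R G V : Type} [CommRing R] [Group G] [AddCommGroup V] [Module R V]
    {ρ : G →* Module.End R V}

instance : Mul (Aff ρ) := ⟨fun x y => ⟨x.a + ρ x.g y.a, x.g * y.g⟩⟩
instance : One (Aff ρ) := ⟨⟨0, 1⟩⟩
instance : Inv (Aff ρ) := ⟨fun x => ⟨-(ρ x.g⁻¹ x.a), x.g⁻¹⟩⟩

theorem mul_a (x y : Aff ρ) : (x * y).a = x.a + ρ x.g y.a := rfl
theorem mul_g (x y : Aff ρ) : (x * y).g = x.g * y.g := rfl
theorem one_a : (1 : Aff ρ).a = 0 := rfl
theorem one_g : (1 : Aff ρ).g = 1 := rfl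
theorem inv_a (x : Aff ρ) : (x⁻¹).a = -(ρ x.g⁻¹ x.a) := rfl
theorem inv_g (x : Aff ρ) : (x⁻¹).g = x.g⁻¹ := rfl

instance : Group (Aff ρ) where
  mul_assoc x y z := by
    ext
    · simp only [mul_a, mul_g, map_mul, map_add, Module.End.mul_apply, add_assoc]
    · simp only [mul_g, mul_assoc]
  one_mul x := by
    ext
    · simp [mul_a, one_a, one_g]
    · simp [mul_g, one_g]
  mul_one x := by
    ext
    · simp [mul_a, one_a]
    · simp [mul_g, one_g]
  inv_mul_cancel x := by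
    ext
    · simp [mul_a, inv_a, inv_g, one_a]
    · simp [mul_g, inv_g, one_g]

theorem conj_g (x y : Aff ρ) : (x * y * x⁻¹).g = x.g * y.g * x.g⁻¹ := rfl

theorem conj_a (x y : Aff ρ) :
    (x * y * x⁻¹).a = x.a + ρ x.g y.a - ρ (x.g * y.g * x.g⁻¹) x.a := by
  simp only [mul_a, mul_g, inv_a, map_neg, map_mul, Module.End.mul_apply]
  abel

end Aff

/-- The submodule of multiples of `p ^ i`. -/
def pV (p : ℕ) {R : Type} [CommRing R] (V : Type) [AddCommGroup V] [Module R V] (i : ℕ) :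
    Submodule R V := LinearMap.range (((p : R) ^ i) • (LinearMap.id : V →ₗ[R] V))

theorem mem_pV {p : ℕ} {R : Type} [CommRing R] {V : Type} [AddCommGroup V] [Module R V] {i : ℕ} {a : V} :
    a ∈ pV p (R := R) V i ↔ ∃ b, (p : R) ^ i • b = a := by
  unfold pV
  rw [LinearMap.mem_range]
  rfl

theorem pV_le {p : ℕ} {R : Type} [CommRing R] {V : Type} [AddCommGroup V] [Module R V] {i j : ℕ}
    (h : i ≤ j) : pV p (R := R) V j ≤ pV p (R := R) V i := by
  intro a ha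
  obtain ⟨b, rfl⟩ := mem_pV.1 ha
  refine mem_pV.2 ⟨(p : R) ^ (j - i) • b, ?_⟩
  rw [smul_smul, ← pow_add]
  congr 2
  omega

/-- The congruence condition on a representation with respect to a filtration. -/
def TF (p c k : ℕ) {G : Type} [Group G] (lev : ℕ → Subgroup G) {V : Type} [AddCommGroup V]
    [Module (ZMod (p ^ c)) V] (ρ : G →* Module.End (ZMod (p ^ c)) V) : Prop :=
  (∀ i, ∀ g ∈ lev i, ∃ X : Module.End (ZMod (p ^ c)) V, ρ g = 1 + ((p : ZMod (p ^ c)) ^ (i + 1)) • X) ∧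
  (∀ i, i + 1 < c → ∀ g ∈ lev i, g ∉ lev (i + 1) → ∃ X : Module.End (ZMod (p ^ c)) V,
    ρ g = 1 + ((p : ZMod (p ^ c)) ^ (i + 1)) • X ∧ IsUnit (X ^ (p ^ k) - X))

/-- The filtration on the affine group. -/
def levA (p c : ℕ) {G : Type} [Group G] (lev : ℕ → Subgroup G) {V : Type} [AddCommGroup V]
    [Module (ZMod (p ^ c)) V] (ρ : G →* Module.End (ZMod (p ^ c)) V) (i : ℕ) : Subgroup (Aff ρ) where
  carrier := {x | x.a ∈ pV p (R := ZMod (p ^ c)) V i ∧ x.g ∈ lev i}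
  mul_mem' := by
    rintro x y ⟨hx, hx'⟩ ⟨hy, hy'⟩
    refine ⟨?_, (lev i).mul_mem hx' hy'⟩
    rw [Aff.mul_a]
    refine Submodule.add_mem _ hx ?_
    obtain ⟨b, hb⟩ := mem_pV.1 hy
    exact mem_pV.2 ⟨ρ x.g b, by rw [← map_smul, hb]⟩
  one_mem' := ⟨Submodule.zero_mem _, (lev i).one_mem⟩
  inv_mem' := by
    rintro x ⟨hx, hx'⟩
    refine ⟨?_, (lev i).inv_mem hx'⟩
    rw [Aff.inv_a]
    refine Submodule.neg_mem _ ?_
    obtain ⟨b, hb⟩ := mem_pV.1 hx
    exact mem_pV.2 ⟨ρ x.g⁻¹ b, by rw [← map_smul, hb]⟩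

theorem mem_levA {p c : ℕ} {G : Type} [Group G] {lev : ℕ → Subgroup G} {V : Type} [AddCommGroup V]
    [Module (ZMod (p ^ c)) V] {ρ : G →* Module.End (ZMod (p ^ c)) V} {i : ℕ} {x : Aff ρ} :
    x ∈ levA p c lev ρ i ↔ x.a ∈ pV p (R := ZMod (p ^ c)) V i ∧ x.g ∈ lev i := Iff.rfl

theorem levA_anti {p c : ℕ} {G : Type} [Group G] {lev : ℕ → Subgroup G} (hl : Antitone lev) {V : Type}
    [AddCommGroup V] [Module (ZMod (p ^ c)) V] {ρ : G →* Module.End (ZMod (p ^ c)) V} :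
    Antitone (levA p c lev ρ) := fun _ _ h _ hx => ⟨pV_le h hx.1, hl h hx.2⟩

theorem levA_zero {p c : ℕ} {G : Type} [Group G] {lev : ℕ → Subgroup G} (h0 : lev 0 = ⊤) {V : Type}
    [AddCommGroup V] [Module (ZMod (p ^ c)) V] {ρ : G →* Module.End (ZMod (p ^ c)) V} :
    levA p c lev ρ 0 = ⊤ := by
  rw [Subgroup.eq_top_iff']
  intro x
  refine mem_levA.2 ⟨mem_pV.2 ⟨x.a, by simp⟩, by rw [h0]; trivial⟩

theorem sub_mem_pV {p c : ℕ} {G : Type} [Group G] {lev : ℕ → Subgroup G} {V : Type} [AddCommGroup V]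
    [Module (ZMod (p ^ c)) V] {ρ : G →* Module.End (ZMod (p ^ c)) V}
    (h : ∀ i, ∀ g ∈ lev i, ∃ X : Module.End (ZMod (p ^ c)) V, ρ g = 1 + ((p : ZMod (p ^ c)) ^ (i + 1)) • X)
    {i : ℕ} {g : G} (hg : g ∈ lev i) (b : V) : b - ρ g b ∈ pV p (R := ZMod (p ^ c)) V i := by
  obtain ⟨X, hX⟩ := h i g hg
  refine pV_le (Nat.le_succ i) (mem_pV.2 ⟨- X b, ?_⟩)
  rw [hX]
  simp

theorem levA_normal {p c : ℕ} {G : Type} [Group G] {lev : ℕ → Subgroup G} (hn : ∀ i, (lev i).Normal)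
    {V : Type} [AddCommGroup V] [Module (ZMod (p ^ c)) V] {ρ : G →* Module.End (ZMod (p ^ c)) V}
    (h : ∀ i, ∀ g ∈ lev i, ∃ X : Module.End (ZMod (p ^ c)) V, ρ g = 1 + ((p : ZMod (p ^ c)) ^ (i + 1)) • X)
    (i : ℕ) : (levA p c lev ρ i).Normal := by
  constructor
  intro x hx y
  have h1 : y.g * x.g * y.g⁻¹ ∈ lev i := (hn i).conj_mem _ hx.2 _
  refine mem_levA.2 ⟨?_, h1⟩
  rw [Aff.conj_a]
  have h2 : ρ y.g x.a ∈ pV p (R := ZMod (p ^ c)) V i := by
    obtain ⟨b, hb⟩ := mem_pV.1 hx.1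
    exact mem_pV.2 ⟨ρ y.g b, by rw [← map_smul, hb]⟩
  have h3 := Submodule.add_mem _ h2 (sub_mem_pV h h1 y.a)
  have e : y.a + (ρ y.g) x.a - (ρ (y.g * x.g * y.g⁻¹)) y.a =
      (ρ y.g) x.a + (y.a - (ρ (y.g * x.g * y.g⁻¹)) y.a) := by abel
  rw [e]
  exact h3

end Pool.Agent.Helper476.NM
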