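import Mathlib

set_option autoImplicit false

namespace Pool.Agent.Helper476.NM


theorem two_mul_padicValNat_factorial {p : ℕ} [hp : Fact p.Prime] (h3 : 3 ≤ p) (m : ℕ) :
    2 * padicValNat p m.factorial ≤ m - 1 := by
  rcases Nat.eq_zero_or_pos m with rfl | hm
  · simp
  · have h := sub_one_mul_padicValNat_factorial (p := p) m
    have hs : 1 ≤ (Nat.digits p m).sum := by
      by_contra h0
      have h1 : (Nat.digits p m).sum = 0 := by omega
      have h2 : ∀ x ∈ Nat.digits p m, x = 0 := by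
        intro x hx
        have := List.le_sum_of_mem hx
        omega
      have h4 : m = 0 := by
        rw [← Nat.ofDigits_digits p m]
        have : Nat.digits p m = List.replicate (Nat.digits p m).length 0 := List.eq_replicate_iff.2 ⟨rfl, h2⟩
        rw [this]
        simp [Nat.ofDigits_replicate_zero]
      omega
    have h5 : 2 * padicValNat p m.factorial ≤ (p - 1) * padicValNat p m.factorial := Nat.mul_le_mul_right _ (by omega)
    omega

/-- The coefficients `p ^ m / m!` in `ZMod (p ^ c)`. -/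
noncomputable def ee (p c m : ℕ) : ZMod (p ^ c) :=
  (p : ZMod (p ^ c)) ^ (m - padicValNat p m.factorial) * ((m.factorial / p ^ padicValNat p m.factorial : ℕ) : ZMod (p ^ c))⁻¹

theorem p_pow_zero (p c : ℕ) : (p : ZMod (p ^ c)) ^ c = 0 := by
  have := ZMod.natCast_self (p ^ c)
  rwa [Nat.cast_pow] at this

theorem fact_eq (p m : ℕ) [hp : Fact p.Prime] :
    m.factorial = p ^ padicValNat p m.factorial * (m.factorial / p ^ padicValNat p m.factorial) :=
  (Nat.mul_div_cancel' pow_padicValNat_dvd).symm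

theorem unit_part (p c m : ℕ) [hp : Fact p.Prime] :
    ((m.factorial / p ^ padicValNat p m.factorial : ℕ) : ZMod (p ^ c)) * ((m.factorial / p ^ padicValNat p m.factorial : ℕ) : ZMod (p ^ c))⁻¹ = 1 := by
  apply ZMod.coe_mul_inv_eq_one
  apply Nat.Coprime.pow_right
  rw [Nat.coprime_comm]
  rw [Nat.Prime.coprime_iff_not_dvd hp.out]
  intro h
  have h1 : p ^ (padicValNat p m.factorial + 1) ∣ m.factorial := by
    conv_rhs => rw [fact_eq p m]
    rw [pow_succ]
    exact Nat.mul_dvd_mul_left _ h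
  exact pow_succ_padicValNat_not_dvd (Nat.factorial_ne_zero m) h1

theorem ee_zero (p c : ℕ) [hp : Fact p.Prime] : ee p c 0 = 1 := by
  have h := unit_part p c 0
  unfold ee
  simp only [Nat.factorial_zero, padicValNat_one_right, pow_zero, one_mul] at h ⊢
  simpa using h

theorem ee_one (p c : ℕ) [hp : Fact p.Prime] : ee p c 1 = p := by
  have h := unit_part p c 1
  unfold ee
  simp only [Nat.factorial_one, padicValNat_one_right, pow_zero] at h ⊢
  simp at h ⊢

theorem ee_two {p c : ℕ} [hp : Fact p.Prime] (h3 : 3 ≤ p) {m : ℕ} (hm : 2 ≤ m) :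
    ∃ t, ee p c m = (p : ZMod (p ^ c)) ^ 2 * t := by
  have h := two_mul_padicValNat_factorial h3 m
  unfold ee
  obtain ⟨s, hs⟩ : ∃ s, m - padicValNat p m.factorial = 2 + s := ⟨m - padicValNat p m.factorial - 2, by omega⟩
  rw [hs, pow_add, mul_assoc]
  exact ⟨_, rfl⟩

theorem ee_big {p c : ℕ} [hp : Fact p.Prime] (h3 : 3 ≤ p) {m : ℕ} (hm : 2 * c ≤ m) (hc : 0 < c) :
    ee p c m = 0 := by
  have h := two_mul_padicValNat_factorial h3 m
  unfold ee
  obtain ⟨s, hs⟩ : ∃ s, m - padicValNat p m.factorial = c + s := ⟨m - padicValNat p m.factorial - c, by omega⟩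
  rw [hs, pow_add, p_pow_zero, zero_mul, zero_mul]

theorem ee_mul {p c : ℕ} [hp : Fact p.Prime] (h3 : 3 ≤ p) (m l : ℕ) :
    ee p c m * ee p c l = ((m + l).choose m : ZMod (p ^ c)) * ee p c (m + l) := by
  have hm := two_mul_padicValNat_factorial h3 m
  have hl := two_mul_padicValNat_factorial h3 l
  have hml := two_mul_padicValNat_factorial h3 (m + l)
  have um := unit_part p c m
  have ul := unit_part p c l
  have uml := unit_part p c (m + l)
  have fm := fact_eq p m
  have fl := fact_eq p l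
  have fml := fact_eq p (m + l)
  have hch : (m + l).choose m * m.factorial * l.factorial = (m + l).factorial := by
    have := Nat.choose_mul_factorial_mul_factorial (Nat.le_add_right m l)
    rwa [Nat.add_sub_cancel_left] at this
  unfold ee
  generalize padicValNat p m.factorial = a at *
  generalize padicValNat p l.factorial = b at *
  generalize padicValNat p (m + l).factorial = d at *
  generalize m.factorial / p ^ a = x at *
  generalize l.factorial / p ^ b = y at *
  generalize (m + l).factorial / p ^ d = z at *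
  have key : p ^ (m - a) * p ^ (l - b) * z = (m + l).choose m * p ^ (m + l - d) * (x * y) := by
    have hpp : 0 < p ^ (a + b + d) := Nat.pow_pos hp.out.pos
    apply Nat.eq_of_mul_eq_mul_right hpp
    have e1 : p ^ (m - a) * p ^ (l - b) * z * p ^ (a + b + d) = p ^ (m + l) * (p ^ d * z) := by
      have : p ^ (m + l) = p ^ (m - a) * p ^ a * (p ^ (l - b) * p ^ b) := by
        rw [← pow_add, ← pow_add, ← pow_add]; congr 1; omega
      rw [this, pow_add, pow_add]; ring
    have e2 : (m + l).choose m * p ^ (m + l - d) * (x * y) * p ^ (a + b + d) =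
        p ^ (m + l) * ((m + l).choose m * (p ^ a * x) * (p ^ b * y)) := by
      have : p ^ (m + l) = p ^ (m + l - d) * p ^ d := by
        rw [← pow_add]; congr 1; omega
      rw [this, pow_add, pow_add]; ring
    rw [e1, e2, ← fm, ← fl, ← fml, hch]
  have key' : (p : ZMod (p ^ c)) ^ (m - a) * (p : ZMod (p ^ c)) ^ (l - b) * (z : ZMod (p ^ c)) =
      ((m + l).choose m : ZMod (p ^ c)) * (p : ZMod (p ^ c)) ^ (m + l - d) * ((x : ZMod (p ^ c)) * y) := by
    exact_mod_cast congrArg (Nat.cast : ℕ → ZMod (p ^ c)) key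
  calc (p : ZMod (p ^ c)) ^ (m - a) * (x : ZMod (p ^ c))⁻¹ * ((p : ZMod (p ^ c)) ^ (l - b) * (y : ZMod (p ^ c))⁻¹)
      = ((p : ZMod (p ^ c)) ^ (m - a) * (p : ZMod (p ^ c)) ^ (l - b) * z) * ((x : ZMod (p ^ c))⁻¹ * (y : ZMod (p ^ c))⁻¹ * (z : ZMod (p ^ c))⁻¹) := by
        linear_combination (-(p : ZMod (p ^ c)) ^ (m - a) * (x : ZMod (p ^ c))⁻¹ * (p : ZMod (p ^ c)) ^ (l - b) * (y : ZMod (p ^ c))⁻¹) * uml
    _ = (((m + l).choose m : ZMod (p ^ c)) * (p : ZMod (p ^ c)) ^ (m + l - d) * ((x : ZMod (p ^ c)) * y)) * ((x : ZMod (p ^ c))⁻¹ * (y : ZMod (p ^ c))⁻¹ * (z : ZMod (p ^ c))⁻¹) := by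
        rw [key']
    _ = ((m + l).choose m : ZMod (p ^ c)) * ((p : ZMod (p ^ c)) ^ (m + l - d) * (z : ZMod (p ^ c))⁻¹) := by
        linear_combination (((m + l).choose m : ZMod (p ^ c)) * (p : ZMod (p ^ c)) ^ (m + l - d) * (z : ZMod (p ^ c))⁻¹) * (((y : ZMod (p ^ c)) * (y : ZMod (p ^ c))⁻¹) * um + ul)

/-- The truncated exponential of `p x`. -/
noncomputable def ex (p c : ℕ) {B : Type} [CommRing B] [Algebra (ZMod (p ^ c)) B] (x : B) : B :=
  ∑ m ∈ Finset.range (2 * c), ee p c m • x ^ m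

theorem ex_add {p c : ℕ} [hp : Fact p.Prime] (h3 : 3 ≤ p) (hc : 0 < c) {B : Type} [CommRing B]
    [Algebra (ZMod (p ^ c)) B] (x y : B) : ex p c (x + y) = ex p c x * ex p c y := by
  classical
  have h1 : ex p c x * ex p c y = ∑ q ∈ Finset.range (2 * c) ×ˢ Finset.range (2 * c),
      (((q.1 + q.2).choose q.1 : ZMod (p ^ c)) * ee p c (q.1 + q.2)) • (x ^ q.1 * y ^ q.2) := by
    unfold ex
    rw [Finset.sum_mul_sum, ← Finset.sum_product']
    refine Finset.sum_congr rfl fun q _ => ?_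
    rw [smul_mul_smul_comm, ee_mul h3]
  have h2 : ∑ q ∈ Finset.range (2 * c) ×ˢ Finset.range (2 * c),
      (((q.1 + q.2).choose q.1 : ZMod (p ^ c)) * ee p c (q.1 + q.2)) • (x ^ q.1 * y ^ q.2) =
      ∑ q ∈ (Finset.range (2 * c) ×ˢ Finset.range (2 * c)).filter (fun q => q.1 + q.2 < 2 * c),
      (((q.1 + q.2).choose q.1 : ZMod (p ^ c)) * ee p c (q.1 + q.2)) • (x ^ q.1 * y ^ q.2) := by
    symm
    apply Finset.sum_subset (Finset.filter_subset _ _)
    intro q hq hq'
    have : 2 * c ≤ q.1 + q.2 := by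
      by_contra h
      exact hq' (Finset.mem_filter.2 ⟨hq, by omega⟩)
    rw [ee_big h3 this hc, mul_zero, zero_smul]
  have h4 : ∑ q ∈ (Finset.range (2 * c) ×ˢ Finset.range (2 * c)).filter (fun q => q.1 + q.2 < 2 * c),
      (((q.1 + q.2).choose q.1 : ZMod (p ^ c)) * ee p c (q.1 + q.2)) • (x ^ q.1 * y ^ q.2) =
      ∑ n ∈ Finset.range (2 * c), ∑ q ∈ Finset.HasAntidiagonal.antidiagonal n,
      (((q.1 + q.2).choose q.1 : ZMod (p ^ c)) * ee p c (q.1 + q.2)) • (x ^ q.1 * y ^ q.2) := by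
    rw [← Finset.sum_fiberwise_of_maps_to (g := fun q : ℕ × ℕ => q.1 + q.2) (t := Finset.range (2 * c))]
    · refine Finset.sum_congr rfl fun n hn => ?_
      refine Finset.sum_congr ?_ fun _ _ => rfl
      ext q
      simp only [Finset.mem_filter, Finset.mem_product, Finset.mem_range, Finset.HasAntidiagonal.mem_antidiagonal] at hn ⊢
      constructor
      · rintro ⟨_, h⟩; exact h
      · intro h; refine ⟨⟨⟨?_, ?_⟩, ?_⟩, h⟩ <;> omega
    · intro q hq
      rw [Finset.mem_filter] at hq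
      exact Finset.mem_range.2 hq.2
  rw [h1, h2, h4]
  unfold ex
  refine Finset.sum_congr rfl fun n _ => ?_
  rw [(Commute.all x y).add_pow', Finset.smul_sum]
  refine Finset.sum_congr rfl fun q hq => ?_
  rw [Finset.HasAntidiagonal.mem_antidiagonal] at hq
  rw [hq, ← Nat.cast_smul_eq_nsmul (ZMod (p ^ c)), smul_smul, mul_comm]

theorem ex_zero {p c : ℕ} [hp : Fact p.Prime] (hc : 0 < c) {B : Type} [CommRing B]
    [Algebra (ZMod (p ^ c)) B] : ex p c (0 : B) = 1 := by
  unfold ex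
  rw [Finset.sum_eq_single 0]
  · rw [ee_zero, pow_zero, one_smul]
  · intro m _ hm
    rw [zero_pow hm, smul_zero]
  · intro h
    exact absurd (Finset.mem_range.2 (by omega)) h

theorem ex_map {p c : ℕ} {B C : Type} [CommRing B] [CommRing C]
    [Algebra (ZMod (p ^ c)) B] [Algebra (ZMod (p ^ c)) C] (φ : B →ₐ[ZMod (p ^ c)] C) (x : B) :
    φ (ex p c x) = ex p c (φ x) := by
  unfold ex
  rw [map_sum]
  refine Finset.sum_congr rfl fun m _ => ?_
  rw [map_smul, map_pow]

/-- First order expansion of the truncated exponential. -/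
theorem ex_level {p c : ℕ} [hp : Fact p.Prime] (h3 : 3 ≤ p) (hc : 0 < c) {B : Type} [CommRing B]
    [Algebra (ZMod (p ^ c)) B] (i : ℕ) (y : B) :
    ∃ z : B, ex p c ((p : ZMod (p ^ c)) ^ i • y) =
      1 + (p : ZMod (p ^ c)) ^ (i + 1) • (y + (p : ZMod (p ^ c)) • z) := by
  have hterm : ∀ m, 2 ≤ m → ∃ z : B, ee p c m • ((p : ZMod (p ^ c)) ^ i • y) ^ m =
      (p : ZMod (p ^ c)) ^ (i + 1) • ((p : ZMod (p ^ c)) • z) := by
    intro m hm
    obtain ⟨t, ht⟩ := ee_two (c := c) h3 hm
    refine ⟨(t * (p : ZMod (p ^ c)) ^ (i * m - i)) • y ^ m, ?_⟩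
    have him : i ≤ i * m := Nat.le_mul_of_pos_right _ (by omega)
    rw [ht, smul_pow, smul_smul, smul_smul, smul_smul, ← pow_mul]
    congr 1
    have : (p : ZMod (p ^ c)) ^ (i * m) = (p : ZMod (p ^ c)) ^ i * (p : ZMod (p ^ c)) ^ (i * m - i) := by
      rw [← pow_add]; congr 1; omega
    rw [this]
    ring
  choose! Z hZ using hterm
  have hsplit : Finset.range (2 * c) = insert 0 (insert 1 ((Finset.range (2 * c)).filter (fun m => 2 ≤ m))) := by
    ext m
    simp only [Finset.mem_range, Finset.mem_insert, Finset.mem_filter]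
    omega
  refine ⟨∑ m ∈ (Finset.range (2 * c)).filter (fun m => 2 ≤ m), Z m, ?_⟩
  have h6 : ex p c ((p : ZMod (p ^ c)) ^ i • y) = ee p c 0 • ((p : ZMod (p ^ c)) ^ i • y) ^ 0 +
      (ee p c 1 • ((p : ZMod (p ^ c)) ^ i • y) ^ 1 +
      ∑ m ∈ (Finset.range (2 * c)).filter (fun m => 2 ≤ m), ee p c m • ((p : ZMod (p ^ c)) ^ i • y) ^ m) := by
    unfold ex
    conv_lhs => rw [hsplit]
    rw [Finset.sum_insert (by simp), Finset.sum_insert (by simp)]
  have h5 : ∑ m ∈ (Finset.range (2 * c)).filter (fun m => 2 ≤ m), ee p c m • ((p : ZMod (p ^ c)) ^ i • y) ^ m =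
      ∑ m ∈ (Finset.range (2 * c)).filter (fun m => 2 ≤ m), (p : ZMod (p ^ c)) ^ (i + 1) • ((p : ZMod (p ^ c)) • Z m) := by
    refine Finset.sum_congr rfl fun m hm => ?_
    exact hZ m (Finset.mem_filter.1 hm).2
  rw [h6, h5, ee_zero, ee_one, pow_zero, pow_one, one_smul, ← Finset.smul_sum, ← Finset.smul_sum, smul_add,
    smul_smul, pow_succ']

end Pool.Agent.Helper476.NM
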