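import Mathlib

set_option autoImplicit false

namespace Pool.Agent.Helper476.NM

open Polynomial

/-- A finite free algebra generated by roots of given monic polynomials, with the universal property. -/
theorem exists_alg (R : Type) [CommRing R] [Nontrivial R] (g : ℕ → R[X]) (hg : ∀ j, (g j).Monic)
    (hd : ∀ j, 0 < (g j).natDegree) (r : ℕ) :
    ∃ (B : Type) (_ : CommRing B) (_ : Algebra R B) (y : ℕ → B), Module.Free R B ∧ Module.Finite R B ∧
      Nontrivial B ∧ (∀ j < r, aeval (y j) (g j) = 0) ∧
      (∀ (C : Type) [CommRing C] [Algebra R C] (z : ℕ → C), (∀ j < r, aeval (z j) (g j) = 0) →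
        ∃ φ : B →ₐ[R] C, ∀ j < r, φ (y j) = z j) ∧
      Algebra.adjoin R (y '' {j | j < r}) = ⊤ := by
  induction r with
  | zero =>
    refine ⟨R, inferInstance, inferInstance, fun _ => 0, inferInstance, inferInstance, inferInstance,
      fun j hj => absurd hj (Nat.not_lt_zero j), ?_, ?_⟩
    · intro C _ _ z _
      exact ⟨Algebra.ofId R C, fun j hj => absurd hj (Nat.not_lt_zero j)⟩
    · rw [eq_top_iff]
      intro x _
      have : x = algebraMap R R x := rfl
      rw [this]
      exact Subalgebra.algebraMap_mem _ _
  | succ r ih =>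
    obtain ⟨B, iB, iA, y, hfree, hfin, hnt, hy, huniv, hadj⟩ := ih
    let f : B[X] := (g r).map (algebraMap R B)
    have hf : f.Monic := (hg r).map _
    have hfd : 0 < f.natDegree := by rw [(hg r).natDegree_map]; exact hd r
    let y' : ℕ → AdjoinRoot f := fun j => if j = r then AdjoinRoot.root f else AdjoinRoot.of f (y j)
    have hfreeB : Module.Free B (AdjoinRoot f) := Module.Free.of_basis (AdjoinRoot.powerBasis' hf).basis
    have hfinB : Module.Finite B (AdjoinRoot f) := (AdjoinRoot.powerBasis' hf).finite
    have hntB : Nontrivial (AdjoinRoot f) := by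
      have : Nonempty (Fin (AdjoinRoot.powerBasis' hf).dim) := by
        rw [AdjoinRoot.powerBasis'_dim]
        exact ⟨⟨0, hfd⟩⟩
      exact ⟨⟨_, _, (AdjoinRoot.powerBasis' hf).basis.ne_zero this.some⟩⟩
    have hy'lt : ∀ j, j < r → y' j = AdjoinRoot.of f (y j) := by
      intro j hj
      simp only [y']
      rw [if_neg (by omega)]
    have hy'r : y' r = AdjoinRoot.root f := by simp [y']
    refine ⟨AdjoinRoot f, inferInstance, inferInstance, y', Module.Free.trans (R := R) (S := B) (M := AdjoinRoot f),
      Module.Finite.trans B (AdjoinRoot f), hntB, ?_, ?_, ?_⟩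
    · intro j hj
      rcases Nat.lt_succ_iff_lt_or_eq.1 hj with h | h
      · rw [hy'lt j h]
        have h1 : AdjoinRoot.of f (y j) = (AdjoinRoot.ofAlgHom R f) (y j) := rfl
        rw [h1, aeval_algHom_apply, hy j h, map_zero]
      · rw [h, hy'r]
        have h2 := AdjoinRoot.eval₂_root f
        rw [Polynomial.eval₂_map] at h2
        exact h2
    · intro C _ _ z hz
      obtain ⟨φ, hφ⟩ := huniv C z (fun j hj => hz j (by omega))
      have h3 : f.eval₂ φ (z r) = 0 := by
        have h4 := hz r (by omega)
        change ((g r).map (algebraMap R B)).eval₂ (φ : B →+* C) (z r) = 0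
        rw [Polynomial.eval₂_map, AlgHom.comp_algebraMap]
        exact h4
      refine ⟨AdjoinRoot.liftAlgHom f φ (z r) h3, fun j hj => ?_⟩
      rcases Nat.lt_succ_iff_lt_or_eq.1 hj with h | h
      · rw [hy'lt j h, AdjoinRoot.liftAlgHom_of, hφ j h]
      · rw [h, hy'r, AdjoinRoot.liftAlgHom_root]
    · rw [eq_top_iff]
      intro x _
      have hof : ∀ b : B, AdjoinRoot.of f b ∈ Algebra.adjoin R (y' '' {j | j < r + 1}) := by
        intro b
        have hb : b ∈ Algebra.adjoin R (y '' {j | j < r}) := by rw [hadj]; trivial
        induction hb using Algebra.adjoin_induction with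
        | mem x hx =>
          obtain ⟨j, hj, rfl⟩ := hx
          have hj' : j < r := hj
          rw [← hy'lt j hj']
          exact Algebra.subset_adjoin ⟨j, by simp only [Set.mem_ofPred_eq]; omega, rfl⟩
        | algebraMap x =>
          exact Subalgebra.algebraMap_mem _ x
        | add x y _ _ hx hy => rw [map_add]; exact Subalgebra.add_mem _ hx hy
        | mul x y _ _ hx hy => rw [map_mul]; exact Subalgebra.mul_mem _ hx hy
      induction x using AdjoinRoot.induction_on with
      | ih q =>
        have hroot : AdjoinRoot.root f ∈ Algebra.adjoin R (y' '' {j | j < r + 1}) := by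
          rw [← hy'r]
          exact Algebra.subset_adjoin ⟨r, by simp, rfl⟩
        induction q using Polynomial.induction_on' with
        | add q1 q2 h1 h2 =>
          rw [map_add]
          exact Subalgebra.add_mem _ (h1 trivial) (h2 trivial)
        | monomial n a =>
          rw [← C_mul_X_pow_eq_monomial, map_mul, map_pow, AdjoinRoot.mk_C, AdjoinRoot.mk_X]
          exact Subalgebra.mul_mem _ (hof a) (Subalgebra.pow_mem _ hroot n)

end Pool.Agent.Helper476.NM
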