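import Pool.Agent.Helper476.NM5
import Pool.Agent.Helper476.NM4

set_option autoImplicit false

namespace Pool.Agent.Helper476.NM

open Polynomial

theorem poly_dvd {p k L : ℕ} (hp : 0 < p) (h : k ∣ L) : (X ^ p ^ k - X : ℤ[X]) ∣ X ^ p ^ L - X := by
  obtain ⟨t, rfl⟩ := h
  have h1 : p ^ k - 1 ∣ p ^ (k * t) - 1 := by
    rw [pow_mul]
    have := Nat.sub_dvd_pow_sub_pow (p ^ k) 1 t
    rwa [one_pow] at this
  obtain ⟨s, hs⟩ := h1
  have e : ∀ n : ℕ, (X ^ p ^ n - X : ℤ[X]) = X * (X ^ (p ^ n - 1) - 1) := by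
    intro n
    have : 0 < p ^ n := Nat.pow_pos hp
    obtain ⟨m, hm⟩ : ∃ m, p ^ n = m + 1 := ⟨p ^ n - 1, by omega⟩
    rw [hm, Nat.add_sub_cancel, pow_succ]
    ring
  rw [e, e, hs, pow_mul]
  apply mul_dvd_mul_left
  exact sub_one_dvd_pow_sub_one _ _

theorem isUnit_of_dvd {S : Type} [Ring S] (x : S) {f g : ℤ[X]} (h : f ∣ g) (hu : IsUnit (aeval x g)) :
    IsUnit (aeval x f) := by
  obtain ⟨w, rfl⟩ := h
  rw [map_mul] at hu
  have hc : Commute (aeval x f) (aeval x w) := by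
    change _ * _ = _ * _
    rw [← map_mul, ← map_mul, mul_comm]
  exact (hc.isUnit_mul_iff.1 hu).1

theorem isNilpotent_of_dvd {S : Type} [Ring S] (x : S) {f g : ℤ[X]} (h : f ∣ g)
    (hu : IsNilpotent (aeval x f)) : IsNilpotent (aeval x g) := by
  obtain ⟨w, rfl⟩ := h
  rw [map_mul]
  have hc : Commute (aeval x f) (aeval x w) := by
    change _ * _ = _ * _
    rw [← map_mul, ← map_mul, mul_comm]
  exact hc.isNilpotent_mul_right hu

theorem unit_pow_sub {S : Type} [Ring S] (x : S) {p k L : ℕ} (hp : 0 < p) (h : k ∣ L)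
    (hu : IsUnit (x ^ p ^ L - x)) : IsUnit (x ^ p ^ k - x) := by
  have := isUnit_of_dvd x (poly_dvd hp h) (by simpa using hu)
  simpa using this

theorem nilp_pow_sub {S : Type} [Ring S] (x : S) {p k L : ℕ} (hp : 0 < p) (h : k ∣ L)
    (hu : IsNilpotent (x ^ p ^ k - x)) : IsNilpotent (x ^ p ^ L - x) := by
  have := isNilpotent_of_dvd x (poly_dvd hp h) (by simpa using hu)
  simpa using this

/-- Elements congruent modulo `p` have equal `p ^ (c - 1)` powers. -/
theorem pow_congr {p c : ℕ} (hc : 0 < c) {B : Type} [CommRing B] [Algebra (ZMod (p ^ c)) B] (x w : B) :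
    (x + (p : ZMod (p ^ c)) • w) ^ p ^ (c - 1) = x ^ p ^ (c - 1) := by
  have h0 : (p : B) ^ c = 0 := by
    have := congrArg (algebraMap (ZMod (p ^ c)) B) (p_pow_zero p c)
    simpa using this
  have h1 : (p : B) ∣ (x + (p : ZMod (p ^ c)) • w) - x := by
    refine ⟨w, ?_⟩
    rw [Algebra.smul_def]
    simp
  have h2 := dvd_sub_pow_of_dvd_sub h1 (c - 1)
  rw [Nat.sub_add_cancel hc, h0, zero_dvd_iff, sub_eq_zero] at h2
  exact h2

/-- The defining polynomials. -/
noncomputable def gp (p c k j : ℕ) : (ZMod (p ^ c))[X] :=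
  X ^ (p ^ (c - 1) * p ^ (k * p ^ j)) - (X ^ p ^ (c - 1) + 1)

theorem gp_lt {p c k : ℕ} (hp : 2 ≤ p) (hk : 0 < k) (j : ℕ) :
    p ^ (c - 1) < p ^ (c - 1) * p ^ (k * p ^ j) := by
  have h1 : 0 < p ^ (c - 1) := Nat.pow_pos (by omega)
  have h2 : 1 < p ^ (k * p ^ j) := Nat.one_lt_pow (by
    have : 0 < p ^ j := Nat.pow_pos (by omega)
    exact (Nat.mul_pos hk this).ne') (by omega)
  exact (Nat.lt_mul_iff_one_lt_right h1).2 h2

theorem gp_natDegree_le {p c : ℕ} : (X ^ p ^ (c - 1) + 1 : (ZMod (p ^ c))[X]).natDegree ≤ p ^ (c - 1) := by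
  refine (natDegree_add_le _ _).trans ?_
  rw [natDegree_one, Nat.max_zero]
  exact natDegree_X_pow_le _

theorem gp_monic {p c k : ℕ} (hp : 2 ≤ p) (hk : 0 < k) (j : ℕ) : (gp p c k j).Monic := by
  unfold gp
  apply monic_X_pow_sub
  refine lt_of_le_of_lt (degree_le_natDegree) ?_
  exact_mod_cast lt_of_le_of_lt gp_natDegree_le (gp_lt hp hk j)

theorem gp_natDegree {p c k : ℕ} (hp : 2 ≤ p) (hc : 0 < c) (hk : 0 < k) (j : ℕ) : 0 < (gp p c k j).natDegree := by
  have hnt : Nontrivial (ZMod (p ^ c)) := ZMod.nontrivial_iff.2 (Nat.one_lt_pow hc.ne' (by omega)).ne'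
  unfold gp
  rw [natDegree_sub_eq_left_of_natDegree_lt]
  · rw [natDegree_X_pow]
    exact lt_of_le_of_lt (Nat.zero_le _) (gp_lt hp hk j)
  · rw [natDegree_X_pow]
    exact lt_of_le_of_lt gp_natDegree_le (gp_lt hp hk j)

theorem gp_aeval {p c k j : ℕ} {B : Type} [CommRing B] [Algebra (ZMod (p ^ c)) B] (z : B) :
    aeval z (gp p c k j) = (z ^ p ^ (c - 1)) ^ p ^ (k * p ^ j) - (z ^ p ^ (c - 1) + 1) := by
  unfold gp
  simp [pow_mul]

/-- The combination of generators. -/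
noncomputable def comb {p c : ℕ} {B : Type} [CommRing B] [Algebra (ZMod (p ^ c)) B] (r : ℕ) (y : ℕ → B)
    (a : ℕ → ZMod (p ^ c)) : B := ∑ j ∈ Finset.range r, a j • y j

theorem comb_unit {p c k r : ℕ} [hp : Fact p.Prime] (hc : 0 < c) {B : Type} [CommRing B]
    [Nontrivial B] [Algebra (ZMod (p ^ c)) B] (y : ℕ → B)
    (hy : ∀ j < r, aeval (y j) (gp p c k j) = 0) (a : ℕ → ZMod (p ^ c))
    (ha : ∃ j < r, ¬ (p ∣ (a j).val)) :
    IsUnit ((comb r y a) ^ p ^ k - comb r y a) := by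
  classical
  have h0 : (p : B) ^ c = 0 := by
    have := congrArg (algebraMap (ZMod (p ^ c)) B) (p_pow_zero p c)
    simpa using this
  let I : Ideal B := Ideal.span {(p : B)}
  have hI : IsNilpotent I := ⟨c, by
    change (Ideal.span {(p : B)}) ^ c = 0
    rw [Ideal.span_singleton_pow, h0]; simp⟩
  have hne : I ≠ ⊤ := by
    intro h
    obtain ⟨n, hn⟩ := hI
    rw [h, Ideal.top_pow] at hn
    exact top_ne_bot hn
  have hnt : Nontrivial (B ⧸ I) := Ideal.Quotient.nontrivial_iff.2 hne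
  have hp0 : (p : B ⧸ I) = 0 := by
    have : (p : B ⧸ I) = Ideal.Quotient.mk I (p : B) := by simp
    rw [this, Ideal.Quotient.eq_zero_iff_mem]
    exact Ideal.mem_span_singleton_self _
  have hchar : CharP (B ⧸ I) p := (CharP.charP_iff_prime_eq_zero hp.out).2 hp0
  have hexp : ExpChar (B ⧸ I) p := ExpChar.prime hp.out
  let q := p ^ (c - 1)
  let Q : ℕ → ℕ := fun j => p ^ (k * p ^ j)
  let θ : ℕ → B ⧸ I := fun j => (Ideal.Quotient.mk I (y j)) ^ q
  have hθ : ∀ j < r, θ j ^ Q j = θ j + 1 := by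
    intro j hj
    have h1 := hy j hj
    rw [gp_aeval, sub_eq_zero] at h1
    have h2 := congrArg (Ideal.Quotient.mk I) h1
    simpa using h2
  -- Frobenius iterates
  have hfr : ∀ (n : ℕ) (x : B ⧸ I), iterateFrobenius (B ⧸ I) p n x = x ^ p ^ n :=
    fun n x => iterateFrobenius_def p n x
  have hθt : ∀ j < r, ∀ t : ℕ, θ j ^ p ^ (k * p ^ j * t) = θ j + t := by
    intro j hj t
    induction t with
    | zero => simp
    | succ t ih =>
      rw [Nat.mul_succ, pow_add, pow_mul, ih, ← hfr, map_add, map_natCast, hfr]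
      have h3 := hθ j hj
      simp only [Q] at h3
      rw [h3]
      push_cast
      ring
  have hθJ : ∀ i < r, ∀ J, i < J → θ i ^ Q J = θ i := by
    intro i hi J hJ
    have h3 := hθt i hi (p ^ (J - i))
    have e : k * p ^ i * p ^ (J - i) = k * p ^ J := by
      rw [mul_assoc, ← pow_add]; congr 2; omega
    rw [e] at h3
    have h4 : ((p ^ (J - i) : ℕ) : B ⧸ I) = 0 := by
      rw [Nat.cast_pow, hp0, zero_pow (by omega)]
    rw [h4, add_zero] at h3
    exact h3
  -- the maximal index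
  obtain ⟨J, hJr, hJ, hJmax⟩ : ∃ J < r, ¬ (p ∣ (a J).val) ∧ ∀ j < r, J < j → p ∣ (a j).val := by
    let S := (Finset.range r).filter (fun j => ¬ (p ∣ (a j).val))
    have hS : S.Nonempty := by
      obtain ⟨j, hj, hj'⟩ := ha
      exact ⟨j, Finset.mem_filter.2 ⟨Finset.mem_range.2 hj, hj'⟩⟩
    have hm := Finset.max'_mem S hS
    rw [Finset.mem_filter, Finset.mem_range] at hm
    refine ⟨S.max' hS, hm.1, hm.2, fun j hj hj' => ?_⟩
    by_contra h
    have := Finset.le_max' S j (Finset.mem_filter.2 ⟨Finset.mem_range.2 hj, h⟩)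
    omega
  let cc : ℕ → B ⧸ I := fun j => (((a j).val : ℕ) : B ⧸ I)
  have hcc0 : ∀ j < r, J < j → cc j = 0 := by
    intro j hj hjJ
    obtain ⟨s, hs⟩ := hJmax j hj hjJ
    simp only [cc, hs]
    rw [Nat.cast_mul, hp0, zero_mul]
  have hccJ : IsUnit (cc J) := by
    have h5 : Nat.Coprime (a J).val p := ((Nat.Prime.coprime_iff_not_dvd hp.out).2 hJ).symm
    have h6 : IsUnit (((a J).val : ℕ) : ZMod p) := (ZMod.isUnit_iff_coprime _ _).2 h5
    have h7 := h6.map (ZMod.castHom (dvd_refl p) (B ⧸ I))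
    rw [map_natCast] at h7
    exact h7
  have hmk : Ideal.Quotient.mk I (comb r y a) = ∑ j ∈ Finset.range r, cc j * Ideal.Quotient.mk I (y j) := by
    unfold comb
    rw [map_sum]
    refine Finset.sum_congr rfl fun j _ => ?_
    have h8 : a j • y j = (((a j).val : ℕ) : B) * y j := by
      rw [Algebra.smul_def]
      congr 1
      have hnz : NeZero (p ^ c) := ⟨(Nat.pow_pos hp.out.pos).ne'⟩
      conv_lhs => rw [← ZMod.natCast_zmod_val (a j)]
      rw [map_natCast]
    rw [h8, map_mul, map_natCast]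
  let z := Ideal.Quotient.mk I (comb r y a)
  have hzq : z ^ q = ∑ j ∈ Finset.range r, cc j * θ j := by
    change (Ideal.Quotient.mk I (comb r y a)) ^ p ^ (c - 1) = _
    rw [hmk, ← hfr, map_sum]
    refine Finset.sum_congr rfl fun j _ => ?_
    rw [map_mul, hfr (c - 1) (Ideal.Quotient.mk I (y j)), map_natCast]
  have hw : (z ^ q) ^ Q J = z ^ q + cc J := by
    rw [hzq]
    change (∑ j ∈ Finset.range r, cc j * θ j) ^ p ^ (k * p ^ J) = _
    rw [← hfr, map_sum]
    have h9 : ∀ j ∈ Finset.range r, iterateFrobenius (B ⧸ I) p (k * p ^ J) (cc j * θ j) =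
        cc j * θ j + (if j = J then cc J else 0) := by
      intro j hj
      rw [Finset.mem_range] at hj
      rw [map_mul, hfr _ (θ j), map_natCast]
      rcases lt_trichotomy j J with h | h | h
      · have := hθJ j hj J h
        simp only [Q] at this
        rw [this, if_neg (by omega), add_zero]
      · have := hθ j hj
        simp only [Q] at this
        rw [if_pos h, ← h, this]
        ring
      · have := hcc0 j hj h
        simp only [cc] at this
        rw [this, if_neg (by omega), zero_mul, add_zero]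
        simp only [cc]
        rw [this, zero_mul]
    rw [Finset.sum_congr rfl h9, Finset.sum_add_distrib, Finset.sum_ite_eq', if_pos (Finset.mem_range.2 hJr)]
  have h10 : (z ^ Q J - z) ^ q = cc J := by
    change (z ^ Q J - z) ^ p ^ (c - 1) = cc J
    rw [← hfr, map_sub, hfr, hfr, ← pow_mul, mul_comm, pow_mul]
    have : (z ^ p ^ (c - 1)) ^ Q J = z ^ p ^ (c - 1) + cc J := hw
    rw [this]
    ring
  have hq0 : q ≠ 0 := (Nat.pow_pos hp.out.pos).ne'
  have h11 : IsUnit (z ^ Q J - z) := by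
    rw [← isUnit_pow_iff hq0, h10]
    exact hccJ
  have h12 : IsUnit (z ^ p ^ k - z) := unit_pow_sub z hp.out.pos (Dvd.intro _ rfl) h11
  have h13 : IsUnit (Ideal.Quotient.mk I ((comb r y a) ^ p ^ k - comb r y a)) := by
    rw [map_sub, map_pow]
    exact h12
  exact (IsNilpotent.isUnit_quotient_mk_iff hI).1 h13

/-- The algebra used in the construction. -/
theorem exists_K (p c k r : ℕ) [hp : Fact p.Prime] (hc : 0 < c) (hk : 0 < k) :
    ∃ (B : Type) (_ : CommRing B) (_ : Algebra (ZMod (p ^ c)) B) (y : ℕ → B),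
      Module.Free (ZMod (p ^ c)) B ∧ Module.Finite (ZMod (p ^ c)) B ∧ Nontrivial B ∧
      (∀ z : ℕ → B, (∀ j < r, ∃ w, z j = y j + (p : ZMod (p ^ c)) • w) →
        ∃ φ : B →ₐ[ZMod (p ^ c)] B, ∀ j < r, φ (y j) = z j) ∧
      Algebra.adjoin (ZMod (p ^ c)) (y '' {j | j < r}) = ⊤ ∧
      (∀ a : ℕ → ZMod (p ^ c), (∃ j < r, ¬ (p ∣ (a j).val)) →
        IsUnit ((comb r y a) ^ p ^ k - comb r y a)) := by
  have hnt : Nontrivial (ZMod (p ^ c)) :=
    ZMod.nontrivial_iff.2 (Nat.one_lt_pow hc.ne' hp.out.one_lt).ne'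
  obtain ⟨B, iB, iA, y, h1, h2, h3, h4, h5, h6⟩ := exists_alg (ZMod (p ^ c)) (gp p c k)
    (gp_monic hp.out.two_le hk) (gp_natDegree hp.out.two_le hc hk) r
  refine ⟨B, iB, iA, y, h1, h2, h3, ?_, h6, fun a ha => comb_unit hc y h4 a ha⟩
  intro z hz
  apply h5 B z
  intro j hj
  obtain ⟨w, hw⟩ := hz j hj
  have h7 := h4 j hj
  rw [gp_aeval] at h7 ⊢
  rw [hw, pow_congr hc]
  exact h7

end Pool.Agent.Helper476.NM
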