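import Pool.Agent.Helper476.NM6

set_option autoImplicit false

namespace Pool.Agent.Helper476.NM

section ring

variable {p c : ℕ} {S : Type} [Ring S] [Algebra (ZMod (p ^ c)) S]

theorem p_smul_nilp (w : S) : IsNilpotent ((p : ZMod (p ^ c)) • w) :=
  ⟨c, by rw [smul_pow, p_pow_zero, zero_smul]⟩

theorem add_p_pow (u s : S) (n : ℕ) : ∃ t : S, (u + (p : ZMod (p ^ c)) • s) ^ n = u ^ n + (p : ZMod (p ^ c)) • t := by
  induction n with
  | zero => exact ⟨0, by simp⟩
  | succ n ih =>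
    obtain ⟨t, ht⟩ := ih
    refine ⟨u ^ n * s + t * u + (p : ZMod (p ^ c)) • (t * s), ?_⟩
    rw [pow_succ, ht, pow_succ, add_mul, mul_add, mul_add, smul_mul_assoc, mul_smul_comm, smul_mul_assoc,
      mul_smul_comm, smul_add, smul_add]
    abel

theorem unit_add_p {u : S} (hu : IsUnit u) (s : S) : IsUnit (u + (p : ZMod (p ^ c)) • s) := by
  obtain ⟨v, rfl⟩ := hu
  have h1 : (v : S) + (p : ZMod (p ^ c)) • s = v * (1 + (p : ZMod (p ^ c)) • ((v⁻¹ : Sˣ) * s)) := by
    rw [mul_add, mul_one, mul_smul_comm, ← mul_assoc, Units.mul_inv, one_mul]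
  rw [h1]
  exact v.isUnit.mul (IsNilpotent.isUnit_one_add (p_smul_nilp _))

theorem unit_pow_sub_add_p {u : S} {n : ℕ} (hu : IsUnit (u ^ n - u)) (s : S) :
    IsUnit ((u + (p : ZMod (p ^ c)) • s) ^ n - (u + (p : ZMod (p ^ c)) • s)) := by
  obtain ⟨t, ht⟩ := add_p_pow (p := p) (c := c) u s n
  have h1 : (u + (p : ZMod (p ^ c)) • s) ^ n - (u + (p : ZMod (p ^ c)) • s) =
      (u ^ n - u) + (p : ZMod (p ^ c)) • (t - s) := by
    rw [ht, smul_sub]; abel
  rw [h1]
  exact unit_add_p hu _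

theorem add_pow_p {s t : S} (h : Commute s t) (hp : p.Prime) (n : ℕ) :
    ∃ w : S, (s + t) ^ p ^ n = s ^ p ^ n + t ^ p ^ n + (p : ZMod (p ^ c)) • w := by
  rw [h.add_pow_prime_pow_eq hp]
  refine ⟨s * t * ∑ k ∈ Finset.Ioo 0 (p ^ n), s ^ (k - 1) * t ^ (p ^ n - k - 1) * ↑((p ^ n).choose k / p), ?_⟩
  rw [Algebra.smul_def, map_natCast]
  simp only [mul_assoc]

end ring

theorem unit_sum (p c : ℕ) {S : Type} [Ring S] [Algebra (ZMod (p ^ c)) S] {s t : S} (h : Commute s t)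
    (hp : p.Prime) {L : ℕ} (hs : IsNilpotent (s ^ p ^ L - s))
    (ht : IsUnit (t ^ p ^ L - t)) : IsUnit ((s + t) ^ p ^ L - (s + t)) := by
  obtain ⟨w, hw⟩ := add_pow_p (c := c) h hp L
  have h1 : (s + t) ^ p ^ L - (s + t) = ((t ^ p ^ L - t) + (s ^ p ^ L - s)) + (p : ZMod (p ^ c)) • w := by
    rw [hw]; abel
  rw [h1]
  apply unit_add_p
  apply IsNilpotent.isUnit_add_left_of_commute hs ht
  have h2 : Commute s (t ^ p ^ L - t) := (h.pow_right _).sub_right h
  exact (h2.pow_left _).sub_left h2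

theorem exists_nilp (p c : ℕ) {S : Type} [Ring S] [Algebra (ZMod (p ^ c)) S] [Finite S] (hp : p.Prime) (P : S) : ∃ L, 0 < L ∧ IsNilpotent (P ^ p ^ L - P) := by
  obtain ⟨i, j, hij, h⟩ := Finite.exists_ne_map_eq_of_infinite (fun n : ℕ => P ^ p ^ n)
  wlog hlt : i < j generalizing i j with H
  · exact H j i hij.symm h.symm (by omega)
  refine ⟨j - i, by omega, ?_⟩
  have hc : Commute (P ^ p ^ (j - i) - P) P := by
    apply Commute.sub_left
    · exact (Commute.refl P).pow_left _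
    · exact Commute.refl P
  obtain ⟨w, hw⟩ := add_pow_p (c := c) hc hp i
  have h1 : P ^ p ^ (j - i) - P + P = P ^ p ^ (j - i) := by abel
  have h2 : (P ^ p ^ (j - i)) ^ p ^ i = P ^ p ^ i := by
    rw [← pow_mul, ← pow_add, Nat.sub_add_cancel hlt.le]
    exact h.symm
  rw [h1, h2] at hw
  have h3 : (P ^ p ^ (j - i) - P) ^ p ^ i = (p : ZMod (p ^ c)) • (-w) := by
    rw [smul_neg]
    have h4 : (P ^ p ^ (j - i) - P) ^ p ^ i + (p : ZMod (p ^ c)) • w = 0 := by
      have h5 : P ^ p ^ i + ((P ^ p ^ (j - i) - P) ^ p ^ i + (p : ZMod (p ^ c)) • w) = P ^ p ^ i + 0 := by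
        rw [add_zero]
        conv_rhs => rw [hw]
        abel
      exact add_left_cancel h5
    exact eq_neg_of_add_eq_zero_left h4
  have h6 : IsNilpotent ((P ^ p ^ (j - i) - P) ^ p ^ i) := by
    rw [h3]; exact p_smul_nilp _
  obtain ⟨n, hn⟩ := h6
  exact ⟨p ^ i * n, by rw [pow_mul]; exact hn⟩

theorem exists_nilp_all (p c : ℕ) {S : Type} [Ring S] [Algebra (ZMod (p ^ c)) S] [Finite S] (hp : p.Prime)
    (k : ℕ) (hk : 0 < k) :
    ∃ L, 0 < L ∧ k ∣ L ∧ ∀ P : S, IsNilpotent (P ^ p ^ L - P) := by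
  classical
  have := Fintype.ofFinite S
  choose L hL hLn using fun P : S => exists_nilp p c hp P
  refine ⟨k * ∏ P : S, L P, Nat.mul_pos hk (Finset.prod_pos fun P _ => hL P), Dvd.intro _ rfl, fun P => ?_⟩
  exact nilp_pow_sub P hp.pos ((Finset.dvd_prod_of_mem L (Finset.mem_univ P)).trans (Dvd.intro_left _ rfl)) (hLn P)

/-- Pointwise divisibility of a linear map by a power of `p` gives divisibility. -/
theorem exists_factor {R B : Type} [CommRing R] [AddCommGroup B] [Module R B] [Module.Free R B]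
    (f : Module.End R B) (t : R) (h : ∀ x, ∃ w, f x = t • w) : ∃ Z : Module.End R B, f = t • Z := by
  classical
  let b := Module.Free.chooseBasis R B
  choose w hw using fun i => h (b i)
  refine ⟨b.constr R w, b.ext fun i => ?_⟩
  rw [hw, LinearMap.smul_apply, Module.Basis.constr_basis]

end Pool.Agent.Helper476.NM
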