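import Pool.Agent.Helper476.NM7
import Pool.Agent.Helper476.NM2

set_option autoImplicit false

namespace Pool.Agent.Helper476.NM

theorem exists_Kact {p c k : ℕ} [hpf : Fact p.Prime] (h3 : 3 ≤ p) (hc : 0 < c) (hk : 0 < k) {G : Type}
    [Group G] {lev : ℕ → Subgroup G} (h0 : lev 0 = ⊤) {V : Type} [AddCommGroup V]
    [Module (ZMod (p ^ c)) V] [Module.Free (ZMod (p ^ c)) V] [Module.Finite (ZMod (p ^ c)) V]
    {ρ : G →* Module.End (ZMod (p ^ c)) V}
    (hT : ∀ i, ∀ g ∈ lev i, ∃ X : Module.End (ZMod (p ^ c)) V,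
      ρ g = 1 + ((p : ZMod (p ^ c)) ^ (i + 1)) • X) :
    ∃ (B : Type) (_ : CommRing B) (_ : Algebra (ZMod (p ^ c)) B),
      Module.Free (ZMod (p ^ c)) B ∧ Module.Finite (ZMod (p ^ c)) B ∧ Nontrivial B ∧
      ∃ κ : Aff ρ →* Module.End (ZMod (p ^ c)) B,
        (∀ i, ∀ x ∈ levA p c lev ρ i, ∃ P : Module.End (ZMod (p ^ c)) B,
          κ x = 1 + ((p : ZMod (p ^ c)) ^ (i + 1)) • P) ∧
        (∀ i, ∀ x ∈ levA p c lev ρ i, x.g ∈ lev (i + 1) → x ∉ levA p c lev ρ (i + 1) →
          ∃ P : Module.End (ZMod (p ^ c)) B,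
          κ x = 1 + ((p : ZMod (p ^ c)) ^ (i + 1)) • P ∧ IsUnit (P ^ p ^ k - P)) := by
  classical
  have hntR : Nontrivial (ZMod (p ^ c)) :=
    ZMod.nontrivial_iff.2 (Nat.one_lt_pow hc.ne' hpf.out.one_lt).ne'
  let r := Module.finrank (ZMod (p ^ c)) V
  let bV : Module.Basis (Fin r) (ZMod (p ^ c)) V := Module.finBasis (ZMod (p ^ c)) V
  obtain ⟨B, iB, iA, y, hfree, hfin, hnt, huniv, hadj, hunit⟩ := exists_K p c k r hc hk
  refine ⟨B, iB, iA, hfree, hfin, hnt, ?_⟩
  let η : V →ₗ[ZMod (p ^ c)] B := bV.constr (ZMod (p ^ c)) (fun j => y j)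
  have hηb : ∀ j : Fin r, η (bV j) = y j := fun j => bV.constr_basis _ _ j
  have hηcomb : ∀ v : V, η v = comb r y (fun j => if h : j < r then bV.repr v ⟨j, h⟩ else 0) := by
    intro v
    unfold comb
    have e : η v = ∑ j, bV.equivFun v j • y j := bV.constr_apply_fintype (ZMod (p ^ c)) _ v
    rw [Finset.sum_range, e]
    refine Finset.sum_congr rfl fun j _ => ?_
    simp only [Fin.is_lt, dite_true, Fin.eta]
    rfl
  -- automorphisms
  have hφex : ∀ g : G, ∃ φ : B →ₐ[ZMod (p ^ c)] B, ∀ j : Fin r, φ (y j) = η (ρ g (bV j)) := by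
    intro g
    obtain ⟨X, hX⟩ := hT 0 g (by rw [h0]; trivial)
    obtain ⟨φ, hφ⟩ := huniv (fun j => if h : j < r then η (ρ g (bV ⟨j, h⟩)) else 0) (by
      intro j hj
      refine ⟨η (X (bV ⟨j, hj⟩)), ?_⟩
      simp only [dif_pos hj]
      rw [hX, zero_add, pow_one]
      simp only [LinearMap.add_apply, Module.End.one_apply, LinearMap.smul_apply, map_add, map_smul]
      rw [hηb])
    refine ⟨φ, fun j => ?_⟩
    rw [hφ j j.2, dif_pos j.2]
  choose φ hφ using hφex
  have hφη : ∀ g v, φ g (η v) = η (ρ g v) := by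
    intro g v
    have h1 : (φ g).toLinearMap ∘ₗ η = η ∘ₗ (ρ g) := by
      apply bV.ext
      intro j
      simp only [LinearMap.comp_apply, AlgHom.toLinearMap_apply]
      rw [hηb, hφ]
    exact LinearMap.congr_fun h1 v
  have hφmul : ∀ g h, φ (g * h) = (φ g).comp (φ h) := by
    intro g h
    apply AlgHom.ext_of_adjoin_eq_top hadj
    rintro _ ⟨j, hj, rfl⟩
    have hj' : j < r := hj
    have e := hφ (g * h) ⟨j, hj'⟩
    have e2 := hφ h ⟨j, hj'⟩
    simp only at e e2
    rw [AlgHom.comp_apply, e, e2, hφη, map_mul]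
    rfl
  have hφone : φ 1 = AlgHom.id (ZMod (p ^ c)) B := by
    apply AlgHom.ext_of_adjoin_eq_top hadj
    rintro _ ⟨j, hj, rfl⟩
    have hj' : j < r := hj
    have e := hφ 1 ⟨j, hj'⟩
    simp only at e
    rw [e, map_one, Module.End.one_apply, hηb, AlgHom.id_apply]
  -- congruence of the automorphisms
  have hφcong : ∀ i, ∀ g ∈ lev i, ∃ Z : Module.End (ZMod (p ^ c)) B,
      (φ g).toLinearMap = 1 + ((p : ZMod (p ^ c)) ^ (i + 1)) • Z := by
    intro i g hg
    obtain ⟨X, hX⟩ := hT i g hg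
    have h1 : ∀ x : B, ∃ w, φ g x = x + ((p : ZMod (p ^ c)) ^ (i + 1)) • w := by
      intro x
      have hx : x ∈ Algebra.adjoin (ZMod (p ^ c)) (y '' {j | j < r}) := by rw [hadj]; trivial
      induction hx using Algebra.adjoin_induction with
      | mem x hx =>
        obtain ⟨j, hj, rfl⟩ := hx
        have hj' : j < r := hj
        refine ⟨η (X (bV ⟨j, hj'⟩)), ?_⟩
        have e := hφ g ⟨j, hj'⟩
        simp only at e
        rw [e, hX]
        simp only [LinearMap.add_apply, Module.End.one_apply, LinearMap.smul_apply, map_add, map_smul]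
        rw [hηb]
      | algebraMap x => exact ⟨0, by simp⟩
      | add x x' _ _ hx hx' =>
        obtain ⟨w, hw⟩ := hx
        obtain ⟨w', hw'⟩ := hx'
        refine ⟨w + w', ?_⟩
        rw [map_add, hw, hw', smul_add]
        abel
      | mul x x' _ _ hx hx' =>
        obtain ⟨w, hw⟩ := hx
        obtain ⟨w', hw'⟩ := hx'
        refine ⟨x * w' + w * x' + ((p : ZMod (p ^ c)) ^ (i + 1)) • (w * w'), ?_⟩
        rw [map_mul, hw, hw']
        simp only [add_mul, mul_add, smul_add, smul_mul_assoc, mul_smul_comm]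
        abel
    obtain ⟨Z, hZ⟩ := exists_factor ((φ g).toLinearMap - 1) ((p : ZMod (p ^ c)) ^ (i + 1)) (by
      intro x
      obtain ⟨w, hw⟩ := h1 x
      refine ⟨w, ?_⟩
      rw [LinearMap.sub_apply, AlgHom.toLinearMap_apply, hw, Module.End.one_apply, add_sub_cancel_left])
    exact ⟨Z, by rw [← hZ]; abel⟩
  -- the action
  let κ : Aff ρ →* Module.End (ZMod (p ^ c)) B :=
    { toFun := fun x => Algebra.lmul (ZMod (p ^ c)) B (ex p c (η x.a)) * (φ x.g).toLinearMap
      map_one' := by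
        rw [Aff.one_a, Aff.one_g, map_zero, ex_zero hc, map_one, hφone]
        rfl
      map_mul' := fun x x' => by
        apply LinearMap.ext
        intro b
        rw [Aff.mul_a, Aff.mul_g, map_add, ex_add h3 hc, ← hφη, ← ex_map, hφmul]
        simp only [Module.End.mul_apply, Algebra.coe_lmul_eq_mul, LinearMap.mul_apply', AlgHom.toLinearMap_apply,
          AlgHom.comp_apply, map_mul, mul_assoc] }
  have hκ : ∀ x : Aff ρ, κ x = Algebra.lmul (ZMod (p ^ c)) B (ex p c (η x.a)) * (φ x.g).toLinearMap :=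
    fun x => rfl
  refine ⟨κ, ?_, ?_⟩
  · intro i x hx
    obtain ⟨b, hb⟩ := mem_pV.1 hx.1
    obtain ⟨z, hz⟩ := ex_level h3 hc i (η b)
    obtain ⟨Z, hZ⟩ := hφcong i x.g hx.2
    refine ⟨Algebra.lmul (ZMod (p ^ c)) B (η b + (p : ZMod (p ^ c)) • z) + Z +
      ((p : ZMod (p ^ c)) ^ (i + 1)) • (Algebra.lmul (ZMod (p ^ c)) B (η b + (p : ZMod (p ^ c)) • z) * Z), ?_⟩
    rw [hκ, ← hb, map_smul, hz, hZ]
    simp only [map_add, map_one, map_smul]
    simp only [add_mul, mul_add, one_mul, mul_one, smul_add, smul_mul_assoc, mul_smul_comm]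
    abel
  · intro i x hx hxg hxn
    obtain ⟨b, hb⟩ := mem_pV.1 hx.1
    obtain ⟨z, hz⟩ := ex_level h3 hc i (η b)
    obtain ⟨Z, hZ⟩ := hφcong (i + 1) x.g hxg
    have hbn : ∃ j < r, ¬ (p ∣ ((fun j => if h : j < r then bV.repr b ⟨j, h⟩ else 0 : ℕ → ZMod (p ^ c)) j).val) := by
      by_contra hcon
      push Not at hcon
      apply hxn
      refine mem_levA.2 ⟨?_, hxg⟩
      have hnz : NeZero (p ^ c) := ⟨(Nat.pow_pos hpf.out.pos).ne'⟩
      have hdiv : ∀ j : Fin r, ∃ s : ZMod (p ^ c), bV.repr b j = (p : ZMod (p ^ c)) * s := by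
        intro j
        have h4 := hcon j j.2
        simp only [dif_pos j.2] at h4
        obtain ⟨s, hs⟩ := h4
        refine ⟨(s : ZMod (p ^ c)), ?_⟩
        rw [← ZMod.natCast_zmod_val (bV.repr b j)]
        have h5 : (bV.repr b ⟨j, j.2⟩).val = p * s := hs
        simp only [Fin.eta] at h5
        rw [h5]
        push_cast
        rfl
      choose s hs using hdiv
      refine mem_pV.2 ⟨∑ j, s j • bV j, ?_⟩
      rw [← hb]
      conv_rhs => rw [← bV.sum_repr b]
      rw [Finset.smul_sum, Finset.smul_sum]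
      refine Finset.sum_congr rfl fun j _ => ?_
      rw [hs, smul_smul, smul_smul, pow_succ, mul_assoc]
    have hu := hunit _ hbn
    rw [← hηcomb] at hu
    have hu' : IsUnit ((Algebra.lmul (ZMod (p ^ c)) B (η b)) ^ p ^ k - Algebra.lmul (ZMod (p ^ c)) B (η b)) := by
      rw [← map_pow, ← map_sub]
      exact hu.map _
    refine ⟨Algebra.lmul (ZMod (p ^ c)) B (η b) + (p : ZMod (p ^ c)) •
      (Algebra.lmul (ZMod (p ^ c)) B z + Z +
      ((p : ZMod (p ^ c)) ^ (i + 1)) • (Algebra.lmul (ZMod (p ^ c)) B (η b + (p : ZMod (p ^ c)) • z) * Z)), ?_,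
      unit_pow_sub_add_p hu' _⟩
    rw [hκ, ← hb, map_smul, hz, hZ, pow_succ _ (i + 1), mul_comm _ (p : ZMod (p ^ c)), mul_smul]
    simp only [map_add, map_one, map_smul]
    simp only [add_mul, mul_add, one_mul, mul_one, smul_add, smul_mul_assoc, mul_smul_comm]
    simp only [smul_comm (p : ZMod (p ^ c)) ((p : ZMod (p ^ c)) ^ (i + 1))]
    abel

end Pool.Agent.Helper476.NM
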