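import Pool.Agent.Helper476.NM8

set_option autoImplicit false

namespace Pool.Agent.Helper476.NM

/-- The group has congruence modules of every order. -/
def HTF (p c : ℕ) {G : Type} [Group G] (lev : ℕ → Subgroup G) : Prop :=
  ∀ k, 0 < k → ∃ (V : Type) (_ : AddCommGroup V) (_ : Module (ZMod (p ^ c)) V)
    (ρ : G →* Module.End (ZMod (p ^ c)) V), Module.Free (ZMod (p ^ c)) V ∧ Module.Finite (ZMod (p ^ c)) V ∧
    Nontrivial V ∧ TF p c k lev ρ

theorem tf_step {p c : ℕ} [hpf : Fact p.Prime] (h3 : 3 ≤ p) (hc : 0 < c) {G : Type}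
    [Group G] {lev : ℕ → Subgroup G} (h0 : lev 0 = ⊤) {V : Type} [AddCommGroup V]
    [Module (ZMod (p ^ c)) V] [Module.Free (ZMod (p ^ c)) V] [Module.Finite (ZMod (p ^ c)) V]
    {ρ : G →* Module.End (ZMod (p ^ c)) V}
    (hT : ∀ i, ∀ g ∈ lev i, ∃ X : Module.End (ZMod (p ^ c)) V,
      ρ g = 1 + ((p : ZMod (p ^ c)) ^ (i + 1)) • X) (hH : HTF p c lev) :
    HTF p c (levA p c lev ρ) := by
  classical
  intro k hk
  have hnz : NeZero (p ^ c) := ⟨(Nat.pow_pos hpf.out.pos).ne'⟩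
  have hntR : Nontrivial (ZMod (p ^ c)) :=
    ZMod.nontrivial_iff.2 (Nat.one_lt_pow hc.ne' hpf.out.one_lt).ne'
  obtain ⟨B, iB, iA, hfree, hfin, hnt, κ, hκ1, hκ2⟩ := exists_Kact (k := k) h3 hc hk h0 hT
  have hBfin : Finite B := Module.finite_of_finite (ZMod (p ^ c))
  have hEfin : Finite (Module.End (ZMod (p ^ c)) B) :=
    Finite.of_injective (fun f : Module.End (ZMod (p ^ c)) B => (f : B → B)) DFunLike.coe_injective
  obtain ⟨L, hL, hkL, hnil⟩ := exists_nilp_all p c (S := Module.End (ZMod (p ^ c)) B) hpf.out k hk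
  obtain ⟨W, iW, iWm, τ, hWfree, hWfin, hWnt, hW1, hW2⟩ := hH L hL
  let Lt := Module.End.rTensorAlgHom (ZMod (p ^ c)) B W
  let Rt := Module.End.lTensorAlgHom (ZMod (p ^ c)) W B
  have hLR : ∀ (f : Module.End (ZMod (p ^ c)) B) (g : Module.End (ZMod (p ^ c)) W),
      Lt f * Rt g = TensorProduct.map f g := fun f g => LinearMap.rTensor_comp_lTensor B f g
  have hRL : ∀ (f : Module.End (ZMod (p ^ c)) B) (g : Module.End (ZMod (p ^ c)) W),
      Rt g * Lt f = TensorProduct.map f g := fun f g => LinearMap.lTensor_comp_rTensor B f g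
  have hcomm : ∀ (f : Module.End (ZMod (p ^ c)) B) (g : Module.End (ZMod (p ^ c)) W),
      Commute (Lt f) (Rt g) := fun f g => by
    change _ * _ = _ * _
    rw [hLR, hRL]
  let σ : Aff ρ →* Module.End (ZMod (p ^ c)) (TensorProduct (ZMod (p ^ c)) B W) :=
    { toFun := fun x => TensorProduct.map (κ x) (τ x.g)
      map_one' := by
        rw [Aff.one_g, map_one, map_one]
        exact TensorProduct.map_one
      map_mul' := fun x y => by
        rw [Aff.mul_g, map_mul, map_mul]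
        exact TensorProduct.map_mul _ _ _ _ }
  have hσ : ∀ x : Aff ρ, σ x = Lt (κ x) * Rt (τ x.g) := fun x => (hLR _ _).symm
  have hexp : ∀ (x : Aff ρ) (t : ZMod (p ^ c)) (P : Module.End (ZMod (p ^ c)) B)
      (X : Module.End (ZMod (p ^ c)) W), κ x = 1 + t • P → τ x.g = 1 + t • X →
      σ x = 1 + t • (Lt P + Rt X + t • (Lt P * Rt X)) := by
    intro x t P X h1 h2
    rw [hσ, h1, h2, map_add, map_add, map_one, map_one, map_smul, map_smul]
    simp only [add_mul, mul_add, one_mul, mul_one, smul_add, smul_mul_assoc, mul_smul_comm]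
    abel
  refine ⟨TensorProduct (ZMod (p ^ c)) B W, inferInstance, inferInstance, σ, inferInstance, inferInstance,
    inferInstance, ?_, ?_⟩
  · intro i x hx
    obtain ⟨P, hP⟩ := hκ1 i x hx
    obtain ⟨X, hX⟩ := hW1 i x.g hx.2
    exact ⟨_, hexp x _ P X hP hX⟩
  · intro i hi x hx hxn
    by_cases hg : x.g ∈ lev (i + 1)
    · obtain ⟨P, hP, hPu⟩ := hκ2 i x hx hg hxn
      obtain ⟨X, hX⟩ := hW1 (i + 1) x.g hg
      have hX' : τ x.g = 1 + ((p : ZMod (p ^ c)) ^ (i + 1)) • ((p : ZMod (p ^ c)) • X) := by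
        rw [hX, smul_smul, pow_succ _ (i + 1)]
      refine ⟨_, hexp x _ P _ hP hX', ?_⟩
      have e : Lt P + Rt ((p : ZMod (p ^ c)) • X) + ((p : ZMod (p ^ c)) ^ (i + 1)) • (Lt P * Rt ((p : ZMod (p ^ c)) • X)) =
          Lt P + (p : ZMod (p ^ c)) • (Rt X + ((p : ZMod (p ^ c)) ^ (i + 1)) • (Lt P * Rt X)) := by
        rw [map_smul, mul_smul_comm, smul_add, add_assoc]
        congr 2
        rw [smul_comm]
      rw [e]
      apply unit_pow_sub_add_p
      rw [← map_pow, ← map_sub]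
      exact hPu.map _
    · obtain ⟨P, hP⟩ := hκ1 i x hx
      obtain ⟨X, hX, hXu⟩ := hW2 i hi x.g hx.2 hg
      refine ⟨_, hexp x _ P _ hP hX, ?_⟩
      have e : Lt P + Rt X + ((p : ZMod (p ^ c)) ^ (i + 1)) • (Lt P * Rt X) =
          (Lt P + Rt X) + (p : ZMod (p ^ c)) • (((p : ZMod (p ^ c)) ^ i) • (Lt P * Rt X)) := by
        rw [smul_smul, ← pow_succ']
      rw [e]
      apply unit_pow_sub _ hpf.out.pos hkL
      apply unit_pow_sub_add_p
      apply unit_sum p c (hcomm P X) hpf.out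
      · rw [← map_pow, ← map_sub]
        exact (hnil P).map _
      · rw [← map_pow, ← map_sub]
        exact hXu.map _

end Pool.Agent.Helper476.NM
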