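import Mathlib

set_option autoImplicit false
set_option linter.style.haveILetI false

namespace Pool.Agent.Helper476.R

open Subgroup

/-- `NL k G`: the group `G` lies in the `k`-th power of the class of nilpotent groups,
i.e. it has a normal nilpotent subgroup `M` such that `G ⧸ M` lies in the `(k-1)`-st power;
the zeroth power is the class of trivial groups. -/
def NL : ℕ → ∀ (G : Type) [Group G], Prop
  | 0 => fun G _ => ∀ g : G, g = 1
  | k + 1 => fun G _ => ∃ (M : Subgroup G) (_ : M.Normal), Group.IsNilpotent M ∧ NL k (G ⧸ M)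

theorem nil_of_inj {X Y : Type*} [Group X] [Group Y] (f : X →* Y) (hf : Function.Injective f)
    (h : Group.IsNilpotent Y) : Group.IsNilpotent X :=
  (Group.isNilpotent_congr (MonoidHom.ofInjective hf)).2 inferInstance

theorem nil_map {X Y : Type*} [Group X] [Group Y] (f : X →* Y) (M : Subgroup X)
    (h : Group.IsNilpotent M) : Group.IsNilpotent (M.map f) :=
  Group.nilpotent_of_surjective (f.subgroupMap M) (f.subgroupMap_surjective M)

theorem nil_of_le {X : Type*} [Group X] {A B : Subgroup X} (h : A ≤ B)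
    (hB : Group.IsNilpotent B) : Group.IsNilpotent A :=
  nil_of_inj (Subgroup.inclusion h) (Subgroup.inclusion_injective h) hB

theorem nl_surj : ∀ (k : ℕ) (G H : Type) [Group G] [Group H] (f : G →* H),
    Function.Surjective f → NL k G → NL k H
  | 0, G, H, _, _, f, hf, h => by
    intro x
    obtain ⟨g, rfl⟩ := hf x
    rw [h g, map_one]
  | k + 1, G, H, _, _, f, hf, h => by
    obtain ⟨M, hM, hn, hq⟩ := h
    have hM' : (M.map f).Normal := hM.map f hf
    refine ⟨M.map f, hM', nil_map f M hn, ?_⟩
    refine nl_surj k (G ⧸ M) (H ⧸ M.map f)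
      (QuotientGroup.map M (M.map f) f (Subgroup.le_comap_map f M)) ?_ hq
    intro x
    obtain ⟨y, rfl⟩ := QuotientGroup.mk_surjective x
    obtain ⟨g, rfl⟩ := hf y
    exact ⟨(g : G ⧸ M), rfl⟩

theorem nl_equiv (k : ℕ) (G H : Type) [Group G] [Group H] (e : G ≃* H) (h : NL k G) : NL k H :=
  nl_surj k G H e.toMonoidHom e.surjective h

theorem nl_ext (k : ℕ) (G H : Type) [Group G] [Group H] (f : G →* H)
    (hf : Function.Surjective f) (hk : Group.IsNilpotent f.ker) (h : NL k H) : NL (k + 1) G :=
  ⟨f.ker, inferInstance, hk,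
    nl_equiv k _ _ (QuotientGroup.quotientKerEquivOfSurjective f hf).symm h⟩

theorem nl_cext (k : ℕ) (G H : Type) [Group G] [Group H] (f : G →* H)
    (hf : Function.Surjective f) (hk : f.ker ≤ center G) (h : NL (k + 1) H) : NL (k + 1) G := by
  obtain ⟨M, hM, hn, hq⟩ := h
  refine ⟨M.comap f, inferInstance, ?_, ?_⟩
  · have : Group.IsNilpotent M := hn
    refine Subgroup.isNilpotent_of_ker_le_center (f.subgroupComap M) ?_
    intro x hx
    rw [Subgroup.mem_center_iff]
    intro y
    have h1 : (x : G) ∈ f.ker := by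
      rw [MonoidHom.mem_ker] at hx ⊢
      exact congrArg Subtype.val hx
    exact Subtype.ext ((Subgroup.mem_center_iff.1 (hk h1)) y)
  · refine nl_equiv k (H ⧸ M) (G ⧸ M.comap f)
      (MulEquiv.ofBijective (QuotientGroup.map (M.comap f) M f le_rfl) ⟨?_, ?_⟩).symm hq
    · rw [← MonoidHom.ker_eq_bot_iff, eq_bot_iff]
      intro x hx
      obtain ⟨g, rfl⟩ := QuotientGroup.mk_surjective x
      have h1 : ((f g : H) : H ⧸ M) = 1 := hx
      rw [QuotientGroup.eq_one_iff] at h1
      exact (QuotientGroup.eq_one_iff g).2 h1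
    · intro x
      obtain ⟨y, rfl⟩ := QuotientGroup.mk_surjective x
      obtain ⟨g, rfl⟩ := hf y
      exact ⟨(g : G ⧸ M.comap f), rfl⟩

theorem nl_mono_one : ∀ (k : ℕ) (G : Type) [Group G], NL k G → NL (k + 1) G
  | 0, G, _, h => by
    refine ⟨⊥, inferInstance, inferInstance, ?_⟩
    intro x
    obtain ⟨y, rfl⟩ := QuotientGroup.mk_surjective x
    rw [h y]; rfl
  | k + 1, G, _, h => by
    obtain ⟨M, hM, hn, hq⟩ := h
    exact ⟨M, hM, hn, nl_mono_one k _ hq⟩

theorem nl_mono {k l : ℕ} (hkl : k ≤ l) (G : Type) [Group G] (h : NL k G) : NL l G := by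
  induction hkl with
  | refl => exact h
  | step _ ih => exact nl_mono_one _ G ih

theorem nl_one {G : Type} [Group G] (h : NL 1 G) : Group.IsNilpotent G := by
  obtain ⟨M, hM, hn, hq⟩ := h
  have : M = ⊤ := by
    rw [eq_top_iff]
    intro x _
    have := hq (x : G ⧸ M)
    exact (QuotientGroup.eq_one_iff x).1 this
  subst this
  exact Group.isNilpotent_top.1 hn

theorem nl_one_of {G : Type} [Group G] (h : Group.IsNilpotent G) : NL 1 G := by
  refine ⟨⊤, inferInstance, Group.isNilpotent_top.2 h, ?_⟩
  intro x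
  obtain ⟨y, rfl⟩ := QuotientGroup.mk_surjective x
  exact (QuotientGroup.eq_one_iff y).2 trivial

theorem nl_of_derived : ∀ (n : ℕ) (G : Type) [Group G], derivedSeries G n = ⊥ → NL n G
  | 0, G, _, h => by
    intro g
    have : g ∈ derivedSeries G 0 := by rw [derivedSeries_zero]; trivial
    rw [h] at this
    exact this
  | n + 1, G, _, h => by
    have hc : Group.IsNilpotent (derivedSeries G n) := by
      rw [derivedSeries_succ] at h
      rw [Subgroup.isNilpotent_iff_lowerCentralSeries]
      exact ⟨1, h⟩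
    refine ⟨derivedSeries G n, inferInstance, hc, nl_of_derived n _ ?_⟩
    rw [← map_derivedSeries_eq (QuotientGroup.mk'_surjective (derivedSeries G n))]
    rw [Subgroup.map_eq_bot_iff, QuotientGroup.ker_mk']

theorem nl_of_solvable (G : Type) [Group G] (h : Group.IsSolvable G) : ∃ n, NL n G := by
  obtain ⟨n, hn⟩ := h.solvable
  exact ⟨n, nl_of_derived n G hn⟩

end Pool.Agent.Helper476.R
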