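import Pool.Agent.Helper476.R1

set_option autoImplicit false
set_option linter.style.haveILetI false

namespace Pool.Agent.Helper476.R

open Subgroup
open scoped commutatorElement

/-- The centraliser in `G` of the factor `R/S`. -/
def fcent {G : Type} [Group G] (R S : Subgroup G) [hR : R.Normal] [hS : S.Normal] :
    Subgroup G where
  carrier := {g | ∀ r ∈ R, g * r * g⁻¹ * r⁻¹ ∈ S}
  one_mem' := by
    intro r _
    simp
  mul_mem' := by
    intro a b ha hb r hr
    have h1 := hb r hr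
    have h2 := ha (b * r * b⁻¹) (hR.conj_mem r hr b)
    have h3 : a * b * r * (a * b)⁻¹ * r⁻¹
        = (a * (b * r * b⁻¹) * a⁻¹ * (b * r * b⁻¹)⁻¹) * (b * r * b⁻¹ * r⁻¹) := by group
    rw [h3]
    exact S.mul_mem h2 h1
  inv_mem' := by
    intro a ha r hr
    have h1 := ha (a⁻¹ * r * a⁻¹⁻¹) (hR.conj_mem r hr a⁻¹)
    have h2 : a⁻¹ * r * a⁻¹⁻¹ * r⁻¹ = (a * (a⁻¹ * r * a⁻¹⁻¹) * a⁻¹ * (a⁻¹ * r * a⁻¹⁻¹)⁻¹)⁻¹ := by
      group
    rw [h2]
    exact S.inv_mem h1

theorem mem_fcent {G : Type} [Group G] {R S : Subgroup G} [R.Normal] [S.Normal] {g : G} :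
    g ∈ fcent R S ↔ ∀ r ∈ R, g * r * g⁻¹ * r⁻¹ ∈ S := Iff.rfl

instance fcent_normal {G : Type} [Group G] (R S : Subgroup G) [hR : R.Normal] [hS : S.Normal] :
    (fcent R S).Normal := by
  constructor
  intro n hn g r hr
  have h1 := hn (g⁻¹ * r * g⁻¹⁻¹) (hR.conj_mem r hr g⁻¹)
  have h2 := hS.conj_mem _ h1 g
  have h3 : g * n * g⁻¹ * r * (g * n * g⁻¹)⁻¹ * r⁻¹
      = g * (n * (g⁻¹ * r * g⁻¹⁻¹) * n⁻¹ * (g⁻¹ * r * g⁻¹⁻¹)⁻¹) * g⁻¹ := by group
  rw [h3]
  exact h2

/-- `R/S` is a chief factor of `G`. -/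
structure IsChief {G : Type} [Group G] (R S : Subgroup G) : Prop where
  norR : R.Normal
  norS : S.Normal
  lt : S < R
  min : ∀ T : Subgroup G, T.Normal → S ≤ T → T ≤ R → T = S ∨ T = R

theorem map_mk_eq_bot {G : Type} [Group G] {S A : Subgroup G} [S.Normal]
    (h : A.map (QuotientGroup.mk' S) = ⊥) : A ≤ S := by
  rw [Subgroup.map_eq_bot_iff, QuotientGroup.ker_mk'] at h
  exact h

theorem nil_cent_chief {G : Type} [Group G] (N R S : Subgroup G) [N.Normal]
    (hN : Group.IsNilpotent N) (h : IsChief R S) : ∀ n ∈ N, ∀ r ∈ R, ⁅r, n⁆ ∈ S := by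
  have := h.norR
  have := h.norS
  have hB : (⁅R, N⁆ ⊔ S).Normal := inferInstance
  have hle : ⁅R, N⁆ ⊔ S ≤ R := sup_le (Subgroup.commutator_le_left R N) h.lt.le
  rcases h.min _ hB le_sup_right hle with h1 | h1
  · intro n hn r hr
    rw [← h1]
    exact (le_sup_left : ⁅R, N⁆ ≤ _) (Subgroup.commutator_mem_commutator hr hn)
  · exfalso
    let f := QuotientGroup.mk' S
    have h2 : R.map f = ⁅R.map f, N.map f⁆ := by
      rw [← Subgroup.map_commutator]
      conv_lhs => rw [← h1]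
      rw [Subgroup.map_sup]
      have : S.map f = ⊥ := by
        rw [Subgroup.map_eq_bot_iff, QuotientGroup.ker_mk']
      rw [this, sup_bot_eq]
    have hNn : (N.map f).Normal := Subgroup.Normal.map inferInstance f (QuotientGroup.mk'_surjective S)
    have h3 : ∀ k, R.map f ≤ (N.map f).lowerCentralSeries k := by
      intro k
      induction k with
      | zero =>
        rw [h2]
        exact Subgroup.commutator_le_right _ _
      | succ k ih =>
        rw [h2]
        exact Subgroup.commutator_mono ih le_rfl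
    obtain ⟨k, hk⟩ := Subgroup.isNilpotent_iff_lowerCentralSeries _ |>.1 (nil_map f N hN)
    have h4 := h3 k
    rw [hk, le_bot_iff] at h4
    exact absurd (map_mk_eq_bot h4) (not_le_of_gt h.lt)

theorem chief_comm {G : Type} [Group G] (hs : Group.IsSolvable G) {R S : Subgroup G}
    (h : IsChief R S) : ∀ a ∈ R, ∀ b ∈ R, ⁅a, b⁆ ∈ S := by
  have := h.norR
  have := h.norS
  have hB : (⁅R, R⁆ ⊔ S).Normal := inferInstance
  have hle : ⁅R, R⁆ ⊔ S ≤ R := sup_le (Subgroup.commutator_le_left R R) h.lt.le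
  rcases h.min _ hB le_sup_right hle with h1 | h1
  · intro n hn r hr
    rw [← h1]
    exact (le_sup_left : ⁅R, R⁆ ≤ _) (Subgroup.commutator_mem_commutator hn hr)
  · exfalso
    let f := QuotientGroup.mk' S
    have h2 : R.map f = ⁅R.map f, R.map f⁆ := by
      rw [← Subgroup.map_commutator]
      conv_lhs => rw [← h1]
      rw [Subgroup.map_sup]
      have : S.map f = ⊥ := by
        rw [Subgroup.map_eq_bot_iff, QuotientGroup.ker_mk']
      rw [this, sup_bot_eq]
    have h3 : ∀ k, R.map f ≤ derivedSeries (G ⧸ S) k := by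
      intro k
      induction k with
      | zero => exact le_top
      | succ k ih =>
        rw [h2]
        exact Subgroup.commutator_mono ih ih
    have : Group.IsSolvable (G ⧸ S) := inferInstance
    obtain ⟨k, hk⟩ := this.solvable
    have h4 := h3 k
    rw [hk, le_bot_iff] at h4
    exact absurd (map_mk_eq_bot h4) (not_le_of_gt h.lt)

theorem chief_pow {G : Type} [Group G] [Finite G] {R S : Subgroup G}
    (h : IsChief R S) (hc : ∀ a ∈ R, ∀ b ∈ R, ⁅a, b⁆ ∈ S) (p : ℕ) (hp : p.Prime)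
    (hd : p ∣ S.relIndex R) : ∀ r ∈ R, r ^ p ∈ S := by
  have := h.norR
  have := h.norS
  let f := QuotientGroup.mk' S
  have hf : ∀ x, f x = 1 ↔ x ∈ S := fun x => QuotientGroup.eq_one_iff x
  have hcf : ∀ a ∈ R, ∀ b ∈ R, Commute (f a) (f b) := by
    intro a ha b hb
    rw [commute_iff_eq, ← commutatorElement_eq_one_iff_mul_comm, ← map_commutatorElement, hf]
    exact hc a ha b hb
  let B : Subgroup G :=
    { carrier := {r | r ∈ R ∧ r ^ p ∈ S}
      one_mem' := ⟨R.one_mem, by rw [one_pow]; exact S.one_mem⟩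
      mul_mem' := by
        rintro a b ⟨ha, ha'⟩ ⟨hb, hb'⟩
        refine ⟨R.mul_mem ha hb, ?_⟩
        rw [← hf, map_pow, map_mul, (hcf a ha b hb).mul_pow, ← map_pow, ← map_pow,
          (hf _).2 ha', (hf _).2 hb', mul_one]
      inv_mem' := by
        rintro a ⟨ha, ha'⟩
        refine ⟨R.inv_mem ha, ?_⟩
        rw [inv_pow]
        exact S.inv_mem ha' }
  have hB : B.Normal := by
    constructor
    rintro n ⟨hn, hn'⟩ g
    refine ⟨Normal.conj_mem inferInstance n hn g, ?_⟩
    rw [conj_pow]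
    exact Normal.conj_mem inferInstance _ hn' g
  have hSB : S ≤ B := fun s hs => ⟨h.lt.le hs, S.pow_mem hs p⟩
  have hBR : B ≤ R := fun s hs => hs.1
  rcases h.min B hB hSB hBR with h1 | h1
  · exfalso
    have : Fact p.Prime := ⟨hp⟩
    obtain ⟨x, hx⟩ := exists_prime_orderOf_dvd_card' (G := R ⧸ S.subgroupOf R) p hd
    obtain ⟨r, rfl⟩ := QuotientGroup.mk_surjective x
    have h2 : ((r ^ p : R) : R ⧸ S.subgroupOf R) = 1 := by
      have := pow_orderOf_eq_one (r : R ⧸ S.subgroupOf R)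
      rw [hx] at this
      exact this
    rw [QuotientGroup.eq_one_iff, Subgroup.mem_subgroupOf] at h2
    have h3 : (r : G) ∈ B := ⟨r.2, h2⟩
    rw [h1] at h3
    have h4 : (r : R ⧸ S.subgroupOf R) = 1 := by
      rw [QuotientGroup.eq_one_iff, Subgroup.mem_subgroupOf]
      exact h3
    rw [h4, orderOf_one] at hx
    exact hp.one_lt.ne hx
  · intro r hr
    rw [← h1] at hr
    exact hr.2

end Pool.Agent.Helper476.R
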