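import Mathlib

set_option autoImplicit false
set_option linter.style.haveILetI false

namespace Pool.Agent.Helper476.T

open Function Subgroup

/-- closure properties of a formation of finite groups -/
structure Fmn (F : ∀ (G : Type) [Group G], Prop) : Prop where
  one : F Unit
  q : ∀ (G K : Type) [Group G] [Group K] [Finite G] (f : G →* K), Surjective f → F G → F K
  r0 : ∀ (T Q1 Q2 : Type) [Group T] [Group Q1] [Group Q2] [Finite T] (p1 : T →* Q1)
    (p2 : T →* Q2), Surjective p1 → Surjective p2 → (∀ t, p1 t = 1 → p2 t = 1 → t = 1) →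
    F Q1 → F Q2 → F T

/-- saturation -/
def Sat (F : ∀ (G : Type) [Group G], Prop) : Prop :=
  ∀ (G : Type) [Group G] [Finite G], F (G ⧸ frattini G) → F G

section

variable {F : ∀ (G : Type) [Group G], Prop}

theorem Fmn.triv (hF : Fmn F) (G : Type) [Group G] [Subsingleton G] : F G :=
  hF.q Unit G 1 (fun _ => ⟨1, Subsingleton.elim _ _⟩) hF.one

theorem Fmn.quot (hF : Fmn F) {G : Type} [Group G] [Finite G] (N : Subgroup G) [N.Normal]
    (h : F G) : F (G ⧸ N) :=
  hF.q G (G ⧸ N) (QuotientGroup.mk' N) (QuotientGroup.mk'_surjective N) h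

theorem Fmn.iso (hF : Fmn F) {G K : Type} [Group G] [Group K] [Finite G] (e : G ≃* K)
    (h : F G) : F K :=
  hF.q G K e.toMonoidHom e.surjective h

theorem Fmn.r0hom (hF : Fmn F) {T Q1 Q2 G : Type} [Group T] [Group Q1] [Group Q2] [Group G]
    [Finite T] (p1 : T →* Q1) (p2 : T →* Q2) (f : T →* G) (hp1 : Surjective p1)
    (hp2 : Surjective p2) (hf : Surjective f) (h1 : F Q1) (h2 : F Q2)
    (hk : ∀ t, p1 t = 1 → p2 t = 1 → f t = 1) : F G := by
  let N := p1.ker ⊓ p2.ker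
  have h3 : F (T ⧸ N) := by
    refine hF.r0 (T ⧸ N) Q1 Q2 (QuotientGroup.lift N p1 (fun t ht => ht.1))
      (QuotientGroup.lift N p2 (fun t ht => ht.2)) ?_ ?_ ?_ h1 h2
    · intro y
      obtain ⟨x, rfl⟩ := hp1 y
      exact ⟨QuotientGroup.mk x, rfl⟩
    · intro y
      obtain ⟨x, rfl⟩ := hp2 y
      exact ⟨QuotientGroup.mk x, rfl⟩
    · intro t ht1 ht2
      obtain ⟨x, rfl⟩ := QuotientGroup.mk_surjective t
      exact (QuotientGroup.eq_one_iff x).2 ⟨ht1, ht2⟩
  refine hF.q (T ⧸ N) G (QuotientGroup.lift N f (fun t ht => hk t ht.1 ht.2)) ?_ h3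
  intro y
  obtain ⟨x, rfl⟩ := hf y
  exact ⟨QuotientGroup.mk x, rfl⟩

theorem Fmn.inf (hF : Fmn F) {G : Type} [Group G] [Finite G] (M N : Subgroup G) [M.Normal]
    [N.Normal] (hM : F (G ⧸ M)) (hN : F (G ⧸ N)) : F (G ⧸ (M ⊓ N)) :=
  hF.r0hom (QuotientGroup.mk' M) (QuotientGroup.mk' N) (QuotientGroup.mk' (M ⊓ N))
    (QuotientGroup.mk'_surjective M) (QuotientGroup.mk'_surjective N)
    (QuotientGroup.mk'_surjective _) hM hN
    (fun t h1 h2 => (QuotientGroup.eq_one_iff t).2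
      ⟨(QuotientGroup.eq_one_iff t).1 h1, (QuotientGroup.eq_one_iff t).1 h2⟩)

theorem Fmn.mono (hF : Fmn F) {G : Type} [Group G] [Finite G] {M N : Subgroup G} [M.Normal]
    [N.Normal] (hle : M ≤ N) (hM : F (G ⧸ M)) : F (G ⧸ N) :=
  hF.q (G ⧸ M) (G ⧸ N) (QuotientGroup.map M N (MonoidHom.id G) hle) (fun x => by
    obtain ⟨y, rfl⟩ := QuotientGroup.mk_surjective x
    exact ⟨(y : G ⧸ M), rfl⟩) hM

theorem Fmn.ker (hF : Fmn F) {G K : Type} [Group G] [Group K] [Finite G] (f : G →* K)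
    (hf : Surjective f) (h : F K) : F (G ⧸ f.ker) := by
  have : Finite K := Finite.of_surjective f hf
  exact hF.iso (QuotientGroup.quotientKerEquivOfSurjective f hf).symm h

/-- saturation with respect to subgroups of the Frattini subgroup -/
theorem sat_le (hF : Fmn F) (hS : Sat F) {G : Type} [Group G] [Finite G] (N : Subgroup G)
    [N.Normal] (hN : N ≤ frattini G) (h : F (G ⧸ N)) : F G :=
  hS G (hF.mono hN h)

end

/-- the residual -/
def res (H : ∀ (G : Type) [Group G], Prop) (G : Type) [Group G] : Subgroup G :=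
  sInf {N | ∃ _ : N.Normal, H (G ⧸ N)}

instance res_normal (H : ∀ (G : Type) [Group G], Prop) (G : Type) [Group G] :
    (res H G).Normal := by
  constructor
  intro n hn g
  rw [res, Subgroup.mem_sInf] at hn ⊢
  rintro N ⟨hN, hq⟩
  exact hN.conj_mem n (hn N ⟨hN, hq⟩) g

section

variable {H : ∀ (G : Type) [Group G], Prop}

theorem res_le {G : Type} [Group G] (N : Subgroup G) [hN : N.Normal] (h : H (G ⧸ N)) :
    res H G ≤ N :=
  sInf_le ⟨hN, h⟩

theorem res_quot (hH : Fmn H) (G : Type) [Group G] [Finite G] : H (G ⧸ res H G) := by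
  let 𝒩 : Set (Subgroup G) := {N | ∃ _ : N.Normal, H (G ⧸ N)}
  have hne : 𝒩.Nonempty := by
    refine ⟨⊤, inferInstance, ?_⟩
    have : Subsingleton (G ⧸ (⊤ : Subgroup G)) := QuotientGroup.subsingleton_quotient_top
    exact hH.triv _
  obtain ⟨N, ⟨hN, hNH⟩, hmin⟩ := Set.Finite.exists_minimal (Set.toFinite 𝒩) hne
  have h1 : N ≤ res H G := by
    refine le_sInf ?_
    rintro M ⟨hM, hMH⟩
    have h2 : N ⊓ M ∈ 𝒩 := ⟨inferInstance, hH.inf N M hNH hMH⟩
    exact (hmin h2 inf_le_left).trans inf_le_right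
  exact hH.mono h1 hNH

theorem res_le_ker (hH : Fmn H) {G K : Type} [Group G] [Group K] [Finite G] (f : G →* K)
    (hf : Surjective f) (h : H K) : res H G ≤ f.ker :=
  res_le f.ker (hH.ker f hf h)

theorem res_map (hH : Fmn H) {G K : Type} [Group G] [Group K] [Finite G] (f : G →* K)
    (hf : Surjective f) : (res H G).map f = res H K := by
  have : Finite K := Finite.of_surjective f hf
  apply le_antisymm
  · rw [Subgroup.map_le_iff_le_comap]
    have h1 := res_le_ker hH ((QuotientGroup.mk' (res H K)).comp f)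
      ((QuotientGroup.mk'_surjective _).comp hf) (res_quot hH K)
    intro x hx
    have h2 := h1 hx
    exact (QuotientGroup.eq_one_iff (f x)).1 h2
  · have hn : ((res H G).map f).Normal := Subgroup.Normal.map inferInstance f hf
    refine res_le _ ?_
    refine hH.q (G ⧸ res H G) _ (QuotientGroup.map _ _ f (Subgroup.le_comap_map f _)) ?_
      (res_quot hH G)
    intro x
    obtain ⟨y, rfl⟩ := QuotientGroup.mk_surjective x
    obtain ⟨g, rfl⟩ := hf y
    exact ⟨(g : G ⧸ res H G), rfl⟩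

theorem res_mem (hH : Fmn H) {G K : Type} [Group G] [Group K] [Finite G] (f : G →* K)
    (hf : Surjective f) {x : G} (hx : x ∈ res H G) : f x ∈ res H K := by
  rw [← res_map hH f hf]
  exact ⟨x, hx, rfl⟩

theorem res_lift (hH : Fmn H) {G K : Type} [Group G] [Group K] [Finite G] (f : G →* K)
    (hf : Surjective f) {y : K} (hy : y ∈ res H K) : ∃ x ∈ res H G, f x = y := by
  rw [← res_map hH f hf] at hy
  exact hy

theorem res_eq_bot (hH : Fmn H) {G : Type} [Group G] [Finite G] (h : H G) : res H G = ⊥ := by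
  rw [eq_bot_iff]
  refine res_le ⊥ ?_
  exact hH.iso QuotientGroup.quotientBot.symm h

theorem of_res_eq_bot (hH : Fmn H) {G : Type} [Group G] [Finite G] (h : res H G = ⊥) : H G := by
  have h1 := res_quot hH G
  refine hH.q (G ⧸ res H G) G (QuotientGroup.lift _ (MonoidHom.id G) ?_) ?_ h1
  · intro x hx
    rw [h] at hx
    exact hx
  · intro x
    exact ⟨(x : G ⧸ res H G), rfl⟩

end

/-- fibre product of `E` with itself over a normal subgroup -/
theorem lemA {F : ∀ (G : Type) [Group G], Prop} (hF : Fmn F) {E G' : Type} [Group E] [Group G']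
    [Finite E] (V : Subgroup E) (hV : V.Normal) (θ : V →* G') (s : E →* G')
    (heq : ∀ (e : E) (v : V), θ ⟨e * v * e⁻¹, hV.conj_mem v v.2 e⟩ = s e * θ v * (s e)⁻¹)
    (hsurj : ∀ x : G', ∃ (v : V) (e : E), θ v * s e = x) (hE : F E) : F G' := by
  let T : Subgroup (E × E) :=
    { carrier := {x | x.2 * x.1⁻¹ ∈ V}
      one_mem' := by
        change (1 : E) * 1⁻¹ ∈ V
        rw [inv_one, mul_one]
        exact V.one_mem
      mul_mem' := by
        intro a b ha hb
        change a.2 * b.2 * (a.1 * b.1)⁻¹ ∈ V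
        have h1 : a.2 * b.2 * (a.1 * b.1)⁻¹ = (a.2 * a.1⁻¹) * (a.1 * (b.2 * b.1⁻¹) * a.1⁻¹) := by
          group
        rw [h1]
        exact V.mul_mem ha (hV.conj_mem _ hb _)
      inv_mem' := by
        intro a ha
        change a.2⁻¹ * a.1⁻¹⁻¹ ∈ V
        have h1 : a.2⁻¹ * a.1⁻¹⁻¹ = (a.1)⁻¹ * (a.2 * a.1⁻¹)⁻¹ * a.1⁻¹⁻¹ := by group
        rw [h1]
        exact hV.conj_mem _ (V.inv_mem ha) _ }
  let p1 : T →* E := (MonoidHom.fst E E).comp T.subtype
  let p2 : T →* E := (MonoidHom.snd E E).comp T.subtype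
  have hd : ∀ g : E, (g, g) ∈ T := fun g => by
    change g * g⁻¹ ∈ V
    rw [mul_inv_cancel]
    exact V.one_mem
  let f : T →* G' := MonoidHom.mk' (fun x => θ ⟨x.1.2 * x.1.1⁻¹, x.2⟩ * s x.1.1) (by
    intro a b
    have h1 : (⟨(a * b).1.2 * (a * b).1.1⁻¹, (a * b).2⟩ : V)
        = ⟨a.1.2 * a.1.1⁻¹, a.2⟩ * ⟨a.1.1 * (b.1.2 * b.1.1⁻¹) * a.1.1⁻¹,
          hV.conj_mem _ b.2 a.1.1⟩ := by
      apply Subtype.ext
      change a.1.2 * b.1.2 * (a.1.1 * b.1.1)⁻¹
        = (a.1.2 * a.1.1⁻¹) * (a.1.1 * (b.1.2 * b.1.1⁻¹) * a.1.1⁻¹)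
      group
    have h2 := heq a.1.1 ⟨b.1.2 * b.1.1⁻¹, b.2⟩
    change θ ⟨(a * b).1.2 * (a * b).1.1⁻¹, (a * b).2⟩ * s (a.1.1 * b.1.1) = _
    rw [h1, map_mul, h2, map_mul]
    group)
  refine hF.r0hom p1 p2 f (fun g => ⟨⟨(g, g), hd g⟩, rfl⟩) (fun g => ⟨⟨(g, g), hd g⟩, rfl⟩)
    ?_ hE hE ?_
  · intro x
    obtain ⟨v, e, rfl⟩ := hsurj x
    refine ⟨⟨(e, v * e), ?_⟩, ?_⟩
    · change (v : E) * e * e⁻¹ ∈ V
      rw [mul_inv_cancel_right]
      exact v.2
    · change θ ⟨(v : E) * e * e⁻¹, _⟩ * s e = θ v * s e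
      congr 2
      exact Subtype.ext (mul_inv_cancel_right _ _)
  · intro t h1 h2
    have h3 : t = 1 := by
      apply Subtype.ext
      exact Prod.ext h1 h2
    rw [h3, map_one]

end Pool.Agent.Helper476.T
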