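import Pool.Agent.Helper476.T9

set_option autoImplicit false
set_option linter.style.haveILetI false

namespace Pool.Agent.Helper476.T

open Function Subgroup
open Pool.Agent.Helper476.R (IsChief fcent nil_cent_chief chief_comm chief_pow mem_fcent)
open scoped commutatorElement

section

variable {H : ∀ (G : Type) [Group G], Prop}

theorem central_chief {D : Type} [Group D] [Finite D] {A : Subgroup D} (hch : IsChief A ⊥)
    (hc : ∀ a ∈ A, ∀ d, d * a = a * d) : ∃ q : ℕ, q.Prime ∧ Nat.card A = q := by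
  have h1 : Nat.card A ≠ 1 := by
    intro h
    rw [Subgroup.card_eq_one] at h
    exact (bot_lt_iff_ne_bot.1 hch.lt) h
  obtain ⟨q, hq, hqd⟩ := Nat.exists_prime_and_dvd h1
  have : Fact q.Prime := ⟨hq⟩
  obtain ⟨a, ha⟩ := exists_prime_orderOf_dvd_card' (G := A) q hqd
  have hao : orderOf (a : D) = q := by rw [Subgroup.orderOf_coe, ha]
  refine ⟨q, hq, ?_⟩
  have hle : Subgroup.zpowers (a : D) ≤ A := by
    rw [Subgroup.zpowers_le]
    exact a.2
  have hn : (Subgroup.zpowers (a : D)).Normal := by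
    constructor
    intro n hn g
    rw [hc n (hle hn) g, mul_inv_cancel_right]
    exact hn
  rcases hch.min _ hn bot_le hle with h2 | h2
  · exfalso
    rw [Subgroup.zpowers_eq_bot] at h2
    rw [h2, orderOf_one] at hao
    exact hq.one_lt.ne hao
  · rw [← h2, Nat.card_zpowers, hao]

theorem exists_functional {q m : ℕ} [Fact q.Prime] (V : AddSubgroup (Fin m → ZMod q))
    (hV : V ≠ ⊤) : ∃ l : (Fin m → ZMod q) →+ ZMod q, (∀ v ∈ V, l v = 0) ∧ ∃ v, l v ≠ 0 := by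
  obtain ⟨v, hv⟩ : ∃ v, v ∉ V := by
    by_contra hcon
    push Not at hcon
    exact hV (eq_top_iff.2 fun x _ => hcon x)
  obtain ⟨χ, hχ⟩ := sepC (p := q) (V := (Fin m → ZMod q) ⧸ V) (fun x => by
    obtain ⟨y, rfl⟩ := QuotientAddGroup.mk_surjective x
    have : (q : ℕ) • y = 0 := by
      funext i
      simp
    rw [← QuotientAddGroup.mk_nsmul, this]
    rfl) (QuotientAddGroup.mk' V v) (by
    intro h
    exact hv ((QuotientAddGroup.eq_zero_iff v).1 h))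
  refine ⟨χ.comp (QuotientAddGroup.mk' V), fun w hw => ?_, v, hχ⟩
  have : QuotientAddGroup.mk' V w = 0 := (QuotientAddGroup.eq_zero_iff w).2 hw
  rw [AddMonoidHom.comp_apply, this, map_zero]

theorem LL2b (hH : Fmn H) {L Y D T : Type} [Group L] [Group Y] [Group D] [Group T] [Finite L]
    [Finite D] [Finite T] [Finite Y] (φ : L → Y) (hφ : PH (res H L) φ) (π : D →* Y)
    (hπ : Surjective π)
    (hch : IsChief π.ker ⊥) (I : Subgroup D) (hI : I.Normal) (h1 : I ⊓ π.ker = ⊥)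
    (h2 : I ⊔ π.ker = ⊤) (χ : T → π.ker) (hχ : PH (res H T) χ)
    (hab : ∀ a ∈ π.ker, ∀ b ∈ π.ker, a * b = b * a) :
    ∃ (X : Type) (_ : Group X) (_ : Finite X) (f : X →* L) (ψ : X → D), Surjective f ∧
      PH (res H X) ψ ∧ ∀ x ∈ res H X, π (ψ x) = φ (f x) := by
  obtain ⟨j, hj, hjI⟩ := dp_section π hπ I h1 h2
  have hcomm := dp_comm I π.ker hI inferInstance h1
  have hcen : ∀ a ∈ π.ker, ∀ d, d * a = a * d := by
    intro a ha d
    have hd : d ∈ I ⊔ π.ker := by rw [h2]; trivial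
    obtain ⟨i, hi, k, hk, rfl⟩ := Subgroup.mem_sup_of_normal_right.1 hd
    rw [mul_assoc, hab k hk a ha, ← mul_assoc, ← hcomm a ha i hi, mul_assoc]
  obtain ⟨q, hq, hcard⟩ := central_chief hch hcen
  have : Fact q.Prime := ⟨hq⟩
  have : NeZero q := ⟨hq.ne_zero⟩
  let e : π.ker ≃* Multiplicative (ZMod q) := mulEquivOfPrimeCardEq hcard (by
    rw [Nat.card_congr Multiplicative.toAdd, Nat.card_zmod])
  let m := Nat.card Y
  let f₁ : L × T →* L := MonoidHom.fst L T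
  let g₁ : L × T →* T := MonoidHom.snd L T
  have hf₁ : Surjective f₁ := fun l => ⟨(l, 1), rfl⟩
  have hg₁ : Surjective g₁ := fun t => ⟨(1, t), rfl⟩
  have hf₁' : ∀ x ∈ res H (L × T), x.1 ∈ res H L := fun x hx => res_mem hH f₁ hf₁ hx
  have hg₁' : ∀ x ∈ res H (L × T), x.2 ∈ res H T := fun x hx => res_mem hH g₁ hg₁ hx
  let φ' : L × T → Multiplicative (ZMod q) := fun x => e (χ x.2)
  have hφ' : PH (res H (L × T)) φ' := by
    constructor
    · intro x hx y hy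
      change e (χ (x.2 * y.2)) = e (χ x.2) * e (χ y.2)
      rw [hχ.mul _ (hg₁' x hx) _ (hg₁' y hy), map_mul]
    · intro y
      obtain ⟨t, ht, ht'⟩ := hχ.surj (e.symm y)
      obtain ⟨x, hx, rfl⟩ := res_lift hH g₁ hg₁ ht
      refine ⟨x, hx, ?_⟩
      change e (χ (g₁ x)) = y
      rw [ht', e.apply_symm_apply]
  obtain ⟨X, _, _, f₀, ψ₀, hf₀, hψ₀, k1, k2, k3⟩ := CO (res H (L × T)) φ' hφ'
    (HM.pr (q := q) (m := m)) HM.pr_surj
  have hle : ∀ x ∈ res H X, f₀ x ∈ res H (L × T) := fun x hx => res_mem hH f₀ hf₀ hx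
  have hfx : ∀ x ∈ res H X, (f₀ x).1 ∈ res H L := fun x hx => hf₁' _ (hle x hx)
  have hcc : ∀ v, ∃ c ∈ res H X, f₀ c = 1 ∧ ψ₀ c = ⟨0, v, 0⟩ := by
    intro v
    obtain ⟨l, hl, hl'⟩ := hφ'.surj (Multiplicative.ofAdd 1)
    obtain ⟨x, hx, rfl⟩ := res_lift hH f₀ hf₀ hl
    obtain ⟨u, hu, hu'⟩ := k3 ⟨-v, 0, 0⟩ rfl
    have hux : u ∈ (res H (L × T)).comap f₀ := by
      rw [Subgroup.mem_comap, hu]
      exact one_mem _
    have hxx : x ∈ (res H (L × T)).comap f₀ := hle x hx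
    have hi : (ψ₀ x).i = 1 := by
      have h3 := k1 x (hle x hx)
      rw [hl'] at h3
      exact h3
    refine ⟨u * x * u⁻¹ * x⁻¹, mul_mem ((res_normal H X).conj_mem x hx u) (inv_mem hx), ?_, ?_⟩
    · rw [map_mul, map_mul, map_mul, map_inv, map_inv, hu]
      group
    · rw [hψ₀.mul _ (mul_mem (mul_mem hux hxx) (inv_mem hux)) _ (inv_mem hxx),
        hψ₀.mul _ (mul_mem hux hxx) _ (inv_mem hux), hψ₀.mul _ hux _ hxx, hψ₀.map_inv hux,
        hψ₀.map_inv hxx, hu', HM.comm_eq _ _ hi, neg_neg]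
  have hmain : ∃ Λ₀ : X → ZMod q, (∀ x ∈ res H X, ∀ y ∈ res H X, Λ₀ (x * y) = Λ₀ x + Λ₀ y) ∧
      ∃ x ∈ res H X, φ (f₀ x).1 = 1 ∧ Λ₀ x ≠ 0 := by
    let X1 : AddSubgroup (Fin m → ZMod q) :=
      { carrier := {v | ∃ x ∈ res H X, (ψ₀ x).x = v}
        zero_mem' := ⟨1, one_mem _, by rw [hψ₀.map_one]; rfl⟩
        add_mem' := by
          rintro _ _ ⟨x, hx, rfl⟩ ⟨y, hy, rfl⟩
          exact ⟨x * y, mul_mem hx hy, by rw [hψ₀.mul _ (hle x hx) _ (hle y hy)]; rfl⟩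
        neg_mem' := by
          rintro _ ⟨x, hx, rfl⟩
          exact ⟨x⁻¹, inv_mem hx, by rw [hψ₀.map_inv (hle x hx)]; rfl⟩ }
    by_cases hX1 : X1 = ⊤
    · have h3 : ∃ x ∈ res H X, φ (f₀ x).1 = 1 ∧ (ψ₀ x).x ≠ 0 := by
        by_contra hcon
        push Not at hcon
        have h4 : ∀ v : Fin m → ZMod q, ∃ x ∈ res H X, (ψ₀ x).x = v := by
          intro v
          have : v ∈ X1 := by rw [hX1]; trivial
          exact this
        choose s hs hs' using h4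
        have hinj : Injective (fun v => φ (f₀ (s v)).1) := by
          intro v w hvw
          have h5 : φ (f₀ (s v * (s w)⁻¹)).1 = 1 := by
            rw [map_mul, map_inv]
            change φ ((f₀ (s v)).1 * ((f₀ (s w)).1)⁻¹) = 1
            rw [hφ.mul _ (hfx _ (hs v)) _ (inv_mem (hfx _ (hs w))), hφ.map_inv (hfx _ (hs w))]
            have h6 : φ (f₀ (s v)).1 = φ (f₀ (s w)).1 := hvw
            rw [h6, mul_inv_cancel]
          have h6 := hcon _ (mul_mem (hs v) (inv_mem (hs w))) h5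
          rw [hψ₀.mul _ (hle _ (hs v)) _ (inv_mem (hle _ (hs w))), hψ₀.map_inv (hle _ (hs w))] at h6
          change (ψ₀ (s v)).x + - (ψ₀ (s w)).x = 0 at h6
          rw [hs', hs'] at h6
          exact add_neg_eq_zero.1 h6
        have h5 := Nat.card_le_card_of_injective _ hinj
        rw [Nat.card_fun, Nat.card_zmod, Nat.card_eq_fintype_card, Fintype.card_fin] at h5
        exact absurd h5 (not_le_of_gt (Nat.lt_pow_self hq.one_lt))
      obtain ⟨x, hx, hx1, hx2⟩ := h3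
      obtain ⟨k, hk⟩ := Function.ne_iff.1 hx2
      refine ⟨fun x => (ψ₀ x).x k, ?_, x, hx, hx1, hk⟩
      intro x hx y hy
      change (ψ₀ (x * y)).x k = (ψ₀ x).x k + (ψ₀ y).x k
      rw [hψ₀.mul _ (hle x hx) _ (hle y hy)]
      rfl
    · obtain ⟨l, hl, v, hv⟩ := exists_functional X1 hX1
      obtain ⟨c, hc, hc1, hc2⟩ := hcc v
      refine ⟨fun x => l (ψ₀ x).y, ?_, c, hc, ?_, ?_⟩
      · intro x hx y hy
        change l (ψ₀ (x * y)).y = l (ψ₀ x).y + l (ψ₀ y).y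
        rw [hψ₀.mul _ (hle x hx) _ (hle y hy), HM.mul_y, map_add, map_add, ZMod.map_smul,
          hl _ ⟨y, hy, rfl⟩, smul_zero, add_zero]
      · rw [hc1]
        exact hφ.map_one
      · change l (ψ₀ c).y ≠ 0
        rw [hc2]
        exact hv
  obtain ⟨Λ₀, hΛ₀, x₀, hx₀, hx1, hx2⟩ := hmain
  have hΛpow : ∀ k : ℕ, Λ₀ (x₀ ^ k) = k * Λ₀ x₀ ∧ φ (f₁ (f₀ (x₀ ^ k))) = 1 := by
    intro k
    induction k with
    | zero =>
      refine ⟨?_, ?_⟩
      · rw [pow_zero, Nat.cast_zero, zero_mul]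
        have h3 := hΛ₀ 1 (one_mem _) 1 (one_mem _)
        rw [mul_one] at h3
        exact left_eq_add.1 h3
      · rw [pow_zero, map_one, map_one, hφ.map_one]
    | succ k ih =>
      refine ⟨?_, ?_⟩
      · rw [pow_succ, hΛ₀ _ (pow_mem hx₀ k) _ hx₀, ih.1]
        push_cast
        ring
      · rw [pow_succ, map_mul, map_mul]
        have h3 := hφ.mul (f₁ (f₀ (x₀ ^ k))) (hfx _ (pow_mem hx₀ k)) (f₁ (f₀ x₀)) (hfx _ hx₀)
        rw [h3, ih.2, one_mul]
        exact hx1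
  let Λ : X → D := fun x => ((e.symm (Multiplicative.ofAdd (Λ₀ x)) : π.ker) : D)
  obtain ⟨ψ, hψ1, hψ2⟩ := mkLift hH φ hφ π I hcomm j hj hjI (f₁.comp f₀) (hf₁.comp hf₀) Λ
    (fun x hx y hy => by
      change ((e.symm (Multiplicative.ofAdd (Λ₀ (x * y))) : π.ker) : D) = _
      rw [hΛ₀ x hx y hy, ofAdd_add, map_mul]
      rfl)
    (fun x _ => (e.symm (Multiplicative.ofAdd (Λ₀ x))).2)
    (fun a ha => by
      let n : ZMod q := (e ⟨a, ha⟩).toAdd
      refine ⟨x₀ ^ (n * (Λ₀ x₀)⁻¹).val, pow_mem hx₀ _, (hΛpow _).2, ?_⟩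
      change ((e.symm (Multiplicative.ofAdd (Λ₀ (x₀ ^ (n * (Λ₀ x₀)⁻¹).val))) : π.ker) : D) = a
      rw [(hΛpow _).1, ZMod.natCast_val, ZMod.cast_id', id, inv_mul_cancel_right₀ hx2]
      change ((e.symm (e ⟨a, ha⟩) : π.ker) : D) = a
      rw [e.symm_apply_apply])
  exact ⟨X, inferInstance, inferInstance, f₁.comp f₀, ψ, hf₁.comp hf₀, hψ1, hψ2⟩

/-- the lifting lemma -/
theorem LL (hH : Fmn H) {L Y D : Type} [Group L] [Group Y] [Group D] [Finite L]
    [Finite D] [Finite Y] (φ : L → Y) (hφ : PH (res H L) φ) (π : D →* Y)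
    (hπ : Surjective π) (hch : IsChief π.ker ⊥) :
    (∃ (X : Type) (_ : Group X) (_ : Finite X) (f : X →* L) (ψ : X → D), Surjective f ∧
      PH (res H X) ψ ∧ ∀ x ∈ res H X, π (ψ x) = φ (f x)) ∨
    (∃ I : Subgroup D, I.Normal ∧ I ⊓ π.ker = ⊥ ∧ I ⊔ π.ker = ⊤ ∧
      ∀ (T : Type) [Group T] [Finite T] (χ : T → π.ker), ¬ PH (res H T) χ) := by
  obtain ⟨X, _, _, f, ψ, hf, hψ, h1, h2, h3, h4 | ⟨I, hI, hI1, hI2⟩⟩ := CO2 hH φ hφ π hπ hch
  · left
    exact ⟨X, inferInstance, inferInstance, f, ψ, hf, h4,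
      fun x hx => h1 x (res_mem hH f hf hx)⟩
  · by_cases hT : ∀ (T : Type) [Group T] [Finite T] (χ : T → π.ker), ¬ PH (res H T) χ
    · exact Or.inr ⟨I, hI, hI1, hI2, hT⟩
    · left
      push Not at hT
      obtain ⟨T, _, _, χ, hχ⟩ := hT
      by_cases hna : ∃ a ∈ π.ker, ∃ b ∈ π.ker, a * b ≠ b * a
      · exact LL2a hH φ hφ π hπ hch I hI hI1 hI2 χ hχ hna
      · push Not at hna
        exact LL2b hH φ hφ π hπ hch I hI hI1 hI2 χ hχ hna

end

end Pool.Agent.Helper476.T
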