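import Pool.Agent.Helper476.T10

set_option autoImplicit false
set_option linter.style.haveILetI false

namespace Pool.Agent.Helper476.T

open Function Subgroup
open Pool.Agent.Helper476.R (IsChief fcent nil_cent_chief chief_comm chief_pow mem_fcent)
open scoped commutatorElement

/-- the factor `R/S` of `G` corresponds to the factor `A/B` of the image `K` -/
structure Sim {G K : Type} [Group G] [Group K] (f : G →* K) (R S : Subgroup G)
    (A B : Subgroup K) : Prop where
  surj : Surjective f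
  nR : R.Normal
  nS : S.Normal
  nA : A.Normal
  nB : B.Normal
  leS : S ≤ R
  leB : B ≤ A
  map_le : ∀ r ∈ R, f r ∈ A
  iff : ∀ r ∈ R, (f r ∈ B ↔ r ∈ S)
  gen : ∀ a ∈ A, ∃ r ∈ R, ∃ b ∈ B, a = f r * b

theorem dvd_relIndex_iff {G : Type} [Group G] [Finite G] {R S : Subgroup G} [hS : S.Normal]
    {p : ℕ} (hp : p.Prime) : p ∣ S.relIndex R ↔ ∃ r ∈ R, r ∉ S ∧ r ^ p ∈ S := by
  have : Fact p.Prime := ⟨hp⟩
  constructor
  · intro hd
    obtain ⟨x, hx⟩ := exists_prime_orderOf_dvd_card' (G := R ⧸ S.subgroupOf R) p hd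
    obtain ⟨r, rfl⟩ := QuotientGroup.mk_surjective x
    have h2 : ((r ^ p : R) : R ⧸ S.subgroupOf R) = 1 := by
      have := pow_orderOf_eq_one (r : R ⧸ S.subgroupOf R)
      rw [hx] at this
      exact this
    rw [QuotientGroup.eq_one_iff, Subgroup.mem_subgroupOf] at h2
    refine ⟨r, r.2, ?_, h2⟩
    intro h3
    have h4 : (r : R ⧸ S.subgroupOf R) = 1 := by
      rw [QuotientGroup.eq_one_iff, Subgroup.mem_subgroupOf]
      exact h3
    rw [h4, orderOf_one] at hx
    exact hp.one_lt.ne hx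
  · rintro ⟨r, hr, hrS, hrp⟩
    let x : R ⧸ S.subgroupOf R := ((⟨r, hr⟩ : R) : R ⧸ S.subgroupOf R)
    have h1 : x ^ p = 1 := by
      change (((⟨r, hr⟩ ^ p : R)) : R ⧸ S.subgroupOf R) = 1
      rw [QuotientGroup.eq_one_iff, Subgroup.mem_subgroupOf]
      exact hrp
    have h2 : x ≠ 1 := by
      intro h
      rw [QuotientGroup.eq_one_iff, Subgroup.mem_subgroupOf] at h
      exact hrS h
    have h3 := orderOf_eq_prime h1 h2
    rw [← h3]
    exact orderOf_dvd_natCard x

namespace Sim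

variable {G K : Type} [Group G] [Group K] {f : G →* K} {R S : Subgroup G} {A B : Subgroup K}

theorem mem_fc (h : Sim f R S A B) (g : G) :
    (∀ r ∈ R, g * r * g⁻¹ * r⁻¹ ∈ S) ↔ ∀ a ∈ A, f g * a * (f g)⁻¹ * a⁻¹ ∈ B := by
  constructor
  · intro hg a ha
    obtain ⟨r, hr, b, hb, rfl⟩ := h.gen a ha
    have h1 : f (g * r * g⁻¹ * r⁻¹) ∈ B :=
      (h.iff _ (h.leS (hg r hr))).2 (hg r hr)
    have h2 : f g * (f r * b) * (f g)⁻¹ * (f r * b)⁻¹
        = f (g * r * g⁻¹ * r⁻¹) * (f r * ((f g * b * (f g)⁻¹) * b⁻¹) * (f r)⁻¹) := by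
      rw [map_mul, map_mul, map_mul, map_inv, map_inv]
      group
    rw [h2]
    exact B.mul_mem h1 (h.nB.conj_mem _ (B.mul_mem (h.nB.conj_mem b hb _) (B.inv_mem hb)) _)
  · intro hg r hr
    have h1 := hg (f r) (h.map_le r hr)
    rw [← map_inv, ← map_inv, ← map_mul, ← map_mul, ← map_mul] at h1
    exact (h.iff _ (R.mul_mem (h.nR.conj_mem r hr g) (R.inv_mem hr))).1 h1

theorem dvd [Finite G] [Finite K] (h : Sim f R S A B) {p : ℕ} (hp : p.Prime) :
    p ∣ S.relIndex R ↔ p ∣ B.relIndex A := by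
  have := h.nS
  have := h.nB
  rw [dvd_relIndex_iff hp, dvd_relIndex_iff hp]
  constructor
  · rintro ⟨r, hr, hrS, hrp⟩
    refine ⟨f r, h.map_le r hr, fun h1 => hrS ((h.iff r hr).1 h1), ?_⟩
    rw [← map_pow]
    exact (h.iff _ (R.pow_mem hr p)).2 hrp
  · rintro ⟨a, ha, haB, hap⟩
    obtain ⟨r, hr, b, hb, rfl⟩ := h.gen a ha
    have hq : ∀ x, QuotientGroup.mk' B x = 1 ↔ x ∈ B := fun x => QuotientGroup.eq_one_iff x
    refine ⟨r, hr, fun h1 => haB (B.mul_mem ((h.iff r hr).2 h1) hb), ?_⟩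
    rw [← h.iff _ (R.pow_mem hr p), map_pow, ← hq, map_pow]
    rw [← hq, map_pow, map_mul, (hq b).2 hb, mul_one] at hap
    exact hap

theorem chief_iff (h : Sim f R S A B) : IsChief R S ↔ IsChief A B := by
  have := h.nR
  have := h.nS
  have := h.nA
  have := h.nB
  constructor
  · intro hc
    refine ⟨h.nA, h.nB, ?_, ?_⟩
    · refine lt_of_le_of_ne h.leB ?_
      rintro rfl
      obtain ⟨r, hr, hr'⟩ := SetLike.exists_of_lt hc.lt
      exact hr' ((h.iff r hr).1 (h.map_le r hr))
    · intro T hT h1 h2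
      rcases hc.min (R ⊓ T.comap f) inferInstance
        (le_inf h.leS (fun s hs => h1 ((h.iff s (h.leS hs)).2 hs))) inf_le_left with h3 | h3
      · left
        apply le_antisymm _ h1
        intro t ht
        obtain ⟨r, hr, b, hb, rfl⟩ := h.gen t (h2 ht)
        have h4 : f r ∈ T := by
          have := T.mul_mem ht (T.inv_mem (h1 hb))
          rwa [mul_inv_cancel_right] at this
        have h5 : r ∈ R ⊓ T.comap f := ⟨hr, h4⟩
        rw [h3] at h5
        exact B.mul_mem ((h.iff r hr).2 h5) hb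
      · right
        apply le_antisymm h2
        intro a ha
        obtain ⟨r, hr, b, hb, rfl⟩ := h.gen a ha
        rw [← h3] at hr
        exact T.mul_mem hr.2 (h1 hb)
  · intro hc
    refine ⟨h.nR, h.nS, ?_, ?_⟩
    · refine lt_of_le_of_ne h.leS ?_
      rintro rfl
      obtain ⟨a, ha, ha'⟩ := SetLike.exists_of_lt hc.lt
      obtain ⟨r, hr, b, hb, rfl⟩ := h.gen a ha
      exact ha' (B.mul_mem ((h.iff r hr).2 hr) hb)
    · intro T hT h1 h2
      have hTf : (T.map f).Normal := hT.map f h.surj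
      rcases hc.min (T.map f ⊔ B) inferInstance le_sup_right
        (sup_le (by
          rintro _ ⟨t, ht, rfl⟩
          exact h.map_le t (h2 ht)) h.leB) with h3 | h3
      · left
        apply le_antisymm _ h1
        intro t ht
        have h4 : f t ∈ B := by
          rw [← h3]
          exact Subgroup.mem_sup_left ⟨t, ht, rfl⟩
        exact (h.iff t (h2 ht)).1 h4
      · right
        apply le_antisymm h2
        intro r hr
        have h4 : f r ∈ T.map f ⊔ B := by
          rw [h3]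
          exact h.map_le r hr
        obtain ⟨_, ⟨t, ht, rfl⟩, b, hb, h5⟩ := Subgroup.mem_sup_of_normal_right.1 h4
        have h6 : f (t⁻¹ * r) ∈ B := by
          rw [map_mul, map_inv, ← h5, inv_mul_cancel_left]
          exact hb
        have h7 := h1 ((h.iff _ (R.mul_mem (R.inv_mem (h2 ht)) hr)).1 h6)
        have h8 := T.mul_mem ht h7
        rwa [mul_inv_cancel_left] at h8

/-- the class of the automiser is the same -/
theorem aut_iff [Finite G] (h : Sim f R S A B) {m : ∀ (G : Type) [Group G], Prop} (hm : Fmn m)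
    [hR : R.Normal] [hS : S.Normal] [hA : A.Normal] [hB : B.Normal] :
    m (G ⧸ fcent R S) ↔ m (K ⧸ fcent A B) := by
  have hmem : ∀ g, g ∈ fcent R S ↔ f g ∈ fcent A B := h.mem_fc
  constructor
  · intro h1
    refine hm.q _ _ (QuotientGroup.map (fcent R S) (fcent A B) f (fun g hg => (hmem g).1 hg)) ?_ h1
    intro x
    obtain ⟨y, rfl⟩ := QuotientGroup.mk_surjective x
    obtain ⟨g, rfl⟩ := h.surj y
    exact ⟨(g : G ⧸ fcent R S), rfl⟩
  · intro h1
    have h2 := hm.ker ((QuotientGroup.mk' (fcent A B)).comp f)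
      ((QuotientGroup.mk'_surjective _).comp h.surj) h1
    refine hm.mono ?_ h2
    intro g hg
    exact (hmem g).2 ((QuotientGroup.eq_one_iff (f g)).1 hg)

end Sim

theorem sim_comap {G K : Type} [Group G] [Group K] (f : G →* K) (hf : Surjective f)
    {A B : Subgroup K} (hA : A.Normal) (hB : B.Normal) (hle : B ≤ A) :
    Sim f (A.comap f) (B.comap f) A B where
  surj := hf
  nR := inferInstance
  nS := inferInstance
  nA := hA
  nB := hB
  leS := Subgroup.comap_mono hle
  leB := hle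
  map_le := fun _ hr => hr
  iff := fun _ _ => Iff.rfl
  gen := fun a ha => by
    obtain ⟨g, rfl⟩ := hf a
    exact ⟨g, ha, 1, B.one_mem, (mul_one _).symm⟩

theorem sim_map {G K : Type} [Group G] [Group K] (f : G →* K) (hf : Surjective f)
    {R S : Subgroup G} (hR : R.Normal) (hS : S.Normal) (hle : S ≤ R)
    (h : ∀ r ∈ R, f r = 1 → r ∈ S) : Sim f R S (R.map f) (S.map f) where
  surj := hf
  nR := hR
  nS := hS
  nA := hR.map f hf
  nB := hS.map f hf
  leS := hle
  leB := Subgroup.map_mono hle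
  map_le := fun r hr => ⟨r, hr, rfl⟩
  iff := fun r hr => by
    constructor
    · rintro ⟨s, hs, hrs⟩
      have h6 : f (s⁻¹ * r) = 1 := by
        rw [map_mul, map_inv, hrs, inv_mul_cancel]
      have h7 := h _ (R.mul_mem (R.inv_mem (hle hs)) hr) h6
      have h8 := S.mul_mem hs h7
      rwa [mul_inv_cancel_left] at h8
    · intro h1
      exact ⟨r, h1, rfl⟩
  gen := fun a ha => by
    obtain ⟨r, hr, rfl⟩ := ha
    exact ⟨r, hr, 1, one_mem _, (mul_one _).symm⟩

/-- perspective factors -/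
theorem sim_persp {G : Type} [Group G] (R₁ B : Subgroup G) (hR : R₁.Normal) (hB : B.Normal) :
    Sim (MonoidHom.id G) R₁ (R₁ ⊓ B) (R₁ ⊔ B) B where
  surj := fun x => ⟨x, rfl⟩
  nR := hR
  nS := inferInstance
  nA := inferInstance
  nB := hB
  leS := inf_le_left
  leB := le_sup_right
  map_le := fun r hr => Subgroup.mem_sup_left hr
  iff := fun r hr => ⟨fun h => ⟨hr, h⟩, fun h => h.2⟩
  gen := fun a ha => by
    obtain ⟨r, hr, b, hb, rfl⟩ := Subgroup.mem_sup_of_normal_right.1 ha
    exact ⟨r, hr, b, hb, rfl⟩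

theorem chief_ker {G : Type} [Group G] {E E₀ : Subgroup G} [hE₀ : E₀.Normal] (h : IsChief E E₀)
    {K : Type} [Group K] (π : (G ⧸ E₀) →* K) (hπ : ∀ g, π (QuotientGroup.mk' E₀ g) = 1 ↔ g ∈ E) :
    IsChief π.ker ⊥ := by
  have hs := sim_map (QuotientGroup.mk' E₀) (QuotientGroup.mk'_surjective E₀) h.norR h.norS h.lt.le
    (fun r _ hr => (QuotientGroup.eq_one_iff r).1 hr)
  have h1 := hs.chief_iff.1 h
  have h2 : E.map (QuotientGroup.mk' E₀) = π.ker := by
    ext x
    constructor
    · rintro ⟨g, hg, rfl⟩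
      exact (hπ g).2 hg
    · intro hx
      obtain ⟨g, rfl⟩ := QuotientGroup.mk'_surjective E₀ x
      exact ⟨g, (hπ g).1 hx, rfl⟩
  have h3 : E₀.map (QuotientGroup.mk' E₀) = ⊥ := by
    rw [Subgroup.map_eq_bot_iff, QuotientGroup.ker_mk']
  rw [h2, h3] at h1
  exact h1

end Pool.Agent.Helper476.T
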