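import Pool.Agent.Helper476.T11

set_option autoImplicit false
set_option linter.style.haveILetI false

namespace Pool.Agent.Helper476.T

open Function Subgroup
open Pool.Agent.Helper476.R (IsChief fcent nil_cent_chief chief_comm chief_pow mem_fcent)
open scoped commutatorElement

/-- images of the residuals of groups `T` with `Fp F p T` -/
def YY (F H : ∀ (G : Type) [Group G], Prop) (p : ℕ) (Q : Type) [Group Q] : Prop :=
  ∃ (T : Type) (_ : Group T) (_ : Finite T), Fp F p T ∧ ∃ χ : T → Q, PH (res H T) χ

/-- residually in the previous class -/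
def RY (F H : ∀ (G : Type) [Group G], Prop) (p : ℕ) (D : Type) [Group D] : Prop :=
  ∀ d : D, d ≠ 1 → ∃ (Q : Type) (_ : Group Q) (q : D →* Q), Surjective q ∧ YY F H p Q ∧ q d ≠ 1

section

variable {F M H : ∀ (G : Type) [Group G], Prop} {p : ℕ}

theorem YY_NN (hF : Fmn F) (hS : Sat F) (hM : Fmn M) (hH : Fmn H)
    (hFMH : ∀ (G : Type) [Group G] [Finite G], F G ↔ M (res H G))
    [hp : Fact p.Prime] {Q : Type} [Group Q] (h : YY F H p Q) : NN M p Q := by
  obtain ⟨T, _, _, hT, χ, hχ⟩ := h
  intro D _ _ π hπ hch hpk hnc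
  exact N1 hF hS hM hH hFMH hT χ hχ π hπ hch hpk hnc

theorem PH.comp {L Y Q : Type} [Group L] [Group Y] [Group Q] {K : Subgroup L} {φ : L → Y}
    (h : PH K φ) (q : Y →* Q) (hq : Surjective q) : PH K (fun x => q (φ x)) := by
  constructor
  · intro x hx y hy
    change q (φ (x * y)) = q (φ x) * q (φ y)
    rw [h.mul x hx y hy, _root_.map_mul]
  · intro y
    obtain ⟨z, rfl⟩ := hq y
    obtain ⟨x, hx, rfl⟩ := h.surj z
    exact ⟨x, hx, rfl⟩

theorem C2 (hF : Fmn F) (hS : Sat F) (hM : Fmn M) (hH : Fmn H)
    (hFMH : ∀ (G : Type) [Group G] [Finite G], F G ↔ M (res H G))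
    [hp : Fact p.Prime] (hp1 : Fp F p Unit)
    (hHp : ∀ (G : Type) [Group G] [Finite G], H G → Fp F p G) (n : ℕ) :
    ∀ (D : Type) [Group D] [Finite D], Nat.card D = n → RY F H p D → ∀ (m : ℕ) (E : Subgroup D)
      (_ : E.Normal), Nat.card E = m → ∀ (L : Type) [Group L] [Finite L] (φ : L → D ⧸ E),
      PH (res H L) φ → ∀ z ∈ res (Fp F p) L, φ z = 1 := by
  have hfmn : Fmn (Fp F p) := Fp_fmn hF hS hp1
  induction n using Nat.strong_induction_on with
  | _ n ihn =>
  intro D _ _ hn hD m
  induction m using Nat.strong_induction_on with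
  | _ m ihm =>
  intro E hE hm L _ _ φ hφ z hz
  have hZ : res (Fp F p) L ≤ res H L := res_le _ (hHp _ (res_quot hH L))
  by_cases hbot : E = ⊥
  · subst hbot
    by_contra hne
    obtain ⟨d, hd⟩ := QuotientGroup.mk_surjective (φ z)
    have hd1 : d ≠ 1 := by
      rintro rfl
      exact hne hd.symm
    obtain ⟨Q, _, q, hq, hQ, hqd⟩ := hD d hd1
    have : Finite Q := Finite.of_surjective q hq
    let q' : D ⧸ (⊥ : Subgroup D) →* Q := QuotientGroup.lift ⊥ q (fun x hx => by
      rw [Subgroup.mem_bot] at hx
      rw [hx]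
      exact q.ker.one_mem)
    have hq' : Surjective q' := by
      intro y
      obtain ⟨x, rfl⟩ := hq y
      exact ⟨(x : D ⧸ (⊥ : Subgroup D)), rfl⟩
    have h1 := C1 hF hS hM hH hFMH hp1 hHp (fun x => q' (φ x)) (hφ.comp q' hq')
      (YY_NN hF hS hM hH hFMH hQ) z hz
    apply hqd
    change q' (φ z) = 1 at h1
    rw [← hd] at h1
    exact h1
  · obtain ⟨E₀, _, hch⟩ := exists_chief_below E ⊥ hE inferInstance (bot_lt_iff_ne_bot.2 hbot)
    have hE₀ := hch.norS
    let m₀ := QuotientGroup.mk' E₀
    let π : D ⧸ E₀ →* D ⧸ E := QuotientGroup.lift E₀ (QuotientGroup.mk' E) (fun x hx =>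
      (QuotientGroup.eq_one_iff x).2 (hch.lt.le hx))
    have hπ : Surjective π := by
      intro y
      obtain ⟨x, rfl⟩ := QuotientGroup.mk_surjective y
      exact ⟨(x : D ⧸ E₀), rfl⟩
    have hπm : ∀ g, π (m₀ g) = QuotientGroup.mk' E g := fun g => rfl
    have hπ1 : ∀ g, π (m₀ g) = 1 ↔ g ∈ E := fun g => QuotientGroup.eq_one_iff g
    have hchk : IsChief π.ker ⊥ := chief_ker hch π hπ1
    rcases LL hH φ hφ π hπ hchk with ⟨X, _, _, f, ψ, hf, hψ, hfψ⟩ | ⟨I, hI, hI1, hI2, hT⟩
    · obtain ⟨x, hx, rfl⟩ := res_lift hfmn f hf hz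
      have hZX : res (Fp F p) X ≤ res H X := res_le _ (hHp _ (res_quot hH X))
      have h1 := ihm (Nat.card E₀) (by
        rw [← hm]
        exact Set.Finite.card_lt_card (Set.toFinite (E : Set D)) hch.lt) E₀ hE₀ rfl X ψ hψ x hx
      rw [← hfψ x (hZX hx), h1, map_one]
    · let D₀ : Subgroup D := I.comap m₀
      have hD₀n : D₀.Normal := inferInstance
      have hm₀ : Surjective m₀ := QuotientGroup.mk'_surjective E₀
      have hcomm := dp_comm I π.ker hI inferInstance hI1
      -- D₀ is proper
      have hlt : Nat.card D₀ < n := by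
        rw [← hn, ← Subgroup.card_top (G := D)]
        refine Set.Finite.card_lt_card (Set.toFinite ((⊤ : Subgroup D) : Set D)) ?_
        refine lt_of_le_of_ne le_top ?_
        intro h
        have h' : D₀ = ⊤ := SetLike.coe_injective h
        apply bot_lt_iff_ne_bot.1 hchk.lt
        rw [← hI1]
        apply le_antisymm _ inf_le_right
        refine le_inf ?_ le_rfl
        intro x _
        obtain ⟨g, rfl⟩ := hm₀ x
        have : g ∈ D₀ := by rw [h']; trivial
        exact this
      let E' : Subgroup D₀ := E.subgroupOf D₀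
      have hE' : E'.Normal := inferInstance
      let θ : D₀ ⧸ E' →* D ⧸ E := QuotientGroup.lift E' ((QuotientGroup.mk' E).comp D₀.subtype)
        (fun x hx => (QuotientGroup.eq_one_iff _).2 hx)
      have hθ : Bijective θ := by
        constructor
        · rw [← MonoidHom.ker_eq_bot_iff, eq_bot_iff]
          intro x hx
          obtain ⟨y, rfl⟩ := QuotientGroup.mk_surjective x
          have h1 : ((y : D) : D ⧸ E) = 1 := hx
          rw [QuotientGroup.eq_one_iff] at h1
          exact (QuotientGroup.eq_one_iff y).2 h1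
        · intro x
          obtain ⟨d, rfl⟩ := QuotientGroup.mk_surjective x
          have h1 : m₀ d ∈ I ⊔ π.ker := by rw [hI2]; trivial
          obtain ⟨i, hi, k, hk, hik⟩ := Subgroup.mem_sup_of_normal_right.1 h1
          obtain ⟨d', rfl⟩ := hm₀ i
          refine ⟨((⟨d', hi⟩ : D₀) : D₀ ⧸ E'), ?_⟩
          change ((d' : D) : D ⧸ E) = (d : D ⧸ E)
          have h2 : π (m₀ d) = π (m₀ d') := by
            rw [← hik, map_mul, show π k = 1 from hk, mul_one]
          exact h2.symm
      let e := MulEquiv.ofBijective θ hθ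
      have hD₀ : RY F H p D₀ := by
        rintro ⟨d, hd⟩ hd1
        have hd1' : d ≠ 1 := fun h => hd1 (Subtype.ext h)
        obtain ⟨Q, _, q, hq, hQ, hqd⟩ := hD d hd1'
        refine ⟨Q, inferInstance, q.comp D₀.subtype, ?_, hQ, hqd⟩
        by_contra hns
        obtain ⟨T, _, _, hTF, χ, hχ⟩ := hQ
        -- kernel of q lies in D₀
        have hker : q.ker ≤ D₀ := by
          let J : Subgroup (D ⧸ E₀) := (q.ker.map m₀ ⊔ I) ⊓ π.ker
          have hJn : J.Normal := by
            have : (q.ker.map m₀).Normal := Subgroup.Normal.map inferInstance m₀ hm₀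
            exact inferInstance
          rcases hchk.min J hJn bot_le inf_le_right with h1 | h1
          · -- q.ker.map m₀ ≤ I
            intro k hk
            have h2 : m₀ k ∈ I ⊔ π.ker := by rw [hI2]; trivial
            obtain ⟨i, hi, a, ha, hia⟩ := Subgroup.mem_sup_of_normal_right.1 h2
            have h3 : a ∈ J := by
              refine ⟨?_, ha⟩
              have : a = i⁻¹ * m₀ k := by rw [← hia, inv_mul_cancel_left]
              rw [this]
              exact mul_mem (Subgroup.mem_sup_right (inv_mem hi))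
                (Subgroup.mem_sup_left ⟨k, hk, rfl⟩)
            rw [h1, Subgroup.mem_bot] at h3
            change m₀ k ∈ I
            rw [← hia, h3, mul_one]
            exact hi
          · exfalso
            apply hns
            intro y
            obtain ⟨d', rfl⟩ := hq y
            have h2 : m₀ d' ∈ I ⊔ π.ker := by rw [hI2]; trivial
            have h3 : m₀ d' ∈ q.ker.map m₀ ⊔ I := by
              have h4 : I ⊔ π.ker ≤ q.ker.map m₀ ⊔ I := by
                refine sup_le le_sup_right ?_
                rw [← h1]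
                exact inf_le_left
              exact h4 h2
            obtain ⟨_, ⟨k, hk, rfl⟩, i, hi, hki⟩ := Subgroup.mem_sup_of_normal_right.1 h3
            refine ⟨⟨k⁻¹ * d', ?_⟩, ?_⟩
            · change m₀ (k⁻¹ * d') ∈ I
              rw [map_mul, map_inv, ← hki, inv_mul_cancel_left]
              exact hi
            · change q (k⁻¹ * d') = q d'
              rw [map_mul, map_inv, show q k = 1 from hk, inv_one, one_mul]
        -- projection onto the kernel
        obtain ⟨j, hj, hjI⟩ := dp_section π hπ I hI1 hI2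
        have hpr : ∀ x, π (x * (j (π x))⁻¹) = 1 := by
          intro x
          rw [map_mul, map_inv, hj, mul_inv_cancel]
        let ρ : D ⧸ E₀ →* π.ker := MonoidHom.mk' (fun x => ⟨x * (j (π x))⁻¹, hpr x⟩) (by
          intro x y
          apply Subtype.ext
          change x * y * (j (π (x * y)))⁻¹ = x * (j (π x))⁻¹ * (y * (j (π y))⁻¹)
          have h1 := hcomm _ (hpr y) _ (I.inv_mem (hjI (π x)))
          rw [map_mul, map_mul, mul_inv_rev]
          calc x * y * ((j (π y))⁻¹ * (j (π x))⁻¹) = x * ((y * (j (π y))⁻¹) * (j (π x))⁻¹) := by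
                group
            _ = x * ((j (π x))⁻¹ * (y * (j (π y))⁻¹)) := by rw [h1]
            _ = _ := by group)
        have hρ1 : ∀ x ∈ I, ρ x = 1 := by
          intro x hx
          apply Subtype.ext
          change x * (j (π x))⁻¹ = 1
          have h1 : x * (j (π x))⁻¹ ∈ I ⊓ π.ker := ⟨I.mul_mem hx (I.inv_mem (hjI _)), hpr x⟩
          rw [hI1] at h1
          exact h1
        have hρs : Surjective ρ := by
          rintro ⟨a, ha⟩
          refine ⟨a, Subtype.ext ?_⟩
          change a * (j (π a))⁻¹ = a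
          rw [show π a = 1 from ha, map_one, inv_one, mul_one]
        -- factor through q
        have hfac : ∃ ρ' : Q →* π.ker, ∀ d, ρ' (q d) = ρ (m₀ d) := by
          let e₁ := QuotientGroup.quotientKerEquivOfSurjective q hq
          have hkl : q.ker ≤ (ρ.comp m₀).ker := fun x hx => hρ1 _ (hker hx)
          refine ⟨(QuotientGroup.lift q.ker (ρ.comp m₀) hkl).comp e₁.symm.toMonoidHom, ?_⟩
          intro d
          have h1 : e₁.symm (q d) = (d : D ⧸ q.ker) := by
            rw [MulEquiv.symm_apply_eq]
            rfl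
          change (QuotientGroup.lift q.ker (ρ.comp m₀) hkl) (e₁.symm (q d)) = _
          rw [h1]
          rfl
        obtain ⟨ρ', hρ'⟩ := hfac
        have hρ's : Surjective ρ' := by
          intro a
          obtain ⟨x, rfl⟩ := hρs a
          obtain ⟨d, rfl⟩ := hm₀ x
          exact ⟨q d, hρ' d⟩
        exact hT T _ (hχ.comp ρ' hρ's)
      have h1 := ihn (Nat.card D₀) hlt D₀ rfl hD₀ _ E' hE' rfl L (fun x => e.symm (φ x))
        (hφ.comp e.symm.toMonoidHom e.symm.surjective) z hz
      have h2 : e.symm (φ z) = 1 := h1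
      rw [MulEquiv.symm_apply_eq, map_one] at h2
      exact h2

end

end Pool.Agent.Helper476.T
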