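import Pool.Agent.Helper476.T12

set_option autoImplicit false
set_option linter.style.haveILetI false

namespace Pool.Agent.Helper476.T

open Function Subgroup
open Pool.Agent.Helper476.R (IsChief fcent nil_cent_chief chief_comm chief_pow mem_fcent)
open scoped commutatorElement

theorem min_supp {P L : Type} [Group P] [Group L] [Finite P] (f : P →* L) (hf : Surjective f) :
    ∃ E : Subgroup P, (∀ l, ∃ e ∈ E, f e = l) ∧ (f.comp E.subtype).ker ≤ frattini E := by
  let 𝒜 : Set (Subgroup P) := {E | ∀ l, ∃ e ∈ E, f e = l}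
  have hne : 𝒜.Nonempty := ⟨⊤, fun l => by
    obtain ⟨e, rfl⟩ := hf l
    exact ⟨e, trivial, rfl⟩⟩
  obtain ⟨E, hE, hmin⟩ := Set.Finite.exists_minimal (Set.toFinite 𝒜) hne
  refine ⟨E, hE, ?_⟩
  rw [frattini, Order.radical]
  refine le_iInf₂ fun K hK => ?_
  by_contra hcon
  have hsup : K ⊔ (f.comp E.subtype).ker = ⊤ := by
    have h1 : K < K ⊔ (f.comp E.subtype).ker :=
      lt_of_le_of_ne le_sup_left (fun h => hcon (h ▸ le_sup_right))
    exact hK.2 _ h1
  have h1 : K.map E.subtype ∈ 𝒜 := by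
    intro l
    obtain ⟨e, he, rfl⟩ := hE l
    have h2 : (⟨e, he⟩ : E) ∈ K ⊔ (f.comp E.subtype).ker := by rw [hsup]; trivial
    obtain ⟨k, hk, n, hn, hkn⟩ := Subgroup.mem_sup_of_normal_right.1 h2
    refine ⟨k, ⟨k, hk, rfl⟩, ?_⟩
    have h3 : (k : P) * n = e := congrArg Subtype.val hkn
    have h4 : f n = 1 := hn
    rw [← h3, map_mul, h4, mul_one]
  have h2 := hmin h1 (Subgroup.map_subtype_le K)
  apply hK.1
  rw [eq_top_iff]
  rintro ⟨x, hx⟩ _
  obtain ⟨y, hy, hyx⟩ := h2 hx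
  have : y = ⟨x, hx⟩ := Subtype.ext hyx
  rw [← this]
  exact hy

section

variable {F M H : ∀ (G : Type) [Group G], Prop} {p : ℕ}

theorem cast_iff [hp : Fact p.Prime] (a : ZMod (p ^ 2)) :
    ZMod.castHom (dvd_pow_self p two_ne_zero) (ZMod p) a = 0 ↔ p • a = 0 := by
  have : NeZero (p ^ 2) := ⟨pow_ne_zero 2 hp.out.ne_zero⟩
  obtain ⟨n, rfl⟩ := ZMod.natCast_zmod_surjective a
  rw [map_natCast, nsmul_eq_mul, ← Nat.cast_mul, ZMod.natCast_eq_zero_iff,
    ZMod.natCast_eq_zero_iff, pow_two]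
  exact (Nat.mul_dvd_mul_iff_left hp.out.pos).symm

theorem FE1 [hp : Fact p.Prime] {L : Type} [Group L] [Finite L] (x : L) (hx : orderOf x = p) :
    ∃ (X : Type) (_ : Group X) (_ : Finite X) (f : X →* L), Surjective f ∧
      (∀ u, f u = 1 → u ^ p = 1) ∧ ∀ u, f u = x → u ^ p ≠ 1 := by
  have : NeZero (p ^ 2) := ⟨pow_ne_zero 2 hp.out.ne_zero⟩
  have : NeZero p := ⟨hp.out.ne_zero⟩
  let e : Subgroup.zpowers x ≃* Multiplicative (ZMod p) := mulEquivOfPrimeCardEq (p := p)
    (by rw [Nat.card_zpowers, hx]) (by rw [Nat.card_congr Multiplicative.toAdd, Nat.card_zmod])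
  obtain ⟨φ, hφ, hφe⟩ := PH.of_hom (K := Subgroup.zpowers x) e.toMonoidHom e.surjective
  let c := ZMod.castHom (dvd_pow_self p two_ne_zero) (ZMod p)
  let π : Multiplicative (ZMod (p ^ 2)) →* Multiplicative (ZMod p) :=
    AddMonoidHom.toMultiplicative c.toAddMonoidHom
  have hπ : Surjective π := by
    intro y
    obtain ⟨a, ha⟩ := ZMod.castHom_surjective (dvd_pow_self p two_ne_zero) y.toAdd
    exact ⟨Multiplicative.ofAdd a, ha⟩
  have hπ1 : ∀ a, π a = 1 ↔ a ^ p = 1 := fun a => cast_iff a.toAdd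
  obtain ⟨X, _, _, f, ψ, hf, hψ, h1, h2, h3⟩ := CO (Subgroup.zpowers x) φ hφ π hπ
  refine ⟨X, inferInstance, inferInstance, f, hf, ?_, ?_⟩
  · intro u hu
    apply h2
    · rw [map_pow, hu, one_pow]
    · intro g
      have hgu : f (g * u * g⁻¹) = 1 := by
        rw [map_mul, map_mul, hu, map_inv, mul_one, mul_inv_cancel]
      have hmem : g * u * g⁻¹ ∈ (Subgroup.zpowers x).comap f := by
        rw [Subgroup.mem_comap, hgu]
        exact one_mem _
      rw [← conj_pow, hψ.map_pow hmem, ← hπ1, h1 _ hmem, hgu, hφ.map_one]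
  · intro u hu hup
    have hmem : u ∈ (Subgroup.zpowers x).comap f := by
      rw [Subgroup.mem_comap, hu]
      exact Subgroup.mem_zpowers x
    have h4 : ψ u ^ p = 1 := by rw [← hψ.map_pow hmem, hup, hψ.map_one]
    rw [← hπ1, h1 u hmem, hu] at h4
    have h5 := hφe ⟨x, Subgroup.mem_zpowers x⟩
    change φ x = e ⟨x, Subgroup.mem_zpowers x⟩ at h5
    rw [h4] at h5
    have h6 : (⟨x, Subgroup.mem_zpowers x⟩ : Subgroup.zpowers x) = 1 :=
      (map_eq_one_iff e e.injective).1 h5.symm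
    have h7 : x = 1 := congrArg Subtype.val h6
    rw [h7, orderOf_one] at hx
    exact hp.out.one_lt.ne hx

theorem FE (hF : Fmn F) (hS : Sat F) [hp : Fact p.Prime] {L : Type} [Group L] [Finite L]
    (hL : F L) : ∃ (X : Type) (_ : Group X) (_ : Finite X) (f : X →* L), Surjective f ∧ F X ∧
      (∀ u, f u = 1 → u ^ p = 1) ∧ ∀ u, orderOf (f u) = p → u ^ p ≠ 1 := by
  have h1 := fun x : {x : L // orderOf x = p} => FE1 (p := p) x.1 x.2
  choose X gX fX f hf hk hu using h1
  let P : Subgroup (L × ∀ i, X i) :=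
    { carrier := {x | ∀ i, f i (x.2 i) = x.1}
      one_mem' := fun i => map_one (f i)
      mul_mem' := by
        intro a b ha hb i
        change f i (a.2 i * b.2 i) = a.1 * b.1
        rw [map_mul, ha i, hb i]
      inv_mem' := by
        intro a ha i
        change f i (a.2 i)⁻¹ = (a.1)⁻¹
        rw [map_inv, ha i] }
  let g : P →* L := (MonoidHom.fst _ _).comp P.subtype
  have hg : Surjective g := by
    intro l
    choose s hs using fun i => hf i l
    exact ⟨⟨(l, s), hs⟩, rfl⟩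
  obtain ⟨E, hE1, hE2⟩ := min_supp g hg
  have hgE : Surjective (g.comp E.subtype) := by
    intro l
    obtain ⟨e, he, rfl⟩ := hE1 l
    exact ⟨⟨e, he⟩, rfl⟩
  refine ⟨E, inferInstance, inferInstance, g.comp E.subtype, hgE,
    sat_le hF hS _ hE2 (hF.ker _ hgE hL), ?_, ?_⟩
  · rintro ⟨⟨⟨l, u⟩, hlu⟩, hE⟩ h1
    change l = 1 at h1
    subst h1
    apply Subtype.ext
    apply Subtype.ext
    refine Prod.ext (one_pow p) ?_
    funext i
    exact hk i (u i) (hlu i)
  · rintro ⟨⟨⟨l, u⟩, hlu⟩, hE⟩ h1 h2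
    change orderOf l = p at h1
    have h3 : (u ⟨l, h1⟩) ^ p = 1 := by
      have h4 := congrArg (fun x : E => x.1.1.2) h2
      exact congrFun h4 ⟨l, h1⟩
    exact hu ⟨l, h1⟩ _ (hlu ⟨l, h1⟩) h3

theorem FEn (hF : Fmn F) (hS : Sat F) [hp : Fact p.Prime] {L : Type} [Group L] [Finite L]
    (hL : F L) (n : ℕ) : ∃ (X : Type) (_ : Group X) (_ : Finite X) (f : X →* L), Surjective f ∧
      F X ∧ IsPGroup p f.ker ∧ ∀ u, orderOf (f u) = p → u ^ (p ^ n) ≠ 1 := by
  induction n with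
  | zero =>
    refine ⟨L, inferInstance, inferInstance, MonoidHom.id L, fun x => ⟨x, rfl⟩, hL, ?_, ?_⟩
    · rintro ⟨x, hx⟩
      refine ⟨0, Subtype.ext ?_⟩
      change x ^ (p ^ 0) = 1
      rw [pow_zero, pow_one]
      exact hx
    · intro u hu h
      rw [pow_zero, pow_one] at h
      change orderOf u = p at hu
      rw [h, orderOf_one] at hu
      exact hp.out.one_lt.ne hu
  | succ n ih =>
    obtain ⟨X, _, _, f, hf, hX, hker, hu⟩ := ih
    obtain ⟨X', _, _, f', hf', hX', hker', hu'⟩ := FE (p := p) hF hS hX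
    refine ⟨X', inferInstance, inferInstance, f.comp f', hf.comp hf', hX', ?_, ?_⟩
    · rintro ⟨x, hx⟩
      obtain ⟨k, hk⟩ := hker ⟨f' x, hx⟩
      have h1 : f' x ^ (p ^ k) = 1 := congrArg Subtype.val hk
      refine ⟨k + 1, Subtype.ext ?_⟩
      change x ^ (p ^ (k + 1)) = 1
      rw [pow_succ, pow_mul]
      apply hker'
      rw [map_pow, h1]
    · intro u hou h
      have h1 := hu (f' u) hou
      apply hu' (u ^ p ^ n)
      · refine orderOf_eq_prime ?_ ?_
        · rw [map_pow, ← pow_mul, ← pow_succ, ← map_pow, h, map_one]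
        · rw [map_pow]
          exact h1
      · rw [← pow_mul, ← pow_succ]
        exact h

end

end Pool.Agent.Helper476.T
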