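import Pool.Agent.Helper476.T13

set_option autoImplicit false
set_option linter.style.haveILetI false

namespace Pool.Agent.Helper476.T

open Function Subgroup
open Pool.Agent.Helper476.R (IsChief fcent nil_cent_chief chief_comm chief_pow mem_fcent)
open scoped commutatorElement

theorem fcent_pow' {Y : Type} [Group Y] {R S T : Subgroup Y} [R.Normal] [S.Normal] [T.Normal]
    {n : ℕ} (h : ∀ t ∈ T, t ^ n ∈ S) {g : Y}
    (h1 : g ∈ fcent T S) (h2 : g ∈ fcent R T) : g ^ n ∈ fcent R S := by
  intro r hr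
  let f := QuotientGroup.mk' S
  have hf : ∀ x, f x = 1 ↔ x ∈ S := fun x => QuotientGroup.eq_one_iff x
  set t := g * r * g⁻¹ * r⁻¹ with ht
  have ht' : t ∈ T := h2 r hr
  have h3 : f g * f t * (f g)⁻¹ = f t := by
    have := (hf _).2 (h1 t ht')
    rw [map_mul, map_mul, map_mul, map_inv, map_inv, mul_inv_eq_one] at this
    exact this
  have h4 : f g * f r * (f g)⁻¹ = f t * f r := by
    rw [← map_inv, ← map_mul, ← map_mul, ← map_mul, ht]
    congr 1
    group
  have h5 : ∀ m : ℕ, f g ^ m * f r * (f g ^ m)⁻¹ = f t ^ m * f r := by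
    intro m
    induction m with
    | zero => simp
    | succ m ih =>
      have h6 : f g ^ (m + 1) * f r * (f g ^ (m + 1))⁻¹
          = f g * (f g ^ m * f r * (f g ^ m)⁻¹) * (f g)⁻¹ := by
        rw [pow_succ']; group
      have h7 : f g * (f t ^ m) * (f g)⁻¹ = f t ^ m := by
        rw [← conj_pow, h3]
      have h8 : f g * (f t ^ m * f r) * (f g)⁻¹
          = (f g * (f t ^ m) * (f g)⁻¹) * (f g * f r * (f g)⁻¹) := by group
      rw [h6, ih, h8, h7, h4, pow_succ, mul_assoc]
  rw [← hf, map_mul, map_mul, map_mul, map_inv, map_inv, map_pow, h5 n, ← map_pow,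
    (hf _).2 (h t ht'), one_mul, mul_inv_cancel]

/-- stability: an element centralising every chief factor below the `p`-group `A` acts on it with
order a power of `p` -/
theorem stab_pow {p : ℕ} [hp : Fact p.Prime] {G : Type} [Group G] [Finite G] (R : Subgroup G)
    (hRp : IsPGroup p R) (x : G) (hx : ∀ (A B : Subgroup G) [A.Normal] [B.Normal], IsChief A B →
      A ≤ R → x ∈ fcent A B) (n : ℕ) : ∀ (A : Subgroup G) [A.Normal], A ≤ R → Nat.card A = n →
    ∃ k, x ^ (p ^ k) ∈ fcent A ⊥ := by
  induction n using Nat.strong_induction_on with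
  | _ n ih =>
    intro A hA hAR hn
    by_cases hbot : A = ⊥
    · refine ⟨0, fun r hr => ?_⟩
      rw [hbot, Subgroup.mem_bot] at hr
      rw [hr]
      simp
    · obtain ⟨B, _, hch⟩ := exists_chief_below A ⊥ hA inferInstance (bot_lt_iff_ne_bot.2 hbot)
      have hB := hch.norS
      obtain ⟨k, hk⟩ := ih (Nat.card B) (by
        rw [← hn]
        exact Set.Finite.card_lt_card (Set.toFinite (A : Set G)) hch.lt) B
        (hch.lt.le.trans hAR) rfl
      obtain ⟨a, ha⟩ := (IsPGroup.iff_card).1 (hRp.to_le (hch.lt.le.trans hAR))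
      refine ⟨k + a, ?_⟩
      rw [pow_add, pow_mul]
      refine fcent_pow' (T := B) ?_ hk ((fcent A B).pow_mem (hx A B hch hAR) _)
      intro t ht
      have h1 : (⟨t, ht⟩ : B) ^ Nat.card B = 1 := pow_card_eq_one'
      rw [ha] at h1
      exact congrArg Subtype.val h1

section

variable {F M H : ∀ (G : Type) [Group G], Prop} {p : ℕ}

theorem P5 (hF : Fmn F) (hS : Sat F) [hp : Fact p.Prime] {G : Type} [Group G] [Finite G]
    (hG : F G) {A B : Subgroup G} [A.Normal] [B.Normal] (hch : IsChief A B)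
    (hab : ∀ a ∈ A, ∀ b ∈ A, ⁅a, b⁆ ∈ B) (hpd : p ∣ B.relIndex A) : Fp F p (G ⧸ fcent A B) := by
  have hpow := chief_pow hch hab p hp.out hpd
  let m := QuotientGroup.mk' B
  have hm : ∀ x, m x = 1 ↔ x ∈ B := fun x => QuotientGroup.eq_one_iff x
  let V : Subgroup (G ⧸ B) := A.map m
  have hV : V.Normal := Subgroup.Normal.map inferInstance m (QuotientGroup.mk'_surjective B)
  have hle : B ≤ fcent A B := by
    intro b hb a ha
    have h1 : b * a * b⁻¹ * a⁻¹ = b * (a * b⁻¹ * a⁻¹) := by group
    rw [h1]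
    exact B.mul_mem hb ((inferInstance : B.Normal).conj_mem _ (B.inv_mem hb) a)
  let f : G ⧸ B →* G ⧸ fcent A B := QuotientGroup.map B (fcent A B) (MonoidHom.id G) hle
  have hf : Surjective f := by
    intro x
    obtain ⟨y, rfl⟩ := QuotientGroup.mk_surjective x
    exact ⟨(y : G ⧸ B), rfl⟩
  refine P1 hF hS V ?_ ?_ ?_ f hf ?_ (hF.quot B hG)
  · rintro _ ⟨a, ha, rfl⟩ _ ⟨b, hb, rfl⟩
    have h1 := (hm _).2 (hab a ha b hb)
    rw [map_commutatorElement, commutatorElement_eq_one_iff_mul_comm] at h1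
    exact h1
  · rintro _ ⟨a, ha, rfl⟩
    rw [← map_pow, hm]
    exact hpow a ha
  · intro h
    exact absurd (Pool.Agent.Helper476.R.map_mk_eq_bot h) (not_le_of_gt hch.lt)
  · intro e
    obtain ⟨g, rfl⟩ := QuotientGroup.mk_surjective e
    constructor
    · rintro h _ ⟨a, ha, rfl⟩
      have h1 : g ∈ fcent A B := (QuotientGroup.eq_one_iff g).1 h
      have h2 := (hm _).2 (h1 a ha)
      rw [map_mul, map_mul, map_mul, map_inv, map_inv, mul_inv_eq_one,
        mul_inv_eq_iff_eq_mul] at h2
      exact h2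
    · intro h
      refine (QuotientGroup.eq_one_iff g).2 ?_
      intro a ha
      rw [← hm, map_mul, map_mul, map_mul, map_inv, map_inv, mul_inv_eq_one,
        mul_inv_eq_iff_eq_mul]
      exact h (m a) ⟨a, ha, rfl⟩

theorem P6core (hF : Fmn F) (hS : Sat F) [hp : Fact p.Prime] {L : Type} [Group L] [Finite L]
    (hL : F L) (N : Subgroup L) (hch : IsChief N ⊥) (hC : ∀ x, (∀ n ∈ N, x * n = n * x) → x = 1)
    (hpd : p ∣ Nat.card N) : Fp F p L := by
  have hN := hch.norR
  by_contra hLp
  obtain ⟨E, _, _, f, hf, hE, hker, hord⟩ := FEn (p := p) hF hS hL (Nat.card N)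
  let R := f.ker
  have hRnil : Group.IsNilpotent R := hker.isNilpotent
  -- perfectness of N
  have hNN : ⁅N, N⁆ = N := by
    rcases hch.min ⁅N, N⁆ inferInstance bot_le (Subgroup.commutator_le_left N N) with h1 | h1
    · exfalso
      apply bot_lt_iff_ne_bot.1 hch.lt
      rw [eq_bot_iff]
      intro x hx
      rw [Subgroup.mem_bot]
      apply hC
      intro n hn
      have h2 : ⁅x, n⁆ ∈ ⁅N, N⁆ := Subgroup.commutator_mem_commutator hx hn
      rw [h1, Subgroup.mem_bot, commutatorElement_eq_one_iff_mul_comm] at h2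
      exact h2
    · exact h1
  have hNmin : ∀ T : Subgroup L, T.Normal → T ≠ ⊥ → N ≤ T := by
    intro T hT hTne
    rcases hch.min (T ⊓ N) inferInstance bot_le inf_le_right with h1 | h1
    · exfalso
      apply hTne
      rw [eq_bot_iff]
      intro x hx
      rw [Subgroup.mem_bot]
      apply hC
      intro n hn
      exact (dp_comm N T hN hT (by rw [inf_comm]; exact h1)) x hx n hn
    · rw [← h1]
      exact inf_le_left
  -- chief factors below R are centralised
  have hcent : ∀ x, f x ∈ N → ∀ (A B : Subgroup E) [A.Normal] [B.Normal], IsChief A B →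
      A ≤ R → x ∈ fcent A B := by
    intro x hx A B _ _ hAB hAR
    have hRc : R ≤ fcent A B := by
      intro r hr a ha
      have h1 := nil_cent_chief R A B hRnil hAB r hr a ha
      have h2 : r * a * r⁻¹ * a⁻¹ = ⁅a, r⁆⁻¹ := by
        rw [commutatorElement_def]
        group
      rw [h2]
      exact B.inv_mem h1
    have hAB' : ∀ a ∈ A, ∀ b ∈ A, ⁅a, b⁆ ∈ B := fun a ha b hb =>
      nil_cent_chief R A B hRnil hAB b (hAR hb) a ha
    have hpdA : p ∣ B.relIndex A := by
      obtain ⟨k, hk⟩ := (IsPGroup.iff_card).1 (hker.to_le hAR)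
      have h1 : B.relIndex A ∣ p ^ k := by
        rw [← hk]
        exact Subgroup.relIndex_dvd_card _ _
      obtain ⟨j, _, hj⟩ := (Nat.dvd_prime_pow hp.out).1 h1
      rw [hj]
      refine dvd_pow_self p ?_
      rintro rfl
      rw [pow_zero, Subgroup.relIndex_eq_one] at hj
      exact absurd hj (not_le_of_gt hAB.lt)
    have h5 := P5 hF hS hE hAB hAB' hpdA
    have hCn : ((fcent A B).map f).Normal := Subgroup.Normal.map inferInstance f hf
    by_cases hbot : (fcent A B).map f = ⊥
    · exfalso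
      apply hLp
      rw [Subgroup.map_eq_bot_iff] at hbot
      refine Fp_q hF (QuotientGroup.lift (fcent A B) f (fun y hy => hbot hy)) ?_ h5
      intro l
      obtain ⟨y, rfl⟩ := hf l
      exact ⟨(y : E ⧸ fcent A B), rfl⟩
    · obtain ⟨y, hy, hyx⟩ := hNmin _ hCn hbot hx
      have h1 : y⁻¹ * x ∈ R := by
        change f (y⁻¹ * x) = 1
        rw [map_mul, map_inv, hyx, inv_mul_cancel]
      have h2 := (fcent A B).mul_mem hy (hRc h1)
      rwa [mul_inv_cancel_left] at h2
  -- the minimal subgroup over N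
  let 𝒜 : Set (Subgroup E) := {D | (∀ d ∈ D, f d ∈ N) ∧ ∀ n ∈ N, ∃ d ∈ D, f d = n}
  have hne : 𝒜.Nonempty := ⟨N.comap f, fun d hd => hd, fun n hn => by
    obtain ⟨e, rfl⟩ := hf n
    exact ⟨e, hn, rfl⟩⟩
  obtain ⟨D, ⟨hD1, hD2⟩, hmin⟩ := Set.Finite.exists_minimal (Set.toFinite 𝒜) hne
  have hDmap : D.map f = N := by
    apply le_antisymm
    · rintro _ ⟨d, hd, rfl⟩
      exact hD1 d hd
    · intro n hn
      obtain ⟨d, hd, rfl⟩ := hD2 n hn
      exact ⟨d, hd, rfl⟩
  have hDD : ⁅D, D⁆ = D := by
    apply le_antisymm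
    · rw [Subgroup.commutator_le]
      intro a ha b hb
      rw [commutatorElement_def]
      exact D.mul_mem (D.mul_mem (D.mul_mem ha hb) (D.inv_mem ha)) (D.inv_mem hb)
    · have h1 : ⁅D, D⁆ ≤ D := by
        rw [Subgroup.commutator_le]
        intro a ha b hb
        rw [commutatorElement_def]
        exact D.mul_mem (D.mul_mem (D.mul_mem ha hb) (D.inv_mem ha)) (D.inv_mem hb)
      refine hmin ⟨fun d hd => hD1 d (h1 hd), fun n hn => ?_⟩ h1
      have h2 : n ∈ (⁅D, D⁆).map f := by
        rw [Subgroup.map_commutator, hDmap, hNN]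
        exact hn
      exact h2
  have hperf : commutator D = ⊤ := by
    have h1 := Subgroup.map_subtype_commutator D
    rw [hDD] at h1
    rw [eq_top_iff]
    rintro ⟨x, hx⟩ _
    rw [← h1] at hx
    obtain ⟨y, hy, hyx⟩ := hx
    have : y = ⟨x, h1 ▸ ⟨y, hy, hyx⟩⟩ := Subtype.ext hyx
    rw [this] at hy
    exact hy
  -- D centralises R
  have hDR : ∀ d ∈ D, ∀ r ∈ R, d * r = r * d := by
    let K : Subgroup D := (fcent R ⊥).subgroupOf D
    have hKp : IsPGroup p (D ⧸ K) := by
      intro x
      obtain ⟨⟨d, hd⟩, rfl⟩ := QuotientGroup.mk_surjective x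
      obtain ⟨k, hk⟩ := stab_pow R hker d (hcent d (hD1 d hd)) _ R le_rfl rfl
      exact ⟨k, (QuotientGroup.eq_one_iff _).2 hk⟩
    have hKs : Group.IsSolvable (D ⧸ K) := by
      have : Group.IsNilpotent (D ⧸ K) := hKp.isNilpotent
      infer_instance
    have hKperf : commutator (D ⧸ K) = ⊤ := by
      have h1 := Subgroup.map_commutator (⊤ : Subgroup D) ⊤ (QuotientGroup.mk' K)
      rw [← _root_.commutator_def, hperf,
        Subgroup.map_top_of_surjective _ (QuotientGroup.mk'_surjective K)] at h1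
      rw [_root_.commutator_def]
      exact h1.symm
    have hsub : Subsingleton (D ⧸ K) := by
      by_contra hns
      have : Nontrivial (D ⧸ K) := not_subsingleton_iff_nontrivial.1 hns
      exact (Group.IsSolvable.commutator_lt_top_of_nontrivial (D ⧸ K)).ne hKperf
    intro d hd r hr
    have h1 : ((⟨d, hd⟩ : D) : D ⧸ K) = 1 := Subsingleton.elim _ _
    have h2 : d ∈ fcent R ⊥ := (QuotientGroup.eq_one_iff (⟨d, hd⟩ : D)).1 h1
    have h3 := Subgroup.mem_bot.1 (h2 r hr)
    rw [mul_inv_eq_one, mul_inv_eq_iff_eq_mul] at h3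
    exact h3
  -- transfer
  let K₀ : Subgroup D := (f.comp D.subtype).ker
  have hK₀ : K₀ ≤ center D := by
    intro x hx
    rw [Subgroup.mem_center_iff]
    intro y
    exact Subtype.ext (hDR y y.2 x hx)
  have hidx : (center D).index ∣ Nat.card N := by
    have h1 : K₀.index = Nat.card N := by
      rw [Subgroup.index_ker, MonoidHom.range_comp, Subgroup.range_subtype, hDmap]
    rw [← h1]
    exact Subgroup.index_dvd_of_le hK₀
  have htr : ∀ g : D, g ^ Nat.card N = 1 := by
    intro g
    have h1 : g ∈ (MonoidHom.transferCenterPow D).ker := by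
      have h2 : commutator D ≤ (MonoidHom.transferCenterPow D).ker := by
        rw [_root_.commutator_def, Subgroup.commutator_le]
        intro a _ b _
        rw [MonoidHom.mem_ker, map_commutatorElement, commutatorElement_eq_one_iff_mul_comm]
        apply Subtype.ext
        exact ((Subgroup.mem_center_iff.1 (MonoidHom.transferCenterPow D a).2) _).symm
      rw [hperf] at h2
      exact h2 trivial
    have h2 : g ^ (center D).index = 1 := congrArg Subtype.val h1
    obtain ⟨c, hc⟩ := hidx
    rw [hc, pow_mul, h2, one_pow]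
  -- an element of order p
  obtain ⟨z, hz⟩ := exists_prime_orderOf_dvd_card' (G := N) p hpd
  have hz' : orderOf (z : L) = p := by rw [Subgroup.orderOf_coe, hz]
  obtain ⟨g, hgD, hgz⟩ := hD2 z z.2
  have h1 := hord g (by rw [hgz, hz'])
  apply h1
  have h2 : g ^ p ∈ R := by
    change f (g ^ p) = 1
    rw [map_pow, hgz, ← hz', pow_orderOf_eq_one]
  obtain ⟨k, hk⟩ := hker ⟨_, h2⟩
  have h3 : g ^ (p ^ (k + 1)) = 1 := by
    rw [pow_succ', pow_mul]
    exact congrArg Subtype.val hk
  obtain ⟨j, _, hj⟩ := (Nat.dvd_prime_pow hp.out).1 (orderOf_dvd_of_pow_eq_one h3)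
  have h4 : g ^ Nat.card N = 1 := congrArg Subtype.val (htr ⟨g, hgD⟩)
  have h5 := orderOf_dvd_of_pow_eq_one h4
  rw [hj] at h5
  have h6 : p ^ j ≤ Nat.card N := Nat.le_of_dvd Nat.card_pos h5
  apply orderOf_dvd_iff_pow_eq_one.1
  rw [hj]
  exact pow_dvd_pow p ((Nat.lt_pow_self hp.out.one_lt).le.trans h6)

theorem P56 (hF : Fmn F) (hS : Sat F) [hp : Fact p.Prime] {G : Type} [Group G] [Finite G]
    (hG : F G) {A B : Subgroup G} [A.Normal] [B.Normal] (hch : IsChief A B)
    (hpd : p ∣ B.relIndex A) : Fp F p (G ⧸ fcent A B) := by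
  by_cases hab : ∀ a ∈ A, ∀ b ∈ A, ⁅a, b⁆ ∈ B
  · exact P5 hF hS hG hch hab hpd
  · let C := fcent A B
    let m := QuotientGroup.mk' C
    have hm : Surjective m := QuotientGroup.mk'_surjective C
    have hm1 : ∀ x, m x = 1 ↔ x ∈ C := fun x => QuotientGroup.eq_one_iff x
    -- A ⊓ C = B
    have hBC : B ≤ C := by
      intro b hb a ha
      have h1 : b * a * b⁻¹ * a⁻¹ = b * (a * b⁻¹ * a⁻¹) := by group
      rw [h1]
      exact B.mul_mem hb ((inferInstance : B.Normal).conj_mem _ (B.inv_mem hb) a)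
    have hAC : A ⊓ C = B := by
      rcases hch.min (A ⊓ C) inferInstance (le_inf hch.lt.le hBC) inf_le_left with h1 | h1
      · exact h1
      · exfalso
        apply hab
        intro a ha b hb
        rw [← h1] at ha
        exact ha.2 b hb
    have hsim : Sim m A B (A.map m) ⊥ :=
      { surj := hm
        nR := inferInstance
        nS := inferInstance
        nA := Subgroup.Normal.map inferInstance m hm
        nB := inferInstance
        leS := hch.lt.le
        leB := bot_le
        map_le := fun r hr => ⟨r, hr, rfl⟩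
        iff := fun r hr => by
          rw [Subgroup.mem_bot, hm1]
          constructor
          · intro h
            rw [← hAC]
            exact ⟨hr, h⟩
          · intro h
            exact hBC h
        gen := fun a ha => by
          obtain ⟨r, hr, rfl⟩ := ha
          exact ⟨r, hr, 1, one_mem _, (mul_one _).symm⟩ }
    refine P6core hF hS (hF.quot C hG) (A.map m) (hsim.chief_iff.1 hch) ?_ ?_
    · intro x hx
      obtain ⟨g, rfl⟩ := hm x
      rw [hm1]
      refine (hsim.mem_fc g).2 ?_
      intro a ha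
      rw [Subgroup.mem_bot, mul_inv_eq_one, mul_inv_eq_iff_eq_mul]
      exact hx a ha
    · have h1 := (hsim.dvd hp.out).1 hpd
      rwa [Subgroup.relIndex_bot_left] at h1

end

end Pool.Agent.Helper476.T
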