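import Pool.Agent.Helper476.T14

set_option autoImplicit false
set_option linter.style.haveILetI false

namespace Pool.Agent.Helper476.T

open Function Subgroup
open Pool.Agent.Helper476.R (IsChief fcent nil_cent_chief chief_comm chief_pow mem_fcent)
open scoped commutatorElement

/-- the primes dividing the order of some residual -/
def pi0 (F H : ∀ (G : Type) [Group G], Prop) (p : ℕ) : Prop :=
  ∃ (G : Type) (_ : Group G) (_ : Finite G), F G ∧ p ∣ Nat.card (res H G)

theorem exists_pchief {G : Type} [Group G] [Finite G] {p : ℕ} (hp : p.Prime) (K S : Subgroup G)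
    (hK : K.Normal) (hS : S.Normal) (hSK : S ≤ K) (hd : p ∣ S.relIndex K) :
    ∃ A B : Subgroup G, IsChief A B ∧ S ≤ B ∧ A ≤ K ∧ p ∣ B.relIndex A := by
  let 𝒜 : Set (Subgroup G) := {A | A.Normal ∧ S ≤ A ∧ A ≤ K ∧ p ∣ S.relIndex A}
  obtain ⟨A, ⟨hA, hSA, hAK, hdA⟩, hmin⟩ := Set.Finite.exists_minimal (Set.toFinite 𝒜)
    ⟨K, hK, hSK, le_rfl, hd⟩
  have hne : S ≠ A := by
    rintro rfl
    rw [Subgroup.relIndex_self] at hdA
    exact hp.one_lt.ne' (Nat.dvd_one.1 hdA)
  obtain ⟨B, hSB, hch⟩ := exists_chief_below A S hA hS (lt_of_le_of_ne hSA hne)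
  refine ⟨A, B, hch, hSB, hAK, ?_⟩
  have h1 := Subgroup.relIndex_mul_relIndex S B A hSB hch.lt.le
  rw [← h1] at hdA
  rcases (Nat.Prime.dvd_mul hp).1 hdA with h2 | h2
  · exfalso
    exact absurd (hmin ⟨hch.norS, hSB, hch.lt.le.trans hAK, h2⟩ hch.lt.le) (not_le_of_gt hch.lt)
  · exact h2

theorem surj_of_ne_one {p : ℕ} [hp : Fact p.Prime] {G : Type} [Group G]
    (χ : G →* Multiplicative (ZMod p)) (x : G) (hx : χ x ≠ 1) : Surjective χ := by
  rw [← MonoidHom.range_eq_top]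
  have h1 : Nat.card (Multiplicative (ZMod p)) = p := by
    rw [Nat.card_congr Multiplicative.toAdd, Nat.card_zmod]
  have h2 := Subgroup.card_subgroup_dvd_card χ.range
  rw [h1] at h2
  have : Finite (Multiplicative (ZMod p)) := by
    have : NeZero p := ⟨hp.out.ne_zero⟩
    infer_instance
  rcases (Nat.dvd_prime hp.out).1 h2 with h3 | h3
  · exfalso
    rw [Subgroup.card_eq_one] at h3
    apply hx
    have : χ x ∈ χ.range := ⟨x, rfl⟩
    rw [h3] at this
    exact this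
  · exact Subgroup.eq_top_of_card_eq _ (by rw [h3, h1])

section

variable {F M H : ∀ (G : Type) [Group G], Prop} {p : ℕ}

theorem Zp_of_central (hM : Fmn M) [hp : Fact p.Prime] {E : Type} [Group E] [Finite E]
    (hE : M E) (w : E) (hw : ∀ x, x * w = w * x) (ho : orderOf w = p) :
    M (Multiplicative (ZMod p)) := by
  have hcen : ∀ v ∈ Subgroup.zpowers w, ∀ x, x * v = v * x := by
    rintro _ ⟨k, rfl⟩ x
    have h1 : Commute x w := hw x
    exact h1.zpow_right k
  have hn : (Subgroup.zpowers w).Normal := by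
    constructor
    intro v hv g
    rw [hcen v hv g, mul_inv_cancel_right]
    exact hv
  let e : Subgroup.zpowers w ≃* Multiplicative (ZMod p) := mulEquivOfPrimeCardEq (p := p)
    (by rw [Nat.card_zpowers, ho]) (by rw [Nat.card_congr Multiplicative.toAdd, Nat.card_zmod])
  refine lemA hM (Subgroup.zpowers w) hn e.toMonoidHom 1 ?_ ?_ hE
  · intro g v
    have h1 : (⟨g * v * g⁻¹, hn.conj_mem v v.2 g⟩ : Subgroup.zpowers w) = v := by
      apply Subtype.ext
      change g * (v : E) * g⁻¹ = v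
      rw [hcen v v.2 g, mul_inv_cancel_right]
    rw [h1]
    simp
  · intro x
    exact ⟨e.symm x, 1, by simp⟩

theorem AL_Fp (hF : Fmn F) (hS : Sat F) [hp : Fact p.Prime] {L : Type} [Group L] [Finite L]
    (h : Fp F p L) : Fp F p (AL p L) := by
  have : NeZero p := ⟨hp.out.ne_zero⟩
  refine P3 hF hS (AL.pr (p := p) (L := L)) (fun l => ⟨⟨0, l⟩, rfl⟩) ?_ h
  rintro ⟨x, hx⟩
  refine ⟨1, Subtype.ext ?_⟩
  change x ^ (p ^ 1) = 1
  rw [pow_one]
  exact AL_pow_p x hx

theorem comm_AL {L : Type} [Group L] (y : AL p L) (d : L → ZMod p) :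
    y * ⟨d, 1⟩ * y⁻¹ * (⟨d, 1⟩ : AL p L)⁻¹ = ⟨tr y.l d - d, 1⟩ := by
  have h2 : (y * ⟨d, 1⟩ * y⁻¹).l = 1 := by
    change y.l * 1 * y.l⁻¹ = 1
    rw [mul_one, mul_inv_cancel]
  apply AL.ext
  · funext g
    rw [AL.mul_a, conjW _ _ rfl, h2, inv_one, one_mul, AL.inv_a]
    change tr y.l d g + - d (1 * g) = tr y.l d g - d g
    rw [one_mul]
    exact (sub_eq_add_neg _ _).symm
  · rw [AL.mul_l, h2, AL.inv_l]
    change (1 : L) * 1⁻¹ = 1
    rw [inv_one, mul_one]

theorem W1 (hH : Fmn H) [hp : Fact p.Prime] {L : Type} [Group L] [Finite L] (h : res H L ≠ ⊥) :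
    p ∣ Nat.card (res H (AL p L)) := by
  classical
  have : NeZero p := ⟨hp.out.ne_zero⟩
  have hprs₁ : Surjective (AL.pr (p := p) (L := L)) := fun l => ⟨⟨0, l⟩, rfl⟩
  obtain ⟨y₀, hy₀⟩ := Subgroup.ne_bot_iff_exists_ne_one.1 h
  obtain ⟨y, hy, hyy⟩ := res_lift hH AL.pr hprs₁ y₀.2
  have hyl : y.l ≠ 1 := by
    intro h1
    apply hy₀
    apply Subtype.ext
    rw [← hyy]
    exact h1
  let d : L → ZMod p := fun g => if g = 1 then 1 else 0
  have h1 : y * ⟨d, 1⟩ * y⁻¹ * (⟨d, 1⟩ : AL p L)⁻¹ ∈ res H (AL p L) := by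
    have h2 : y * ⟨d, 1⟩ * y⁻¹ * (⟨d, 1⟩ : AL p L)⁻¹
        = y * ((⟨d, 1⟩ : AL p L) * y⁻¹ * (⟨d, 1⟩ : AL p L)⁻¹) := by group
    rw [h2]
    exact mul_mem hy ((res_normal H _).conj_mem _ (inv_mem hy) _)
  rw [comm_AL] at h1
  have h3 : (⟨tr y.l d - d, 1⟩ : AL p L) ≠ 1 := by
    intro h4
    have h5 : (tr y.l d - d) 1 = 0 := congrFun (congrArg AL.a h4) 1
    have h7 : tr y.l d 1 = 0 := by
      change (if y.l⁻¹ * 1 = 1 then (1 : ZMod p) else 0) = 0
      rw [if_neg]
      rw [mul_one, inv_eq_one]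
      exact hyl
    have h8 : d 1 = 1 := if_pos rfl
    rw [Pi.sub_apply, h7, h8, zero_sub] at h5
    exact (neg_ne_zero.2 (one_ne_zero)) h5
  have h4 := orderOf_eq_prime (AL_pow_p (⟨tr y.l d - d, 1⟩ : AL p L) rfl) h3
  have h5 : orderOf (⟨_, h1⟩ : res H (AL p L)) = p := by
    rw [Subgroup.orderOf_mk, h4]
  have h6 := orderOf_dvd_natCard (⟨_, h1⟩ : res H (AL p L))
  rw [h5] at h6
  exact h6

theorem W2 (hM : Fmn M) (hH : Fmn H) [hp : Fact p.Prime] {L : Type} [Group L] [Finite L]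
    (hpY : p ∣ Nat.card (res H L)) (hML : M (res H (AL p L))) :
    M (Multiplicative (ZMod p)) := by
  classical
  have : NeZero p := ⟨hp.out.ne_zero⟩
  have hprs₂ : Surjective (AL.pr (p := p) (L := L)) := fun l => ⟨⟨0, l⟩, rfl⟩
  let Y₁ := res H L
  let Y₂ := res H (AL p L)
  let δ : L → (L → ZMod p) := fun y g => if g = y then 1 else 0
  let B' : AddSubgroup (L → ZMod p) :=
    { carrier := {a | (⟨a, 1⟩ : AL p L) ∈ Y₂}
      zero_mem' := one_mem Y₂
      add_mem' := by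
        intro a b ha hb
        have h1 : (⟨a + b, 1⟩ : AL p L) = (⟨a, 1⟩ : AL p L) * ⟨b, 1⟩ := by
          ext g
          · change a g + b g = a g + b (1⁻¹ * g)
            rw [inv_one, one_mul]
          · change (1 : L) = 1 * 1
            rw [mul_one]
        change (⟨a + b, 1⟩ : AL p L) ∈ Y₂
        rw [h1]
        exact mul_mem ha hb
      neg_mem' := by
        intro a ha
        have h1 : (⟨-a, 1⟩ : AL p L) = (⟨a, 1⟩ : AL p L)⁻¹ := by
          ext g
          · change - a g = - a (1 * g)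
            rw [one_mul]
          · change (1 : L) = 1⁻¹
            rw [inv_one]
        change (⟨-a, 1⟩ : AL p L) ∈ Y₂
        rw [h1]
        exact inv_mem ha }
  have htr : ∀ y : L, tr y (δ 1) = δ y := by
    intro y
    funext g
    change (if y⁻¹ * g = 1 then (1 : ZMod p) else 0) = if g = y then 1 else 0
    have h4 : (y⁻¹ * g = 1) ↔ (g = y) := by
      rw [inv_mul_eq_one, eq_comm]
    simp only [h4]
  have hB1 : ∀ y ∈ Y₁, δ y - δ 1 ∈ B' := by
    intro y hy
    obtain ⟨x, hx, hxy⟩ := res_lift hH AL.pr hprs₂ hy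
    have hxl : x.l = y := hxy
    have h1 : x * ⟨δ 1, 1⟩ * x⁻¹ * (⟨δ 1, 1⟩ : AL p L)⁻¹ ∈ Y₂ := by
      have h2 : x * ⟨δ 1, 1⟩ * x⁻¹ * (⟨δ 1, 1⟩ : AL p L)⁻¹
          = x * ((⟨δ 1, 1⟩ : AL p L) * x⁻¹ * (⟨δ 1, 1⟩ : AL p L)⁻¹) := by group
      rw [h2]
      exact mul_mem hx ((res_normal H _).conj_mem _ (inv_mem hx) _)
    rw [comm_AL, hxl, htr] at h1
    exact h1
  let ind : L → ZMod p := fun g => if g ∈ Y₁ then 1 else 0
  have hind : ind ∈ B' := by
    letI := Fintype.ofFinite Y₁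
    have h1 : ∑ y : Y₁, (δ y - δ 1) ∈ B' := sum_mem (fun y _ => hB1 y y.2)
    have h2 : ∑ y : Y₁, (δ y - δ 1) = ind := by
      funext g
      rw [Finset.sum_apply]
      simp only [Pi.sub_apply]
      rw [Finset.sum_sub_distrib, Finset.sum_const, Finset.card_univ,
        ← Nat.card_eq_fintype_card]
      have h3 : (Nat.card Y₁) • δ 1 g = 0 := by
        obtain ⟨c, hc⟩ := hpY
        have h4 : Nat.card Y₁ = p * c := hc
        rw [h4, nsmul_eq_mul, Nat.cast_mul, ZMod.natCast_self, zero_mul, zero_mul]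
      rw [h3, sub_zero]
      by_cases hg : g ∈ Y₁
      · rw [Finset.sum_eq_single (⟨g, hg⟩ : Y₁)]
        · change (if g = g then (1 : ZMod p) else 0) = if g ∈ Y₁ then 1 else 0
          rw [if_pos rfl, if_pos hg]
        · intro b _ hb
          change (if g = (b : L) then (1 : ZMod p) else 0) = 0
          rw [if_neg]
          intro h4
          exact hb (Subtype.ext h4.symm)
        · intro h4
          exact absurd (Finset.mem_univ _) h4
      · change _ = if g ∈ Y₁ then (1 : ZMod p) else 0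
        rw [if_neg hg]
        refine Finset.sum_eq_zero fun b _ => ?_
        change (if g = (b : L) then (1 : ZMod p) else 0) = 0
        rw [if_neg]
        intro h4
        exact hg (h4 ▸ b.2)
    rw [h2] at h1
    exact h1
  let w : Y₂ := ⟨⟨ind, 1⟩, hind⟩
  refine Zp_of_central hM (E := Y₂) hML w ?_ ?_
  · intro x
    have h1 : (x : AL p L) * w * (x : AL p L)⁻¹ = w := by
      apply AL.ext
      · rw [conjW _ _ rfl]
        funext g
        change (if ((x : AL p L).l)⁻¹ * g ∈ Y₁ then (1 : ZMod p) else 0) = if g ∈ Y₁ then 1 else 0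
        have h2 : (x : AL p L).l ∈ Y₁ := res_mem hH AL.pr hprs₂ x.2
        have h3 : ((x : AL p L).l)⁻¹ * g ∈ Y₁ ↔ g ∈ Y₁ :=
          Subgroup.mul_mem_cancel_left Y₁ (Y₁.inv_mem h2)
        simp only [h3]
      · change (x : AL p L).l * 1 * ((x : AL p L).l)⁻¹ = 1
        rw [mul_one, mul_inv_cancel]
    apply Subtype.ext
    change (x : AL p L) * w = w * x
    rw [← mul_inv_eq_iff_eq_mul]
    exact h1
  · refine orderOf_eq_prime ?_ ?_
    · exact Subtype.ext (AL_pow_p (⟨ind, 1⟩ : AL p L) rfl)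
    · intro h1
      have h2 := congrArg (fun x : Y₂ => (x : AL p L).a 1) h1
      change (if (1 : L) ∈ Y₁ then (1 : ZMod p) else 0) = 0 at h2
      rw [if_pos (one_mem Y₁)] at h2
      exact one_ne_zero h2

theorem Zp_mem (hF : Fmn F) (hS : Sat F) (hM : Fmn M) (hH : Fmn H)
    (hFMH : ∀ (G : Type) [Group G] [Finite G], F G ↔ M (res H G)) [hp : Fact p.Prime]
    (h : pi0 F H p) : M (Multiplicative (ZMod p)) := by
  classical
  obtain ⟨G, _, _, hG, hpd⟩ := h
  have : NeZero p := ⟨hp.out.ne_zero⟩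
  obtain ⟨A, B, hch, _, hAK, hpdA⟩ := exists_pchief hp.out (res H G) ⊥ inferInstance inferInstance
    bot_le (by rwa [Subgroup.relIndex_bot_left])
  have hA := hch.norR
  have hB := hch.norS
  have hL₀ := P56 hF hS hG hch hpdA
  by_cases hbot : res H (G ⧸ fcent A B) = ⊥
  · -- the residual centralises the chief factor
    have hKC : res H G ≤ fcent A B := by
      intro x hx
      have h1 := res_mem hH (QuotientGroup.mk' (fcent A B)) (QuotientGroup.mk'_surjective _) hx
      rw [hbot] at h1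
      exact (QuotientGroup.eq_one_iff x).1 h1
    obtain ⟨a, ha, haB, hap⟩ := (dvd_relIndex_iff hp.out).1 hpdA
    let K := res H G
    let B' : Subgroup K := B.subgroupOf K
    have hB' : B'.Normal := inferInstance
    refine Zp_of_central hM (E := K ⧸ B') (hM.quot B' ((hFMH G).1 hG))
      (QuotientGroup.mk' B' ⟨a, hAK ha⟩) ?_ ?_
    · intro x
      obtain ⟨k, rfl⟩ := QuotientGroup.mk'_surjective B' x
      have h1 : QuotientGroup.mk' B' (k * ⟨a, hAK ha⟩ * k⁻¹ * ⟨a, hAK ha⟩⁻¹) = 1 :=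
        (QuotientGroup.eq_one_iff _).2 (hKC k.2 a ha)
      rw [map_mul, map_mul, map_mul, map_inv, map_inv, mul_inv_eq_one,
        mul_inv_eq_iff_eq_mul] at h1
      exact h1
    · refine orderOf_eq_prime ?_ ?_
      · rw [← map_pow]
        exact (QuotientGroup.eq_one_iff _).2 hap
      · intro h1
        exact haB ((QuotientGroup.eq_one_iff (⟨a, hAK ha⟩ : K)).1 h1)
  · have hL₁ : Fp F p (AL p (G ⧸ fcent A B)) := AL_Fp hF hS hL₀
    exact W2 hM hH (W1 hH hbot) ((hFMH _).1 hL₁)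

theorem H_le_Fp (hM : Fmn M) (hH : Fmn H)
    (hFMH : ∀ (G : Type) [Group G] [Finite G], F G ↔ M (res H G)) [hp : Fact p.Prime]
    (hZ : M (Multiplicative (ZMod p))) (G : Type) [Group G] [Finite G] (hG : H G) :
    Fp F p G := by
  have : NeZero p := ⟨hp.out.ne_zero⟩
  refine (hFMH (AL p G)).2 ?_
  have hprs : Surjective (AL.pr (p := p) (L := G)) := fun l => ⟨⟨0, l⟩, rfl⟩
  have hle : res H (AL p G) ≤ (AL.pr (p := p) (L := G)).ker := res_le_ker hH _ hprs hG
  refine sepM hM ?_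
  rintro ⟨x, hx⟩ hne
  have hxl : x.l = 1 := hle hx
  have h1 : ∃ g, x.a g ≠ 0 := by
    by_contra hcon
    push Not at hcon
    apply hne
    apply Subtype.ext
    ext g
    · exact hcon g
    · exact hxl
  obtain ⟨g, hg⟩ := h1
  let χ : res H (AL p G) →* Multiplicative (ZMod p) := MonoidHom.mk'
    (fun y => Multiplicative.ofAdd ((y : AL p G).a g)) (by
    rintro ⟨y, hy⟩ ⟨z, hz⟩
    have hyl : y.l = 1 := hle hy
    change Multiplicative.ofAdd (y.a g + z.a (y.l⁻¹ * g)) = _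
    rw [hyl, inv_one, one_mul]
    rfl)
  exact ⟨Multiplicative (ZMod p), inferInstance, χ, surj_of_ne_one χ ⟨x, hx⟩ hg, hZ, hg⟩

end

end Pool.Agent.Helper476.T
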