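import Pool.Agent.Helper476.T15

set_option autoImplicit false
set_option linter.style.haveILetI false

namespace Pool.Agent.Helper476.T

open Function Subgroup
open Pool.Agent.Helper476.R (IsChief fcent nil_cent_chief chief_comm chief_pow mem_fcent)
open scoped commutatorElement

/-- the formation attached to the function `m` with support `π₀` -/
def LF (π₀ : ℕ → Prop) (m : ℕ → ∀ (G : Type) [Group G], Prop) (Y : Type) [Group Y] : Prop :=
  Finite Y ∧ ∀ (A B : Subgroup Y) [A.Normal] [B.Normal], IsChief A B → ∀ p : ℕ, p.Prime →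
    p ∣ B.relIndex A → π₀ p ∧ m p (Y ⧸ fcent A B)

section

variable {π₀ : ℕ → Prop} {m : ℕ → ∀ (G : Type) [Group G], Prop}

/-- the local condition at one factor -/
def Loc (π₀ : ℕ → Prop) (m : ℕ → ∀ (G : Type) [Group G], Prop) {Y : Type} [Group Y]
    (A B : Subgroup Y) [A.Normal] [B.Normal] : Prop :=
  ∀ p : ℕ, p.Prime → p ∣ B.relIndex A → π₀ p ∧ m p (Y ⧸ fcent A B)

theorem Sim.loc (hm : ∀ p, Fmn (m p)) {G K : Type} [Group G] [Group K] [Finite G] [Finite K]
    {f : G →* K} {R S : Subgroup G} {A B : Subgroup K} (h : Sim f R S A B) [R.Normal] [S.Normal]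
    [A.Normal] [B.Normal] : Loc π₀ m R S ↔ Loc π₀ m A B := by
  constructor
  · intro h1 p hp hd
    obtain ⟨h2, h3⟩ := h1 p hp ((h.dvd hp).2 hd)
    exact ⟨h2, (h.aut_iff (hm p)).1 h3⟩
  · intro h1 p hp hd
    obtain ⟨h2, h3⟩ := h1 p hp ((h.dvd hp).1 hd)
    exact ⟨h2, (h.aut_iff (hm p)).2 h3⟩

theorem LF_q (hm : ∀ p, Fmn (m p)) {G K : Type} [Group G] [Group K] [Finite G] (f : G →* K)
    (hf : Surjective f) (h : LF π₀ m G) : LF π₀ m K := by
  have : Finite K := Finite.of_surjective f hf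
  refine ⟨inferInstance, ?_⟩
  intro A B hA hB hch
  have hs := sim_comap f hf hA hB hch.lt.le
  have h1 : Loc π₀ m (A.comap f) (B.comap f) := h.2 _ _ (hs.chief_iff.2 hch)
  exact (hs.loc hm).1 h1

theorem LF_fmn (hm : ∀ p, Fmn (m p)) : Fmn (LF π₀ m) where
  one := by
    refine ⟨inferInstance, ?_⟩
    intro A B _ _ hch
    exfalso
    have : A = B := Subsingleton.elim _ _
    exact absurd hch.lt (this ▸ lt_irrefl _)
  q := fun _ _ _ _ _ f hf h => LF_q hm f hf h
  r0 := by
    intro T Q1 Q2 _ _ _ _ p1 p2 hp1 hp2 hk h1 h2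
    have : Finite Q1 := h1.1
    have : Finite Q2 := h2.1
    refine ⟨inferInstance, ?_⟩
    intro R S hR hS hch
    by_cases h4 : R ⊓ p1.ker ≤ S
    · have hs := sim_map p1 hp1 hR hS hch.lt.le (fun r hr hr' => h4 ⟨hr, hr'⟩)
      have hA := hs.nA
      have hB := hs.nB
      have h5 : Loc π₀ m (R.map p1) (S.map p1) := h1.2 _ _ (hs.chief_iff.1 hch)
      exact (hs.loc hm).2 h5
    · have h5 : (R ⊓ p1.ker) ⊔ S = R := by
        rcases hch.min ((R ⊓ p1.ker) ⊔ S) inferInstance le_sup_right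
          (sup_le inf_le_left hch.lt.le) with h6 | h6
        · exact absurd (h6 ▸ le_sup_left) h4
        · exact h6
      have hs := sim_persp (R ⊓ p1.ker) S inferInstance hS
      have hs2 := sim_map p2 hp2 (R := R ⊓ p1.ker) (S := (R ⊓ p1.ker) ⊓ S) inferInstance
        inferInstance inf_le_left (fun r hr hr' => by
          have : r = 1 := hk r hr.2 hr'
          rw [this]
          exact one_mem _)
      have hA := hs2.nA
      have hB := hs2.nB
      have h6 : IsChief ((R ⊓ p1.ker) ⊔ S) S := by rw [h5]; exact hch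
      have h7 := h2.2 _ _ (hs2.chief_iff.1 (hs.chief_iff.2 h6))
      have h8 : Loc π₀ m (R ⊓ p1.ker) ((R ⊓ p1.ker) ⊓ S) := (hs2.loc hm).2 h7
      have h9 : Loc π₀ m ((R ⊓ p1.ker) ⊔ S) S := (hs.loc hm).1 h8
      intro p hp hd
      have h10 := h9 p hp (by rw [h5]; exact hd)
      refine ⟨h10.1, ?_⟩
      refine (hm p).mono ?_ h10.2
      intro g hg r hr
      exact hg r (h5.symm ▸ hr)

/-- the formations `m p` -/
def mm (F H : ∀ (G : Type) [Group G], Prop) (p : ℕ) (G : Type) [Group G] : Prop :=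
  ∃ (D : Type) (_ : Group D) (_ : Finite D) (e : D →* G), Surjective e ∧ RY F H p D

theorem mm_fmn (F H : ∀ (G : Type) [Group G], Prop) (p : ℕ) : Fmn (mm F H p) where
  one := ⟨Unit, inferInstance, inferInstance, MonoidHom.id Unit, fun x => ⟨x, rfl⟩,
    fun d hd => absurd rfl hd⟩
  q := by
    rintro G K _ _ _ f hf ⟨D, _, _, e, he, hD⟩
    exact ⟨D, inferInstance, inferInstance, f.comp e, hf.comp he, hD⟩
  r0 := by
    rintro T Q1 Q2 _ _ _ _ p1 p2 hp1 hp2 hk ⟨D1, _, _, e1, he1, hD1⟩ ⟨D2, _, _, e2, he2, hD2⟩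
    let P : Subgroup (T × D1 × D2) :=
      { carrier := {x | p1 x.1 = e1 x.2.1 ∧ p2 x.1 = e2 x.2.2}
        one_mem' := by
          constructor
          · change p1 1 = e1 1
            rw [map_one, map_one]
          · change p2 1 = e2 1
            rw [map_one, map_one]
        mul_mem' := by
          rintro a b ⟨ha, ha'⟩ ⟨hb, hb'⟩
          constructor
          · change p1 (a.1 * b.1) = e1 (a.2.1 * b.2.1)
            rw [map_mul, map_mul, ha, hb]
          · change p2 (a.1 * b.1) = e2 (a.2.2 * b.2.2)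
            rw [map_mul, map_mul, ha', hb']
        inv_mem' := by
          rintro a ⟨ha, ha'⟩
          constructor
          · change p1 (a.1)⁻¹ = e1 (a.2.1)⁻¹
            rw [map_inv, map_inv, ha]
          · change p2 (a.1)⁻¹ = e2 (a.2.2)⁻¹
            rw [map_inv, map_inv, ha'] }
    let g : P →* T := (MonoidHom.fst _ _).comp P.subtype
    let g1 : P →* D1 := (MonoidHom.fst _ _).comp ((MonoidHom.snd _ _).comp P.subtype)
    let g2 : P →* D2 := (MonoidHom.snd _ _).comp ((MonoidHom.snd _ _).comp P.subtype)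
    have hg1 : Surjective g1 := by
      intro d
      obtain ⟨t, ht⟩ := hp1 (e1 d)
      obtain ⟨d2, hd2⟩ := he2 (p2 t)
      exact ⟨⟨(t, d, d2), ht, hd2.symm⟩, rfl⟩
    have hg2 : Surjective g2 := by
      intro d
      obtain ⟨t, ht⟩ := hp2 (e2 d)
      obtain ⟨d1, hd1⟩ := he1 (p1 t)
      exact ⟨⟨(t, d1, d), hd1.symm, ht⟩, rfl⟩
    refine ⟨P, inferInstance, inferInstance, g, ?_, ?_⟩
    · intro t
      obtain ⟨d1, hd1⟩ := he1 (p1 t)
      obtain ⟨d2, hd2⟩ := he2 (p2 t)
      exact ⟨⟨(t, d1, d2), hd1.symm, hd2.symm⟩, rfl⟩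
    · intro x hx
      by_cases h1 : g1 x = 1
      · by_cases h2 : g2 x = 1
        · exfalso
          apply hx
          have h3 : x.1.1 = 1 := by
            apply hk
            · rw [x.2.1, show x.1.2.1 = 1 from h1, map_one]
            · rw [x.2.2, show x.1.2.2 = 1 from h2, map_one]
          exact Subtype.ext (Prod.ext h3 (Prod.ext h1 h2))
        · obtain ⟨Q, _, q, hq, hQ, hqd⟩ := hD2 _ h2
          exact ⟨Q, inferInstance, q.comp g2, hq.comp hg2, hQ, hqd⟩
      · obtain ⟨Q, _, q, hq, hQ, hqd⟩ := hD1 _ h1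
        exact ⟨Q, inferInstance, q.comp g1, hq.comp hg1, hQ, hqd⟩

end

end Pool.Agent.Helper476.T
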