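import Pool.Agent.Helper476.T16

set_option autoImplicit false
set_option linter.style.haveILetI false

namespace Pool.Agent.Helper476.T

open Function Subgroup
open Pool.Agent.Helper476.R (IsChief fcent nil_cent_chief chief_comm chief_pow mem_fcent)
open scoped commutatorElement

theorem exists_chief_above {G : Type} [Group G] [Finite G] (S C : Subgroup G) (hS : S.Normal)
    (hC : C.Normal) (hSC : S < C) : ∃ A : Subgroup G, A ≤ C ∧ IsChief A S := by
  let ℬ : Set (Subgroup G) := {B | B.Normal ∧ B ≤ C ∧ S < B}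
  obtain ⟨B, ⟨hB, hBC, hSB⟩, hmin⟩ := Set.Finite.exists_minimal (Set.toFinite ℬ)
    ⟨C, hC, le_rfl, hSC⟩
  refine ⟨B, hBC, hB, hS, hSB, fun T hT h1 h2 => ?_⟩
  by_cases h3 : T = S
  · exact Or.inl h3
  · exact Or.inr (le_antisymm h2
      (hmin ⟨hT, h2.trans hBC, lt_of_le_of_ne h1 (Ne.symm h3)⟩ h2))

theorem powhom {E : Type} [Group E] [Finite E] (Z : Subgroup E) (hZ : Z ≤ center E) (x y : E) :
    (x * y) ^ Z.index = x ^ Z.index * y ^ Z.index := by
  obtain ⟨d, hd⟩ := Subgroup.index_dvd_of_le hZ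
  have h1 : ∀ g : E, g ^ (center E).index ∈ center E := fun g =>
    (MonoidHom.transferCenterPow E g).2
  have h2 : (x * y) ^ (center E).index = x ^ (center E).index * y ^ (center E).index :=
    congrArg Subtype.val (map_mul (MonoidHom.transferCenterPow E) x y)
  rw [hd, pow_mul, pow_mul, pow_mul, h2]
  have h3 : Commute (x ^ (center E).index) (y ^ (center E).index) :=
    Subgroup.mem_center_iff.1 (h1 y) _
  exact h3.mul_pow d

theorem pnil {G : Type} [Group G] [Finite G] {p : ℕ} [hp : Fact p.Prime] (N C : Subgroup G)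
    (hC : C.Normal)
    (hyp : ∀ (A B : Subgroup G) [A.Normal] [B.Normal], IsChief A B → N ≤ B → A ≤ C →
      p ∣ B.relIndex A → C ≤ fcent A B) :
    ∀ S : Subgroup G, S.Normal → N ≤ S → S ≤ C → ∃ V : Subgroup G, V.Normal ∧ S ≤ V ∧ V ≤ C ∧
      ¬ p ∣ S.relIndex V ∧ ∀ c ∈ C, ∃ k, c ^ (p ^ k) ∈ V := by
  by_contra hcon
  push Not at hcon
  let 𝒮 : Set (Subgroup G) := {S | S.Normal ∧ N ≤ S ∧ S ≤ C ∧ ∀ V : Subgroup G, V.Normal → S ≤ V →
    V ≤ C → ¬ p ∣ S.relIndex V → ∃ c ∈ C, ∀ k, c ^ (p ^ k) ∉ V}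
  have hne : 𝒮.Nonempty := by
    obtain ⟨S, h1, h2, h3, h4⟩ := hcon
    exact ⟨S, h1, h2, h3, h4⟩
  obtain ⟨S, ⟨hS, hNS, hSC, hbad⟩, hmax⟩ := Set.Finite.exists_maximal (Set.toFinite 𝒮) hne
  by_cases hSeq : S = C
  · subst hSeq
    obtain ⟨c, hc, hck⟩ := hbad S hS le_rfl le_rfl (by
      rw [Subgroup.relIndex_self]
      exact hp.out.one_lt.ne' ∘ Nat.dvd_one.1)
    exact hck 0 (S.pow_mem hc _)
  · obtain ⟨S₁, hS₁C, hch⟩ := exists_chief_above S C hS hC (lt_of_le_of_ne hSC hSeq)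
    have hS₁ := hch.norR
    have h1 : ∃ V : Subgroup G, V.Normal ∧ S₁ ≤ V ∧ V ≤ C ∧
      ¬ p ∣ S₁.relIndex V ∧ ∀ c ∈ C, ∃ k, c ^ (p ^ k) ∈ V := by
      by_contra hcon2
      push Not at hcon2
      exact absurd (hmax ⟨hS₁, hNS.trans hch.lt.le, hS₁C, hcon2⟩ hch.lt.le)
        (not_le_of_gt hch.lt)
    obtain ⟨V₁, hV₁, hS₁V, hV₁C, hpV, hck⟩ := h1
    by_cases hpd : p ∣ S.relIndex S₁
    · have hcc : C ≤ fcent S₁ S := hyp S₁ S hch hNS hS₁C hpd
      have hab : ∀ a ∈ S₁, ∀ b ∈ S₁, ⁅a, b⁆ ∈ S := by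
        intro a ha b hb
        have := hcc (hS₁C ha) b hb
        rwa [commutatorElement_def]
      have hpow := chief_pow hch hab p hp.out hpd
      let q := QuotientGroup.mk' (S.subgroupOf V₁)
      have hq1 : ∀ x : V₁, q x = 1 ↔ (x : G) ∈ S := fun x => QuotientGroup.eq_one_iff x
      let Z : Subgroup (V₁ ⧸ S.subgroupOf V₁) := (S₁.subgroupOf V₁).map q
      have hZ : Z ≤ center _ := by
        rintro _ ⟨z, hz, rfl⟩
        rw [Subgroup.mem_center_iff]
        intro x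
        obtain ⟨v, rfl⟩ := QuotientGroup.mk'_surjective _ x
        have h2 : q (v * z * v⁻¹ * z⁻¹) = 1 := (hq1 _).2 (hcc (hV₁C v.2) z hz)
        rw [map_mul, map_mul, map_mul, map_inv, map_inv, mul_inv_eq_one,
          mul_inv_eq_iff_eq_mul] at h2
        exact h2
      have hidx : Z.index = S₁.relIndex V₁ := by
        refine Subgroup.index_map_eq _ (QuotientGroup.mk'_surjective _) ?_
        rw [QuotientGroup.ker_mk']
        exact Subgroup.comap_mono hch.lt.le
      set n := S₁.relIndex V₁ with hn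
      have hcop : Nat.Coprime p n := (Nat.Prime.coprime_iff_not_dvd hp.out).2 hpV
      have hmul : ∀ x y : V₁, q (x * y) ^ n = q x ^ n * q y ^ n := by
        intro x y
        rw [map_mul, ← hidx]
        exact powhom Z hZ _ _
      have hqn : ∀ x : V₁, q x ^ n = 1 ↔ (x : G) ^ n ∈ S := by
        intro x
        rw [← map_pow, hq1]
        rfl
      let V : Subgroup G :=
        { carrier := {x | x ∈ V₁ ∧ x ^ n ∈ S}
          one_mem' := ⟨one_mem _, by rw [one_pow]; exact one_mem _⟩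
          mul_mem' := by
            rintro x y ⟨hx, hx'⟩ ⟨hy, hy'⟩
            refine ⟨mul_mem hx hy, ?_⟩
            have h2 := hmul ⟨x, hx⟩ ⟨y, hy⟩
            rw [(hqn ⟨x, hx⟩).2 hx', (hqn ⟨y, hy⟩).2 hy', mul_one, hqn] at h2
            exact h2
          inv_mem' := by
            rintro x ⟨hx, hx'⟩
            refine ⟨inv_mem hx, ?_⟩
            rw [inv_pow]
            exact inv_mem hx' }
      have hVn : V.Normal := by
        constructor
        rintro x ⟨hx, hx'⟩ g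
        refine ⟨hV₁.conj_mem x hx g, ?_⟩
        rw [conj_pow]
        exact hS.conj_mem _ hx' g
      have hSV : S ≤ V := fun s hs => ⟨hS₁V (hch.lt.le hs), S.pow_mem hs n⟩
      obtain ⟨c, hc, hcV⟩ := hbad V hVn hSV (fun x hx => hV₁C hx.1) (by
        intro hd
        obtain ⟨v, hv, hvS, hvp⟩ := (dvd_relIndex_iff hp.out).1 hd
        apply hvS
        have h2 : ((v : G) : G ⧸ S) ^ n = 1 := (QuotientGroup.eq_one_iff _).2 hv.2
        have h3 : ((v : G) : G ⧸ S) ^ p = 1 := (QuotientGroup.eq_one_iff _).2 hvp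
        have h4 := Nat.dvd_gcd (orderOf_dvd_of_pow_eq_one h3) (orderOf_dvd_of_pow_eq_one h2)
        rw [hcop, Nat.dvd_one, orderOf_eq_one_iff] at h4
        exact (QuotientGroup.eq_one_iff _).1 h4)
      obtain ⟨k, hk⟩ := hck c hc
      apply hcV (k + 1)
      refine ⟨?_, ?_⟩
      · rw [pow_succ, pow_mul]
        exact V₁.pow_mem hk p
      · have h2 : (c ^ p ^ k) ^ n ∈ S₁ := by
          have h3 : (⟨c ^ p ^ k, hk⟩ : V₁) ^ (S₁.subgroupOf V₁).index ∈ S₁.subgroupOf V₁ :=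
            Subgroup.pow_index_mem _ _
          exact h3
        have h3 := hpow _ h2
        rw [pow_succ, pow_mul, ← pow_mul _ p n, mul_comm p n, pow_mul]
        exact h3
    · obtain ⟨c, hc, hcV⟩ := hbad V₁ hV₁ (hch.lt.le.trans hS₁V) hV₁C (by
        intro hd
        rw [← Subgroup.relIndex_mul_relIndex S S₁ V₁ hch.lt.le hS₁V] at hd
        rcases (Nat.Prime.dvd_mul hp.out).1 hd with h2 | h2
        · exact hpd h2
        · exact hpV h2)
      obtain ⟨k, hk⟩ := hck c hc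
      exact hcV k hk

/-- conjugacy of complements of an abelian normal subgroup of coprime order -/
theorem conj_compl {G : Type} [Group G] [Finite G] (N V Q : Subgroup G) (hN : N.Normal)
    (hV : V.Normal) (hab : ∀ a ∈ N, ∀ b ∈ N, a * b = b * a) (hQV : Q ≤ V) (hQN : Q ⊓ N = ⊥)
    (hVQ : ∀ v ∈ V, ∃ n ∈ N, ∃ q ∈ Q, v = n * q) (hcop : Nat.Coprime (Nat.card N) (Nat.card Q))
    (y : G) : ∃ m ∈ N, ∀ q ∈ Q, (m⁻¹ * y) * q * (m⁻¹ * y)⁻¹ ∈ Q := by
  classical
  letI : CommGroup N := { (inferInstance : Group N) with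
    mul_comm := fun a b => Subtype.ext (hab a a.2 b b.2) }
  letI := Fintype.ofFinite Q
  have h1 : ∀ a : Q, ∃ q : Q, y * q * y⁻¹ * (a : G)⁻¹ ∈ N := by
    intro a
    obtain ⟨n, hn, q, hq, h2⟩ := hVQ (y⁻¹ * a * y⁻¹⁻¹) (hV.conj_mem a (hQV a.2) _)
    refine ⟨⟨q, hq⟩, ?_⟩
    have h3 : y * q * y⁻¹ * (a : G)⁻¹ = y * n⁻¹ * y⁻¹ := by
      have h4 : (a : G) = y * (n * q) * y⁻¹ := by
        rw [← h2]
        group
      rw [h4]
      group
    change y * q * y⁻¹ * (a : G)⁻¹ ∈ N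
    rw [h3]
    exact hN.conj_mem _ (inv_mem hn) _
  choose s hs using h1
  let c : Q → N := fun a => ⟨y * s a * y⁻¹ * (a : G)⁻¹, hs a⟩
  have hc : ∀ a : Q, y * (s a : G) * y⁻¹ = (c a : G) * a := by
    intro a
    change _ = y * s a * y⁻¹ * (a : G)⁻¹ * a
    group
  let cj : G → (N →* N) := fun e => (MulAut.conjNormal (H := N) e).toMonoidHom
  have hcj : ∀ e (v : N), ((cj e v : N) : G) = e * v * e⁻¹ := fun e v => MulAut.conjNormal_apply e v
  have hsm : ∀ a b : Q, s (a * b) = s a * s b := by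
    intro a b
    have h2 : y * ((s (a * b) : G)⁻¹ * (s a * s b)) * y⁻¹ ∈ N := by
      have h3 : y * ((s (a * b) : G)⁻¹ * (s a * s b)) * y⁻¹
          = (y * (s (a * b) : G) * y⁻¹)⁻¹ * ((y * s a * y⁻¹) * (y * s b * y⁻¹)) := by group
      rw [h3, hc, hc, hc]
      have h4 : ((c (a * b) : G) * ((a * b : Q) : G))⁻¹ * ((c a : G) * a * ((c b : G) * b))
          = (((a * b : Q) : G))⁻¹ * ((c (a * b) : G)⁻¹ * ((c a : G) * (a * (c b : G) * (a : G)⁻¹)))
            * (((a * b : Q) : G))⁻¹⁻¹ := by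
        rw [Subgroup.coe_mul]
        group
      rw [h4]
      exact hN.conj_mem _ (mul_mem (inv_mem (c (a * b)).2)
        (mul_mem (c a).2 (hN.conj_mem _ (c b).2 _))) _
    have h3 : (s (a * b) : G)⁻¹ * (s a * s b) ∈ Q ⊓ N := by
      refine ⟨Q.mul_mem (Q.inv_mem (s (a * b)).2) (Q.mul_mem (s a).2 (s b).2), ?_⟩
      have h4 := hN.conj_mem _ h2 y⁻¹
      have h5 : y⁻¹ * (y * ((s (a * b) : G)⁻¹ * (s a * s b)) * y⁻¹) * y⁻¹⁻¹
          = (s (a * b) : G)⁻¹ * (s a * s b) := by group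
      rwa [h5] at h4
    rw [hQN, Subgroup.mem_bot, inv_mul_eq_one] at h3
    exact Subtype.ext h3
  have hcm : ∀ a b : Q, c (a * b) = c a * cj a (c b) := by
    intro a b
    apply Subtype.ext
    rw [Subgroup.coe_mul, hcj]
    have h2 := hc (a * b)
    rw [hsm, Subgroup.coe_mul, Subgroup.coe_mul] at h2
    have h3 : y * ((s a : G) * s b) * y⁻¹ = (y * s a * y⁻¹) * (y * s b * y⁻¹) := by group
    rw [h3, hc, hc] at h2
    have h4 : (c (a * b) : G) = (c a : G) * a * ((c b : G) * b) * ((a : G) * b)⁻¹ := by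
      rw [h2]
      group
    rw [h4]
    group
  let z : N := ∏ b : Q, c b
  have hz : ∀ a : Q, z = c a ^ Nat.card Q * cj a z := by
    intro a
    have h2 : ∏ b : Q, c (a * b) = z :=
      Fintype.prod_equiv (Equiv.mulLeft a) _ _ (fun b => rfl)
    have h3 : ∏ b : Q, c (a * b) = c a ^ Nat.card Q * cj a z := by
      rw [Finset.prod_congr rfl (fun b _ => hcm a b), Finset.prod_mul_distrib, Finset.prod_const,
        Finset.card_univ, ← Nat.card_eq_fintype_card, map_prod]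
    exact h2.symm.trans h3
  obtain ⟨m, hm⟩ := hcop.pow_left_bijective.surjective z
  change m ^ Nat.card Q = z at hm
  have hcm' : ∀ a : Q, c a = m * (cj a m)⁻¹ := by
    intro a
    apply hcop.pow_left_bijective.injective
    change c a ^ Nat.card Q = (m * (cj a m)⁻¹) ^ Nat.card Q
    rw [mul_pow, inv_pow, ← map_pow, hm, eq_mul_inv_iff_mul_eq]
    exact (hz a).symm
  have hfin : ∀ a : Q, ((m : G)⁻¹ * y) * (s a : G) * ((m : G)⁻¹ * y)⁻¹ = a := by
    intro a
    have h2 : ((m : G)⁻¹ * y) * (s a : G) * ((m : G)⁻¹ * y)⁻¹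
        = (m : G)⁻¹ * (y * (s a : G) * y⁻¹) * m := by group
    have h3 : ((c a : N) : G) = m * (a * (m : G) * (a : G)⁻¹)⁻¹ := by
      rw [hcm' a, Subgroup.coe_mul, Subgroup.coe_inv, hcj]
    rw [h2, hc, h3]
    group
  have hsinj : Injective s := by
    intro a b hab'
    apply Subtype.ext
    rw [← hfin a, ← hfin b, hab']
  have hssurj : Surjective s := Finite.injective_iff_surjective.1 hsinj
  refine ⟨m, m.2, fun q hq => ?_⟩
  obtain ⟨a, ha⟩ := hssurj ⟨q, hq⟩
  have h2 := hfin a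
  rw [ha] at h2
  change ((m : G)⁻¹ * y) * q * ((m : G)⁻¹ * y)⁻¹ = a at h2
  rw [h2]
  exact a.2

theorem cent_of_coprime {G : Type} [Group G] [Finite G] {p : ℕ} [hp : Fact p.Prime]
    (N V : Subgroup G) (hN : N.Normal) (hV : V.Normal) (hNV : N ≤ V) (hNp : IsPGroup p N)
    (hab : ∀ a ∈ N, ∀ b ∈ N, a * b = b * a) (hfr : N ≤ frattini G)
    (hpV : ¬ p ∣ N.relIndex V) : V ≤ fcent N ⊥ := by
  obtain ⟨a, ha⟩ := (IsPGroup.iff_card).1 hNp
  have hcop : Nat.Coprime (Nat.card (N.subgroupOf V)) (N.subgroupOf V).index := by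
    rw [Nat.card_congr (Subgroup.subgroupOfEquivOfLe hNV).toEquiv, ha]
    exact Nat.Coprime.pow_left _ ((Nat.Prime.coprime_iff_not_dvd hp.out).2 hpV)
  obtain ⟨Q₀, hQ₀⟩ := Subgroup.exists_right_complement'_of_coprime hcop
  let Q : Subgroup G := Q₀.map V.subtype
  have hQV : Q ≤ V := Subgroup.map_subtype_le _
  have hQN : Q ⊓ N = ⊥ := by
    rw [eq_bot_iff]
    rintro x ⟨⟨q, hq, rfl⟩, hx⟩
    have h1 : q ∈ N.subgroupOf V ⊓ Q₀ := ⟨hx, hq⟩
    rw [hQ₀.disjoint.eq_bot, Subgroup.mem_bot] at h1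
    rw [h1]
    exact one_mem _
  have hVQ : ∀ v ∈ V, ∃ n ∈ N, ∃ q ∈ Q, v = n * q := by
    intro v hv
    have h1 : (⟨v, hv⟩ : V) ∈ N.subgroupOf V ⊔ Q₀ := by rw [hQ₀.sup_eq_top]; trivial
    obtain ⟨n, hn, q, hq, h2⟩ := Subgroup.mem_sup_of_normal_left.1 h1
    exact ⟨n, hn, q, ⟨q, hq, rfl⟩, (congrArg Subtype.val h2).symm⟩
  have hcardQ : Nat.card Q = N.relIndex V := by
    have h1 : Nat.card Q = Nat.card Q₀ :=
      (Nat.card_congr (Q₀.equivMapOfInjective V.subtype Subtype.val_injective).toEquiv).symm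
    rw [h1]
    exact hQ₀.symm.index_eq_card.symm
  have hcop2 : Nat.Coprime (Nat.card N) (Nat.card Q) := by
    rw [ha, hcardQ]
    exact Nat.Coprime.pow_left _ ((Nat.Prime.coprime_iff_not_dvd hp.out).2 hpV)
  have hnorm : normalizer (Q : Set G) = ⊤ := by
    apply frattini_nongenerating
    rw [eq_top_iff]
    intro y _
    obtain ⟨m, hm, hmq⟩ := conj_compl N V Q hN hV hab hQV hQN hVQ hcop2 y
    have h1 : m⁻¹ * y ∈ normalizer (Q : Set G) := Subgroup.mem_normalizer_fintype hmq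
    have h2 : y = m * (m⁻¹ * y) := by group
    rw [h2]
    exact mul_mem (Subgroup.mem_sup_right (hfr hm)) (Subgroup.mem_sup_left h1)
  have hQn : Q.Normal := Subgroup.normalizer_eq_top_iff.1 hnorm
  have hcomm := dp_comm Q N hQn hN hQN
  intro v hv r hr
  rw [Subgroup.mem_bot, mul_inv_eq_one, mul_inv_eq_iff_eq_mul]
  obtain ⟨n, hn, q, hq, rfl⟩ := hVQ v hv
  rw [mul_assoc, ← hcomm r hr q hq, ← mul_assoc, hab n hn r hr, mul_assoc]

theorem cent_of_pow {G : Type} [Group G] [Finite G] {p : ℕ} [hp : Fact p.Prime]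
    (N C : Subgroup G) [hN : N.Normal] (hC : C.Normal) (hNp : IsPGroup p N) (hch : IsChief N ⊥)
    (hpow : ∀ c ∈ C, ∃ k, c ^ (p ^ k) ∈ fcent N ⊥) : C ≤ fcent N ⊥ := by
  let ρ : C →* MulAut N := (MulAut.conjNormal (H := N)).comp C.subtype
  have hρ : ∀ (c : C) (v : N), ((ρ c v : N) : G) = c * v * (c : G)⁻¹ :=
    fun c v => MulAut.conjNormal_apply _ v
  have hΓ : IsPGroup p ρ.range := by
    rintro ⟨_, c, rfl⟩
    obtain ⟨k, hk⟩ := hpow c c.2
    refine ⟨k, Subtype.ext ?_⟩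
    change (ρ c) ^ (p ^ k) = 1
    rw [← map_pow]
    ext v
    rw [hρ]
    have h1 := hk v v.2
    rw [Subgroup.mem_bot, mul_inv_eq_one] at h1
    exact h1
  have hpd : p ∣ Nat.card N := by
    obtain ⟨k, hk⟩ := (IsPGroup.iff_card).1 hNp
    rw [hk]
    refine dvd_pow_self p ?_
    rintro rfl
    rw [pow_zero, Subgroup.card_eq_one] at hk
    exact (bot_lt_iff_ne_bot.1 hch.lt) hk
  have hone : (1 : N) ∈ MulAction.fixedPoints ρ.range N := by
    rintro ⟨g, hg⟩
    exact map_one g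
  obtain ⟨b, hb, hb1⟩ := hΓ.exists_fixed_point_of_prime_dvd_card_of_fixed_point N hpd hone
  let T : Subgroup G :=
    { carrier := {x | x ∈ N ∧ ∀ c ∈ C, c * x = x * c}
      one_mem' := ⟨one_mem _, fun c _ => by rw [mul_one, one_mul]⟩
      mul_mem' := by
        rintro x y ⟨hx, hx'⟩ ⟨hy, hy'⟩
        refine ⟨mul_mem hx hy, fun c hc => ?_⟩
        rw [← mul_assoc, hx' c hc, mul_assoc, hy' c hc, mul_assoc]
      inv_mem' := by
        rintro x ⟨hx, hx'⟩
        refine ⟨inv_mem hx, fun c hc => ?_⟩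
        rw [mul_inv_eq_iff_eq_mul, mul_assoc, hx' c hc, inv_mul_cancel_left] }
  have hT : T.Normal := by
    constructor
    rintro x ⟨hx, hx'⟩ g
    refine ⟨hN.conj_mem x hx g, fun c hc => ?_⟩
    have h1 := hx' (g⁻¹ * c * g⁻¹⁻¹) (hC.conj_mem c hc g⁻¹)
    calc c * (g * x * g⁻¹) = g * ((g⁻¹ * c * g⁻¹⁻¹) * x) * g⁻¹ := by group
      _ = g * (x * (g⁻¹ * c * g⁻¹⁻¹)) * g⁻¹ := by rw [h1]
      _ = g * x * g⁻¹ * c := by group
  have hbT : (b : G) ∈ T := by
    refine ⟨b.2, fun c hc => ?_⟩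
    have h1 := hb ⟨ρ ⟨c, hc⟩, ⟨⟨c, hc⟩, rfl⟩⟩
    have h2 : ((ρ ⟨c, hc⟩ b : N) : G) = b := congrArg Subtype.val h1
    rw [hρ] at h2
    change c * (b : G) * c⁻¹ = b at h2
    exact mul_inv_eq_iff_eq_mul.1 h2
  have hTN : T = N := by
    rcases hch.min T hT bot_le (fun x hx => hx.1) with h1 | h1
    · exfalso
      rw [h1, Subgroup.mem_bot] at hbT
      exact hb1 (Subtype.ext hbT.symm)
    · exact h1
  intro c hc r hr
  rw [← hTN] at hr
  rw [Subgroup.mem_bot, mul_inv_eq_one, mul_inv_eq_iff_eq_mul]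
  exact hr.2 c hc

section

variable {π₀ : ℕ → Prop} {m : ℕ → ∀ (G : Type) [Group G], Prop}

theorem loc_frat (hm : ∀ p, Fmn (m p)) {G : Type} [Group G] [Finite G] (N : Subgroup G)
    [hN : N.Normal] (hch : IsChief N ⊥) (hfr : N ≤ frattini G) (hq : LF π₀ m (G ⧸ N)) :
    Loc π₀ m N ⊥ := by
  intro p hp hpd
  have hpf : Fact p.Prime := ⟨hp⟩
  rw [Subgroup.relIndex_bot_left] at hpd
  have hNnil : Group.IsNilpotent N := by
    have := frattini_nilpotent (G := G)
    exact Pool.Agent.Helper476.R.nil_of_le hfr this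
  have hc := nil_cent_chief N N ⊥ hNnil hch
  have hab : ∀ a ∈ N, ∀ b ∈ N, a * b = b * a := by
    intro n hn r hr
    have := Subgroup.mem_bot.1 (hc n hn r hr)
    rw [commutatorElement_eq_one_iff_mul_comm] at this
    exact this.symm
  have hpow : ∀ a ∈ N, a ^ p = 1 := by
    intro a ha
    have h1 := chief_pow hch (fun a ha b hb => by
      rw [Subgroup.mem_bot, commutatorElement_eq_one_iff_mul_comm]
      exact hab a ha b hb) p hp (by rwa [Subgroup.relIndex_bot_left]) a ha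
    exact Subgroup.mem_bot.1 h1
  have hNp : IsPGroup p N := by
    rintro ⟨x, hx⟩
    refine ⟨1, Subtype.ext ?_⟩
    change x ^ (p ^ 1) = 1
    rw [pow_one]
    exact hpow x hx
  obtain ⟨a, ha⟩ := (IsPGroup.iff_card).1 hNp
  -- p divides the index
  have hidx : p ∣ N.index := by
    by_contra hnd
    have hcop : Nat.Coprime (Nat.card N) N.index := by
      rw [ha]
      exact Nat.Coprime.pow_left _ ((Nat.Prime.coprime_iff_not_dvd hp).2 hnd)
    obtain ⟨K, hK⟩ := Subgroup.exists_right_complement'_of_coprime hcop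
    have h1 : K = ⊤ := by
      apply frattini_nongenerating
      rw [eq_top_iff, ← hK.sup_eq_top]
      exact sup_le (hfr.trans le_sup_right) le_sup_left
    rw [h1, Subgroup.isComplement'_top_right] at hK
    exact bot_lt_iff_ne_bot.1 hch.lt hK
  -- transfer of conditions above N
  have habove : ∀ (A B : Subgroup G) [A.Normal] [B.Normal], IsChief A B → N ≤ B →
      Loc π₀ m A B := by
    intro A B hA hB hAB hNB
    have hs := sim_map (QuotientGroup.mk' N) (QuotientGroup.mk'_surjective N) hA hB hAB.lt.le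
      (fun r _ hr => hNB ((QuotientGroup.eq_one_iff r).1 hr))
    have h1 := hs.nA
    have h2 := hs.nB
    exact (hs.loc hm).2 (hq.2 _ _ (hs.chief_iff.1 hAB))
  have hπ : π₀ p := by
    obtain ⟨A, B, hAB, hNB, _, hd⟩ := exists_pchief hp ⊤ N inferInstance hN le_top (by
      rwa [Subgroup.relIndex_top_right])
    have := hAB.norR
    have := hAB.norS
    exact (habove A B hAB hNB p hp hd).1
  refine ⟨hπ, ?_⟩
  let C : Subgroup G := res (m p) G ⊔ N
  have hC : C.Normal := inferInstance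
  have hCm : m p (G ⧸ C) := (hm p).mono le_sup_left (res_quot (hm p) G)
  have hCf : ∀ (A B : Subgroup G) [A.Normal] [B.Normal], IsChief A B → N ≤ B → A ≤ C →
      p ∣ B.relIndex A → C ≤ fcent A B := by
    intro A B hA hB hAB hNB _ hd
    refine sup_le ?_ ?_
    · exact res_le _ (habove A B hAB hNB p hp hd).2
    · intro n hn r hr
      have h1 : n * r * n⁻¹ * r⁻¹ = n * (r * n⁻¹ * r⁻¹) := by group
      rw [h1]
      exact B.mul_mem (hNB hn) (hB.conj_mem _ (B.inv_mem (hNB hn)) r)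
  obtain ⟨V, hV, hNV, hVC, hpV, hck⟩ := pnil N C hC hCf N hN le_rfl le_sup_right
  have hVc : V ≤ fcent N ⊥ := cent_of_coprime N V hN hV hNV hNp hab hfr hpV
  have hCc : C ≤ fcent N ⊥ := cent_of_pow N C hC hNp hch (fun c hc => by
    obtain ⟨k, hk⟩ := hck c hc
    exact ⟨k, hVc hk⟩)
  exact (hm p).mono hCc hCm

theorem LF_step (hm : ∀ p, Fmn (m p)) {G : Type} [Group G] [Finite G] (N : Subgroup G)
    [hN : N.Normal] (hch : IsChief N ⊥) (hfr : N ≤ frattini G) (hq : LF π₀ m (G ⧸ N)) :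
    LF π₀ m G := by
  have hloc := loc_frat hm N hch hfr hq
  refine ⟨inferInstance, ?_⟩
  intro R S hR hS hRS
  by_cases h4 : R ⊓ N ≤ S
  · have hs := sim_map (QuotientGroup.mk' N) (QuotientGroup.mk'_surjective N) hR hS hRS.lt.le
      (fun r hr hr' => h4 ⟨hr, (QuotientGroup.eq_one_iff r).1 hr'⟩)
    have h1 := hs.nA
    have h2 := hs.nB
    exact (hs.loc hm).2 (hq.2 _ _ (hs.chief_iff.1 hRS))
  · have hNR : N ≤ R := by
      rcases hch.min (R ⊓ N) inferInstance bot_le inf_le_right with h5 | h5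
      · exact absurd (h5 ▸ bot_le) h4
      · rw [← h5]
        exact inf_le_left
    have hNS : N ⊓ S = ⊥ := by
      rcases hch.min (N ⊓ S) inferInstance bot_le inf_le_left with h5 | h5
      · exact h5
      · exfalso
        apply h4
        have : N ≤ S := by
          rw [← h5]
          exact inf_le_right
        exact inf_le_right.trans this
    have hsup : N ⊔ S = R := by
      rcases hRS.min (N ⊔ S) inferInstance le_sup_right (sup_le hNR hRS.lt.le) with h5 | h5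
      · exfalso
        apply h4
        exact inf_le_right.trans (h5 ▸ le_sup_left)
      · exact h5
    have hs := sim_persp N S hN hS
    have hloc' : Loc π₀ m N (N ⊓ S) := by
      intro p hp hd
      rw [hNS] at hd
      obtain ⟨h6, h7⟩ := hloc p hp hd
      refine ⟨h6, (hm p).mono ?_ h7⟩
      intro g hg r hr
      have := hg r hr
      rw [Subgroup.mem_bot] at this
      rw [this]
      exact one_mem _
    have h9 := (hs.loc hm).1 hloc'
    intro p hp hd
    have h10 := h9 p hp (by rw [hsup]; exact hd)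
    refine ⟨h10.1, ?_⟩
    refine (hm p).mono ?_ h10.2
    intro g hg r hr
    exact hg r (hsup.symm ▸ hr)

theorem LF_sat (hm : ∀ p, Fmn (m p)) (n : ℕ) : ∀ (G : Type) [Group G] [Finite G],
    Nat.card G = n → LF π₀ m (G ⧸ frattini G) → LF π₀ m G := by
  induction n using Nat.strong_induction_on with
  | _ n ih =>
    intro G _ _ hn h
    by_cases hbot : frattini G = ⊥
    · refine LF_q hm (QuotientGroup.lift (frattini G) (MonoidHom.id G) ?_) ?_ h
      · intro x hx
        rw [hbot] at hx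
        exact hx
      · intro x
        exact ⟨(x : G ⧸ frattini G), rfl⟩
    · obtain ⟨N, hNf, hch⟩ := exists_min (frattini G) inferInstance hbot
      have hN := hch.norR
      refine LF_step hm N hch hNf ?_
      refine ih (Nat.card (G ⧸ N)) ?_ (G ⧸ N) rfl ?_
      · rw [← hn, Subgroup.card_eq_card_quotient_mul_card_subgroup N]
        refine lt_mul_of_one_lt_right Nat.card_pos ?_
        exact (Subgroup.one_lt_card_iff_ne_bot _).2 (bot_lt_iff_ne_bot.1 hch.lt)
      · refine LF_q hm (QuotientGroup.map (frattini G) (frattini (G ⧸ N)) (QuotientGroup.mk' N)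
          (frattini_le_comap_frattini_of_surjective (QuotientGroup.mk'_surjective N))) ?_ h
        intro x
        obtain ⟨y, rfl⟩ := QuotientGroup.mk_surjective x
        obtain ⟨g, rfl⟩ := QuotientGroup.mk_surjective y
        exact ⟨(g : G ⧸ frattini G), rfl⟩

end

end Pool.Agent.Helper476.T
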