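import Pool.Agent.Helper476.T17

set_option autoImplicit false
set_option linter.style.haveILetI false

namespace Pool.Agent.Helper476.T

open Function Subgroup
open Pool.Agent.Helper476.R (IsChief fcent nil_cent_chief chief_comm chief_pow mem_fcent)
open scoped commutatorElement

section

variable {F M H : ∀ (G : Type) [Group G], Prop}

theorem mm_of_Fp {p : ℕ} {L : Type} [Group L] [Finite L] (h : Fp F p L) :
    mm F H p (res H L) := by
  refine ⟨res H L, inferInstance, inferInstance, MonoidHom.id _, fun x => ⟨x, rfl⟩, ?_⟩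
  intro d hd
  obtain ⟨φ, hφ, _⟩ := PH.of_hom (K := res H L) (MonoidHom.id (res H L)) (fun x => ⟨x, rfl⟩)
  exact ⟨res H L, inferInstance, MonoidHom.id _, fun x => ⟨x, rfl⟩,
    ⟨L, inferInstance, inferInstance, h, φ, hφ⟩, hd⟩

/-- restriction of a surjection to the residuals -/
def resHom (hH : Fmn H) {G K : Type} [Group G] [Group K] [Finite G] (f : G →* K)
    (hf : Surjective f) : res H G →* res H K :=
  MonoidHom.mk' (fun x => ⟨f (x : G), res_mem hH f hf x.2⟩)
    (fun x y => Subtype.ext (map_mul f (x : G) (y : G)))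

theorem resHom_surj (hH : Fmn H) {G K : Type} [Group G] [Group K] [Finite G] (f : G →* K)
    (hf : Surjective f) : Surjective (resHom hH f hf) := by
  rintro ⟨y, hy⟩
  obtain ⟨x, hx, rfl⟩ := res_lift hH f hf hy
  exact ⟨⟨x, hx⟩, rfl⟩

theorem main_mp (hF : Fmn F) (hS : Sat F) (hH : Fmn H) {G : Type} [Group G] [Finite G]
    (hG : F G) : LF (pi0 F H) (mm F H) (res H G) := by
  refine ⟨inferInstance, ?_⟩
  intro A B hA hB hAB p hp hpd
  have hpf : Fact p.Prime := ⟨hp⟩
  have hpi : pi0 F H p := ⟨G, inferInstance, inferInstance, hG,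
    hpd.trans (Subgroup.relIndex_dvd_card B A |>.trans (Subgroup.card_subgroup_dvd_card A))⟩
  refine ⟨hpi, ?_⟩
  let 𝒜 : Set (Subgroup G) := {R | R.Normal ∧ ∃ a ∈ A, (a : G) ∈ R ∧ a ∉ B}
  have hne : 𝒜.Nonempty := by
    obtain ⟨r, hr, hr'⟩ := SetLike.exists_of_lt hAB.lt
    exact ⟨⊤, inferInstance, r, hr, trivial, hr'⟩
  obtain ⟨R, ⟨hR, a₀, ha₀, ha₀R, ha₀B⟩, hmin⟩ := Set.Finite.exists_minimal (Set.toFinite 𝒜) hne
  have hRne : R ≠ ⊥ := by
    rintro rfl
    rw [Subgroup.mem_bot] at ha₀R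
    have : a₀ = 1 := Subtype.ext ha₀R
    rw [this] at ha₀B
    exact ha₀B B.one_mem
  obtain ⟨S, _, hRS⟩ := exists_chief_below R ⊥ hR inferInstance (bot_lt_iff_ne_bot.2 hRne)
  have hSn := hRS.norS
  have hSB : ∀ a ∈ A, (a : G) ∈ S → a ∈ B := by
    intro a ha haS
    by_contra haB
    exact absurd (hmin ⟨hSn, a, ha, haS, haB⟩ hRS.lt.le) (not_le_of_gt hRS.lt)
  -- every element of A is congruent to an element of R
  have hgen : ∀ a ∈ A, ∃ r ∈ A, (r : G) ∈ R ∧ ∃ b ∈ B, r * b = a := by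
    intro a ha
    have h5 : (A ⊓ R.subgroupOf (res H G)) ⊔ B = A := by
      rcases hAB.min ((A ⊓ R.subgroupOf (res H G)) ⊔ B) inferInstance le_sup_right
        (sup_le inf_le_left hAB.lt.le) with h6 | h6
      · exfalso
        apply ha₀B
        rw [← h6]
        exact Subgroup.mem_sup_left ⟨ha₀, ha₀R⟩
      · exact h6
    rw [← h5] at ha
    obtain ⟨r, hr, b, hb, hrb⟩ := Subgroup.mem_sup_of_normal_right.1 ha
    exact ⟨r, hr.1, hr.2, b, hb, hrb⟩
  have hpRS : p ∣ S.relIndex R := by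
    by_contra hnd
    obtain ⟨a, ha, haB, hap⟩ := (dvd_relIndex_iff hp).1 hpd
    obtain ⟨r, hrA, hrR, b, hb, rfl⟩ := hgen a ha
    have hq : ∀ x, QuotientGroup.mk' B x = 1 ↔ x ∈ B := fun x => QuotientGroup.eq_one_iff x
    have h1 : QuotientGroup.mk' B r ^ p = 1 := by
      rw [← hq, map_pow, map_mul, (hq b).2 hb, mul_one] at hap
      exact hap
    have h2 : (⟨r, hrR⟩ : R) ^ (S.subgroupOf R).index ∈ S.subgroupOf R :=
      Subgroup.pow_index_mem _ _
    have h3 : r ^ S.relIndex R ∈ B := hSB _ (A.pow_mem hrA _) h2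
    have h4 : QuotientGroup.mk' B r ^ S.relIndex R = 1 := by
      rw [← map_pow, hq]
      exact h3
    have h5 := Nat.dvd_gcd (orderOf_dvd_of_pow_eq_one h1) (orderOf_dvd_of_pow_eq_one h4)
    have h6 : Nat.Coprime p (S.relIndex R) := (Nat.Prime.coprime_iff_not_dvd hp).2 hnd
    rw [h6, Nat.dvd_one, orderOf_eq_one_iff, hq] at h5
    exact haB (B.mul_mem h5 hb)
  have hL := P56 hF hS hG hRS hpRS
  let f := QuotientGroup.mk' (fcent R S)
  have hf : Surjective f := QuotientGroup.mk'_surjective _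
  have h1 := (mm_fmn F H p).ker (resHom hH f hf) (resHom_surj hH f hf) (mm_of_Fp (H := H) hL)
  refine (mm_fmn F H p).mono ?_ h1
  intro k hk a ha
  have hk' : (k : G) ∈ fcent R S := (QuotientGroup.eq_one_iff _).1 (congrArg Subtype.val hk)
  obtain ⟨r, hrA, hrR, b, hb, rfl⟩ := hgen a ha
  have h2 : k * r * k⁻¹ * r⁻¹ ∈ B :=
    hSB _ (A.mul_mem (hA.conj_mem r hrA k) (A.inv_mem hrA)) (hk' r hrR)
  have h3 : k * (r * b) * k⁻¹ * (r * b)⁻¹
      = (k * r * k⁻¹ * r⁻¹) * (r * ((k * b * k⁻¹) * b⁻¹) * r⁻¹) := by group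
  rw [h3]
  exact B.mul_mem h2 (hB.conj_mem _ (B.mul_mem (hB.conj_mem b hb k) (B.inv_mem hb)) r)

theorem Fp_of_mm (hF : Fmn F) (hS : Sat F) (hM : Fmn M) (hH : Fmn H)
    (hFMH : ∀ (G : Type) [Group G] [Finite G], F G ↔ M (res H G)) {p : ℕ} [hp : Fact p.Prime]
    (hpi : pi0 F H p) {L : Type} [Group L] [Finite L] (h : mm F H p (res H L)) :
    Fp F p L := by
  have hHp : ∀ (G : Type) [Group G] [Finite G], H G → Fp F p G := fun G _ _ hG =>
    H_le_Fp hM hH hFMH (Zp_mem hF hS hM hH hFMH hpi) G hG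
  have hp1 : Fp F p Unit := hHp Unit hH.one
  have hfmn : Fmn (Fp F p) := Fp_fmn hF hS hp1
  obtain ⟨D, _, _, e, he, hD⟩ := h
  let θ : D ⧸ e.ker ≃* res H L := QuotientGroup.quotientKerEquivOfSurjective e he
  obtain ⟨φ, hφ, hφe⟩ := PH.of_hom (K := res H L) θ.symm.toMonoidHom θ.symm.surjective
  have h1 := C2 hF hS hM hH hFMH hp1 hHp _ D rfl hD _ e.ker inferInstance rfl L φ hφ
  refine of_res_eq_bot hfmn ?_
  rw [eq_bot_iff]
  intro z hz
  have hZ : res (Fp F p) L ≤ res H L := res_le _ (hHp _ (res_quot hH L))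
  have h2 := h1 z hz
  have h3 := hφe ⟨z, hZ hz⟩
  change φ z = θ.symm ⟨z, hZ hz⟩ at h3
  rw [h2] at h3
  have h4 : (⟨z, hZ hz⟩ : res H L) = 1 := (map_eq_one_iff θ.symm θ.symm.injective).1 h3.symm
  exact congrArg Subtype.val h4

theorem main_mpr (hF : Fmn F) (hS : Sat F) (hM : Fmn M) (hH : Fmn H)
    (hFMH : ∀ (G : Type) [Group G] [Finite G], F G ↔ M (res H G)) (n : ℕ) :
    ∀ (G : Type) [Group G] [Finite G], Nat.card G = n →
      LF (pi0 F H) (mm F H) (res H G) → F G := by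
  induction n using Nat.strong_induction_on with
  | _ n ih =>
  intro G _ _ hn hG
  by_cases hbot : res H G = ⊥
  · rw [hFMH, hbot]
    exact hM.triv _
  obtain ⟨N, hNK, hch⟩ := exists_min (res H G) inferInstance hbot
  have hN := hch.norR
  have hmN := QuotientGroup.mk'_surjective N
  have hGN : F (G ⧸ N) := by
    refine ih (Nat.card (G ⧸ N)) ?_ (G ⧸ N) rfl ?_
    · rw [← hn, Subgroup.card_eq_card_quotient_mul_card_subgroup N]
      refine lt_mul_of_one_lt_right Nat.card_pos ?_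
      exact (Subgroup.one_lt_card_iff_ne_bot _).2 (bot_lt_iff_ne_bot.1 hch.lt)
    · exact LF_q (fun p => mm_fmn F H p) (resHom hH (QuotientGroup.mk' N) hmN)
        (resHom_surj hH _ hmN) hG
  -- a minimal normal subgroup of the residual
  have hNKne : N.subgroupOf (res H G) ≠ ⊥ := by
    intro h1
    obtain ⟨x, hx, hx1⟩ := SetLike.exists_of_lt hch.lt
    have h2 : (⟨x, hNK hx⟩ : res H G) ∈ N.subgroupOf (res H G) := hx
    rw [h1, Subgroup.mem_bot] at h2
    exact hx1 (congrArg Subtype.val h2)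
  obtain ⟨A, hAN, hAch⟩ := exists_min (N.subgroupOf (res H G)) inferInstance hNKne
  have hA := hAch.norR
  have hcA : Nat.card A ≠ 1 := by
    intro h
    rw [Subgroup.card_eq_one] at h
    exact (bot_lt_iff_ne_bot.1 hAch.lt) h
  obtain ⟨p, hp, hpd⟩ := Nat.exists_prime_and_dvd hcA
  have hpf : Fact p.Prime := ⟨hp⟩
  obtain ⟨hpi, hmA⟩ := hG.2 A ⊥ hAch p hp (by rwa [Subgroup.relIndex_bot_left])
  have hmm := mm_fmn F H p
  let Z := res (mm F H p) (res H G)
  have hZA : Z ≤ fcent A ⊥ := res_le _ hmA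
  have hZconj : ∀ z ∈ Z, ∀ g : G, MulAut.conjNormal (H := res H G) g z ∈ Z := by
    intro z hz g
    exact res_mem hmm (MulAut.conjNormal (H := res H G) g).toMonoidHom
      (MulAut.conjNormal (H := res H G) g).surjective hz
  let C := fcent N (⊥ : Subgroup G)
  have hZC : ∀ z ∈ Z, (z : G) ∈ C := by
    let T : Subgroup G :=
      { carrier := {x | x ∈ N ∧ ∀ z ∈ Z, (z : G) * x = x * z}
        one_mem' := ⟨one_mem _, fun c _ => by rw [mul_one, one_mul]⟩
        mul_mem' := by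
          rintro x y ⟨hx, hx'⟩ ⟨hy, hy'⟩
          refine ⟨mul_mem hx hy, fun c hc => ?_⟩
          rw [← mul_assoc, hx' c hc, mul_assoc, hy' c hc, mul_assoc]
        inv_mem' := by
          rintro x ⟨hx, hx'⟩
          refine ⟨inv_mem hx, fun c hc => ?_⟩
          rw [mul_inv_eq_iff_eq_mul, mul_assoc, hx' c hc, inv_mul_cancel_left] }
    have hT : T.Normal := by
      constructor
      rintro x ⟨hx, hx'⟩ g
      refine ⟨hN.conj_mem x hx g, fun c hc => ?_⟩
      have h1 := hx' _ (hZconj c hc g⁻¹)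
      rw [MulAut.conjNormal_apply] at h1
      calc (c : G) * (g * x * g⁻¹) = g * ((g⁻¹ * c * g⁻¹⁻¹) * x) * g⁻¹ := by group
        _ = g * (x * (g⁻¹ * c * g⁻¹⁻¹)) * g⁻¹ := by rw [h1]
        _ = g * x * g⁻¹ * c := by group
    have hTN : T = N := by
      rcases hch.min T hT bot_le (fun x hx => hx.1) with h1 | h1
      · exfalso
        obtain ⟨a, ha, ha1⟩ := SetLike.exists_of_lt hAch.lt
        have h2 : (a : G) ∈ T := by
          refine ⟨hAN ha, fun z hz => ?_⟩
          have h3 := hZA hz a ha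
          rw [Subgroup.mem_bot, mul_inv_eq_one, mul_inv_eq_iff_eq_mul] at h3
          exact congrArg Subtype.val h3
        rw [h1, Subgroup.mem_bot] at h2
        exact ha1 (Subtype.ext h2)
      · exact h1
    intro z hz x hx
    rw [← hTN] at hx
    rw [Subgroup.mem_bot, mul_inv_eq_one, mul_inv_eq_iff_eq_mul]
    exact hx.2 z hz
  let f := QuotientGroup.mk' C
  have hf : Surjective f := QuotientGroup.mk'_surjective C
  have hmL : mm F H p (res H (G ⧸ C)) := by
    have h1 : mm F H p (res H G ⧸ (resHom hH f hf).ker) := by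
      refine hmm.mono ?_ (res_quot hmm (res H G))
      intro z hz
      exact Subtype.ext ((QuotientGroup.eq_one_iff (z : G)).2 (hZC z hz))
    exact hmm.iso (QuotientGroup.quotientKerEquivOfSurjective _ (resHom_surj hH f hf)) h1
  have hFp : Fp F p (G ⧸ C) := Fp_of_mm hF hS hM hH hFMH hpi hmL
  have hCc : ∀ e, f e = 1 → ∀ v ∈ N, e * v = v * e := by
    intro e he v hv
    have h1 : e ∈ C := (QuotientGroup.eq_one_iff e).1 he
    have h2 := h1 v hv
    rw [Subgroup.mem_bot, mul_inv_eq_one, mul_inv_eq_iff_eq_mul] at h2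
    exact h2
  by_cases hab : ∀ a ∈ N, ∀ b ∈ N, a * b = b * a
  · have hpN : p ∣ Nat.card N := by
      have h1 : Nat.card A ∣ Nat.card (N.subgroupOf (res H G)) := Subgroup.card_dvd_of_le hAN
      rw [Nat.card_congr (Subgroup.subgroupOfEquivOfLe hNK).toEquiv] at h1
      exact hpd.trans h1
    have hpow : ∀ a ∈ N, a ^ p = 1 := by
      intro a ha
      have h1 := chief_pow hch (fun a ha b hb => by
        rw [Subgroup.mem_bot, commutatorElement_eq_one_iff_mul_comm]
        exact hab a ha b hb) p hp (by rwa [Subgroup.relIndex_bot_left]) a ha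
      exact Subgroup.mem_bot.1 h1
    exact P4 hF hS N hab hpow hch hGN f hf hCc hFp
  · have hCN : C ⊓ N = ⊥ := by
      rcases hch.min (C ⊓ N) inferInstance bot_le inf_le_right with h1 | h1
      · exact h1
      · exfalso
        apply hab
        intro a ha b hb
        rw [← h1] at ha
        exact hCc a ((QuotientGroup.eq_one_iff a).2 ha.1) b hb
    have : NeZero p := ⟨hp.ne_zero⟩
    refine hF.r0 G (G ⧸ C) (G ⧸ N) f (QuotientGroup.mk' N) hf hmN ?_ (Fp_le hF hFp) hGN
    intro t h1 h2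
    have h3 : t ∈ C ⊓ N := ⟨(QuotientGroup.eq_one_iff t).1 h1, (QuotientGroup.eq_one_iff t).1 h2⟩
    rw [hCN] at h3
    exact h3

/-- the main result: replacing the first factor of a product which is saturated -/
theorem main_iff (hF : Fmn F) (hS : Sat F) (hM : Fmn M) (hH : Fmn H)
    (hFMH : ∀ (G : Type) [Group G] [Finite G], F G ↔ M (res H G)) (G : Type) [Group G]
    [Finite G] : F G ↔ LF (pi0 F H) (mm F H) (res H G) :=
  ⟨fun h => main_mp hF hS hH h, fun h => main_mpr hF hS hM hH hFMH _ G rfl h⟩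

end

end Pool.Agent.Helper476.T
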