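import Pool.Agent.Helper476.T18

set_option autoImplicit false
set_option linter.style.haveILetI false

namespace Pool.Agent.Helper476.T

open Function Subgroup

/-- the closure conditions in terms of quotients of finite groups -/
structure Frm (F : ∀ (G : Type) [Group G], Prop) : Prop where
  iso : ∀ (A B : Type) [Group A] [Group B], Nonempty (A ≃* B) → F A → F B
  one : F Unit
  q : ∀ (G : Type) [Group G] [Finite G] (N : Subgroup G) [N.Normal], F G → F (G ⧸ N)
  inf : ∀ (G : Type) [Group G] [Finite G] (N₁ N₂ : Subgroup G) [N₁.Normal] [N₂.Normal],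
    F (G ⧸ N₁) → F (G ⧸ N₂) → F (G ⧸ (N₁ ⊓ N₂))

theorem Frm.fmn {F : ∀ (G : Type) [Group G], Prop} (h : Frm F) : Fmn F where
  one := h.one
  q := fun G K _ _ _ f hf hG =>
    h.iso _ _ ⟨QuotientGroup.quotientKerEquivOfSurjective f hf⟩ (h.q G f.ker hG)
  r0 := by
    intro T Q1 Q2 _ _ _ _ p1 p2 hp1 hp2 hk h1 h2
    have h3 := h.inf T p1.ker p2.ker
      (h.iso _ _ ⟨(QuotientGroup.quotientKerEquivOfSurjective p1 hp1).symm⟩ h1)
      (h.iso _ _ ⟨(QuotientGroup.quotientKerEquivOfSurjective p2 hp2).symm⟩ h2)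
    have h4 : p1.ker ⊓ p2.ker = ⊥ := by
      rw [eq_bot_iff]
      rintro x ⟨hx1, hx2⟩
      exact hk x hx1 hx2
    refine h.iso (T ⧸ (p1.ker ⊓ p2.ker)) T ⟨?_⟩ h3
    exact (QuotientGroup.quotientMulEquivOfEq h4).trans QuotientGroup.quotientBot

theorem Frm.of_LF {π₀ : ℕ → Prop} {m : ℕ → ∀ (G : Type) [Group G], Prop} (hm : ∀ p, Fmn (m p)) :
    Frm (LF π₀ m) where
  iso := by
    rintro A B _ _ ⟨e⟩ hA
    have := hA.1
    exact (LF_fmn hm).iso e hA
  one := (LF_fmn hm).one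
  q := fun G _ _ N _ hG => (LF_fmn hm).quot N hG
  inf := fun G _ _ N₁ N₂ _ _ h1 h2 => (LF_fmn hm).inf N₁ N₂ h1 h2

theorem prod_iff {H : ∀ (G : Type) [Group G], Prop} (hH : Fmn H)
    (P : ∀ (G : Type) [Group G], Prop) (G : Type) [Group G] [Finite G] :
    P (res H G) ↔ ∀ (R : Subgroup G) [R.Normal], H (G ⧸ R) →
      (∀ (N : Subgroup G) [N.Normal], H (G ⧸ N) → R ≤ N) → P R := by
  constructor
  · intro h R hR hRH hRmin
    have h1 : R = res H G := le_antisymm (hRmin _ (res_quot hH G)) (res_le R hRH)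
    rw [h1]
    exact h
  · intro h
    exact h (res H G) (res_quot hH G) (fun N _ hN => res_le N hN)

end Pool.Agent.Helper476.T
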