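import Pool.Agent.Helper476.T1

set_option autoImplicit false
set_option linter.style.haveILetI false

namespace Pool.Agent.Helper476.T

open Function Subgroup

/-- the regular wreath product of `ZMod p` with `L` -/
@[ext] structure AL (p : ℕ) (L : Type) where
  a : L → ZMod p
  l : L

namespace AL

variable {p : ℕ} {L : Type} [Group L]

instance : Mul (AL p L) := ⟨fun x y => ⟨fun g => x.a g + y.a (x.l⁻¹ * g), x.l * y.l⟩⟩
instance : One (AL p L) := ⟨⟨fun _ => 0, 1⟩⟩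
instance : Inv (AL p L) := ⟨fun x => ⟨fun g => - x.a (x.l * g), x.l⁻¹⟩⟩

@[simp] theorem mul_a (x y : AL p L) (g : L) : (x * y).a g = x.a g + y.a (x.l⁻¹ * g) := rfl
@[simp] theorem mul_l (x y : AL p L) : (x * y).l = x.l * y.l := rfl
@[simp] theorem one_a (g : L) : (1 : AL p L).a g = 0 := rfl
@[simp] theorem one_l : (1 : AL p L).l = 1 := rfl
@[simp] theorem inv_a (x : AL p L) (g : L) : (x⁻¹).a g = - x.a (x.l * g) := rfl
@[simp] theorem inv_l (x : AL p L) : (x⁻¹).l = x.l⁻¹ := rfl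

instance : Group (AL p L) :=
  Group.ofLeftAxioms
    (by
      intro x y z
      ext g
      · simp only [mul_a, mul_l, mul_inv_rev, mul_assoc, add_assoc]
      · simp only [mul_l, mul_assoc])
    (by
      intro x
      ext g
      · simp only [mul_a, one_a, one_l, inv_one, one_mul, zero_add]
      · simp only [mul_l, one_l, one_mul])
    (by
      intro x
      ext g
      · simp only [mul_a, inv_a, inv_l, inv_inv, one_a, neg_add_cancel]
      · simp only [mul_l, inv_l, one_l, inv_mul_cancel])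

instance [Finite L] [NeZero p] : Finite (AL p L) :=
  Finite.of_injective (β := (L → ZMod p) × L) (fun x => (x.a, x.l)) (by
    intro x y h
    ext g
    · exact congrFun (congrArg Prod.fst h) g
    · exact congrArg Prod.snd h)

/-- projection -/
def pr : AL p L →* L where
  toFun x := x.l
  map_one' := rfl
  map_mul' _ _ := rfl

end AL

/-- Heisenberg type group over the functions, extended by `L` -/
@[ext] structure HL (p : ℕ) (L : Type) where
  a : L → ZMod p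
  b : L → ZMod p
  c : L → ZMod p
  l : L

namespace HL

variable {p : ℕ} {L : Type} [Group L]

instance : Mul (HL p L) := ⟨fun x y => ⟨fun g => x.a g + y.a (x.l⁻¹ * g),
  fun g => x.b g + y.b (x.l⁻¹ * g),
  fun g => x.c g + y.c (x.l⁻¹ * g) + x.a g * y.b (x.l⁻¹ * g), x.l * y.l⟩⟩
instance : One (HL p L) := ⟨⟨fun _ => 0, fun _ => 0, fun _ => 0, 1⟩⟩
instance : Inv (HL p L) := ⟨fun x => ⟨fun g => - x.a (x.l * g), fun g => - x.b (x.l * g),
  fun g => - x.c (x.l * g) + x.a (x.l * g) * x.b (x.l * g), x.l⁻¹⟩⟩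

@[simp] theorem mul_a (x y : HL p L) (g : L) : (x * y).a g = x.a g + y.a (x.l⁻¹ * g) := rfl
@[simp] theorem mul_b (x y : HL p L) (g : L) : (x * y).b g = x.b g + y.b (x.l⁻¹ * g) := rfl
@[simp] theorem mul_c (x y : HL p L) (g : L) :
    (x * y).c g = x.c g + y.c (x.l⁻¹ * g) + x.a g * y.b (x.l⁻¹ * g) := rfl
@[simp] theorem mul_l (x y : HL p L) : (x * y).l = x.l * y.l := rfl
@[simp] theorem one_a (g : L) : (1 : HL p L).a g = 0 := rfl
@[simp] theorem one_b (g : L) : (1 : HL p L).b g = 0 := rfl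
@[simp] theorem one_c (g : L) : (1 : HL p L).c g = 0 := rfl
@[simp] theorem one_l : (1 : HL p L).l = 1 := rfl
@[simp] theorem inv_a (x : HL p L) (g : L) : (x⁻¹).a g = - x.a (x.l * g) := rfl
@[simp] theorem inv_b (x : HL p L) (g : L) : (x⁻¹).b g = - x.b (x.l * g) := rfl
@[simp] theorem inv_c (x : HL p L) (g : L) :
    (x⁻¹).c g = - x.c (x.l * g) + x.a (x.l * g) * x.b (x.l * g) := rfl
@[simp] theorem inv_l (x : HL p L) : (x⁻¹).l = x.l⁻¹ := rfl

instance : Group (HL p L) :=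
  Group.ofLeftAxioms
    (by
      intro x y z
      ext g
      · simp only [mul_a, mul_l, mul_inv_rev, mul_assoc, add_assoc]
      · simp only [mul_b, mul_l, mul_inv_rev, mul_assoc, add_assoc]
      · simp only [mul_c, mul_a, mul_b, mul_l, mul_inv_rev, mul_assoc]
        ring
      · simp only [mul_l, mul_assoc])
    (by
      intro x
      ext g
      · simp only [mul_a, one_a, one_l, inv_one, one_mul, zero_add]
      · simp only [mul_b, one_b, one_l, inv_one, one_mul, zero_add]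
      · simp only [mul_c, one_c, one_a, one_l, inv_one, one_mul, zero_add, zero_mul, add_zero]
      · simp only [mul_l, one_l, one_mul])
    (by
      intro x
      ext g
      · simp only [mul_a, inv_a, inv_l, inv_inv, one_a, neg_add_cancel]
      · simp only [mul_b, inv_b, inv_l, inv_inv, one_b, neg_add_cancel]
      · simp only [mul_c, inv_c, inv_a, inv_l, inv_inv, one_c]
        ring
      · simp only [mul_l, inv_l, one_l, inv_mul_cancel])

instance [Finite L] [NeZero p] : Finite (HL p L) :=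
  Finite.of_injective (β := (L → ZMod p) × (L → ZMod p) × (L → ZMod p) × L)
    (fun x => (x.a, x.b, x.c, x.l)) (by
    intro x y h
    have h1 := congrArg Prod.fst h
    have h2 := congrArg (fun z => z.2.1) h
    have h3 := congrArg (fun z => z.2.2.1) h
    have h4 := congrArg (fun z => z.2.2.2) h
    ext g
    · exact congrFun h1 g
    · exact congrFun h2 g
    · exact congrFun h3 g
    · exact h4)

end HL

section

variable {p : ℕ} {L : Type} [Group L]

/-- translation invariance -/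
def Stab (W : AddSubgroup (L → ZMod p)) : Prop :=
  ∀ (l : L), ∀ w ∈ W, (fun g => w (l⁻¹ * g)) ∈ W

theorem Stab.inv {W : AddSubgroup (L → ZMod p)} (hW : Stab W) (l : L) {w : L → ZMod p}
    (hw : w ∈ W) : (fun g => w (l * g)) ∈ W := by
  have := hW l⁻¹ w hw
  simpa using this

/-- the subgroup of the wreath product attached to an invariant group of functions -/
def SW (W : AddSubgroup (L → ZMod p)) (hW : Stab W) : Subgroup (AL p L) where
  carrier := {x | x.a ∈ W}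
  one_mem' := W.zero_mem
  mul_mem' := by
    intro x y hx hy
    exact W.add_mem hx (hW x.l y.a hy)
  inv_mem' := by
    intro x hx
    exact W.neg_mem (hW.inv x.l hx)

theorem mem_SW {W : AddSubgroup (L → ZMod p)} {hW : Stab W} {x : AL p L} :
    x ∈ SW W hW ↔ x.a ∈ W := Iff.rfl

/-- the projection of `SW W` to `L` -/
def prW (W : AddSubgroup (L → ZMod p)) (hW : Stab W) : SW W hW →* L :=
  AL.pr.comp (SW W hW).subtype

theorem prW_surj (W : AddSubgroup (L → ZMod p)) (hW : Stab W) : Surjective (prW W hW) :=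
  fun l => ⟨⟨⟨0, l⟩, W.zero_mem⟩, rfl⟩

variable {F : ∀ (G : Type) [Group G], Prop}

theorem sup_mem (hF : Fmn F) [Finite L] [NeZero p] {W₁ W₂ : AddSubgroup (L → ZMod p)}
    (h₁ : Stab W₁) (h₂ : Stab W₂) (hF₁ : F (SW W₁ h₁)) (hF₂ : F (SW W₂ h₂))
    (h₃ : Stab (W₁ ⊔ W₂)) : F (SW (W₁ ⊔ W₂) h₃) := by
  let T : Subgroup (SW W₁ h₁ × SW W₂ h₂) :=
    { carrier := {x | x.1.1.l = x.2.1.l}
      one_mem' := rfl
      mul_mem' := by
        intro x y hx hy
        change x.1.1.l * y.1.1.l = x.2.1.l * y.2.1.l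
        rw [show x.1.1.l = x.2.1.l from hx, show y.1.1.l = y.2.1.l from hy]
      inv_mem' := by
        intro x hx
        change (x.1.1.l)⁻¹ = (x.2.1.l)⁻¹
        rw [show x.1.1.l = x.2.1.l from hx] }
  let f : T →* SW (W₁ ⊔ W₂) h₃ := MonoidHom.mk' (fun x =>
    ⟨⟨fun g => x.1.1.1.a g + x.1.2.1.a g, x.1.1.1.l⟩,
      add_mem (AddSubgroup.mem_sup_left (S := W₁) (T := W₂) x.1.1.2)
        (AddSubgroup.mem_sup_right x.1.2.2)⟩) (by
      intro x y
      have hx : x.1.1.1.l = x.1.2.1.l := x.2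
      apply Subtype.ext
      ext g
      · change (x.1.1.1.a g + y.1.1.1.a (x.1.1.1.l⁻¹ * g)) +
          (x.1.2.1.a g + y.1.2.1.a (x.1.2.1.l⁻¹ * g))
          = (x.1.1.1.a g + x.1.2.1.a g) +
            (y.1.1.1.a (x.1.1.1.l⁻¹ * g) + y.1.2.1.a (x.1.1.1.l⁻¹ * g))
        rw [hx]
        ring
      · rfl)
  refine hF.r0hom (T := T) ((MonoidHom.fst _ _).comp T.subtype)
    ((MonoidHom.snd _ _).comp T.subtype) f ?_ ?_ ?_ hF₁ hF₂ ?_
  · intro x
    exact ⟨⟨(x, ⟨⟨0, x.1.l⟩, W₂.zero_mem⟩), rfl⟩, rfl⟩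
  · intro x
    exact ⟨⟨(⟨⟨0, x.1.l⟩, W₁.zero_mem⟩, x), rfl⟩, rfl⟩
  · intro x
    obtain ⟨w₁, hw₁, w₂, hw₂, h⟩ := AddSubgroup.mem_sup.1 (mem_SW.1 x.2)
    refine ⟨⟨(⟨⟨w₁, x.1.l⟩, hw₁⟩, ⟨⟨w₂, x.1.l⟩, hw₂⟩), rfl⟩, ?_⟩
    apply Subtype.ext
    ext g
    · exact congrFun h g
    · rfl
  · intro t h1 h2
    have : t = 1 := Subtype.ext (Prod.ext h1 h2)
    rw [this, map_one]

theorem prod_mem (hF : Fmn F) (hS : Sat F) [Finite L] [NeZero p]
    {W₁ W₂ W₃ : AddSubgroup (L → ZMod p)}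
    (h₁ : Stab W₁) (h₂ : Stab W₂) (hF₁ : F (SW W₁ h₁)) (hF₂ : F (SW W₂ h₂))
    (h₃ : Stab W₃)
    (hW₃ : W₃ = AddSubgroup.closure {w | ∃ f ∈ W₁, ∃ g ∈ W₂, w = f * g}) : F (SW W₃ h₃) := by
  have hprod : ∀ f ∈ W₁, ∀ g ∈ W₂, (fun x => f x * g x) ∈ W₃ := by
    intro f hf g hg
    rw [hW₃]
    exact AddSubgroup.subset_closure ⟨f, hf, g, hg, rfl⟩
  let K : Subgroup (HL p L) :=
    { carrier := {x | x.a ∈ W₁ ∧ x.b ∈ W₂ ∧ x.c ∈ W₃}
      one_mem' := ⟨W₁.zero_mem, W₂.zero_mem, W₃.zero_mem⟩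
      mul_mem' := by
        rintro x y ⟨hx1, hx2, hx3⟩ ⟨hy1, hy2, hy3⟩
        exact ⟨W₁.add_mem hx1 (h₁ x.l y.a hy1), W₂.add_mem hx2 (h₂ x.l y.b hy2),
          W₃.add_mem (W₃.add_mem hx3 (h₃ x.l y.c hy3)) (hprod _ hx1 _ (h₂ x.l y.b hy2))⟩
      inv_mem' := by
        rintro x ⟨hx1, hx2, hx3⟩
        exact ⟨W₁.neg_mem (h₁.inv x.l hx1), W₂.neg_mem (h₂.inv x.l hx2),
          W₃.add_mem (W₃.neg_mem (h₃.inv x.l hx3)) (hprod _ (h₁.inv x.l hx1) _ (h₂.inv x.l hx2))⟩ }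
  let N : Subgroup K :=
    { carrier := {x | x.1.a = 0 ∧ x.1.b = 0 ∧ x.1.l = 1}
      one_mem' := ⟨rfl, rfl, rfl⟩
      mul_mem' := by
        rintro x y ⟨hx1, hx2, hx3⟩ ⟨hy1, hy2, hy3⟩
        refine ⟨?_, ?_, ?_⟩
        · funext g
          change x.1.a g + y.1.a (x.1.l⁻¹ * g) = 0
          rw [hx1, hy1]; simp
        · funext g
          change x.1.b g + y.1.b (x.1.l⁻¹ * g) = 0
          rw [hx2, hy2]; simp
        · change x.1.l * y.1.l = 1
          rw [hx3, hy3, mul_one]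
      inv_mem' := by
        rintro x ⟨hx1, hx2, hx3⟩
        refine ⟨?_, ?_, ?_⟩
        · funext g
          change - x.1.a (x.1.l * g) = 0
          rw [hx1]; simp
        · funext g
          change - x.1.b (x.1.l * g) = 0
          rw [hx2]; simp
        · change (x.1.l)⁻¹ = 1
          rw [hx3, inv_one] }
  have hN : N.Normal := by
    constructor
    rintro x ⟨hx1, hx2, hx3⟩ y
    refine ⟨?_, ?_, ?_⟩
    · funext g
      change (y.1.a g + x.1.a (y.1.l⁻¹ * g)) + - y.1.a (y.1.l * ((y.1.l * x.1.l)⁻¹ * g)) = 0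
      rw [hx1, hx3]
      simp
    · funext g
      change (y.1.b g + x.1.b (y.1.l⁻¹ * g)) + - y.1.b (y.1.l * ((y.1.l * x.1.l)⁻¹ * g)) = 0
      rw [hx2, hx3]
      simp
    · change y.1.l * x.1.l * (y.1.l)⁻¹ = 1
      rw [hx3, mul_one, mul_inv_cancel]
  let p1 : K →* SW W₁ h₁ := MonoidHom.mk' (fun x => ⟨⟨x.1.a, x.1.l⟩, x.2.1⟩) (fun x y => rfl)
  let p2 : K →* SW W₂ h₂ := MonoidHom.mk' (fun x => ⟨⟨x.1.b, x.1.l⟩, x.2.2.1⟩) (fun x y => rfl)
  have hKN : F (K ⧸ N) := by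
    refine hF.r0hom p1 p2 (QuotientGroup.mk' N) ?_ ?_ (QuotientGroup.mk'_surjective N) hF₁ hF₂ ?_
    · intro x
      exact ⟨⟨⟨x.1.a, 0, 0, x.1.l⟩, x.2, W₂.zero_mem, W₃.zero_mem⟩, rfl⟩
    · intro x
      exact ⟨⟨⟨0, x.1.a, 0, x.1.l⟩, W₁.zero_mem, x.2, W₃.zero_mem⟩, rfl⟩
    · intro t ht1 ht2
      have e1 := congrArg Subtype.val ht1
      have e2 := congrArg Subtype.val ht2
      refine (QuotientGroup.eq_one_iff t).2 ⟨congrArg AL.a e1, congrArg AL.a e2, congrArg AL.l e1⟩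
  -- commutators
  have hcen : ∀ n ∈ N, ∀ x : K, x.1.l = 1 → n * x = x * n := by
    rintro n ⟨hn1, hn2, hn3⟩ x hx
    apply Subtype.ext
    ext g
    · change n.1.a g + x.1.a (n.1.l⁻¹ * g) = x.1.a g + n.1.a (x.1.l⁻¹ * g)
      rw [hn1, hn3]; simp
    · change n.1.b g + x.1.b (n.1.l⁻¹ * g) = x.1.b g + n.1.b (x.1.l⁻¹ * g)
      rw [hn2, hn3]; simp
    · change n.1.c g + x.1.c (n.1.l⁻¹ * g) + n.1.a g * x.1.b (n.1.l⁻¹ * g)
        = x.1.c g + n.1.c (x.1.l⁻¹ * g) + x.1.a g * n.1.b (x.1.l⁻¹ * g)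
      rw [hn1, hn2, hn3, hx]
      simp only [Pi.zero_apply, inv_one, one_mul, zero_mul, mul_zero, add_zero]
      ring
    · change n.1.l * x.1.l = x.1.l * n.1.l
      rw [hn3, hx]
  have hfr : N ≤ frattini K := by
    rw [frattini, Order.radical]
    refine le_iInf₂ fun M hM => ?_
    by_contra hNM
    have hsup : M ⊔ N = ⊤ := by
      have h1 : M < M ⊔ N := lt_of_le_of_ne le_sup_left (fun h => hNM (h ▸ le_sup_right))
      exact hM.2 _ h1
    apply hNM
    have hdec : ∀ x : K, x.1.l = 1 → ∃ m ∈ M, ∃ n ∈ N, m * n = x ∧ m.1.l = 1 := by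
      intro x hx
      have h1 : x ∈ M ⊔ N := by rw [hsup]; trivial
      obtain ⟨m, hm, n, hn, h2⟩ := Subgroup.mem_sup_of_normal_right.1 h1
      refine ⟨m, hm, n, hn, h2, ?_⟩
      have h3 : m.1.l * n.1.l = x.1.l := by rw [← h2]; rfl
      rw [hn.2.2, mul_one] at h3
      rw [h3, hx]
    have hgen : ∀ w ∈ W₃, ∀ hw : (⟨0, 0, w, 1⟩ : HL p L) ∈ K, (⟨⟨0, 0, w, 1⟩, hw⟩ : K) ∈ M := by
      intro w hw
      rw [hW₃] at hw
      induction hw using AddSubgroup.closure_induction with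
      | mem w hw =>
        obtain ⟨f, hf, g, hg, rfl⟩ := hw
        intro hK
        let u : K := ⟨⟨f, 0, 0, 1⟩, hf, W₂.zero_mem, W₃.zero_mem⟩
        let v : K := ⟨⟨0, g, 0, 1⟩, W₁.zero_mem, hg, W₃.zero_mem⟩
        have huv : (⟨⟨0, 0, f * g, 1⟩, hK⟩ : K) = u * v * u⁻¹ * v⁻¹ := by
          apply Subtype.ext
          change (⟨0, 0, f * g, 1⟩ : HL p L) = ⟨f, 0, 0, 1⟩ * ⟨0, g, 0, 1⟩ * (⟨f, 0, 0, 1⟩)⁻¹ *
            (⟨0, g, 0, 1⟩)⁻¹
          ext x
          · simp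
          · simp
          · simp
          · simp
        obtain ⟨m, hm, n, hn, h2, hm1⟩ := hdec u rfl
        obtain ⟨m', hm', n', hn', h2', hm1'⟩ := hdec v rfl
        have e1 : n * m' = m' * n := hcen n hn m' hm1'
        have e2 : n' * m = m * n' := hcen n' hn' m hm1
        have e3 : n * n' = n' * n := hcen n hn n' hn'.2.2
        have h3 : u * v * u⁻¹ * v⁻¹ = m * m' * m⁻¹ * m'⁻¹ := by
          rw [← h2, ← h2']
          have c1 : Commute n m' := e1
          have c2 : Commute n' m := e2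
          have c3 : Commute n n' := e3
          have c4 : Commute n m := hcen n hn m hm1
          have c5 : Commute n' m' := hcen n' hn' m' hm1'
          calc m * n * (m' * n') * (m * n)⁻¹ * (m' * n')⁻¹
              = m * (n * m') * n' * n⁻¹ * m⁻¹ * n'⁻¹ * m'⁻¹ := by group
            _ = m * m' * (n * n') * n⁻¹ * m⁻¹ * n'⁻¹ * m'⁻¹ := by rw [e1]; group
            _ = m * m' * n' * m⁻¹ * n'⁻¹ * m'⁻¹ := by rw [e3]; group
            _ = m * m' * (n' * m⁻¹) * n'⁻¹ * m'⁻¹ := by group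
            _ = m * m' * m⁻¹ * m'⁻¹ := by rw [(c2.inv_right).eq]; group
        rw [huv, h3]
        exact M.mul_mem (M.mul_mem (M.mul_mem hm hm') (M.inv_mem hm)) (M.inv_mem hm')
      | zero =>
        intro hK
        exact M.one_mem
      | add w w' hw hw' ih ih' =>
        intro hK
        have k1 : (⟨0, 0, w, 1⟩ : HL p L) ∈ K := ⟨W₁.zero_mem, W₂.zero_mem, by
          rw [hW₃]; exact hw⟩
        have k2 : (⟨0, 0, w', 1⟩ : HL p L) ∈ K := ⟨W₁.zero_mem, W₂.zero_mem, by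
          rw [hW₃]; exact hw'⟩
        have h1 : (⟨⟨0, 0, w + w', 1⟩, hK⟩ : K) = ⟨⟨0, 0, w, 1⟩, k1⟩ * ⟨⟨0, 0, w', 1⟩, k2⟩ := by
          apply Subtype.ext
          change (⟨0, 0, w + w', 1⟩ : HL p L) = ⟨0, 0, w, 1⟩ * ⟨0, 0, w', 1⟩
          ext x
          · simp
          · simp
          · simp
          · simp
        rw [h1]
        exact M.mul_mem (ih k1) (ih' k2)
      | neg w hw ih =>
        intro hK
        have k1 : (⟨0, 0, w, 1⟩ : HL p L) ∈ K := ⟨W₁.zero_mem, W₂.zero_mem, by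
          rw [hW₃]; exact hw⟩
        have h1 : (⟨⟨0, 0, -w, 1⟩, hK⟩ : K) = (⟨⟨0, 0, w, 1⟩, k1⟩)⁻¹ := by
          apply Subtype.ext
          change (⟨0, 0, -w, 1⟩ : HL p L) = (⟨0, 0, w, 1⟩)⁻¹
          ext x
          · simp
          · simp
          · simp
          · simp
        rw [h1]
        exact M.inv_mem (ih k1)
    rintro ⟨⟨a, b, c, l⟩, hx⟩ ⟨hx1, hx2, hx3⟩
    change a = 0 at hx1
    change b = 0 at hx2
    change l = 1 at hx3
    subst hx1 hx2 hx3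
    exact hgen c hx.2.2 hx
  have hK : F K := sat_le hF hS N hfr hKN
  -- apply the lemma on abelian normal subgroups
  let θ : N →* SW W₃ h₃ := MonoidHom.mk' (fun x => ⟨⟨x.1.1.c, 1⟩, x.1.2.2.2⟩) (by
    rintro x y
    apply Subtype.ext
    ext g
    · change x.1.1.c g + y.1.1.c (x.1.1.l⁻¹ * g) + x.1.1.a g * y.1.1.b (x.1.1.l⁻¹ * g)
        = x.1.1.c g + y.1.1.c (1⁻¹ * g)
      rw [x.2.1, x.2.2.2]
      simp
    · change (1 : L) = 1 * 1
      rw [mul_one])
  let s : K →* SW W₃ h₃ := MonoidHom.mk' (fun x => ⟨⟨0, x.1.l⟩, W₃.zero_mem⟩) (by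
    intro x y
    apply Subtype.ext
    ext g
    · change (0 : ZMod p) = 0 + 0
      rw [add_zero]
    · rfl)
  refine lemA hF N hN θ s ?_ ?_ hK
  · intro e v
    apply Subtype.ext
    ext g
    · change (e.1.c g + v.1.1.c (e.1.l⁻¹ * g) + e.1.a g * v.1.1.b (e.1.l⁻¹ * g)) +
        (- e.1.c (e.1.l * ((e.1.l * v.1.1.l)⁻¹ * g)) +
          e.1.a (e.1.l * ((e.1.l * v.1.1.l)⁻¹ * g)) * e.1.b (e.1.l * ((e.1.l * v.1.1.l)⁻¹ * g))) +
        (e.1.a g + v.1.1.a (e.1.l⁻¹ * g)) * (- e.1.b (e.1.l * ((e.1.l * v.1.1.l)⁻¹ * g)))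
        = (0 + v.1.1.c (e.1.l⁻¹ * g)) + - 0
      rw [v.2.1, v.2.2.1, v.2.2.2]
      simp only [Pi.zero_apply, mul_one, mul_inv_cancel_left, mul_zero, add_zero, zero_add,
        neg_zero]
      ring
    · change (1 : L) = e.1.l * 1 * (e.1.l)⁻¹
      rw [mul_one, mul_inv_cancel]
  · intro x
    refine ⟨⟨⟨⟨0, 0, x.1.a, 1⟩, W₁.zero_mem, W₂.zero_mem, x.2⟩, rfl, rfl, rfl⟩,
      ⟨⟨0, 0, 0, x.1.l⟩, W₁.zero_mem, W₂.zero_mem, W₃.zero_mem⟩, ?_⟩
    apply Subtype.ext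
    ext g
    · change x.1.a g + 0 = x.1.a g
      rw [add_zero]
    · change 1 * x.1.l = x.1.l
      rw [one_mul]

end

end Pool.Agent.Helper476.T
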