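import Pool.Agent.Helper476.T2

set_option autoImplicit false
set_option linter.style.haveILetI false

namespace Pool.Agent.Helper476.T

open Function Subgroup

/-- `L` belongs to the `p`-component of `F` -/
def Fp (F : ∀ (G : Type) [Group G], Prop) (p : ℕ) (L : Type) [Group L] : Prop := F (AL p L)

/-- an invariant group of functions whose extension lies in the class -/
structure WM (F : ∀ (G : Type) [Group G], Prop) {p : ℕ} {L : Type} [Group L]
    (W : AddSubgroup (L → ZMod p)) : Prop where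
  st : Stab W
  mem : F (SW W st)

section

variable {F : ∀ (G : Type) [Group G], Prop} {p : ℕ} {L : Type} [Group L]

theorem stab_sup {W₁ W₂ : AddSubgroup (L → ZMod p)} (h₁ : Stab W₁) (h₂ : Stab W₂) :
    Stab (W₁ ⊔ W₂) := by
  intro l w hw
  obtain ⟨w₁, hw₁, w₂, hw₂, rfl⟩ := AddSubgroup.mem_sup.1 hw
  exact add_mem (AddSubgroup.mem_sup_left (S := W₁) (T := W₂) (h₁ l w₁ hw₁))
    (AddSubgroup.mem_sup_right (h₂ l w₂ hw₂))

theorem exists_largest (hF : Fmn F) [Finite L] [NeZero p] (hL : F L) :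
    ∃ W : AddSubgroup (L → ZMod p), WM F W ∧ ∀ W' : AddSubgroup (L → ZMod p), WM F W' → W' ≤ W := by
  let 𝒲 : Set (AddSubgroup (L → ZMod p)) := {W | WM F W}
  have hne : 𝒲.Nonempty := by
    have hst : Stab (⊥ : AddSubgroup (L → ZMod p)) := by
      intro l w hw
      rw [AddSubgroup.mem_bot] at hw ⊢
      subst hw
      rfl
    refine ⟨⊥, hst, ?_⟩
    let f : L →* SW (⊥ : AddSubgroup (L → ZMod p)) hst := MonoidHom.mk' (fun l =>
      ⟨⟨0, l⟩, (⊥ : AddSubgroup (L → ZMod p)).zero_mem⟩) (by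
        intro x y
        apply Subtype.ext
        ext g
        · change (0 : ZMod p) = 0 + 0
          rw [add_zero]
        · rfl)
    refine hF.q L _ f ?_ hL
    intro x
    refine ⟨x.1.l, ?_⟩
    apply Subtype.ext
    have h1 : x.1.a = 0 := AddSubgroup.mem_bot.1 x.2
    ext g
    · change (0 : ZMod p) = x.1.a g
      rw [h1]; rfl
    · rfl
  obtain ⟨W, hW, hmax⟩ := Set.Finite.exists_maximal (Set.toFinite 𝒲) hne
  refine ⟨W, hW, fun W' hW' => ?_⟩
  have h1 : WM F (W ⊔ W') := ⟨stab_sup hW.st hW'.st, sup_mem hF hW.st hW'.st hW.mem hW'.mem _⟩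
  exact le_sup_right.trans (hmax h1 le_sup_left)

theorem full (hF : Fmn F) (hS : Sat F) [Finite L] [hp : Fact p.Prime]
    {W : AddSubgroup (L → ZMod p)} (hW : WM F W)
    (hmax : ∀ W' : AddSubgroup (L → ZMod p), WM F W' → W' ≤ W)
    (sep : ∀ g h : L, g ≠ h → ∃ f ∈ W, f g ≠ f h) (nv : ∀ g : L, ∃ f ∈ W, f g ≠ 0) :
    Fp F p L := by
  classical
  have hmul : ∀ f ∈ W, ∀ g ∈ W, f * g ∈ W := by
    intro f hf g hg
    let W₃ : AddSubgroup (L → ZMod p) := AddSubgroup.closure {w | ∃ f ∈ W, ∃ g ∈ W, w = f * g}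
    have hst : Stab W₃ := by
      intro l w hw
      induction hw using AddSubgroup.closure_induction with
      | mem w hw =>
        obtain ⟨f, hf, g, hg, rfl⟩ := hw
        exact AddSubgroup.subset_closure ⟨_, hW.st l f hf, _, hW.st l g hg, rfl⟩
      | zero => exact W₃.zero_mem
      | add w w' hw hw' ih ih' => exact W₃.add_mem ih ih'
      | neg w hw ih => exact W₃.neg_mem ih
    have h1 : WM F W₃ := ⟨hst, prod_mem hF hS hW.st hW.st hW.mem hW.mem hst rfl⟩
    exact hmax W₃ h1 (AddSubgroup.subset_closure ⟨f, hf, g, hg, rfl⟩)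
  have hsc : ∀ (c : ZMod p), ∀ f ∈ W, (fun x => c * f x) ∈ W := by
    intro c f hf
    have h1 := W.nsmul_mem hf c.val
    have h2 : (fun x => c * f x) = c.val • f := by
      funext x
      rw [Pi.smul_apply, nsmul_eq_mul, ZMod.natCast_val, ZMod.cast_id]
    rw [h2]
    exact h1
  have hone : ∀ g h : L, g ≠ h → ∃ f ∈ W, f g = 1 ∧ f h = 0 := by
    intro g h hgh
    have key : ∃ f ∈ W, f g ≠ 0 ∧ f h = 0 := by
      obtain ⟨f, hf, hfg⟩ := sep g h hgh
      by_cases h1 : f h = 0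
      · exact ⟨f, hf, by rw [h1] at hfg; exact hfg, h1⟩
      · by_cases h2 : f g = 0
        · obtain ⟨u, hu, hug⟩ := nv g
          refine ⟨fun x => u x - (u h / f h) * f x, W.sub_mem hu (hsc _ f hf), ?_, ?_⟩
          · simp only [h2, mul_zero, sub_zero]
            exact hug
          · simp only
            rw [div_mul_cancel₀ _ h1, sub_self]
        · refine ⟨fun x => (f * f) x - f h * f x, W.sub_mem (hmul f hf f hf) (hsc _ f hf), ?_, ?_⟩
          · simp only [Pi.mul_apply]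
            rw [← sub_mul]
            exact mul_ne_zero (sub_ne_zero.2 hfg) h2
          · simp only [Pi.mul_apply, sub_self]
    obtain ⟨f, hf, h1, h2⟩ := key
    refine ⟨fun x => (f g)⁻¹ * f x, hsc _ f hf, ?_, ?_⟩
    · simp only
      exact inv_mul_cancel₀ h1
    · simp only [h2, mul_zero]
  have hfin : ∀ (g : L) (s : Finset L), g ∉ s → ∃ f ∈ W, f g = 1 ∧ ∀ h ∈ s, f h = 0 := by
    intro g s
    induction s using Finset.induction_on with
    | empty =>
      intro _
      obtain ⟨u, hu, hug⟩ := nv g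
      refine ⟨fun x => (u g)⁻¹ * u x, hsc _ u hu, ?_, ?_⟩
      · simp only
        exact inv_mul_cancel₀ hug
      · intro h hh
        exact absurd hh (Finset.notMem_empty h)
    | insert h s hhs ih =>
      intro hg
      rw [Finset.mem_insert, not_or] at hg
      obtain ⟨f, hf, hf1, hf2⟩ := ih hg.2
      obtain ⟨f', hf', hf1', hf2'⟩ := hone g h hg.1
      refine ⟨f * f', hmul f hf f' hf', ?_, ?_⟩
      · rw [Pi.mul_apply, hf1, hf1', mul_one]
      · intro k hk
        rw [Finset.mem_insert] at hk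
        rw [Pi.mul_apply]
        rcases hk with rfl | hk
        · rw [hf2', mul_zero]
        · rw [hf2 k hk, zero_mul]
  letI := Fintype.ofFinite L
  have hsingle : ∀ (g : L), (Pi.single g 1 : L → ZMod p) ∈ W := by
    intro g
    obtain ⟨f, hf, hf1, hf2⟩ := hfin g (Finset.univ.erase g) (Finset.notMem_erase g _)
    have : (Pi.single g 1 : L → ZMod p) = f := by
      funext x
      by_cases hx : x = g
      · subst hx
        rw [Pi.single_eq_same, hf1]
      · rw [Pi.single_eq_of_ne hx, hf2 x (Finset.mem_erase.2 ⟨hx, Finset.mem_univ x⟩)]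
    rw [this]
    exact hf
  have htop : ∀ w : L → ZMod p, w ∈ W := by
    intro w
    have h1 : w = ∑ g : L, (fun x => w g * (Pi.single g 1 : L → ZMod p) x) := by
      funext x
      rw [Finset.sum_apply, Finset.sum_eq_single x]
      · rw [Pi.single_eq_same, mul_one]
      · intro b _ hb
        rw [Pi.single_eq_of_ne (Ne.symm hb), mul_zero]
      · intro h
        exact absurd (Finset.mem_univ x) h
    rw [h1]
    exact sum_mem fun g _ => hsc _ _ (hsingle g)
  exact hF.q _ (AL p L) (SW W hW.st).subtype (fun x => ⟨⟨x, htop x.a⟩, rfl⟩) hW.mem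

theorem sepB {V : Type} [AddCommGroup V] [hp : Fact p.Prime] [Module (ZMod p) V]
    (v : V) (hv : v ≠ 0) : ∃ χ : V →+ (ZMod p), χ v ≠ 0 := by
  obtain ⟨f, hf⟩ := Module.Projective.exists_dual_ne_zero (ZMod p) hv
  exact ⟨f.toAddMonoidHom, hf⟩

theorem sepC {V : Type} [AddCommGroup V] [hp : Fact p.Prime]
    (hpow : ∀ v : V, p • v = 0) (v : V) (hv : v ≠ 0) : ∃ χ : V →+ (ZMod p), χ v ≠ 0 :=
  @sepB p V _ hp (AddCommGroup.zmodModule hpow) v hv

theorem sepV' {V : Type} [CommGroup V] [hp : Fact p.Prime]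
    (hpow : ∀ v : V, v ^ p = 1) (v : V) (hv : v ≠ 1) :
    ∃ χ : V →* Multiplicative (ZMod p), χ v ≠ 1 := by
  obtain ⟨χ, hχ⟩ := sepC (p := p) (V := Additive V) (fun x => hpow x.toMul) (Additive.ofMul v) hv
  exact ⟨AddMonoidHom.toMultiplicativeRight χ, hχ⟩

theorem sepV {V : Type} [inst : Group V] (hab : ∀ a b : V, a * b = b * a) [hp : Fact p.Prime]
    (hpow : ∀ v : V, v ^ p = 1) (v : V) (hv : v ≠ 1) :
    ∃ χ : V →* Multiplicative (ZMod p), χ v ≠ 1 :=
  @sepV' p V { inst with mul_comm := hab } hp hpow v hv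

/-- an abelian normal subgroup of exponent `p` with its automiser -/
theorem P1 (hF : Fmn F) (hS : Sat F) [hp : Fact p.Prime] {E : Type} [Group E] [Finite E]
    (V : Subgroup E) [hV : V.Normal] (hab : ∀ a ∈ V, ∀ b ∈ V, a * b = b * a)
    (hpow : ∀ a ∈ V, a ^ p = 1) (hne : V ≠ ⊥) (f : E →* L) (hf : Surjective f)
    (hk : ∀ e, f e = 1 ↔ ∀ v ∈ V, e * v = v * e) (hE : F E) : Fp F p L := by
  have : Finite L := Finite.of_surjective f hf
  have hL : F L := hF.q E L f hf hE
  obtain ⟨W, hW, hmax⟩ := exists_largest (p := p) hF hL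
  let s : L → E := surjInv hf
  have hs : ∀ l, f (s l) = l := surjInv_eq hf
  have hconj : ∀ x y : E, f x = f y → ∀ v ∈ V, x⁻¹ * v * x = y⁻¹ * v * y := by
    intro x y hxy v hv
    have h1 : f (x * y⁻¹) = 1 := by rw [map_mul, map_inv, hxy, mul_inv_cancel]
    have h2 := (hk _).1 h1 v hv
    calc x⁻¹ * v * x = x⁻¹ * (v * (x * y⁻¹)) * y := by group
      _ = x⁻¹ * (x * y⁻¹ * v) * y := by rw [h2]
      _ = y⁻¹ * v * y := by group
  have hVc : ∀ (x : E) (v : E), v ∈ V → x⁻¹ * v * x ∈ V := by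
    intro x v hv
    have := hV.conj_mem v hv x⁻¹
    rwa [inv_inv] at this
  let m : (V →* Multiplicative (ZMod p)) → V → (L → ZMod p) := fun χ v g =>
    (χ ⟨(s g)⁻¹ * v * s g, hVc _ _ v.2⟩).toAdd
  have hm_mul : ∀ χ v w, m χ (v * w) = m χ v + m χ w := by
    intro χ v w
    funext g
    change (χ ⟨(s g)⁻¹ * (v * w : V) * s g, _⟩).toAdd = (χ ⟨(s g)⁻¹ * v * s g, _⟩).toAdd +
      (χ ⟨(s g)⁻¹ * w * s g, _⟩).toAdd
    rw [← toAdd_mul, ← map_mul]
    congr 2
    apply Subtype.ext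
    change (s g)⁻¹ * (v * w : V) * s g = (s g)⁻¹ * v * s g * ((s g)⁻¹ * w * s g)
    push_cast
    group
  have hm_conj : ∀ χ (e : E) (v : V) (g : L),
      m χ ⟨e * v * e⁻¹, hV.conj_mem v v.2 e⟩ g = m χ v ((f e)⁻¹ * g) := by
    intro χ e v g
    change (χ ⟨(s g)⁻¹ * (e * v * e⁻¹) * s g, _⟩).toAdd
      = (χ ⟨(s ((f e)⁻¹ * g))⁻¹ * v * s ((f e)⁻¹ * g), _⟩).toAdd
    congr 2
    apply Subtype.ext
    have h1 := hconj (e⁻¹ * s g) (s ((f e)⁻¹ * g)) (by rw [map_mul, map_inv, hs, hs]) v v.2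
    change (s g)⁻¹ * (e * v * e⁻¹) * s g = (s ((f e)⁻¹ * g))⁻¹ * v * s ((f e)⁻¹ * g)
    rw [← h1]
    group
  have hWχ : ∀ χ : V →* Multiplicative (ZMod p), ∀ v, m χ v ∈ W := by
    intro χ v₀
    let Wχ : AddSubgroup (L → ZMod p) :=
      { carrier := {w | ∃ v, w = m χ v}
        zero_mem' := ⟨1, by
          have := hm_mul χ 1 1
          rw [mul_one] at this
          exact (left_eq_add.1 this).symm⟩
        add_mem' := by
          rintro _ _ ⟨v, rfl⟩ ⟨w, rfl⟩
          exact ⟨v * w, (hm_mul χ v w).symm⟩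
        neg_mem' := by
          rintro _ ⟨v, rfl⟩
          refine ⟨v⁻¹, ?_⟩
          have h0 : m χ 1 = 0 := by
            have := hm_mul χ 1 1
            rw [mul_one] at this
            exact (left_eq_add.1 this)
          have := hm_mul χ v⁻¹ v
          rw [inv_mul_cancel, h0] at this
          exact neg_eq_of_add_eq_zero_left this.symm }
    have hst : Stab Wχ := by
      rintro l _ ⟨v, rfl⟩
      refine ⟨⟨s l * v * (s l)⁻¹, hV.conj_mem v v.2 _⟩, ?_⟩
      funext g
      rw [hm_conj, hs]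
    have hmem : F (SW Wχ hst) := by
      let θ : V →* SW Wχ hst := MonoidHom.mk' (fun v => ⟨⟨m χ v, 1⟩, v, rfl⟩) (by
        intro v w
        apply Subtype.ext
        ext g
        · change m χ (v * w) g = m χ v g + m χ w (1⁻¹ * g)
          rw [hm_mul, inv_one, one_mul]; rfl
        · change (1 : L) = 1 * 1
          rw [mul_one])
      let t : E →* SW Wχ hst := MonoidHom.mk' (fun e => ⟨⟨0, f e⟩, Wχ.zero_mem⟩) (by
        intro x y
        apply Subtype.ext
        ext g
        · change (0 : ZMod p) = 0 + 0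
          rw [add_zero]
        · change f (x * y) = f x * f y
          rw [map_mul])
      refine lemA hF V hV θ t ?_ ?_ hE
      · intro e v
        apply Subtype.ext
        ext g
        · change m χ ⟨e * v * e⁻¹, _⟩ g = 0 + m χ v ((f e)⁻¹ * g) + - 0
          rw [hm_conj, zero_add, neg_zero, add_zero]
        · change (1 : L) = f e * 1 * (f e)⁻¹
          rw [mul_one, mul_inv_cancel]
      · rintro ⟨⟨w, l⟩, v, hv⟩
        change w = m χ v at hv
        subst hv
        refine ⟨v, s l, ?_⟩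
        apply Subtype.ext
        ext g
        · change m χ v g + 0 = m χ v g
          rw [add_zero]
        · change 1 * f (s l) = l
          rw [one_mul, hs]
    exact hmax Wχ ⟨hst, hmem⟩ ⟨v₀, rfl⟩
  have habV : ∀ a b : V, a * b = b * a := fun a b => Subtype.ext (hab a a.2 b b.2)
  have hpV : ∀ v : V, v ^ p = 1 := fun v => Subtype.ext (hpow v v.2)
  refine full hF hS hW hmax ?_ ?_
  · intro g h hgh
    have h1 : f (s g * (s h)⁻¹) ≠ 1 := by
      rw [map_mul, map_inv, hs, hs]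
      intro h2
      exact hgh (mul_inv_eq_one.1 h2)
    rw [Ne, hk] at h1
    push Not at h1
    obtain ⟨v, hv, hv2⟩ := h1
    let v1 : V := ⟨(s g)⁻¹ * v * s g, hVc _ _ hv⟩
    let v2 : V := ⟨(s h)⁻¹ * v * s h, hVc _ _ hv⟩
    have h3 : v1 * v2⁻¹ ≠ 1 := by
      intro h4
      apply hv2
      have h5 : (s g)⁻¹ * v * s g = (s h)⁻¹ * v * s h := congrArg Subtype.val (mul_inv_eq_one.1 h4)
      calc s g * (s h)⁻¹ * v = s g * ((s h)⁻¹ * v * s h) * (s h)⁻¹ := by group
        _ = s g * ((s g)⁻¹ * v * s g) * (s h)⁻¹ := by rw [h5]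
        _ = v * (s g * (s h)⁻¹) := by group
    obtain ⟨χ, hχ⟩ := sepV habV hpV _ h3
    refine ⟨m χ ⟨v, hv⟩, hWχ χ _, ?_⟩
    intro h4
    apply hχ
    rw [map_mul, map_inv, mul_inv_eq_one]
    exact h4
  · intro g
    obtain ⟨v', hv1⟩ := Subgroup.ne_bot_iff_exists_ne_one.1 hne
    obtain ⟨v, hv⟩ := v'
    obtain ⟨χ, hχ⟩ := sepV habV hpV ⟨v, hv⟩ hv1
    refine ⟨m χ ⟨s g * v * (s g)⁻¹, hV.conj_mem v hv _⟩, hWχ χ _, ?_⟩
    intro h4
    apply hχ
    have h5 : (⟨(s g)⁻¹ * (s g * v * (s g)⁻¹) * s g, hVc _ _ (hV.conj_mem v hv _)⟩ : V)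
        = ⟨v, hv⟩ := by
      apply Subtype.ext
      change (s g)⁻¹ * (s g * v * (s g)⁻¹) * s g = v
      group
    rw [← h5]
    exact h4

end

end Pool.Agent.Helper476.T
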