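import Pool.Agent.Helper476.T3
import Pool.Agent.Helper476.R2

set_option autoImplicit false
set_option linter.style.haveILetI false

namespace Pool.Agent.Helper476.T

open Function Subgroup
open Pool.Agent.Helper476.R (IsChief fcent nil_cent_chief chief_comm chief_pow mem_fcent)
open scoped commutatorElement

theorem exists_min {G : Type} [Group G] [Finite G] (M : Subgroup G) (hM : M.Normal)
    (hne : M ≠ ⊥) : ∃ N : Subgroup G, N ≤ M ∧ IsChief N ⊥ := by
  let 𝒜 : Set (Subgroup G) := {A | A.Normal ∧ A ≤ M ∧ A ≠ ⊥}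
  obtain ⟨N, ⟨hN, hNM, hN1⟩, hmin⟩ := Set.Finite.exists_minimal (Set.toFinite 𝒜)
    ⟨M, hM, le_rfl, hne⟩
  refine ⟨N, hNM, hN, inferInstance, bot_lt_iff_ne_bot.2 hN1, fun T hT _ h2 => ?_⟩
  by_cases h3 : T = ⊥
  · exact Or.inl h3
  · exact Or.inr (le_antisymm h2 (hmin ⟨hT, h2.trans hNM, h3⟩ h2))

theorem exists_chief_below {G : Type} [Group G] [Finite G] (A C : Subgroup G) (hA : A.Normal)
    (hC : C.Normal) (hCA : C < A) : ∃ B : Subgroup G, C ≤ B ∧ IsChief A B := by
  let ℬ : Set (Subgroup G) := {B | B.Normal ∧ C ≤ B ∧ B < A}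
  obtain ⟨B, ⟨hB, hCB, hBA⟩, hmax⟩ := Set.Finite.exists_maximal (Set.toFinite ℬ)
    ⟨C, hC, le_rfl, hCA⟩
  refine ⟨B, hCB, hA, hB, hBA, fun T hT h1 h2 => ?_⟩
  by_cases h3 : T = A
  · exact Or.inr h3
  · exact Or.inl (le_antisymm (hmax ⟨hT, hCB.trans h1, lt_of_le_of_ne h2 h3⟩ h1) h1)

section

variable {F : ∀ (G : Type) [Group G], Prop} {p : ℕ}

theorem Fp_le (hF : Fmn F) {L : Type} [Group L] [Finite L] [NeZero p] (h : Fp F p L) : F L :=
  hF.q (AL p L) L AL.pr (fun l => ⟨⟨0, l⟩, rfl⟩) h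

theorem Fp_q (hF : Fmn F) {L K : Type} [Group L] [Group K] [Finite L] [NeZero p] (f : L →* K)
    (hf : Surjective f) (h : Fp F p L) : Fp F p K := by
  let s : K → L := surjInv hf
  have hs : ∀ l, f (s l) = l := surjInv_eq hf
  let V : Subgroup (AL p L) :=
    { carrier := {x | x.l = 1 ∧ ∀ g h, f g = f h → x.a g = x.a h}
      one_mem' := ⟨rfl, fun _ _ _ => rfl⟩
      mul_mem' := by
        rintro x y ⟨hx1, hx2⟩ ⟨hy1, hy2⟩
        refine ⟨by rw [AL.mul_l, hx1, hy1, mul_one], fun g h hgh => ?_⟩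
        rw [AL.mul_a, AL.mul_a, hx1, inv_one, one_mul, one_mul, hx2 g h hgh, hy2 g h hgh]
      inv_mem' := by
        rintro x ⟨hx1, hx2⟩
        refine ⟨by rw [AL.inv_l, hx1, inv_one], fun g h hgh => ?_⟩
        rw [AL.inv_a, AL.inv_a, hx1, one_mul, one_mul, hx2 g h hgh] }
  have hcj : ∀ (e v : AL p L), v.l = 1 → ∀ g, (e * v * e⁻¹).a g = v.a (e.l⁻¹ * g) := by
    intro e v hv g
    rw [AL.mul_a, AL.mul_a, AL.inv_a, AL.mul_l, hv, mul_one, mul_inv_cancel_left]
    ring
  have hV : V.Normal := by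
    constructor
    rintro v ⟨hv1, hv2⟩ e
    refine ⟨by rw [AL.mul_l, AL.mul_l, AL.inv_l, hv1, mul_one, mul_inv_cancel], fun g h hgh => ?_⟩
    rw [hcj e v hv1, hcj e v hv1]
    exact hv2 _ _ (by rw [map_mul, map_mul, hgh])
  let θ : V →* AL p K := MonoidHom.mk' (fun x => ⟨fun k => x.1.a (s k), 1⟩) (by
    intro x y
    ext k
    · change x.1.a (s k) + y.1.a (x.1.l⁻¹ * s k) = x.1.a (s k) + y.1.a (s (1⁻¹ * k))
      rw [x.2.1, inv_one, inv_one, one_mul, one_mul]
    · change (1 : K) = 1 * 1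
      rw [mul_one])
  let t : AL p L →* AL p K := MonoidHom.mk' (fun x => ⟨0, f x.l⟩) (by
    intro x y
    ext k
    · change (0 : ZMod p) = 0 + 0
      rw [add_zero]
    · change f (x.l * y.l) = f x.l * f y.l
      rw [map_mul])
  refine lemA hF V hV θ t ?_ ?_ h
  · intro e v
    ext k
    · change (e * v * e⁻¹).a (s k) = 0 + v.1.a (s ((f e.l)⁻¹ * k)) + - 0
      rw [hcj e v v.2.1, v.2.2 (e.l⁻¹ * s k) (s ((f e.l)⁻¹ * k))
        (by rw [map_mul, map_inv, hs, hs]), zero_add, neg_zero, add_zero]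
    · change (1 : K) = f e.l * 1 * (f e.l)⁻¹
      rw [mul_one, mul_inv_cancel]
  · intro x
    refine ⟨⟨⟨fun g => x.a (f g), 1⟩, rfl, fun g h hgh => ?_⟩, ⟨0, s x.l⟩, ?_⟩
    · change x.a (f g) = x.a (f h)
      rw [hgh]
    · ext k
      · change x.a (f (s k)) + 0 = x.a k
        rw [hs, add_zero]
      · change 1 * f (s x.l) = x.l
        rw [one_mul, hs]

theorem Fp_r0 (hF : Fmn F) (hS : Sat F) [hp : Fact p.Prime] {L L₁ L₂ : Type} [Group L] [Group L₁]
    [Group L₂] [Finite L] (p₁ : L →* L₁) (p₂ : L →* L₂) (hp₁ : Surjective p₁)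
    (hp₂ : Surjective p₂) (hk : ∀ t, p₁ t = 1 → p₂ t = 1 → t = 1) (h₁ : Fp F p L₁)
    (h₂ : Fp F p L₂) : Fp F p L := by
  classical
  have : Finite L₁ := Finite.of_surjective p₁ hp₁
  have : Finite L₂ := Finite.of_surjective p₂ hp₂
  have hL : F L := hF.r0 L L₁ L₂ p₁ p₂ hp₁ hp₂ hk (Fp_le hF h₁) (Fp_le hF h₂)
  obtain ⟨W, hW, hmax⟩ := exists_largest (p := p) hF hL
  have key : ∀ (K : Type) [Group K] (f : L →* K), Surjective f → Fp F p K →
      ∀ w : L → ZMod p, (∀ g h, f g = f h → w g = w h) → w ∈ W := by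
    intro K _ f hf hK w hw
    let s : K → L := surjInv hf
    have hs : ∀ l, f (s l) = l := surjInv_eq hf
    let W' : AddSubgroup (L → ZMod p) :=
      { carrier := {w | ∀ g h, f g = f h → w g = w h}
        zero_mem' := fun _ _ _ => rfl
        add_mem' := by
          intro a b ha hb g h hgh
          rw [Pi.add_apply, Pi.add_apply, ha g h hgh, hb g h hgh]
        neg_mem' := by
          intro a ha g h hgh
          rw [Pi.neg_apply, Pi.neg_apply, ha g h hgh] }
    have hst : Stab W' := by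
      intro l w hw g h hgh
      exact hw _ _ (by rw [map_mul, map_mul, hgh])
    have hmem : F (SW W' hst) := by
      let q : SW W' hst →* AL p K := MonoidHom.mk' (fun x => ⟨fun k => x.1.a (s k), f x.1.l⟩) (by
        intro x y
        ext k
        · change x.1.a (s k) + y.1.a (x.1.l⁻¹ * s k)
            = x.1.a (s k) + y.1.a (s ((f x.1.l)⁻¹ * k))
          rw [mem_SW.1 y.2 (x.1.l⁻¹ * s k) (s ((f x.1.l)⁻¹ * k))
            (by rw [map_mul, map_inv, hs, hs])]
        · change f (x.1.l * y.1.l) = f x.1.l * f y.1.l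
          rw [map_mul])
      refine hF.r0 _ L (AL p K) (prW W' hst) q (prW_surj W' hst) ?_ ?_ hL hK
      · intro x
        refine ⟨⟨⟨fun g => x.a (f g), s x.l⟩, fun g h hgh => ?_⟩, ?_⟩
        · change x.a (f g) = x.a (f h)
          rw [hgh]
        · ext k
          · change x.a (f (s k)) = x.a k
            rw [hs]
          · exact hs x.l
      · intro x h1 h2
        apply Subtype.ext
        ext g
        · have h3 : x.1.a (s (f g)) = 0 := congrFun (congrArg AL.a h2) (f g)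
          change x.1.a g = 0
          rw [mem_SW.1 x.2 g (s (f g)) (hs (f g)).symm, h3]
        · exact h1
    exact hmax W' ⟨hst, hmem⟩ hw
  refine full hF hS hW hmax ?_ ?_
  · intro g h hgh
    by_cases h1 : p₁ g = p₁ h
    · have h2 : p₂ g ≠ p₂ h := by
        intro h2
        apply hgh
        have := hk (g * h⁻¹) (by rw [map_mul, map_inv, h1, mul_inv_cancel])
          (by rw [map_mul, map_inv, h2, mul_inv_cancel])
        exact mul_inv_eq_one.1 this
      refine ⟨fun x => if p₂ x = p₂ g then 1 else 0, key L₂ p₂ hp₂ h₂ _ ?_, ?_⟩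
      · intro x y hxy
        rw [hxy]
      · simp only [if_true, if_neg (Ne.symm h2)]
        exact one_ne_zero
    · refine ⟨fun x => if p₁ x = p₁ g then 1 else 0, key L₁ p₁ hp₁ h₁ _ ?_, ?_⟩
      · intro x y hxy
        rw [hxy]
      · simp only [if_true, if_neg (Ne.symm h1)]
        exact one_ne_zero
  · intro g
    exact ⟨fun _ => 1, key L₁ p₁ hp₁ h₁ _ (fun _ _ _ => rfl), one_ne_zero⟩

theorem Fp_fmn (hF : Fmn F) (hS : Sat F) [hp : Fact p.Prime] (h1 : Fp F p Unit) :
    Fmn (fun L [Group L] => Fp F p L) where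
  one := h1
  q := fun _ _ _ _ _ f hf h => Fp_q hF f hf h
  r0 := fun _ _ _ _ _ _ _ p₁ p₂ h₁ h₂ hk h3 h4 => Fp_r0 hF hS p₁ p₂ h₁ h₂ hk h3 h4

theorem P4 (hF : Fmn F) (hS : Sat F) [hp : Fact p.Prime] {E L : Type} [Group E] [Group L]
    [Finite E] (N : Subgroup E) [hN : N.Normal] (hab : ∀ a ∈ N, ∀ b ∈ N, a * b = b * a)
    (hpow : ∀ a ∈ N, a ^ p = 1) (hch : IsChief N ⊥) (hEN : F (E ⧸ N))
    (f : E →* L) (hf : Surjective f) (hk : ∀ e, f e = 1 → ∀ v ∈ N, e * v = v * e)
    (hL : Fp F p L) : F E := by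
  classical
  by_cases hfr : N ≤ frattini E
  · exact sat_le hF hS N hfr hEN
  have : Finite L := Finite.of_surjective f hf
  obtain ⟨K, hK, hNK⟩ : ∃ K : Subgroup E, IsCoatom K ∧ ¬ N ≤ K := by
    by_contra hcon
    push Not at hcon
    apply hfr
    rw [frattini, Order.radical]
    exact le_iInf₂ fun K hK => hcon K hK
  have hsup : K ⊔ N = ⊤ := by
    have h1 : K < K ⊔ N := lt_of_le_of_ne le_sup_left (fun h => hNK (h ▸ le_sup_right))
    exact hK.2 _ h1
  have hinf : N ⊓ K = ⊥ := by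
    have hnor : (N ⊓ K).Normal := by
      constructor
      rintro n ⟨hn, hn'⟩ g
      have hg : g ∈ K ⊔ N := by rw [hsup]; trivial
      obtain ⟨k, hk1, m, hm, rfl⟩ := Subgroup.mem_sup_of_normal_right.1 hg
      have h1 : m * n * m⁻¹ = n := by rw [hab m hm n hn, mul_inv_cancel_right]
      have h2 : k * m * n * (k * m)⁻¹ = k * (m * n * m⁻¹) * k⁻¹ := by group
      rw [h2, h1]
      exact ⟨hN.conj_mem n hn k, K.mul_mem (K.mul_mem hk1 hn') (K.inv_mem hk1)⟩
    rcases hch.min (N ⊓ K) hnor bot_le inf_le_left with h1 | h1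
    · exact h1
    · exact absurd (h1 ▸ inf_le_right) hNK
  -- retraction
  let j : K →* E ⧸ N := (QuotientGroup.mk' N).comp K.subtype
  have hj : Bijective j := by
    constructor
    · rw [← MonoidHom.ker_eq_bot_iff, eq_bot_iff]
      intro x hx
      have h1 : ((x : E) : E ⧸ N) = 1 := hx
      rw [QuotientGroup.eq_one_iff] at h1
      have h2 : (x : E) ∈ N ⊓ K := ⟨h1, x.2⟩
      rw [hinf] at h2
      exact Subtype.ext h2
    · intro x
      obtain ⟨g, rfl⟩ := QuotientGroup.mk_surjective x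
      have hg : g ∈ K ⊔ N := by rw [hsup]; trivial
      obtain ⟨k, hk1, m, hm, rfl⟩ := Subgroup.mem_sup_of_normal_right.1 hg
      refine ⟨⟨k, hk1⟩, ?_⟩
      change (k : E ⧸ N) = ((k * m : E) : E ⧸ N)
      rw [QuotientGroup.eq, inv_mul_cancel_left]
      exact hm
  let J : K ≃* E ⧸ N := MulEquiv.ofBijective j hj
  let r : E →* E := K.subtype.comp (J.symm.toMonoidHom.comp (QuotientGroup.mk' N))
  have hr1 : ∀ e, r e ∈ K := fun e => (J.symm (QuotientGroup.mk' N e)).2
  have hr2 : ∀ e, e * (r e)⁻¹ ∈ N := by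
    intro e
    have h1 : ((r e : E) : E ⧸ N) = (e : E ⧸ N) := J.apply_symm_apply _
    have h2 := QuotientGroup.eq.1 h1
    have h3 : e * (r e)⁻¹ = r e * ((r e)⁻¹ * e) * (r e)⁻¹ := by group
    rw [h3]
    exact hN.conj_mem _ h2 _
  have hr3 : ∀ k ∈ K, r k = k := by
    intro k hk1
    have : J.symm (QuotientGroup.mk' N k) = ⟨k, hk1⟩ := by
      rw [MulEquiv.symm_apply_eq]
      rfl
    change ((J.symm (QuotientGroup.mk' N k) : K) : E) = k
    rw [this]
  have hr4 : ∀ n ∈ N, r n = 1 := by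
    intro n hn
    have h1 : (QuotientGroup.mk' N n) = 1 := (QuotientGroup.eq_one_iff n).2 hn
    change ((J.symm (QuotientGroup.mk' N n) : K) : E) = 1
    rw [h1, map_one]
    rfl
  have hr5 : ∀ e, ∀ v ∈ N, e * v * e⁻¹ = r e * v * (r e)⁻¹ := by
    intro e v hv
    have h1 : e = (e * (r e)⁻¹) * r e := by group
    have h2 : r e * v * (r e)⁻¹ ∈ N := hN.conj_mem v hv _
    calc e * v * e⁻¹ = (e * (r e)⁻¹) * (r e * v * (r e)⁻¹) * (e * (r e)⁻¹)⁻¹ := by group
      _ = (r e * v * (r e)⁻¹) * (e * (r e)⁻¹) * (e * (r e)⁻¹)⁻¹ := by rw [hab _ (hr2 e) _ h2]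
      _ = r e * v * (r e)⁻¹ := by group
  -- the module map
  obtain ⟨n₀', hn₀⟩ := Subgroup.ne_bot_iff_exists_ne_one.1 (bot_lt_iff_ne_bot.1 hch.lt)
  letI : CommGroup N := { (inferInstance : Group N) with
    mul_comm := fun a b => Subtype.ext (hab a a.2 b b.2) }
  letI := Fintype.ofFinite L
  let s : L → E := surjInv hf
  have hs : ∀ l, f (s l) = l := surjInv_eq hf
  have hconj : ∀ x y : E, f x = f y → ∀ v ∈ N, x * v * x⁻¹ = y * v * y⁻¹ := by
    intro x y hxy v hv
    have h1 : f (y⁻¹ * x) = 1 := by rw [map_mul, map_inv, hxy, inv_mul_cancel]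
    have h2 := hk _ h1 v hv
    calc x * v * x⁻¹ = y * ((y⁻¹ * x) * v) * x⁻¹ := by group
      _ = y * (v * (y⁻¹ * x)) * x⁻¹ := by rw [h2]
      _ = y * v * y⁻¹ := by group
  let cj : E → (N →* N) := fun e => (MulAut.conjNormal (H := N) e).toMonoidHom
  have hcj : ∀ e (v : N), ((cj e v : N) : E) = e * v * e⁻¹ := fun e v => MulAut.conjNormal_apply e v
  let θ : (L → ZMod p) → N := fun w => ∏ g : L, (cj (s g) n₀') ^ (w g).val
  have hpN : ∀ v : N, v ^ p = 1 := fun v => Subtype.ext (hpow v v.2)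
  have hθadd : ∀ w w', θ (fun g => w g + w' g) = θ w * θ w' := by
    intro w w'
    change ∏ g : L, _ = (∏ g : L, _) * ∏ g : L, _
    rw [← Finset.prod_mul_distrib]
    refine Finset.prod_congr rfl fun g _ => ?_
    rw [ZMod.val_add, ← pow_eq_pow_mod _ (hpN _), pow_add]
  have hθeq : ∀ (e : E) (w : L → ZMod p), θ (fun g => w ((f e)⁻¹ * g)) = cj e (θ w) := by
    intro e w
    change ∏ g : L, _ = cj e (∏ g : L, _)
    rw [map_prod]
    refine (Fintype.prod_equiv (Equiv.mulLeft (f e)) _ _ ?_).symm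
    intro g
    rw [map_pow]
    change cj e (cj (s g) n₀') ^ _ = (cj (s (f e * g)) n₀') ^ (w ((f e)⁻¹ * (f e * g))).val
    rw [inv_mul_cancel_left]
    congr 1
    apply Subtype.ext
    rw [hcj, hcj, hcj]
    have h1 := hconj (e * s g) (s (f e * g)) (by rw [map_mul, hs, hs]) n₀' n₀'.2
    rw [← h1]
    group
  have hθsurj : ∀ v : N, ∃ w, θ w = v := by
    let I : Subgroup E :=
      { carrier := {x | ∃ w, (θ w : E) = x}
        one_mem' := by
          refine ⟨fun _ => 0, ?_⟩
          have h1 := hθadd (fun _ => 0) (fun _ => 0)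
          simp only [add_zero] at h1
          rw [mul_eq_left.1 h1.symm]
          rfl
        mul_mem' := by
          rintro _ _ ⟨w, rfl⟩ ⟨w', rfl⟩
          exact ⟨_, by rw [hθadd w w']; rfl⟩
        inv_mem' := by
          rintro _ ⟨w, rfl⟩
          refine ⟨fun g => - w g, ?_⟩
          have h0 : θ (fun _ => 0) = 1 := by
            have h1 := hθadd (fun _ => 0) (fun _ => 0)
            simp only [add_zero] at h1
            exact mul_eq_left.1 h1.symm
          have h1 := hθadd (fun g => - w g) w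
          simp only [neg_add_cancel] at h1
          rw [h0] at h1
          rw [eq_inv_of_mul_eq_one_left h1.symm]
          rfl }
    have hI : I.Normal := by
      constructor
      rintro _ ⟨w, rfl⟩ e
      exact ⟨_, by rw [hθeq e w, hcj]⟩
    have hIN : I ≤ N := by
      rintro _ ⟨w, rfl⟩
      exact (θ w).2
    rcases hch.min I hI bot_le hIN with h1 | h1
    · exfalso
      apply hn₀
      have h2 : θ (fun g => if g = 1 then 1 else 0) = n₀' := by
        change ∏ g : L, _ = _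
        rw [Finset.prod_eq_single 1]
        · simp only [if_true]
          have : Fact (1 < p) := ⟨hp.out.one_lt⟩
          rw [ZMod.val_one, pow_one]
          apply Subtype.ext
          rw [hcj]
          have h3 := hconj (s 1) 1 (by rw [hs, map_one]) n₀' n₀'.2
          rw [h3]
          group
        · intro b _ hb
          simp only [if_neg hb]
          rw [ZMod.val_zero, pow_zero]
        · intro h
          exact absurd (Finset.mem_univ _) h
      have h3 : (n₀' : E) ∈ I := ⟨_, by rw [h2]⟩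
      rw [h1] at h3
      exact Subtype.ext h3
    · intro v
      have : (v : E) ∈ I := by rw [h1]; exact v.2
      obtain ⟨w, hw⟩ := this
      exact ⟨w, Subtype.ext hw⟩
  -- the big group
  let T : Subgroup (AL p L × E) :=
    { carrier := {x | x.1.l = f x.2}
      one_mem' := by
        change (1 : L) = f 1
        rw [map_one]
      mul_mem' := by
        intro x y hx hy
        change x.1.l * y.1.l = f (x.2 * y.2)
        rw [map_mul, show x.1.l = f x.2 from hx, show y.1.l = f y.2 from hy]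
      inv_mem' := by
        intro x hx
        change (x.1.l)⁻¹ = f (x.2⁻¹)
        rw [map_inv, show x.1.l = f x.2 from hx] }
  let g : T →* E := MonoidHom.mk' (fun x => (θ x.1.1.a : E) * r x.1.2) (by
    intro x y
    change (θ (fun g => x.1.1.a g + y.1.1.a (x.1.1.l⁻¹ * g)) : E) * r (x.1.2 * y.1.2)
      = (θ x.1.1.a : E) * r x.1.2 * ((θ y.1.1.a : E) * r y.1.2)
    have hx : x.1.1.l = f x.1.2 := x.2
    rw [hθadd, map_mul, hx, hθeq, Subgroup.coe_mul, hcj, hr5 _ _ (θ y.1.1.a).2]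
    group)
  refine hF.r0hom (T := T) ((MonoidHom.fst _ _).comp T.subtype)
    ((QuotientGroup.mk' N).comp ((MonoidHom.snd _ _).comp T.subtype)) g ?_ ?_ ?_ hL hEN ?_
  · intro x
    exact ⟨⟨(x, s x.l), (hs x.l).symm⟩, rfl⟩
  · intro x
    obtain ⟨e, rfl⟩ := QuotientGroup.mk_surjective x
    exact ⟨⟨(⟨0, f e⟩, e), rfl⟩, rfl⟩
  · intro e
    obtain ⟨w, hw⟩ := hθsurj ⟨e * (r e)⁻¹, hr2 e⟩
    refine ⟨⟨(⟨w, f (r e)⟩, r e), rfl⟩, ?_⟩
    change (θ w : E) * r (r e) = e
    rw [hw, hr3 _ (hr1 e)]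
    change e * (r e)⁻¹ * r e = e
    group
  · rintro ⟨⟨x, e⟩, hxe⟩ h1 h2
    change x = 1 at h1
    subst h1
    have h3 : e ∈ N := (QuotientGroup.eq_one_iff e).1 h2
    change (θ (fun _ => 0) : E) * r e = 1
    have h0 : θ (fun _ => 0) = 1 := by
      have h1 := hθadd (fun _ => 0) (fun _ => 0)
      simp only [add_zero] at h1
      exact mul_eq_left.1 h1.symm
    rw [h0, hr4 e h3, mul_one]
    rfl

theorem Pext (hF : Fmn F) (hS : Sat F) [hp : Fact p.Prime] (n : ℕ) : ∀ (E L : Type) [Group E]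
    [Group L] [Finite E] (f : E →* L), Nat.card E = n → Surjective f → IsPGroup p f.ker →
    Fp F p L → F E := by
  induction n using Nat.strong_induction_on with
  | _ n ih =>
    intro E L _ _ _ f hn hf hker hL
    have : Finite L := Finite.of_surjective f hf
    by_cases hbot : f.ker = ⊥
    · have hinj : Injective f := (MonoidHom.ker_eq_bot_iff f).1 hbot
      exact hF.iso (MulEquiv.ofBijective f ⟨hinj, hf⟩).symm (Fp_le hF hL)
    · obtain ⟨N, hNk, hch⟩ := exists_min f.ker inferInstance hbot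
      have hN := hch.norR
      have hnil : Group.IsNilpotent f.ker := hker.isNilpotent
      have hc := nil_cent_chief f.ker N ⊥ hnil hch
      have hcen : ∀ n ∈ f.ker, ∀ r ∈ N, n * r = r * n := by
        intro n hn r hr
        have := Subgroup.mem_bot.1 (hc n hn r hr)
        rw [commutatorElement_eq_one_iff_mul_comm] at this
        exact this.symm
      have hpow : ∀ a ∈ N, a ^ p = 1 := by
        intro a ha
        have h1 := chief_pow hch (fun a ha b hb => by
          rw [Subgroup.mem_bot, commutatorElement_eq_one_iff_mul_comm]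
          exact hcen a (hNk ha) b hb) p hp.out ?_ a ha
        · exact Subgroup.mem_bot.1 h1
        · rw [Subgroup.relIndex_bot_left]
          have hNp : IsPGroup p N := hker.to_le hNk
          obtain ⟨k, hk⟩ := (IsPGroup.iff_card).1 hNp
          rw [hk]
          refine dvd_pow_self p ?_
          rintro rfl
          rw [pow_zero, Subgroup.card_eq_one] at hk
          exact (bot_lt_iff_ne_bot.1 hch.lt) hk
      let f1 : E ⧸ N →* L := QuotientGroup.lift N f (fun x hx => hNk hx)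
      have hf1 : Surjective f1 := by
        intro y
        obtain ⟨x, rfl⟩ := hf y
        exact ⟨QuotientGroup.mk x, rfl⟩
      have hE1 : F (E ⧸ N) := by
        refine ih (Nat.card (E ⧸ N)) ?_ (E ⧸ N) L f1 rfl hf1 ?_ hL
        · rw [← hn, Subgroup.card_eq_card_quotient_mul_card_subgroup N]
          refine lt_mul_of_one_lt_right Nat.card_pos ?_
          exact (Subgroup.one_lt_card_iff_ne_bot _).2 (bot_lt_iff_ne_bot.1 hch.lt)
        · rintro ⟨x, hx⟩
          obtain ⟨e, rfl⟩ := QuotientGroup.mk_surjective x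
          have h1 : e ∈ f.ker := hx
          obtain ⟨k, hk⟩ := hker ⟨e, h1⟩
          refine ⟨k, Subtype.ext ?_⟩
          change ((e ^ p ^ k : E) : E ⧸ N) = 1
          have h2 : e ^ p ^ k = 1 := congrArg Subtype.val hk
          rw [h2]; rfl
      exact P4 hF hS N (fun a ha b hb => hcen a (hNk ha) b hb) hpow hch hE1 f hf
        (fun e he v hv => hcen e he v hv) hL

theorem AL_pow_l {L : Type} [Group L] (x : AL p L) (n : ℕ) : (x ^ n).l = x.l ^ n :=
  map_pow (AL.pr (p := p) (L := L)) x n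

theorem AL_pow_p {L : Type} [Group L] (x : AL p L) (hx : x.l = 1) : x ^ p = 1 := by
  have h1 : ∀ n : ℕ, (x ^ n).l = 1 := fun n => by rw [AL_pow_l, hx, one_pow]
  have h2 : ∀ n : ℕ, ∀ g, (x ^ n).a g = n * x.a g := by
    intro n
    induction n with
    | zero => intro g; rw [pow_zero, AL.one_a, Nat.cast_zero, zero_mul]
    | succ n ih =>
      intro g
      rw [pow_succ, AL.mul_a, ih, h1 n, inv_one, one_mul]
      push_cast
      ring
  ext g
  · rw [h2, AL.one_a, ZMod.natCast_self, zero_mul]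
  · rw [h1]; rfl

theorem P3 (hF : Fmn F) (hS : Sat F) [hp : Fact p.Prime] {L K : Type} [Group L] [Group K]
    [Finite L] (f : L →* K) (hf : Surjective f) (hker : IsPGroup p f.ker) (hK : Fp F p K) :
    Fp F p L := by
  refine Pext hF hS _ (AL p L) K (f.comp AL.pr) rfl (hf.comp (fun l => ⟨⟨0, l⟩, rfl⟩)) ?_ hK
  rintro ⟨x, hx⟩
  have h1 : x.l ∈ f.ker := hx
  obtain ⟨k, hk⟩ := hker ⟨x.l, h1⟩
  refine ⟨k + 1, Subtype.ext ?_⟩
  change x ^ p ^ (k + 1) = 1
  rw [pow_succ, pow_mul]
  apply AL_pow_p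
  rw [AL_pow_l]
  exact congrArg Subtype.val hk

end

end Pool.Agent.Helper476.T
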