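import Pool.Agent.Helper476.T4

set_option autoImplicit false
set_option linter.style.haveILetI false

namespace Pool.Agent.Helper476.T

open Function Subgroup
open Pool.Agent.Helper476.R (IsChief fcent nil_cent_chief chief_comm chief_pow mem_fcent)
open scoped commutatorElement

/-- a homomorphism defined on the subgroup `K` only, surjective from `K` -/
structure PH {L Y : Type} [Group L] [Group Y] (K : Subgroup L) (φ : L → Y) : Prop where
  mul : ∀ x ∈ K, ∀ y ∈ K, φ (x * y) = φ x * φ y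
  surj : ∀ y, ∃ x ∈ K, φ x = y

namespace PH

variable {L Y : Type} [Group L] [Group Y] {K : Subgroup L} {φ : L → Y}

theorem map_one (h : PH K φ) : φ 1 = 1 := by
  have h1 := h.mul 1 K.one_mem 1 K.one_mem
  rw [mul_one] at h1
  exact mul_eq_left.1 h1.symm

theorem map_inv (h : PH K φ) {x : L} (hx : x ∈ K) : φ x⁻¹ = (φ x)⁻¹ := by
  have h1 := h.mul x⁻¹ (K.inv_mem hx) x hx
  rw [inv_mul_cancel, h.map_one] at h1
  exact eq_inv_of_mul_eq_one_left h1.symm

theorem map_conj (h : PH K φ) {x y : L} (hx : x ∈ K) (hy : y ∈ K) :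
    φ (x * y * x⁻¹) = φ x * φ y * (φ x)⁻¹ := by
  rw [h.mul _ (K.mul_mem hx hy) _ (K.inv_mem hx), h.mul _ hx _ hy, h.map_inv hx]

/-- the associated homomorphism -/
def hom (h : PH K φ) : K →* Y := MonoidHom.mk' (fun x => φ x) (fun x y => h.mul x x.2 y y.2)

theorem hom_surj (h : PH K φ) : Surjective h.hom := by
  intro y
  obtain ⟨x, hx, rfl⟩ := h.surj y
  exact ⟨⟨x, hx⟩, rfl⟩

theorem of_hom (φ : K →* Y) (hφ : Surjective φ) :
    ∃ φ' : L → Y, PH K φ' ∧ ∀ x : K, φ' x = φ x := by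
  classical
  refine ⟨fun x => if h : x ∈ K then φ ⟨x, h⟩ else 1, ⟨?_, ?_⟩, ?_⟩
  · intro x hx y hy
    simp only [dif_pos hx, dif_pos hy, dif_pos (K.mul_mem hx hy)]
    rw [← _root_.map_mul]
    rfl
  · intro y
    obtain ⟨x, rfl⟩ := hφ y
    exact ⟨x, x.2, by simp only [dif_pos x.2]⟩
  · intro x
    simp only [dif_pos x.2]

theorem map_pow (h : PH K φ) {x : L} (hx : x ∈ K) (n : ℕ) : φ (x ^ n) = φ x ^ n :=
  _root_.map_pow h.hom ⟨x, hx⟩ n

end PH

/-- permutational wreath product -/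
@[ext] structure WR (T D L : Type) where
  d : T → D
  l : L

namespace WR

set_option linter.unusedSectionVars false

variable {T D L : Type} [Group L] [Group D] [MulAction L T]

instance : Mul (WR T D L) := ⟨fun x y => ⟨fun t => x.d t * y.d (x.l⁻¹ • t), x.l * y.l⟩⟩
instance : One (WR T D L) := ⟨⟨fun _ => 1, 1⟩⟩
instance : Inv (WR T D L) := ⟨fun x => ⟨fun t => (x.d (x.l • t))⁻¹, x.l⁻¹⟩⟩

@[simp] theorem mul_d (x y : WR T D L) (t : T) : (x * y).d t = x.d t * y.d (x.l⁻¹ • t) := rfl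
@[simp] theorem mul_l (x y : WR T D L) : (x * y).l = x.l * y.l := rfl
@[simp] theorem one_d (t : T) : (1 : WR T D L).d t = 1 := rfl
@[simp] theorem one_l : (1 : WR T D L).l = 1 := rfl
@[simp] theorem inv_d (x : WR T D L) (t : T) : (x⁻¹).d t = (x.d (x.l • t))⁻¹ := rfl
@[simp] theorem inv_l (x : WR T D L) : (x⁻¹).l = x.l⁻¹ := rfl

instance : Group (WR T D L) :=
  Group.ofLeftAxioms
    (by
      intro x y z
      ext t
      · simp only [mul_d, mul_l, mul_inv_rev, mul_smul, mul_assoc]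
      · simp only [mul_l, mul_assoc])
    (by
      intro x
      ext t
      · simp only [mul_d, one_d, one_l, inv_one, one_smul, one_mul]
      · simp only [mul_l, one_l, one_mul])
    (by
      intro x
      ext t
      · simp only [mul_d, inv_d, inv_l, inv_inv, one_d, inv_mul_cancel]
      · simp only [mul_l, inv_l, one_l, inv_mul_cancel])

instance [Finite L] [Finite D] [Finite T] : Finite (WR T D L) :=
  Finite.of_injective (β := (T → D) × L) (fun x => (x.d, x.l)) (by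
    intro x y h
    ext g
    · exact congrFun (congrArg Prod.fst h) g
    · exact congrArg Prod.snd h)

end WR

theorem CO {L Y D : Type} [Group L] [Group Y] [Group D] [Finite L] [Finite D] (K : Subgroup L)
    (φ : L → Y) (hφ : PH K φ) (π : D →* Y) (hπ : Surjective π) :
    ∃ (X : Type) (_ : Group X) (_ : Finite X) (f : X →* L) (ψ : X → D), Surjective f ∧
      PH (K.comap f) ψ ∧ (∀ x, f x ∈ K → π (ψ x) = φ (f x)) ∧
      (∀ x, f x = 1 → (∀ g, ψ (g * x * g⁻¹) = 1) → x = 1) ∧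
      (∀ u, π u = 1 → ∃ x, f x = 1 ∧ ψ x = u) := by
  classical
  let t₀ : L ⧸ K := ((1 : L) : L ⧸ K)
  let s : L ⧸ K → L := Function.update Quotient.out t₀ 1
  have hs : ∀ t : L ⧸ K, ((s t : L) : L ⧸ K) = t := by
    intro t
    by_cases h : t = t₀
    · subst h
      rw [show s t₀ = 1 from Function.update_self _ _ _]
    · rw [show s t = t.out from Function.update_of_ne h _ _]
      exact Quotient.out_eq t
  have hs0 : s t₀ = 1 := Function.update_self _ _ _
  let c : L → L ⧸ K → L := fun l t => (s t)⁻¹ * l * s (l⁻¹ • t)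
  have hc : ∀ l t, c l t ∈ K := by
    intro l t
    have h1 : ((s t : L) : L ⧸ K) = ((l * s (l⁻¹ • t) : L) : L ⧸ K) := by
      rw [hs]
      have h2 : ((l * s (l⁻¹ • t) : L) : L ⧸ K) = l • ((s (l⁻¹ • t) : L) : L ⧸ K) := rfl
      rw [h2, hs, smul_inv_smul]
    have h2 := QuotientGroup.eq.1 h1
    rwa [← mul_assoc] at h2
  have hcm : ∀ l l' t, c (l * l') t = c l t * c l' (l⁻¹ • t) := by
    intro l l' t
    change (s t)⁻¹ * (l * l') * s ((l * l')⁻¹ • t)
      = (s t)⁻¹ * l * s (l⁻¹ • t) * ((s (l⁻¹ • t))⁻¹ * l' * s (l'⁻¹ • l⁻¹ • t))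
    rw [mul_inv_rev, mul_smul]
    group
  have hc1 : ∀ t, c 1 t = 1 := by
    intro t
    change (s t)⁻¹ * 1 * s ((1 : L)⁻¹ • t) = 1
    rw [inv_one, one_smul, mul_one, inv_mul_cancel]
  have hK0 : ∀ k ∈ K, k⁻¹ • t₀ = t₀ := by
    intro k hk
    change ((k⁻¹ * 1 : L) : L ⧸ K) = ((1 : L) : L ⧸ K)
    rw [QuotientGroup.eq, mul_one, mul_one, inv_inv]
    exact hk
  have hc0 : ∀ k ∈ K, c k t₀ = k := by
    intro k hk
    change (s t₀)⁻¹ * k * s (k⁻¹ • t₀) = k
    rw [hK0 k hk, hs0, inv_one, one_mul, mul_one]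
  let X : Subgroup (WR (L ⧸ K) D L) :=
    { carrier := {x | ∀ t, π (x.d t) = φ (c x.l t)}
      one_mem' := by
        intro t
        rw [WR.one_d, WR.one_l, hc1, hφ.map_one, map_one]
      mul_mem' := by
        intro x y hx hy t
        rw [WR.mul_d, WR.mul_l, map_mul, hx, hy, hcm, hφ.mul _ (hc _ _) _ (hc _ _)]
      inv_mem' := by
        intro x hx t
        rw [WR.inv_d, WR.inv_l, map_inv, hx]
        have h1 := hcm x.l x.l⁻¹ (x.l • t)
        rw [inv_smul_smul, mul_inv_cancel, hc1] at h1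
        have h2 := hφ.mul _ (hc x.l (x.l • t)) _ (hc x.l⁻¹ t)
        rw [← h1, hφ.map_one] at h2
        exact (eq_inv_of_mul_eq_one_right h2.symm).symm }
  have : Finite (L ⧸ K) := inferInstance
  have hex : ∀ l : L, ∀ t, ∃ e : D, π e = φ (c l t) := fun l t => hπ _
  choose e he using hex
  let f : X →* L := MonoidHom.mk' (fun x => x.1.l) (fun _ _ => rfl)
  let ψ : X → D := fun x => x.1.d t₀
  have hψ : ∀ x : X, f x ∈ K → ∀ y : X, ψ (x * y) = ψ x * ψ y := by
    intro x hx y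
    change x.1.d t₀ * y.1.d (x.1.l⁻¹ • t₀) = x.1.d t₀ * y.1.d t₀
    rw [hK0 x.1.l hx]
  refine ⟨X, inferInstance, inferInstance, f, ψ, ?_, ⟨?_, ?_⟩, ?_, ?_, ?_⟩
  · intro l
    exact ⟨⟨⟨fun t => e l t, l⟩, fun t => he l t⟩, rfl⟩
  · intro x hx y _
    exact hψ x hx y
  · intro u
    obtain ⟨k, hk, hku⟩ := hφ.surj (π u)
    refine ⟨⟨⟨fun t => if t = t₀ then u else e k t, k⟩, ?_⟩, hk, ?_⟩
    · intro t
      by_cases h : t = t₀
      · subst h
        simp only [if_true]
        rw [hc0 k hk, hku]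
      · simp only [if_neg h]
        exact he k t
    · change (if t₀ = t₀ then u else e k t₀) = u
      rw [if_pos rfl]
  · intro x hx
    have h1 := x.2 t₀
    rw [hc0 x.1.l hx] at h1
    exact h1
  · intro x hx hg
    have h1 : x.1.l = 1 := hx
    apply Subtype.ext
    refine WR.ext ?_ h1
    funext t
    let l : L := (s t)⁻¹
    let g : X := ⟨⟨fun t => e l t, l⟩, fun t => he l t⟩
    have h2 : (e l t₀ * x.1.d (l⁻¹ • t₀)) * (e l (l • ((l * x.1.l)⁻¹ • t₀)))⁻¹ = 1 := hg g
    have h3 : (l⁻¹ • t₀ : L ⧸ K) = t := by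
      change (((s t)⁻¹⁻¹ * 1 : L) : L ⧸ K) = t
      rw [inv_inv, mul_one, hs]
    rw [h1, mul_one, smul_inv_smul, h3, mul_inv_eq_one, mul_eq_left] at h2
    exact h2
  · intro u hu
    refine ⟨⟨⟨fun t => if t = t₀ then u else 1, 1⟩, ?_⟩, rfl, ?_⟩
    · intro t
      rw [hc1, hφ.map_one]
      by_cases h : t = t₀
      · simp only [if_pos h]
        exact hu
      · simp only [if_neg h]
        exact map_one π
    · change (if t₀ = t₀ then u else 1) = u
      rw [if_pos rfl]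

end Pool.Agent.Helper476.T
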