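import Pool.Agent.Helper476.T5

set_option autoImplicit false
set_option linter.style.haveILetI false

namespace Pool.Agent.Helper476.T

open Function Subgroup
open Pool.Agent.Helper476.R (IsChief fcent nil_cent_chief chief_comm chief_pow mem_fcent)
open scoped commutatorElement

section

variable {F M H : ∀ (G : Type) [Group G], Prop} {p : ℕ}

/-- residual closure of a formation -/
theorem sepM (hM : Fmn M) {D : Type} [Group D] [Finite D]
    (h : ∀ d : D, d ≠ 1 → ∃ (Q : Type) (_ : Group Q) (q : D →* Q), Surjective q ∧ M Q ∧ q d ≠ 1) :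
    M D := by
  refine of_res_eq_bot hM ?_
  rw [eq_bot_iff]
  intro d hd
  rw [Subgroup.mem_bot]
  by_contra hne
  obtain ⟨Q, _, q, hq, hQ, hqd⟩ := h d hne
  exact hqd (res_le_ker hM q hq hQ hd)

theorem chief_el {G : Type} [Group G] [Finite G] {N : Subgroup G} (hch : IsChief N ⊥)
    [hp : Fact p.Prime] (hNp : IsPGroup p N) :
    (∀ a ∈ N, ∀ b ∈ N, a * b = b * a) ∧ (∀ a ∈ N, a ^ p = 1) := by
  have hN := hch.norR
  have hnil : Group.IsNilpotent N := hNp.isNilpotent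
  have hc := nil_cent_chief N N ⊥ hnil hch
  have hcen : ∀ n ∈ N, ∀ r ∈ N, n * r = r * n := by
    intro n hn r hr
    have := Subgroup.mem_bot.1 (hc n hn r hr)
    rw [commutatorElement_eq_one_iff_mul_comm] at this
    exact this.symm
  refine ⟨hcen, fun a ha => ?_⟩
  have h1 := chief_pow hch (fun a ha b hb => by
    rw [Subgroup.mem_bot, commutatorElement_eq_one_iff_mul_comm]
    exact hcen a ha b hb) p hp.out ?_ a ha
  · exact Subgroup.mem_bot.1 h1
  · rw [Subgroup.relIndex_bot_left]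
    obtain ⟨k, hk⟩ := (IsPGroup.iff_card).1 hNp
    rw [hk]
    refine dvd_pow_self p ?_
    rintro rfl
    rw [pow_zero, Subgroup.card_eq_one] at hk
    exact (bot_lt_iff_ne_bot.1 hch.lt) hk

/-- coinduction with a minimal normal kernel -/
theorem CO2 (hH : Fmn H) {L Y D : Type} [Group L] [Group Y] [Group D] [Finite L] [Finite D]
    (φ : L → Y) (hφ : PH (res H L) φ) (π : D →* Y) (hπ : Surjective π)
    (hch : IsChief π.ker ⊥) :
    ∃ (X : Type) (_ : Group X) (_ : Finite X) (f : X →* L) (ψ : X → D), Surjective f ∧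
      PH ((res H L).comap f) ψ ∧ (∀ x, f x ∈ res H L → π (ψ x) = φ (f x)) ∧
      (∀ x, f x = 1 → (∀ g, ψ (g * x * g⁻¹) = 1) → x = 1) ∧
      (∀ u, π u = 1 → ∃ x, f x = 1 ∧ ψ x = u) ∧
      (PH (res H X) ψ ∨ ∃ I : Subgroup D, I.Normal ∧ I ⊓ π.ker = ⊥ ∧ I ⊔ π.ker = ⊤) := by
  obtain ⟨X, _, _, f, ψ, hf, hψ, h1, h2, h3⟩ := CO (res H L) φ hφ π hπ
  refine ⟨X, inferInstance, inferInstance, f, ψ, hf, hψ, h1, h2, h3, ?_⟩
  have hle : res H X ≤ (res H L).comap f := fun x hx => res_mem hH f hf hx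
  let S : Subgroup D :=
    { carrier := {d | ∃ x ∈ res H X, ψ x = d}
      one_mem' := ⟨1, one_mem _, hψ.map_one⟩
      mul_mem' := by
        rintro _ _ ⟨x, hx, rfl⟩ ⟨y, hy, rfl⟩
        exact ⟨x * y, mul_mem hx hy, hψ.mul x (hle hx) y (hle hy)⟩
      inv_mem' := by
        rintro _ ⟨x, hx, rfl⟩
        exact ⟨x⁻¹, inv_mem hx, hψ.map_inv (hle hx)⟩ }
  have hS : S.Normal := by
    constructor
    rintro _ ⟨x, hx, rfl⟩ d
    obtain ⟨g, hg, rfl⟩ := hψ.surj d
    exact ⟨g * x * g⁻¹, (res_normal H X).conj_mem x hx g, hψ.map_conj hg (hle hx)⟩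
  have hSsup : S ⊔ π.ker = ⊤ := by
    rw [eq_top_iff]
    intro d _
    obtain ⟨l, hl, hld⟩ := hφ.surj (π d)
    obtain ⟨x, hx, rfl⟩ := res_lift hH f hf hl
    have h4 : π ((ψ x)⁻¹ * d) = 1 := by
      rw [map_mul, map_inv, h1 x hl, hld, inv_mul_cancel]
    have h5 : d = ψ x * ((ψ x)⁻¹ * d) := by group
    rw [h5]
    exact mul_mem (Subgroup.mem_sup_left ⟨x, hx, rfl⟩) (Subgroup.mem_sup_right h4)
  rcases hch.min (S ⊓ π.ker) inferInstance bot_le inf_le_right with h4 | h4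
  · exact Or.inr ⟨S, hS, h4, hSsup⟩
  · left
    have h5 : S = ⊤ := by
      rw [← hSsup]
      exact (sup_eq_left.2 (h4 ▸ inf_le_left)).symm
    refine ⟨fun x hx y hy => hψ.mul x (hle hx) y (hle hy), fun d => ?_⟩
    have : d ∈ S := by rw [h5]; trivial
    exact this

/-- coinduction with a minimal normal noncentral kernel of prime power order -/
theorem CO3 (hH : Fmn H) [hp : Fact p.Prime] {L Y D : Type} [Group L] [Group Y] [Group D]
    [Finite L] [Finite D]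
    (φ : L → Y) (hφ : PH (res H L) φ) (π : D →* Y) (hπ : Surjective π)
    (hch : IsChief π.ker ⊥) (hpk : IsPGroup p π.ker) (hnc : ∃ u, π u = 1 ∧ ∃ d, d * u ≠ u * d) :
    ∃ (X : Type) (_ : Group X) (_ : Finite X) (f : X →* L) (ψ : X → D), Surjective f ∧
      PH ((res H L).comap f) ψ ∧ (∀ x, f x ∈ res H L → π (ψ x) = φ (f x)) ∧
      (∀ x, f x = 1 → (∀ g, ψ (g * x * g⁻¹) = 1) → x = 1) ∧
      (∀ u, π u = 1 → ∃ x, f x = 1 ∧ ψ x = u) ∧
      PH (res H X) ψ ∧ (∀ a ∈ f.ker, ∀ b ∈ f.ker, a * b = b * a) ∧ (∀ a ∈ f.ker, a ^ p = 1) := by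
  obtain ⟨X, _, _, f, ψ, hf, hψ, h1, h2, h3, h4⟩ := CO2 hH φ hφ π hπ hch
  obtain ⟨hab, hpow⟩ := chief_el hch hpk
  have hfk : ∀ x, f x = 1 → x ∈ (res H L).comap f := fun x hx => by
    rw [Subgroup.mem_comap, hx]
    exact one_mem _
  have hkk : ∀ x, f x = 1 → ψ x ∈ π.ker := by
    intro x hx
    rw [MonoidHom.mem_ker, h1 x (hfk x hx), hx, hφ.map_one]
  have hcj : ∀ x, f x = 1 → ∀ g, f (g * x * g⁻¹) = 1 := by
    intro x hx g
    rw [map_mul, map_mul, hx, map_inv, mul_one, mul_inv_cancel]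
  refine ⟨X, inferInstance, inferInstance, f, ψ, hf, hψ, h1, h2, h3, ?_, ?_, ?_⟩
  · rcases h4 with h4 | ⟨I, hI, hI1, hI2⟩
    · exact h4
    · exfalso
      obtain ⟨u, hu, d, hd⟩ := hnc
      apply hd
      have hdm : d ∈ I ⊔ π.ker := by rw [hI2]; trivial
      obtain ⟨i, hi, k, hk, rfl⟩ := Subgroup.mem_sup_of_normal_right.1 hdm
      have h5 : i * u * i⁻¹ * u⁻¹ ∈ I ⊓ π.ker := by
        refine ⟨?_, ?_⟩
        · have : i * u * i⁻¹ * u⁻¹ = i * (u * i⁻¹ * u⁻¹) := by group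
          rw [this]
          exact mul_mem hi (hI.conj_mem _ (inv_mem hi) u)
        · exact π.ker.mul_mem ((inferInstance : π.ker.Normal).conj_mem u hu i)
            (π.ker.inv_mem hu)
      rw [hI1, Subgroup.mem_bot, mul_inv_eq_one, mul_inv_eq_iff_eq_mul] at h5
      rw [mul_assoc, hab k hk u hu, ← mul_assoc, h5, mul_assoc]
  · intro a ha b hb
    rw [← mul_inv_eq_one, mul_inv_rev]
    have ha' : f a = 1 := ha
    have hb' : f b = 1 := hb
    apply h2
    · rw [map_mul, map_mul, map_mul, map_inv, map_inv, ha', hb']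
      group
    · intro g
      have h5 : g * (a * b * (a⁻¹ * b⁻¹)) * g⁻¹
          = (g * a * g⁻¹) * ((g * b * g⁻¹) * ((g * a * g⁻¹)⁻¹ * (g * b * g⁻¹)⁻¹)) := by group
      have ka := hfk _ (hcj a ha' g)
      have kb := hfk _ (hcj b hb' g)
      rw [h5, hψ.mul _ ka _ (mul_mem kb (mul_mem (inv_mem ka) (inv_mem kb))),
        hψ.mul _ kb _ (mul_mem (inv_mem ka) (inv_mem kb)), hψ.mul _ (inv_mem ka) _ (inv_mem kb),
        hψ.map_inv ka, hψ.map_inv kb, ← mul_assoc, hab _ (hkk _ (hcj a ha' g)) _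
        (hkk _ (hcj b hb' g))]
      group
  · intro a ha
    have ha' : f a = 1 := ha
    apply h2
    · rw [map_pow, ha', one_pow]
    · intro g
      rw [← conj_pow, hψ.map_pow (hfk _ (hcj a ha' g))]
      exact hpow _ (hkk _ (hcj a ha' g))

theorem N1 (hF : Fmn F) (hS : Sat F) (hM : Fmn M) (hH : Fmn H)
    (hFMH : ∀ (G : Type) [Group G] [Finite G], F G ↔ M (res H G))
    [hp : Fact p.Prime] {L Y D : Type} [Group L] [Group Y] [Group D]
    [Finite L] [Finite D] (hL : Fp F p L)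
    (φ : L → Y) (hφ : PH (res H L) φ) (π : D →* Y) (hπ : Surjective π)
    (hch : IsChief π.ker ⊥) (hpk : IsPGroup p π.ker) (hnc : ∃ u, π u = 1 ∧ ∃ d, d * u ≠ u * d) :
    M D := by
  obtain ⟨X, _, _, f, ψ, hf, hψ, h1, h2, h3, h4, h5, h6⟩ := CO3 hH φ hφ π hπ hch hpk hnc
  have hX : F X := by
    refine Pext hF hS _ X L f rfl hf ?_ hL
    rintro ⟨x, hx⟩
    refine ⟨1, Subtype.ext ?_⟩
    rw [pow_one]
    exact h6 x hx
  have h7 : M (res H X) := (hFMH X).1 hX
  exact hM.q _ D h4.hom h4.hom_surj h7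

end

end Pool.Agent.Helper476.T
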