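import Pool.Agent.Helper476.T6

set_option autoImplicit false
set_option linter.style.haveILetI false

namespace Pool.Agent.Helper476.T

open Function Subgroup
open Pool.Agent.Helper476.R (IsChief fcent nil_cent_chief chief_comm chief_pow mem_fcent)
open scoped commutatorElement

/-- translation of functions -/
def tr {p : ℕ} {Y : Type} [Group Y] (x : Y) (w : Y → ZMod p) : Y → ZMod p := fun g => w (x⁻¹ * g)

theorem tr_mul {p : ℕ} {Y : Type} [Group Y] (x y : Y) (w : Y → ZMod p) :
    tr (x * y) w = tr x (tr y w) := by
  funext g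
  simp only [tr, mul_inv_rev, mul_assoc]

theorem tr_one {p : ℕ} {Y : Type} [Group Y] (w : Y → ZMod p) : tr 1 w = w := by
  funext g
  simp only [tr, inv_one, one_mul]

theorem tr_add {p : ℕ} {Y : Type} [Group Y] (x : Y) (v w : Y → ZMod p) :
    tr x (v + w) = tr x v + tr x w := rfl

theorem tr_sub {p : ℕ} {Y : Type} [Group Y] (x : Y) (v w : Y → ZMod p) :
    tr x (v - w) = tr x v - tr x w := rfl

theorem conjW {p : ℕ} {Y : Type} [Group Y] (e v : AL p Y) (hv : v.l = 1) :
    (e * v * e⁻¹).a = tr e.l v.a := by
  funext g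
  rw [AL.mul_a, AL.mul_a, AL.inv_a, AL.mul_l, hv, mul_one, mul_inv_cancel_left]
  simp only [tr]
  ring

theorem powstab {p : ℕ} [hp : Fact p.Prime] {Y : Type} [Group Y] [Finite Y] (n : Y)
    (h : ∀ (D : Type) [Group D] [Finite D] (π : D →* Y), Surjective π → IsChief π.ker ⊥ →
      IsPGroup p π.ker → (∃ u, π u = 1 ∧ ∃ d, d * u ≠ u * d) →
      ∃ c, π c = n ∧ ∀ u, π u = 1 → c * u = u * c) : ∃ k, n ^ (p ^ k) = 1 := by
  classical
  have key : ∀ (m : ℕ) (W : AddSubgroup (Y → ZMod p)), Stab W → Nat.card W = m →
      ∃ k, ∀ w ∈ W, tr (n ^ (p ^ k)) w = w := by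
    intro m
    induction m using Nat.strong_induction_on with
    | _ m ih =>
      intro W hW hm
      by_cases hbot : W = ⊥
      · refine ⟨0, fun w hw => ?_⟩
        rw [hbot, AddSubgroup.mem_bot] at hw
        subst hw
        rfl
      let 𝒮 : Set (AddSubgroup (Y → ZMod p)) := {S | Stab S ∧ S < W}
      have hne : 𝒮.Nonempty := by
        refine ⟨⊥, ?_, bot_lt_iff_ne_bot.2 hbot⟩
        intro l w hw
        rw [AddSubgroup.mem_bot] at hw ⊢
        subst hw
        rfl
      obtain ⟨S, ⟨hS, hSW⟩, hmax⟩ := Set.Finite.exists_maximal (Set.toFinite 𝒮) hne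
      obtain ⟨k, hk⟩ := ih (Nat.card S) (by
        rw [← hm]
        exact Set.Finite.card_lt_card (Set.toFinite (W : Set (Y → ZMod p))) hSW) S hS rfl
      -- the section
      let Sg : Subgroup (SW W hW) :=
        { carrier := {x | x.1.l = 1 ∧ x.1.a ∈ S}
          one_mem' := ⟨rfl, S.zero_mem⟩
          mul_mem' := by
            rintro x y ⟨hx, hx'⟩ ⟨hy, hy'⟩
            refine ⟨by change x.1.l * y.1.l = 1; rw [hx, hy, mul_one], ?_⟩
            exact S.add_mem hx' (hS _ _ hy')
          inv_mem' := by
            rintro x ⟨hx, hx'⟩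
            refine ⟨by change x.1.l⁻¹ = 1; rw [hx, inv_one], ?_⟩
            exact S.neg_mem (hS.inv x.1.l hx') }
      have hSg : Sg.Normal := by
        constructor
        rintro x ⟨hx, hx'⟩ g
        refine ⟨?_, ?_⟩
        · change g.1.l * x.1.l * g.1.l⁻¹ = 1
          rw [hx, mul_one, mul_inv_cancel]
        · change (g.1 * x.1 * g.1⁻¹).a ∈ S
          rw [conjW _ _ hx]
          exact hS _ _ hx'
      let q := QuotientGroup.mk' Sg
      have hq : ∀ x, q x = 1 ↔ x ∈ Sg := fun x => QuotientGroup.eq_one_iff x
      let π : (SW W hW ⧸ Sg) →* Y := QuotientGroup.lift Sg (prW W hW) (fun x hx => hx.1)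
      have hπ : Surjective π := by
        intro y
        obtain ⟨x, hx⟩ := prW_surj W hW y
        exact ⟨q x, hx⟩
      have hπq : ∀ x, π (q x) = x.1.l := fun x => rfl
      let ι : ∀ w, w ∈ W → SW W hW := fun w hw => ⟨⟨w, 1⟩, hw⟩
      have hker : ∀ u, π u = 1 → ∃ w, ∃ hw : w ∈ W, u = q (ι w hw) := by
        intro u hu
        obtain ⟨x, rfl⟩ := QuotientGroup.mk_surjective u
        have h1 : x.1.l = 1 := hu
        refine ⟨x.1.a, x.2, ?_⟩
        have : x = ι x.1.a x.2 := Subtype.ext (AL.ext rfl h1)
        exact congrArg q this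
      have hch : IsChief π.ker ⊥ := by
        refine ⟨inferInstance, inferInstance, ?_, ?_⟩
        · rw [bot_lt_iff_ne_bot]
          intro h1
          obtain ⟨w, hw, hw'⟩ := SetLike.exists_of_lt hSW
          have h2 : q (ι w hw) ∈ π.ker := rfl
          rw [h1, Subgroup.mem_bot, hq] at h2
          exact hw' h2.2
        · intro T hT _ hTk
          let S' : AddSubgroup (Y → ZMod p) :=
            { carrier := {w | ∃ hw : w ∈ W, q (ι w hw) ∈ T}
              zero_mem' := ⟨W.zero_mem, T.one_mem⟩
              add_mem' := by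
                rintro v w ⟨hv, hv'⟩ ⟨hw, hw'⟩
                refine ⟨W.add_mem hv hw, ?_⟩
                have : ι (v + w) (W.add_mem hv hw) = ι v hv * ι w hw := by
                  apply Subtype.ext
                  ext g
                  · change v g + w g = v g + w (1⁻¹ * g)
                    rw [inv_one, one_mul]
                  · change (1 : Y) = 1 * 1
                    rw [mul_one]
                rw [this, map_mul]
                exact T.mul_mem hv' hw'
              neg_mem' := by
                rintro v ⟨hv, hv'⟩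
                refine ⟨W.neg_mem hv, ?_⟩
                have : ι (-v) (W.neg_mem hv) = (ι v hv)⁻¹ := by
                  apply Subtype.ext
                  ext g
                  · change - v g = - v (1 * g)
                    rw [one_mul]
                  · change (1 : Y) = 1⁻¹
                    rw [inv_one]
                rw [this, map_inv]
                exact T.inv_mem hv' }
          have hS' : Stab S' := by
            rintro l w ⟨hw, hw'⟩
            refine ⟨hW l w hw, ?_⟩
            let e : SW W hW := ⟨⟨0, l⟩, W.zero_mem⟩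
            have : ι (fun g => w (l⁻¹ * g)) (hW l w hw) = e * ι w hw * e⁻¹ := by
              apply Subtype.ext
              apply AL.ext
              · exact (conjW e.1 (ι w hw).1 rfl).symm
              · change (1 : Y) = l * 1 * l⁻¹
                rw [mul_one, mul_inv_cancel]
            rw [this, map_mul, map_mul, map_inv]
            exact hT.conj_mem _ hw' _
          have h1 : S ≤ S' := fun w hw => ⟨hSW.le hw, by
            have : q (ι w (hSW.le hw)) = 1 := (hq _).2 ⟨rfl, hw⟩
            rw [this]
            exact T.one_mem⟩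
          have h2 : S' ≤ W := fun w hw => hw.1
          by_cases h3 : S' = W
          · right
            apply le_antisymm hTk
            intro u hu
            obtain ⟨w, hw, rfl⟩ := hker u hu
            have : w ∈ S' := by rw [h3]; exact hw
            exact this.2
          · left
            rw [eq_bot_iff]
            intro u hu
            obtain ⟨w, hw, rfl⟩ := hker u (hTk hu)
            have h4 : w ∈ S' := ⟨hw, hu⟩
            have h5 : w ∈ S := hmax ⟨hS', lt_of_le_of_ne h2 h3⟩ h1 h4
            rw [Subgroup.mem_bot, hq]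
            exact ⟨rfl, h5⟩
      have hpk : IsPGroup p π.ker := by
        rintro ⟨u, hu⟩
        refine ⟨1, Subtype.ext ?_⟩
        change u ^ (p ^ 1) = 1
        obtain ⟨w, hw, rfl⟩ := hker u hu
        have : ι w hw ^ (p ^ 1) = 1 := by
          apply Subtype.ext
          rw [pow_one]
          exact AL_pow_p ⟨w, 1⟩ rfl
        rw [← map_pow, this, map_one]
      have h1 : ∃ e : SW W hW, e.1.l = n ∧ ∀ u, π u = 1 → q e * u = u * q e := by
        by_cases hnc : ∃ u, π u = 1 ∧ ∃ d, d * u ≠ u * d
        · obtain ⟨c, hc, hc'⟩ := h _ π hπ hch hpk hnc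
          obtain ⟨e, rfl⟩ := QuotientGroup.mk_surjective c
          exact ⟨e, hc, hc'⟩
        · push Not at hnc
          exact ⟨⟨⟨0, n⟩, W.zero_mem⟩, rfl, fun u hu => hnc u hu _⟩
      obtain ⟨e, he, hec⟩ := h1
      have h2 : ∀ w ∈ W, tr n w - w ∈ S := by
        intro w hw
        have h3 := hec (q (ι w hw)) rfl
        have h4 : q (e * ι w hw * e⁻¹ * (ι w hw)⁻¹) = 1 := by
          rw [map_mul, map_mul, map_mul, map_inv, map_inv, h3]
          group
        rw [hq] at h4
        have h5 := h4.2
        have h6 : (e * ι w hw * e⁻¹ * (ι w hw)⁻¹).1.a = tr n w - w := by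
          funext g
          change (e.1 * (ι w hw).1 * e.1⁻¹).a g
            + - w (1 * ((e.1.l * 1 * e.1.l⁻¹)⁻¹ * g)) = tr n w g - w g
          rw [conjW _ _ rfl, he, one_mul, mul_one, mul_inv_cancel, inv_one, one_mul]
          exact (sub_eq_add_neg _ _).symm
        rwa [h6] at h5
      have h3 : ∀ j : ℕ, ∀ w ∈ W, tr (n ^ j) w - w ∈ S := by
        intro j
        induction j with
        | zero =>
          intro w hw
          rw [pow_zero, tr_one, sub_self]
          exact S.zero_mem
        | succ j ihj =>
          intro w hw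
          have h4 : tr (n ^ (j + 1)) w - w = tr (n ^ j) (tr n w - w) + (tr (n ^ j) w - w) := by
            rw [pow_succ, tr_mul, tr_sub]
            abel
          rw [h4]
          exact S.add_mem (hS _ _ (h2 w hw)) (ihj w hw)
      refine ⟨k + 1, fun w hw => ?_⟩
      set m' := n ^ (p ^ k) with hm'
      set s₀ := tr m' w - w with hs₀
      have h4 : s₀ ∈ S := h3 _ w hw
      have h5 : tr m' s₀ = s₀ := hk _ h4
      have h6 : ∀ j : ℕ, tr (m' ^ j) w = w + (j : ℕ) • s₀ := by
        intro j
        induction j with
        | zero => rw [pow_zero, tr_one, zero_smul, add_zero]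
        | succ j ihj =>
          rw [pow_succ', tr_mul, ihj, tr_add]
          have h7 : tr m' ((j : ℕ) • s₀) = (j : ℕ) • tr m' s₀ := rfl
          rw [h7, h5, add_smul, one_smul]
          have h8 : tr m' w = w + s₀ := by rw [hs₀]; abel
          rw [h8]
          abel
      rw [pow_succ, pow_mul, ← hm', h6 p]
      funext g
      simp
  obtain ⟨k, hk⟩ := key _ ⊤ (fun _ _ _ => trivial) rfl
  refine ⟨k, ?_⟩
  by_contra hne
  have h1 := congrFun (hk (fun g => if g = 1 then 1 else 0) trivial) 1
  simp only [tr, if_true, mul_one] at h1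
  rw [if_neg (by
    intro h2
    exact hne (inv_eq_one.1 h2))] at h1
  exact zero_ne_one h1

theorem uniform_pow {p : ℕ} [hp : Fact p.Prime] {Y : Type} [Group Y] [Finite Y] {x : Y} {k : ℕ}
    (h : x ^ (p ^ k) = 1) : x ^ (p ^ Nat.card Y) = 1 := by
  obtain ⟨j, _, hj⟩ := (Nat.dvd_prime_pow hp.out).1 (orderOf_dvd_of_pow_eq_one h)
  apply orderOf_dvd_iff_pow_eq_one.1
  rw [hj]
  apply pow_dvd_pow
  have h1 : p ^ j ≤ Nat.card Y := by
    rw [← hj]
    exact Nat.le_of_dvd Nat.card_pos (orderOf_dvd_natCard x)
  exact (Nat.lt_pow_self hp.out.one_lt).le.trans h1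

end Pool.Agent.Helper476.T
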