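import Pool.Agent.Helper476.T7

set_option autoImplicit false
set_option linter.style.haveILetI false

namespace Pool.Agent.Helper476.T

open Function Subgroup
open Pool.Agent.Helper476.R (IsChief fcent nil_cent_chief chief_comm chief_pow mem_fcent)
open scoped commutatorElement

/-- every extension of `Y` by a noncentral minimal normal `p`-subgroup lies in `M` -/
def NN (M : ∀ (G : Type) [Group G], Prop) (p : ℕ) (Y : Type) [Group Y] : Prop :=
  ∀ (D : Type) [Group D] [Finite D] (π : D →* Y), Surjective π → IsChief π.ker ⊥ →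
    IsPGroup p π.ker → (∃ u, π u = 1 ∧ ∃ d, d * u ≠ u * d) → M D

section

variable {F M H : ∀ (G : Type) [Group G], Prop} {p : ℕ}

theorem C1core (hF : Fmn F) (hS : Sat F) (hM : Fmn M) (hH : Fmn H)
    (hFMH : ∀ (G : Type) [Group G] [Finite G], F G ↔ M (res H G))
    [hp : Fact p.Prime] (hp1 : Fp F p Unit)
    (hHp : ∀ (G : Type) [Group G] [Finite G], H G → Fp F p G)
    {L Y : Type} [Group L] [Group Y] [Finite L] [Finite Y]
    (φ : L → Y) (hφ : PH (res H L) φ) (hY : NN M p Y)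
    (hcore : ∀ x ∈ res H L, (∀ g, φ (g * x * g⁻¹) = 1) → x = 1) : Fp F p L := by
  have hfmn : Fmn (Fp F p) := Fp_fmn hF hS hp1
  have hZ : res (Fp F p) L ≤ res H L := res_le _ (hHp _ (res_quot hH L))
  have hA : ∀ z ∈ res (Fp F p) L, ∀ (D : Type) [Group D] [Finite D] (π : D →* Y), Surjective π →
      IsChief π.ker ⊥ → IsPGroup p π.ker → (∃ u, π u = 1 ∧ ∃ d, d * u ≠ u * d) →
      ∃ c, π c = φ z ∧ ∀ u, π u = 1 → c * u = u * c := by
    intro z hz D _ _ π hπ hch hpk hnc
    have hMD : M D := hY D π hπ hch hpk hnc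
    have hMY : M Y := hM.q D Y π hπ hMD
    obtain ⟨X, _, _, f, ψ, hf, hψ, h1, h2, h3, h4, h5, h6⟩ := CO3 hH φ hφ π hπ hch hpk hnc
    have hle : res H X ≤ (res H L).comap f := fun x hx => res_mem hH f hf hx
    have hcjm : ∀ g x : X, x ∈ res H X → g * x * g⁻¹ ∈ res H X :=
      fun g x hx => (res_normal H X).conj_mem x hx g
    have hMX : M (res H X) := by
      refine sepM hM ?_
      rintro ⟨x, hx⟩ hne
      by_cases hfx : f x = 1
      · have h7 : ∃ g, ψ (g * x * g⁻¹) ≠ 1 := by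
          by_contra hcon
          push Not at hcon
          exact hne (Subtype.ext (h2 x hfx hcon))
        obtain ⟨g, hg⟩ := h7
        refine ⟨D, inferInstance, MonoidHom.mk' (fun y : res H X => ψ (g * y * g⁻¹)) ?_, ?_, hMD,
          hg⟩
        · rintro ⟨a, ha⟩ ⟨b, hb⟩
          change ψ (g * (a * b) * g⁻¹) = ψ (g * a * g⁻¹) * ψ (g * b * g⁻¹)
          rw [← h4.mul _ (hcjm g a ha) _ (hcjm g b hb)]
          congr 1
          group
        · intro d
          obtain ⟨y, hy, rfl⟩ := h4.surj d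
          refine ⟨⟨g⁻¹ * y * g⁻¹⁻¹, hcjm g⁻¹ y hy⟩, ?_⟩
          change ψ (g * (g⁻¹ * y * g⁻¹⁻¹) * g⁻¹) = ψ y
          congr 1
          group
      · have h7 : ∃ l, φ (l * f x * l⁻¹) ≠ 1 := by
          by_contra hcon
          push Not at hcon
          exact hfx (hcore (f x) (hle hx) hcon)
        obtain ⟨l, hl⟩ := h7
        obtain ⟨g, rfl⟩ := hf l
        refine ⟨Y, inferInstance, MonoidHom.mk' (fun y : res H X => φ (f (g * y * g⁻¹))) ?_, ?_,
          hMY, ?_⟩
        · rintro ⟨a, ha⟩ ⟨b, hb⟩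
          change φ (f (g * (a * b) * g⁻¹)) = φ (f (g * a * g⁻¹)) * φ (f (g * b * g⁻¹))
          rw [← hφ.mul _ (hle (hcjm g a ha)) _ (hle (hcjm g b hb)), ← map_mul]
          congr 2
          group
        · intro y
          obtain ⟨l, hl, rfl⟩ := hφ.surj y
          obtain ⟨y, hy, rfl⟩ := res_lift hH f hf hl
          refine ⟨⟨g⁻¹ * y * g⁻¹⁻¹, hcjm g⁻¹ y hy⟩, ?_⟩
          change φ (f (g * (g⁻¹ * y * g⁻¹⁻¹) * g⁻¹)) = φ (f y)
          congr 2
          group
        · change φ (f (g * x * g⁻¹)) ≠ 1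
          rw [map_mul, map_mul, map_inv]
          exact hl
    have hFX : F X := (hFMH X).2 hMX
    let C : Subgroup X :=
      { carrier := {x | ∀ v ∈ f.ker, x * v = v * x}
        one_mem' := fun v _ => by rw [one_mul, mul_one]
        mul_mem' := by
          intro a b ha hb v hv
          rw [mul_assoc, hb v hv, ← mul_assoc, ha v hv, mul_assoc]
        inv_mem' := by
          intro a ha v hv
          rw [inv_mul_eq_iff_eq_mul, ← mul_assoc, ha v hv, mul_inv_cancel_right] }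
    have hC : C.Normal := by
      constructor
      intro c hc g v hv
      have h7 := hc (g⁻¹ * v * g⁻¹⁻¹) ((inferInstance : f.ker.Normal).conj_mem v hv g⁻¹)
      calc g * c * g⁻¹ * v = g * (c * (g⁻¹ * v * g⁻¹⁻¹)) * g⁻¹ := by group
        _ = g * ((g⁻¹ * v * g⁻¹⁻¹) * c) * g⁻¹ := by rw [h7]
        _ = v * (g * c * g⁻¹) := by group
    have hne : f.ker ≠ ⊥ := by
      intro hbot
      obtain ⟨u, hu, d, hd⟩ := hnc
      obtain ⟨x, hx, rfl⟩ := h3 u hu
      have : x ∈ f.ker := hx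
      rw [hbot, Subgroup.mem_bot] at this
      apply hd
      rw [this, hψ.map_one, mul_one, one_mul]
    have hP : Fp F p (X ⧸ C) := P1 hF hS f.ker h5 h6 hne (QuotientGroup.mk' C)
      (QuotientGroup.mk'_surjective C) (fun e => QuotientGroup.eq_one_iff e) hFX
    obtain ⟨x, hx, hxz⟩ := res_lift hfmn f hf hz
    have hxC : x ∈ C := res_le C hP hx
    have hzr : f x ∈ res H L := by rw [hxz]; exact hZ hz
    refine ⟨ψ x, by rw [h1 x hzr, hxz], ?_⟩
    intro u hu
    obtain ⟨v, hv, rfl⟩ := h3 u hu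
    have hvk : v ∈ (res H L).comap f := by
      rw [Subgroup.mem_comap, hv]
      exact one_mem _
    rw [← hψ.mul _ hzr _ hvk, ← hψ.mul _ hvk _ hzr, hxC v hv]
  have hB : ∀ z ∈ res (Fp F p) L, (φ z) ^ (p ^ Nat.card Y) = 1 := by
    intro z hz
    obtain ⟨k, hk⟩ := powstab (φ z) (fun D _ _ π h1 h2 h3 h4 => hA z hz D π h1 h2 h3 h4)
    exact uniform_pow hk
  have hPZ : IsPGroup p (QuotientGroup.mk' (res (Fp F p) L)).ker := by
    rintro ⟨z, hz⟩
    rw [QuotientGroup.ker_mk'] at hz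
    refine ⟨Nat.card Y, Subtype.ext ?_⟩
    change z ^ (p ^ Nat.card Y) = 1
    refine hcore _ ((res H L).pow_mem (hZ hz) _) ?_
    intro g
    have hgz : g * z * g⁻¹ ∈ res (Fp F p) L := (res_normal (Fp F p) L).conj_mem z hz g
    rw [← conj_pow, hφ.map_pow (hZ hgz)]
    exact hB _ hgz
  exact P3 hF hS (QuotientGroup.mk' (res (Fp F p) L)) (QuotientGroup.mk'_surjective _) hPZ
    (res_quot hfmn L)

/-- reduction modulo the core of the kernel -/
theorem coreRed (hH : Fmn H) {L Y : Type} [Group L] [Group Y] [Finite L]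
    (φ : L → Y) (hφ : PH (res H L) φ) (N : Subgroup L) [N.Normal]
    (hN : ∀ x ∈ N, x ∈ res H L ∧ φ x = 1) :
    ∃ φ' : L ⧸ N → Y, PH (res H (L ⧸ N)) φ' ∧ ∀ x ∈ res H L, φ' (QuotientGroup.mk' N x) = φ x := by
  classical
  let m := QuotientGroup.mk' N
  have hm : Surjective m := QuotientGroup.mk'_surjective N
  let φ' : L ⧸ N → Y := fun x => if h : ∃ y ∈ res H L, m y = x then φ h.choose else 1
  have key : ∀ x ∈ res H L, φ' (m x) = φ x := by
    intro x hx
    have hex : ∃ y ∈ res H L, m y = m x := ⟨x, hx, rfl⟩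
    have h1 : φ' (m x) = φ hex.choose := dif_pos hex
    obtain ⟨hc1, hc2⟩ := hex.choose_spec
    rw [h1]
    set y := hex.choose with hy
    have h2 : x⁻¹ * y ∈ N := QuotientGroup.eq.1 hc2.symm
    obtain ⟨h3, h4⟩ := hN _ h2
    have h5 : y = x * (x⁻¹ * y) := by group
    rw [h5, hφ.mul x hx _ h3, h4, mul_one]
  refine ⟨φ', ⟨?_, ?_⟩, key⟩
  · intro x hx y hy
    obtain ⟨x, hx', rfl⟩ := res_lift hH m hm hx
    obtain ⟨y, hy', rfl⟩ := res_lift hH m hm hy
    rw [← map_mul, key _ hx', key _ hy', key _ (mul_mem hx' hy'), hφ.mul _ hx' _ hy']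
  · intro y
    obtain ⟨x, hx, rfl⟩ := hφ.surj y
    exact ⟨m x, res_mem hH m hm hx, key x hx⟩

theorem C1 (hF : Fmn F) (hS : Sat F) (hM : Fmn M) (hH : Fmn H)
    (hFMH : ∀ (G : Type) [Group G] [Finite G], F G ↔ M (res H G))
    [hp : Fact p.Prime] (hp1 : Fp F p Unit)
    (hHp : ∀ (G : Type) [Group G] [Finite G], H G → Fp F p G)
    {L Y : Type} [Group L] [Group Y] [Finite L] [Finite Y]
    (φ : L → Y) (hφ : PH (res H L) φ) (hY : NN M p Y) :
    ∀ z ∈ res (Fp F p) L, φ z = 1 := by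
  let N : Subgroup L :=
    { carrier := {x | x ∈ res H L ∧ ∀ g, φ (g * x * g⁻¹) = 1}
      one_mem' := ⟨one_mem _, fun g => by rw [mul_one, mul_inv_cancel, hφ.map_one]⟩
      mul_mem' := by
        rintro a b ⟨ha, ha'⟩ ⟨hb, hb'⟩
        refine ⟨mul_mem ha hb, fun g => ?_⟩
        have h1 : g * (a * b) * g⁻¹ = (g * a * g⁻¹) * (g * b * g⁻¹) := by group
        rw [h1, hφ.mul _ ((res_normal H L).conj_mem a ha g) _ ((res_normal H L).conj_mem b hb g),
          ha', hb', mul_one]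
      inv_mem' := by
        rintro a ⟨ha, ha'⟩
        refine ⟨inv_mem ha, fun g => ?_⟩
        have h1 : g * a⁻¹ * g⁻¹ = (g * a * g⁻¹)⁻¹ := by group
        rw [h1, hφ.map_inv ((res_normal H L).conj_mem a ha g), ha', inv_one] }
  have hN : N.Normal := by
    constructor
    rintro x ⟨hx, hx'⟩ g
    refine ⟨(res_normal H L).conj_mem x hx g, fun g' => ?_⟩
    have h1 : g' * (g * x * g⁻¹) * g'⁻¹ = (g' * g) * x * (g' * g)⁻¹ := by group
    rw [h1]
    exact hx' _
  obtain ⟨φ', hφ', hφφ⟩ := coreRed hH φ hφ N (fun x hx => ⟨hx.1, by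
    have := hx.2 1
    rwa [one_mul, inv_one, mul_one] at this⟩)
  have h1 : Fp F p (L ⧸ N) := by
    refine C1core hF hS hM hH hFMH hp1 hHp φ' hφ' hY ?_
    intro x hx hx'
    obtain ⟨y, hy, rfl⟩ := res_lift hH (QuotientGroup.mk' N) (QuotientGroup.mk'_surjective N) hx
    refine (QuotientGroup.eq_one_iff y).2 ⟨hy, fun g => ?_⟩
    have h2 := hx' (QuotientGroup.mk' N g)
    rw [← map_inv, ← map_mul, ← map_mul, hφφ _ ((res_normal H L).conj_mem y hy g)] at h2
    exact h2
  intro z hz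
  have h2 : z ∈ N := res_le N h1 hz
  have h3 := h2.2 1
  rwa [one_mul, inv_one, mul_one] at h3

end

end Pool.Agent.Helper476.T
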