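import Pool.Agent.Helper476.T8

set_option autoImplicit false
set_option linter.style.haveILetI false

namespace Pool.Agent.Helper476.T

open Function Subgroup
open Pool.Agent.Helper476.R (IsChief fcent nil_cent_chief chief_comm chief_pow mem_fcent)
open scoped commutatorElement

/-- a Heisenberg type group -/
@[ext] structure HM (q m : ℕ) where
  x : Fin m → ZMod q
  y : Fin m → ZMod q
  i : ZMod q

namespace HM

variable {q m : ℕ}

instance : Mul (HM q m) := ⟨fun a b => ⟨a.x + b.x, a.y + b.y + a.i • b.x, a.i + b.i⟩⟩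
instance : One (HM q m) := ⟨⟨0, 0, 0⟩⟩
instance : Inv (HM q m) := ⟨fun a => ⟨- a.x, - a.y + a.i • a.x, - a.i⟩⟩

@[simp] theorem mul_x (a b : HM q m) : (a * b).x = a.x + b.x := rfl
@[simp] theorem mul_y (a b : HM q m) : (a * b).y = a.y + b.y + a.i • b.x := rfl
@[simp] theorem mul_i (a b : HM q m) : (a * b).i = a.i + b.i := rfl
@[simp] theorem one_x : (1 : HM q m).x = 0 := rfl
@[simp] theorem one_y : (1 : HM q m).y = 0 := rfl
@[simp] theorem one_i : (1 : HM q m).i = 0 := rfl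
@[simp] theorem inv_x (a : HM q m) : (a⁻¹).x = - a.x := rfl
@[simp] theorem inv_y (a : HM q m) : (a⁻¹).y = - a.y + a.i • a.x := rfl
@[simp] theorem inv_i (a : HM q m) : (a⁻¹).i = - a.i := rfl

instance : Group (HM q m) :=
  Group.ofLeftAxioms
    (by
      intro a b c
      apply HM.ext
      · simp only [mul_x, add_assoc]
      · simp only [mul_x, mul_y, mul_i, smul_add, add_smul]
        abel
      · simp only [mul_i, add_assoc])
    (by
      intro a
      apply HM.ext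
      · simp only [mul_x, one_x, zero_add]
      · simp only [mul_y, one_y, one_i, zero_add, zero_smul, add_zero]
      · simp only [mul_i, one_i, zero_add])
    (by
      intro a
      apply HM.ext
      · simp only [mul_x, inv_x, one_x, neg_add_cancel]
      · simp only [mul_y, inv_y, inv_i, one_y, neg_smul]
        abel
      · simp only [mul_i, inv_i, one_i, neg_add_cancel])

instance [NeZero q] : Finite (HM q m) :=
  Finite.of_injective (β := (Fin m → ZMod q) × (Fin m → ZMod q) × ZMod q)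
    (fun a => (a.x, a.y, a.i)) (by
    intro a b h
    have h1 := congrArg Prod.fst h
    have h2 := congrArg (fun t => t.2.1) h
    have h3 := congrArg (fun t => t.2.2) h
    exact HM.ext h1 h2 h3)

/-- the projection to the last coordinate -/
def pr : HM q m →* Multiplicative (ZMod q) where
  toFun a := Multiplicative.ofAdd a.i
  map_one' := rfl
  map_mul' _ _ := rfl

theorem pr_surj : Surjective (pr (q := q) (m := m)) := fun i => ⟨⟨0, 0, i.toAdd⟩, rfl⟩

theorem comm_eq (v : Fin m → ZMod q) (s : HM q m) (hs : s.i = 1) :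
    (⟨v, 0, 0⟩ : HM q m) * s * (⟨v, 0, 0⟩ : HM q m)⁻¹ * s⁻¹ = ⟨0, -v, 0⟩ := by
  rw [mul_inv_eq_iff_eq_mul, mul_inv_eq_iff_eq_mul]
  apply HM.ext
  · simp only [mul_x]
    abel
  · simp only [mul_x, mul_y, mul_i, hs, zero_smul, one_smul, zero_add, add_zero]
    abel
  · simp only [mul_i, zero_add, add_zero]

end HM

section

variable {H : ∀ (G : Type) [Group G], Prop}

/-- internal direct products: section of the quotient map -/
theorem dp_section {D Y : Type} [Group D] [Group Y] (π : D →* Y) (hπ : Surjective π)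
    (I : Subgroup D) (h1 : I ⊓ π.ker = ⊥) (h2 : I ⊔ π.ker = ⊤) :
    ∃ j : Y →* D, (∀ y, π (j y) = y) ∧ ∀ y, j y ∈ I := by
  let r : I →* Y := π.comp I.subtype
  have hr : Bijective r := by
    constructor
    · rw [← MonoidHom.ker_eq_bot_iff, eq_bot_iff]
      rintro ⟨x, hx⟩ hx'
      have h3 : x ∈ I ⊓ π.ker := ⟨hx, hx'⟩
      rw [h1] at h3
      exact Subtype.ext h3
    · intro y
      obtain ⟨d, rfl⟩ := hπ y
      have hd : d ∈ I ⊔ π.ker := by rw [h2]; trivial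
      obtain ⟨i, hi, k, hk, rfl⟩ := Subgroup.mem_sup_of_normal_right.1 hd
      refine ⟨⟨i, hi⟩, ?_⟩
      change π i = π (i * k)
      rw [map_mul, show π k = 1 from hk, mul_one]
  let e := MulEquiv.ofBijective r hr
  refine ⟨I.subtype.comp e.symm.toMonoidHom, fun y => ?_, fun y => (e.symm y).2⟩
  exact e.apply_symm_apply y

theorem dp_comm {D : Type} [Group D] (I A : Subgroup D) (hI : I.Normal) (hA : A.Normal)
    (h1 : I ⊓ A = ⊥) : ∀ a ∈ A, ∀ i ∈ I, a * i = i * a := by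
  intro a ha i hi
  have h5 : a * i * a⁻¹ * i⁻¹ ∈ I ⊓ A := by
    refine ⟨I.mul_mem (hI.conj_mem i hi a) (I.inv_mem hi), ?_⟩
    have : a * i * a⁻¹ * i⁻¹ = a * (i * a⁻¹ * i⁻¹) := by group
    rw [this]
    exact A.mul_mem ha (hA.conj_mem _ (A.inv_mem ha) i)
  rw [h1, Subgroup.mem_bot, mul_inv_eq_one, mul_inv_eq_iff_eq_mul] at h5
  exact h5

theorem mkLift (hH : Fmn H) {L Y D X : Type} [Group L] [Group Y] [Group D] [Group X] [Finite X]
    (φ : L → Y) (hφ : PH (res H L) φ) (π : D →* Y) (I : Subgroup D)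
    (hcomm : ∀ a ∈ π.ker, ∀ i ∈ I, a * i = i * a) (j : Y →* D) (hj : ∀ y, π (j y) = y)
    (hjI : ∀ y, j y ∈ I) (f : X →* L) (hf : Surjective f) (Λ : X → D)
    (hΛ : ∀ x ∈ res H X, ∀ y ∈ res H X, Λ (x * y) = Λ x * Λ y) (hΛA : ∀ x ∈ res H X, π (Λ x) = 1)
    (hs : ∀ a, π a = 1 → ∃ x ∈ res H X, φ (f x) = 1 ∧ Λ x = a) :
    ∃ ψ : X → D, PH (res H X) ψ ∧ ∀ x ∈ res H X, π (ψ x) = φ (f x) := by
  have hle : ∀ x ∈ res H X, f x ∈ res H L := fun x hx => res_mem hH f hf hx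
  refine ⟨fun x => Λ x * j (φ (f x)), ⟨?_, ?_⟩, ?_⟩
  · intro x hx y hy
    change Λ (x * y) * j (φ (f (x * y))) = Λ x * j (φ (f x)) * (Λ y * j (φ (f y)))
    rw [hΛ x hx y hy, map_mul f, hφ.mul _ (hle x hx) _ (hle y hy), map_mul j]
    have h1 := hcomm (Λ y) (hΛA y hy) (j (φ (f x))) (hjI _)
    calc Λ x * Λ y * (j (φ (f x)) * j (φ (f y)))
        = Λ x * (Λ y * j (φ (f x))) * j (φ (f y)) := by group
      _ = Λ x * (j (φ (f x)) * Λ y) * j (φ (f y)) := by rw [h1]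
      _ = _ := by group
  · intro d
    obtain ⟨l, hl, hl'⟩ := hφ.surj (π d)
    obtain ⟨x₀, hx₀, rfl⟩ := res_lift hH f hf hl
    have h1 : π (d * (j (π d))⁻¹ * (Λ x₀)⁻¹) = 1 := by
      rw [map_mul, map_mul, map_inv, map_inv, hj, hΛA x₀ hx₀, inv_one, mul_one, mul_inv_cancel]
    obtain ⟨x₁, hx₁, h2, h3⟩ := hs _ h1
    refine ⟨x₁ * x₀, mul_mem hx₁ hx₀, ?_⟩
    change Λ (x₁ * x₀) * j (φ (f (x₁ * x₀))) = d
    rw [hΛ _ hx₁ _ hx₀, h3, map_mul f, hφ.mul _ (hle _ hx₁) _ (hle _ hx₀), h2, one_mul, hl']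
    group
  · intro x hx
    change π (Λ x * j (φ (f x))) = φ (f x)
    rw [map_mul, hΛA x hx, one_mul, hj]

theorem LL2a (hH : Fmn H) {L Y D T : Type} [Group L] [Group Y] [Group D] [Group T] [Finite L]
    [Finite D] [Finite T] (φ : L → Y) (hφ : PH (res H L) φ) (π : D →* Y) (hπ : Surjective π)
    (hch : IsChief π.ker ⊥) (I : Subgroup D) (hI : I.Normal) (h1 : I ⊓ π.ker = ⊥)
    (h2 : I ⊔ π.ker = ⊤) (χ : T → π.ker) (hχ : PH (res H T) χ)
    (hna : ∃ a ∈ π.ker, ∃ b ∈ π.ker, a * b ≠ b * a) :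
    ∃ (X : Type) (_ : Group X) (_ : Finite X) (f : X →* L) (ψ : X → D), Surjective f ∧
      PH (res H X) ψ ∧ ∀ x ∈ res H X, π (ψ x) = φ (f x) := by
  obtain ⟨j, hj, hjI⟩ := dp_section π hπ I h1 h2
  have hcomm := dp_comm I π.ker hI inferInstance h1
  let f : L × T →* L := MonoidHom.fst L T
  let g : L × T →* T := MonoidHom.snd L T
  have hf : Surjective f := fun l => ⟨(l, 1), rfl⟩
  have hg : Surjective g := fun t => ⟨(1, t), rfl⟩
  have hf' : ∀ x ∈ res H (L × T), x.1 ∈ res H L := fun x hx => res_mem hH f hf hx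
  have hg' : ∀ x ∈ res H (L × T), x.2 ∈ res H T := fun x hx => res_mem hH g hg hx
  let B : Subgroup D :=
    { carrier := {a | ∃ x ∈ res H (L × T), φ x.1 = 1 ∧ (χ x.2 : D) = a}
      one_mem' := ⟨1, one_mem _, hφ.map_one, by
        change ((χ 1 : π.ker) : D) = 1
        rw [hχ.map_one]; rfl⟩
      mul_mem' := by
        rintro _ _ ⟨x, hx, hx', rfl⟩ ⟨y, hy, hy', rfl⟩
        refine ⟨x * y, mul_mem hx hy, ?_, ?_⟩
        · change φ (x.1 * y.1) = 1
          rw [hφ.mul _ (hf' x hx) _ (hf' y hy), hx', hy', mul_one]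
        · change ((χ (x.2 * y.2) : π.ker) : D) = _
          rw [hχ.mul _ (hg' x hx) _ (hg' y hy)]
          rfl
      inv_mem' := by
        rintro _ ⟨x, hx, hx', rfl⟩
        refine ⟨x⁻¹, inv_mem hx, ?_, ?_⟩
        · change φ (x.1⁻¹) = 1
          rw [hφ.map_inv (hf' x hx), hx', inv_one]
        · change ((χ (x.2⁻¹) : π.ker) : D) = _
          rw [hχ.map_inv (hg' x hx)]
          rfl }
  have hBA : B ≤ π.ker := by
    rintro _ ⟨x, hx, hx', rfl⟩
    exact (χ x.2).2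
  have hB : B.Normal := by
    constructor
    rintro b hb d
    have hbA := hBA hb
    obtain ⟨x, hx, hx', rfl⟩ := hb
    have hd : d ∈ π.ker ⊔ I := by rw [sup_comm, h2]; trivial
    obtain ⟨k, hk, i, hi, rfl⟩ := Subgroup.mem_sup_of_normal_right.1 hd
    obtain ⟨t, ht, ht'⟩ := hχ.surj ⟨k, hk⟩
    obtain ⟨y, hy, rfl⟩ := res_lift hH g hg ht
    have h3 : k * i * (χ x.2 : D) * (k * i)⁻¹ = k * (χ x.2 : D) * k⁻¹ := by
      rw [mul_assoc k i, ← hcomm _ hbA i hi]
      group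
    rw [h3]
    refine ⟨y * x * y⁻¹, (res_normal H _).conj_mem x hx y, ?_, ?_⟩
    · change φ (y.1 * x.1 * y.1⁻¹) = 1
      rw [hφ.map_conj (hf' y hy) (hf' x hx), hx', mul_one, mul_inv_cancel]
    · change ((χ (y.2 * x.2 * y.2⁻¹) : π.ker) : D) = _
      rw [hχ.map_conj (hg' y hy) (hg' x hx)]
      change ((χ y.2 : π.ker) : D) * _ * ((χ y.2 : π.ker) : D)⁻¹ = _
      have h4 : χ y.2 = ⟨k, hk⟩ := ht'
      rw [h4]
  have hBne : B ≠ ⊥ := by
    obtain ⟨a, ha, b, hb, hab⟩ := hna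
    intro hbot
    obtain ⟨t, ht, ht'⟩ := hχ.surj ⟨a, ha⟩
    obtain ⟨u, hu, hu'⟩ := hχ.surj ⟨b, hb⟩
    obtain ⟨x, hx, rfl⟩ := res_lift hH g hg ht
    have h3 : a * b * a⁻¹ * b⁻¹ ∈ B := by
      refine ⟨x * (((1 : L), u) * x⁻¹ * ((1 : L), u)⁻¹),
        mul_mem hx ((res_normal H _).conj_mem _ (inv_mem hx) _), ?_, ?_⟩
      · change φ (x.1 * (1 * x.1⁻¹ * 1⁻¹)) = 1
        rw [one_mul, inv_one, mul_one, mul_inv_cancel, hφ.map_one]
      · change ((χ (x.2 * (u * x.2⁻¹ * u⁻¹)) : π.ker) : D) = _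
        have hx2 := hg' x hx
        rw [hχ.mul _ hx2 _ (mul_mem (mul_mem hu (inv_mem hx2)) (inv_mem hu)),
          hχ.mul _ (mul_mem hu (inv_mem hx2)) _ (inv_mem hu), hχ.mul _ hu _ (inv_mem hx2),
          hχ.map_inv hx2, hχ.map_inv hu]
        have h4 : χ x.2 = ⟨a, ha⟩ := ht'
        rw [h4, hu']
        change a * (b * a⁻¹ * b⁻¹) = a * b * a⁻¹ * b⁻¹
        group
    rw [hbot, Subgroup.mem_bot, mul_inv_eq_one, mul_inv_eq_iff_eq_mul] at h3
    exact hab h3
  have hBeq : B = π.ker := by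
    rcases hch.min B hB bot_le hBA with h3 | h3
    · exact absurd h3 hBne
    · exact h3
  obtain ⟨ψ, hψ1, hψ2⟩ := mkLift hH φ hφ π I hcomm j hj hjI f hf (fun x => (χ x.2 : D))
    (fun x hx y hy => by
      change ((χ (x.2 * y.2) : π.ker) : D) = _
      rw [hχ.mul _ (hg' x hx) _ (hg' y hy)]
      rfl) (fun x _ => (χ x.2).2) (fun a ha => by
      have h3 : a ∈ B := by rw [hBeq]; exact ha
      obtain ⟨x, hx, hx', hx''⟩ := h3
      exact ⟨x, hx, hx', hx''⟩)
  exact ⟨L × T, inferInstance, inferInstance, f, ψ, hf, hψ1, hψ2⟩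

end

end Pool.Agent.Helper476.T
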